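import Pool.Agent.GQ.StF
import Pool.Agent.KGT.Asm
import Pool.Agent.GTH.Cls

/-!
# GQ, part F: closure properties of the rings with finitely generated K-groups
-/

set_option autoImplicit false

noncomputable section

namespace Pool.Agent.GQ

open CategoryTheory AlgebraicGeometry Pool.Agent.KQ Pool.Agent.KQG Pool.Agent.KTX Pool.Agent.GTH

universe u

theorem thm_ClK (hTHY : St_THY.{u}) : St_ClK.{u} := by
  intro K
  obtain ⟨G, e, h0, -, -⟩ := KGT.thm_G hTHY K ⊤
  have h : ∀ (R : Type) [CommRing R], GK K R ↔
      ∀ M : ℤ, SFG G (fun (G : Type u) _ => AddGroup.FG G) M R := by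
    intro R _
    constructor
    · intro h M n _
      cases n with
      | ofNat n =>
        have h1 : AddGroup.FG (K.K n (MA R)) := h n
        exact AddGroup.fg_of_surjective (f := (e n R).symm.toAddMonoidHom)
          (e n R).symm.surjective
      | negSucc n =>
        have : Subsingleton (G.T (Int.negSucc n) R) :=
          ⟨fun x y => (h0 n R x).trans (h0 n R y).symm⟩
        have : Finite (G.T (Int.negSucc n) R) := Finite.of_subsingleton
        infer_instance
    · intro h n
      have h1 : AddGroup.FG (G.T n R) := h n n le_rfl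
      exact AddGroup.fg_of_surjective (f := (e n R).toAddMonoidHom) (e n R).surjective
  have c : ∀ M : ℤ, Cls (fun R _ => SFG G (fun (G : Type u) _ => AddGroup.FG G) M R) :=
    fun M => cls_SFG G serre_fg M
  constructor
  · intro R S _ _ _ _ f h1
    rw [h] at h1 ⊢
    exact fun M => (c M).iso R S f (h1 M)
  · intro R _ _
    rw [h]
    exact fun M => (c M).zero R
  · intro R _ _ σ _ h1
    rw [h] at h1 ⊢
    exact fun M => (c M).mv R σ (h1 M)
  · intro R V _ _ _ _ s _ h1 h2
    rw [h] at h1 h2 ⊢
    exact fun M => (c M).away R V s (h1 M) (h2 M)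
  · intro R V _ _ _ _ s _ h1 h2
    rw [h] at h1 h2 ⊢
    exact fun M => (c M).of_away R V s (h1 M) (h2 M)
  · intro R V _ _ _ _ _ h1
    rw [h] at h1 ⊢
    exact fun M => (c M).of_lau R V (h1 M)

end Pool.Agent.GQ
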