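import Pool.Agent.GQ.Defs

/-!
# GQ: statements, part A: products, homotopy orbits, K-groups of exact categories with slender homology

Library: the theorems of FGK (`Pool/Agent/FGK/*.lean`, all statements in `FGK/StA.lean` to `StD.lean`) and
KQ (`import Pool.Agent.KQ.Core`) may be used; take them as hypotheses `h : St_X` or import the module.
-/

set_option autoImplicit false
set_option linter.unusedVariables false

noncomputable section

namespace Pool.Agent.GQ

open CategoryTheory Function Pool.Agent.KQ Pool.Agent.FGK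

universe u

/-! ### products and K-groups -/

/-- **FsSl.** `M[Y]` is slender if `M` and the homology of `Y` are.

Proof. (i) `M = const B`, `B` finitely generated: there is an exact sequence
`0 → ℤ^a → ℤ^b → B → 0` (with `ULift ℤ`); `(const ℤ^b)[Y]` is a finite direct sum of copies of `ZS Y`, so
slender (`St_AbEx` (8) by induction on `b`); `St_fsEx`, `St_AbEx` (10), (11). (ii) `M_m` finitely generated for
every `m`, `π`-conditions not needed: `M[Y]` is the diagonal of the bisimplicial abelian group with the rows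
`(const M_m)[Y]`; `St_AbReal` (6). (iii) downward induction on `c ≤ J + 1` for `c`-trivial `M`: for `c = J + 1` by
`St_fsConn` (3). `c ≤ J`: first let `c ≥ 1`. By `St_Eil` and `St_fsConn` (2) we may assume `M_m = 0` for `m < c` (the
Eilenberg subgroup of `M.gpo` is a simplicial abelian group). `St_Post`: `f : M.gpo → P.gpo` onto,
`P_m` finitely generated, kernel `K` `(c+1)`-trivial with `π_j(K) = π_j(M)` for `j > c`; `M → P` in `SAb`;
`St_fsEx` and `St_AbEx` (8): `K[Y]` slender by induction, `P[Y]` by (ii). `c = 0`: `0 → X → M → const π_0(M) → 0`, `X` is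
`1`-trivial with the same `π_j`, `j ≥ 1`, (i) and `c = 1`. -/
def St_FsSl : Prop := ∀ (J : ℕ) (M : SAb.{u}) (Y : SSt.{u}), (∀ j ≤ J, M.SlAt j) →
  (∀ j ≤ J, HSl Y j) → ∀ j ≤ J, (M.fs Y).SlAt j

/-- **PowSl.** Products and powers have slender homology.

Proof. `St_fsProd`: `ZS (Y × Y') = (ZS Y)[Y']`; `St_FsSl`. Powers: induction, `Y.pow (p+1) ≅ Y.pow p × Y`. -/
def St_PowSl : Prop :=
  (∀ (J : ℕ) (Y Y' : SSt.{u}), (∀ j ≤ J, HSl Y j) → (∀ j ≤ J, HSl Y' j) →
    ∀ j ≤ J, HSl (Y.prod Y') j) ∧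
  (∀ (Y : SSt.{u}) (p : ℕ), (∀ j, HSl Y j) → ∀ j, HSl (Y.pow p) j)

/-- **ClE.** The `κ`-fold construction and its powers have slender homology.

Proof. As `FGK.St_ClK` (`Pool/Agent/FGK/ClK.lean`), with `St_PowSl` for `κ = 1`. -/
def St_ClE : Prop := ∀ E : ExCat.{u}, (∀ j, HSl (obS.obj (Sd.obj E)) j) → ∀ κ : ℕ, 1 ≤ κ →
  ∀ p j : ℕ, HSl ((obS.obj ((itS Sd κ).obj E)).pow p) j

/-- **EFG.** If `ob S.E` has slender homology, then all `K_n E` are finitely generated.

Proof. As `FGK.St_KFG` (`Pool/Agent/FGK/KFG.lean`), with `St_ClE`. -/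
def St_EFG : Prop := ∀ E : ExCat.{u}, (∀ j, HSl (obS.obj (Sd.obj E)) j) → ∀ n : ℕ,
  AddGroup.FG (Kn n E)

/-! ### homotopy orbits -/

/-- **hOStr.** Homotopy orbits of strong equivariant maps, of subsets.

Proof. (1) `hO a` is the diagonal of the bisimplicial set with the rows
`{(c, y) : c ∈ (cocycles), y_i = c_ij y_j} ≅ (cocycles in degree l) × Y` (`y ↦ y_0`), the map is on rows
`id × f`; `KQ.all_StrRow`, `all_StrProd`. (2) `(hOs a A).S` is the `hO` of the restricted action on `A.S`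
(isomorphic); apply (1). -/
def St_hOStr : Prop :=
  (∀ {G : Type} [Group G] {Y Y' : SSt.{u}} (a : GAct G Y) (a' : GAct G Y') (f : Y ⟶ Y')
    (h : a.Eqv a' f), SSt.Strong f → SSt.Strong (hOmap a a' f h)) ∧
  (∀ {G : Type} [Group G] {Y Y' : SSt.{u}} (a : GAct G Y) (a' : GAct G Y') (f : Y ⟶ Y')
    (h : a.Eqv a' f) (A : SubS Y) (A' : SubS Y') (hA : a.Inv A) (hA' : a'.Inv A')
    (hf : ∀ n y, y ∈ A.s n → f.app n y ∈ A'.s n), SSt.Strong f →
    SSt.Strong (SubS.mapS f A A' hf) → ∃ π : ZR (hO a) (hOs a A) ⟶ ZR (hO a') (hOs a' A'),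
      SAb.Weq π)

/-- **hOSl.** Finitely many orbits with finite stabilizers in every degree.

Proof. `ZR (hO a) (hOs a A)` is the diagonal of the bisimplicial abelian group with the rows
`l ↦ ZR (cocycles_l × Y) (cocycles_l × A)`; exchange the directions: for fixed `n` the simplicial abelian group
`l ↦ ℤ[{(c, y) : c cocycle of degree l, y_i = c_ij y_j, y_i ∈ Y_n ∖ A_n}]` (`A` is invariant, so the operators
preserve the complement) is `ZS` of the nerve `N` of the action groupoid of `S = Y_n ∖ A_n`. Let `S₀ ⊆ S` be finite,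
meeting every orbit, and for every `y ∈ S` choose `g_y` with `g_y y ∈ S₀`. The part `N₀` of `N` with all `y_i ∈ S₀` is finite in
every degree (`{g | g y = y'}` is finite), and `N₀ → N` is strong (`KQ.all_StrHt`): retraction
`y_i ↦ g_{y_i} y_i`, `c_ij ↦ g_{y_i} c_ij g_{y_j}⁻¹`, homotopy: change only the vertices with `α i = true`. So
`ZS N` has slender homotopy groups (`St_SlFin` (2), `St_fsStrong`); `St_AbReal` (6). -/
def St_hOSl : Prop := ∀ {G : Type} [Group G] {Y : SSt.{u}} (a : GAct G Y) (A : SubS Y),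
  a.Inv A → (∀ n, ∃ T : Set (Y.obj n), T.Finite ∧ ∀ y, y ∉ A.s n →
    ∃ g, (a.act g).app n y ∈ T) →
  (∀ n y, y ∉ A.s n → {g : G | (a.act g).app n y = y}.Finite) →
  ∀ j, (ZR (hO a) (hOs a A)).SlAt j

/-- **hOOrb.** Free actions.

Proof. As in part (ii) of the proof of `FGK.St_Orb` (`Pool/Agent/FGK/Orb.lean`): the homomorphism
`(c, y) ↦ f y_0`; for fixed `n` the simplicial set `l ↦ {(c, y) | y_i ∈ Y_n ∖ A_n}` maps to the constant simplicial
set `Z_n ∖ B_n` by a homotopy equivalence: choose `s z ∉ A` over every `z ∉ B`; section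
`z ↦ (s z, .., s z)`, homotopy: change the vertices with `α i = true` to `s (f y_i)` (`c_ij` is determined by `y_i`,
`y_j` as the action is free). -/
def St_hOOrb : Prop := ∀ {G : Type} [Group G] {Y Z : SSt.{u}} (a : GAct G Y) (A : SubS Y)
  (B : SubS Z) (f : Y ⟶ Z), (∀ g, a.act g ≫ f = f) → (∀ n y, f.app n y ∈ B.s n ↔ y ∈ A.s n) →
  (∀ n z, z ∉ B.s n → ∃ y, f.app n y = z) →
  (∀ n y y', y ∉ A.s n → y' ∉ A.s n → f.app n y = f.app n y' → ∃ g, (a.act g).app n y = y') →
  (∀ n y g, y ∉ A.s n → (a.act g).app n y = y → g = 1) →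
  ∃ π : ZR (hO a) (hOs a A) ⟶ ZR Z B, SAb.Weq π

/-- **hOFst.** A factor of the group which acts trivially.

Proof. The maps `hO a → hO a.fst → hO a` (`c ↦ (c, 1)`, `(c, c') ↦ c`) respect the subsets; the composite is the
identity, so `ZR (hO a) (hOs a A)` is a retract of `ZR (hO a.fst) (hOs a.fst A)`. -/
def St_hOFst : Prop := ∀ {G C : Type} [Group G] [Group C] {Y : SSt.{u}} (a : GAct G Y)
  (A : SubS Y) (j : ℕ), (ZR (hO (a.fst (C := C))) (hOs (a.fst (C := C)) A)).SlAt j →
    (ZR (hO a) (hOs a A)).SlAt j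

/-- **hOTriv.** Homotopy orbits of a `c`-trivial pair are `c`-trivial.

Proof. Rows `l`: `(ZR Y A)` with coefficients in the cocycles of degree `l`: `(ZR Y A).fs (const ..)`,
`St_fsConn` (3), `St_AbReal` (4). (See the proof of `FGK.St_Orb`.) -/
def St_hOTriv : Prop := ∀ (c : ℕ) {G : Type} [Group G] {Y : SSt.{u}} (a : GAct G Y) (A : SubS Y),
  a.Inv A → SAb.Triv c (ZR Y A) → SAb.Triv c (ZR (hO a) (hOs a A))

/-- **hOEx.** The exact sequence of a triple, for homotopy orbits.

Proof. `St_ZR` (1) for `hO a`, `A' = hOs a A`, `B' = hOs a B`: `subUn A' B' = hOs a (subUn A B)` up to equality of the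
sets in every degree (`A`, `B` invariant: all `y_i` are in `A` if one is), `(hOs a B).S` is isomorphic to `hO` of the
restricted action. So, with `Q₁ = ZR (hO a) (hOs a (subUn A B))`, `Q₂ = ZR (hO a) (hOs a A)`,
`Q₃` = `hO` of the pair `(B, A ∩ B)`: `0 → Q₃ → Q₂ → Q₁ → 0`. -/
def St_hOEx : Prop := ∀ {G : Type} [Group G] {Y : SSt.{u}} (a : GAct G Y) (A B : SubS Y),
  a.Inv A → a.Inv B → ∃ (b : GAct G B.S), (∀ g n y, ((b.act g).app n y).1 = (a.act g).app n y.1) ∧
    ∃ (i : ZR (hO b) (hOs b (subIn A B)) ⟶ ZR (hO a) (hOs a A))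
      (π : ZR (hO a) (hOs a A) ⟶ ZR (hO a) (hOs a (subUn A B))), SAb.SES i π

end Pool.Agent.GQ
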