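import Pool.Agent.GQ.TDefs
import Pool.Agent.GQ.StA

/-!
# GQ: statements, part T: the rank filtration for torsion-free modules (architect helper38)

Definitions: `GQ/TDefs.lean`. Everything here is the version for lattices of the modules `FGK/PStr`,
`FGK/PQ`, `FGK/RkTriv`, `FGK/RkConn` for vector spaces: start from a copy of these files. The theorems of
FGK and KQ (all proved: `thm_ZR`, `thm_AbEx`, `thm_fsStrong`, `all_StrHt`, ...) may be imported.
-/

set_option autoImplicit false
set_option linter.unusedVariables false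

noncomputable section

namespace Pool.Agent.GQ

open CategoryTheory CategoryTheory.Limits Function Pool.Agent.KQ Pool.Agent.FGK

universe u

/-- **LAT.** Lattices in vector spaces over the fraction field.

Proof. `V` is spanned by a finite set. For `v : V` there is `a ≠ 0` in `A` with `a • v ∈ M` (common
denominator; `IsLocalization.exist_integer_multiples` or induction on `Submodule.span_induction`). `cut M W`
is a submodule of the noetherian module `M`. `span F (cut M W) = W`: `w = a⁻¹ (a w)`.
`finrank A (cut M W) = finrank F W`: the inclusion `cut M W → W` is a localization map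
(`IsLocalizedModule (nonZeroDivisors A)`), `IsLocalizedModule.finrank_eq`, `IsLocalization.finrank_eq`; or:
`A`-linearly independent families of `V` are `F`-linearly independent
(`LinearIndependent.iff_fractionRing`). `a • x ∈ W` and `a ≠ 0`: `x = a⁻¹ (a x)`. Saturated submodules: if
`x ∈ M` is in the span of `L`, there is `a ≠ 0` with `a x ∈ L`. Last part: `e` extends to
`V = F ⊗ M` (`IsLocalizedModule.map` for `M → V`, or define `g v = a⁻¹ e (a v)`), the extension of
`e⁻¹` is the inverse, and `g v ∈ M ↔ v ∈ M`: `g v = m ∈ M` gives `v = g⁻¹ m = e⁻¹ m ∈ M`. -/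
def St_Lat : Prop := ∀ (A F V : Type) [CommRing A] [IsDomain A] [IsNoetherianRing A] [Field F]
  [Algebra A F] [IsFractionRing A F] [AddCommGroup V] [Module F V] [Module A V]
  [IsScalarTower A F V] (M : Submodule A V), IsLatA F M →
  FiniteDimensional F V ∧
  (∀ W : Submodule F V, Module.Finite A (cut M W) ∧
    Module.finrank A (cut M W) = Module.finrank F W ∧
    Submodule.span F (cut M W : Set V) = W ∧
    ∀ (a : A) (x : V), a • x ∈ W → a = 0 ∨ x ∈ W) ∧
  (∀ L : Submodule A V, L ≤ M → (∀ (a : A) (x : V), x ∈ M → a • x ∈ L → a = 0 ∨ x ∈ L) →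
    cut M (Submodule.span F (L : Set V)) = L) ∧
  (∀ e : M ≃ₗ[A] M, ∃ g ∈ Gam (F := F) M, ∀ x : M, g x.1 = (e x).1)

/-- **PLStr.** Forget the chosen quotients.

Proof. Exactly as `FGK/PStr.lean`: section `s : Fl ↦ (Fl, cut M (Fl j) ⧸ cut M (Fl i), mkQ)`
(`Submodule.submoduleOf`), `s ≫ plG = 𝟙`; homotopy from `𝟙` to `plG ≫ s`: replace `(N x, p x)` by the
standard quotient if `α x.1.2 = true`. It preserves the bad flags. `pstr_strong`, `pstr_restr` of
`FGK/PStr.lean` can be used. -/
def St_PLStr : Prop := ∀ (A F V : Type) [CommRing A] [Field F] [Algebra A F] [AddCommGroup V]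
  [Module F V] [Module A V] [IsScalarTower A F V] (M : Submodule A V),
  SSt.Strong (plG F M) ∧
    SSt.Strong (SubS.mapS (plG F M) (badL F M) (badS.{1} (Submodule F V)) fun n x hx => hx)

/-- **PLQ.** The map to the S-diagrams, the group action.

Proof. As `FGK/PQ.lean`, with `cut M (Fl i)` in place of `F_i`. `f P` = the diagram with entries `P.N x` and the
unique maps compatible with `p` and the inclusions. `N (i,j)` is finitely generated (`St_Lat`) and
torsion-free (`a p(w) = 0` means `a w ∈ Fl i`). `rank N(0,n) = dim Fl n - dim Fl 0` (`finrank_exact`,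
`St_Lat`), so it is `< r` for bad `P`; if `P` is good, `p_(0,n) : M = cut M ⊤ → N(0,n)` is an isomorphism. So
`f P ∈ clsT` iff `P` is bad. Action: `act g P = (g Fl, N, p ∘ g⁻¹)` for `g ∈ Gam M`
(`g (cut M W) = cut M (g W)`); it is `nvAct` on the flags. Onto: let `e : D(0,n) ≃ M`, `L i` = the image of
`D(0,i)` in `M`; `M / L i ≅ D(i,n)` is torsion-free, so `cut M (span F (L i)) = L i` (`St_Lat`);
`Fl i = span F (L i)`, `p_(i,j) : L j ≅ D(0,j) → D(i,j)`. Orbits: for good `P`, `P'` with `f P = f P'`
`p_(0,n) : M → N(0,n)` and `p'_(0,n)` are isomorphisms; `e = p'_(0,n)⁻¹ p_(0,n) : M ≃ M` extends to `g ∈ Gam M`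
(`St_Lat`); `e (cut M (Fl i)) = cut M (Fl' i)`, so `g Fl i = Fl' i` (spans). Free: `act g P = P` gives
`g = 1` on `M`, hence on `V = span F M`. -/
def St_PLQ : Prop := ∀ (A F V : Type) [CommRing A] [IsDomain A] [IsNoetherianRing A] [Field F]
  [Algebra A F] [IsFractionRing A F] [AddCommGroup V] [Module F V] [Module A V]
  [IsScalarTower A F V] (M : Submodule A V), IsLatA F M →
  ∃ (f : PLS F M ⟶ (rkT A (Module.finrank F V)).S) (a : GAct (Gam (F := F) M) (PLS F M)),
    a.Eqv (nvAct.{1} (F := F) M) (plG F M) ∧ (∀ g, a.act g ≫ f = f) ∧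
    (∀ n y, f.app n y ∈ (clsT (Module.finrank F V) (notIso (ModuleCat.of A M))
      (notIso_inv _)).s n ↔ y ∈ (badL F M).s n) ∧
    (∀ n z, z ∉ (clsT (Module.finrank F V) (notIso (ModuleCat.of A M)) (notIso_inv _)).s n →
      ∃ y, f.app n y = z) ∧
    (∀ n y y', y ∉ (badL F M).s n → y' ∉ (badL F M).s n → f.app n y = f.app n y' →
      ∃ g, (a.act g).app n y = y') ∧
    ∀ n y g, y ∉ (badL F M).s n → (a.act g).app n y = y → g = 1

/-- **PAIR.** The part of the rank filtration which belongs to one isomorphism class.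

Proof. `St_PLQ`; `badL` and `badS` are invariant. `St_hOOrb` for `f`; `St_hOStr` (2) for `plG` with `St_PLStr`. So
there are isomorphisms on homotopy groups from `ZR (hO a) (hOs a badL)` to `ZR (rkT ..).S (clsT ..)` and to
`ZR (hO nvAct) (hOs nvAct badS)`, which is slender by `StSl`, and `r`-trivial by `FGK.St_RB` (`RB` is
`ZR nvS badS`) and `St_hOTriv`. -/
def St_Pair : Prop := ∀ (A F V : Type) [CommRing A] [IsDomain A] [IsNoetherianRing A] [Field F]
  [Algebra A F] [IsFractionRing A F] [AddCommGroup V] [Module F V] [Module A V]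
  [IsScalarTower A F V] (M : Submodule A V), IsLatA F M →
  SAb.Triv (Module.finrank F V) (ZR (rkT A (Module.finrank F V)).S
    (clsT (Module.finrank F V) (notIso (ModuleCat.of A M)) (notIso_inv _))) ∧
  (StSl F M → ∀ j, (ZR (rkT A (Module.finrank F V)).S
    (clsT (Module.finrank F V) (notIso (ModuleCat.of A M)) (notIso_inv _))).SlAt j)

/-- **TRIP.** Triples and excision for relative simplicial abelian groups.

Proof. `FGK.St_ZR` (1) for `X = C.S`, `A = subIn A C`, `B = subIn B C` (`subUn` of them is `subIn B C`; the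
pair `((subIn B C).S, ..)` is isomorphic to `(B.S, subIn A B)`), `St_ZR` (5). Or directly: every term is the
free abelian group on the complement. -/
def St_Trip : Prop :=
  (∀ (X : SSt.{u}) (A B C : SubS X), (∀ n x, x ∈ A.s n → x ∈ B.s n) →
    (∀ n x, x ∈ B.s n → x ∈ C.s n) →
    ∃ (i : ZR B.S (subIn A B) ⟶ ZR C.S (subIn A C))
      (π : ZR C.S (subIn A C) ⟶ ZR C.S (subIn B C)), SAb.SES i π) ∧
  (∀ (X : SSt.{u}) (B C D : SubS X), (∀ n x, x ∈ C.s n → (x ∈ B.s n ↔ x ∈ D.s n)) →
    (∀ n x, x ∈ D.s n ∨ x ∈ C.s n) → ∃ f : ZR C.S (subIn B C) ⟶ ZR X D,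
      ∀ n, Bijective (f.app n))

/-- **FILT.** The quotients of the rank filtration.

Proof. Let `X = (rkT A (r+1)).S`, `B₀ = subIn (rkT A r) (rkT A (r+1))` (the diagrams of rank `≤ r`), and for a finite
set `S` of modules `Y S = clsT (r+1) (isoIn S)`; `Y ∅` has the same elements as `B₀`. Claim, by induction on the
finite set `S` of modules `ModuleCat.of A M`, `M` a lattice of `F^(r+1)`: `ZR (Y S).S (subIn B₀ (Y S))` is
`(r+1)`-trivial with slender homotopy groups. `S = ∅`: it is `0` in every degree. `S' = insert M S`: if `M` is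
isomorphic to a module in `S`, then `Y S'` and `Y S` have the same elements. Otherwise `St_Trip` (1) for
`B₀ ≤ Y S ≤ Y S'` and (2) for `B = Y S`, `C = Y S'`, `D = clsT (r+1) (notIso M)`, `St_Pair`, and
`FGK.St_AbEx` (1), (8). Finally take the set of `FinLat` for `r + 1`: `Y S` is everything, as `D(0,n)` of rank
`r + 1` is finitely generated and torsion-free; `St_Trip` (2) with `C = Y S`, `B = D = B₀`. -/
def St_Filt : Prop := ∀ (A F : Type) [CommRing A] [IsDomain A] [IsNoetherianRing A] [Field F]
  [Algebra A F] [IsFractionRing A F], FinLat A F → SlLat A F → ∀ r : ℕ,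
  SAb.Triv (r + 1) (ZR (rkT A (r + 1)).S (subIn (rkT A r) (rkT A (r + 1)))) ∧
  ∀ j, (ZR (rkT A (r + 1)).S (subIn (rkT A r) (rkT A (r + 1)))).SlAt j

/-- **RK0.** Rank `0`.

Proof. `rank D(0,n) ≤ 0` means that all entries of `D` are zero modules (`TFr.subsingleton`, all ranks are
`0` by `rank_ses`). So `(rkT A 0).S` is isomorphic to `(ZQ_Z (SOb.const (TF A))).S` of `KQ/ZQ.lean` (`SD.obj
(SOb.const E)` is `Sd.obj E` by `rfl`), contractible by `ZQ_contr`. Homology of a strongly contractible
simplicial set: `FGK.St_fsStrong` for `toPt`, and `St_SlFin` (2) for the point. -/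
def St_Rk0 : Prop := ∀ (A : Type) [CommRing A] [IsDomain A], ∀ j, HSl (rkT A 0).S j

/-- **RKC.** The inclusion of the rank filtration is `r`-connected on homology.

Proof. As `FGK/RkConn.lean` (`rkconn_seq`, `rkconn_step` can be used), from the triviality of the quotients. -/
def St_RkC : Prop := ∀ (A : Type) [CommRing A] [IsDomain A],
  (∀ r : ℕ, SAb.Triv (r + 1) (ZR (rkT A (r + 1)).S (subIn (rkT A r) (rkT A (r + 1))))) →
  ∀ r : ℕ, SAb.Conn r (ZSmap (rkT A r).ι)

/-- **T2.** `ob S.(TF A)` has slender homology.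

Proof. `HSl (rkT A r).S j` for all `j`, by induction on `r`: `St_Rk0`; `FGK.St_ZR` (2) for
`subIn (rkT A r) (rkT A (r+1))` (its `.S` is isomorphic to `(rkT A r).S`), `St_AbEx` (8), `St_Filt`. `St_RkC` for
`r = j`: surjective on `π_j`; `FGK.St_Sl` (2). -/
def St_T2 : Prop := ∀ (A F : Type) [CommRing A] [IsDomain A] [IsNoetherianRing A] [Field F]
  [Algebra A F] [IsFractionRing A F], FinLat A F → SlLat A F → ∀ j, HSl (XT A) j

/-- **T3.** The K-groups of `A` are finitely generated.

Proof. `St_T2` and `St_EFG`: `Kn n (TF A)` is finitely generated. Resolution (`KQ.St_ResK`, proved in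
`KQ/LocK.lean` from `KQ.St_Res`): `TF A` in `MA A` is closed under kernels, every finitely generated module is
a quotient of `A^m` with torsion-free kernel. -/
def St_T3 : Prop := ∀ (A F : Type) [CommRing A] [IsDomain A] [IsNoetherianRing A] [Field F]
  [Algebra A F] [IsFractionRing A F], FinLat A F → SlLat A F → ∀ n : ℕ,
  AddGroup.FG (Kn n (KQG.MA A))

end Pool.Agent.GQ
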