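import Pool.Agent.GQ.StB
import Pool.Agent.GQ.StT
import Pool.Agent.KTH.Src

/-!
# GQ: statements, part E: the final theorem
-/

set_option autoImplicit false
set_option linter.unusedVariables false

noncomputable section

namespace Pool.Agent.GQ

open CategoryTheory Function Pool.Agent.KQ Pool.Agent.FGK

/-- **FL.** Finitely many torsion-free modules in every rank.

Proof. St_JZ for `V = Fin r → F`: `T`; let `S` be the set of the elements of `T` which are lattices (if `g M = M'` and `M` is
a lattice, `M'` is one). A finitely generated torsion-free `N` of rank `r` embeds in `F ⊗ N`, of dimension `r`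
(`LocalizedModule`, `IsLocalizedModule.finrank_eq`), choose a basis: `N ≅ M ⊆ F^r`, `M` a lattice (finitely generated,
spans), `M ≅ M' ∈ S`. Or directly: `N` has a maximal linearly independent family `x_1, .., x_r`, for every generator
`y` there is `a ≠ 0` with `a y ∈ ⨁ A x_i`. -/
def St_FL : Prop := ∀ (A F : Type) [CommRing A] [IsDomain A] [IsNoetherianRing A] [Field F]
  [Algebra A F] [IsFractionRing A F], CD A F → FinLat A F

/-- **CK.** K-groups of affine curves.

Proof. `St_FL`, `St_StM` (for `V = Fin r → F`, `r ≥ 1`), `St_T3`. -/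
def St_CK : Prop := ∀ (A F : Type) [CommRing A] [IsDomain A] [IsNoetherianRing A] [Field F]
  [Algebra A F] [IsFractionRing A F], CD A F → ∀ n : ℕ, AddGroup.FG (Kn n (KQG.MA A))

/-- **GQ.** THE THEOREM OF HARDER, QUILLEN AND GRAYSON, affine form.

Proof. `A` is noetherian (finite over `k[X]`). `F = FractionRing A`; `St_Ord`, `St_CK`. -/
def St_GQ : Prop := ∀ (k A : Type) [Field k] [Finite k] [CommRing A] [IsDomain A]
  [Algebra (Polynomial k) A] [Module.Finite (Polynomial k) A],
  Function.Injective (algebraMap (Polynomial k) A) → ∀ n : ℕ, AddGroup.FG (Kn n (KQG.MA A))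

/-- **Her.** The affine Hermitian curve `y ^ q + y = x ^ (q + 1)` (`KTH.HR q k = AdjoinRoot (Y^q + Y - C (X^(q+1)))` over `k[X]`).

Proof. It is finite over `k[X]` (monic), `k[X] → HR` is injective (monic of positive degree). It is a domain: the polynomial
`Y^q + Y - X^(q+1)` over `k[X]` is irreducible (then `AdjoinRoot.isDomain_of_prime`, `k[X][Y]` is factorial). For a root `y` in an
extension of `k(X)` put `s = X⁻¹`, `w = X / y`: `w^q - s^q w^(q-1) - s = 0`, and `W^q - s^q W^(q-1) - s` is Eisenstein at `s` over
`k[s]` (`Polynomial.IsEisensteinAt.irreducible`), so `k(X)(y)` has degree `q` over `k(X)`. Or: weights `q` for `X` and `q + 1` for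
`Y`, the leading form `Y^q - X^(q+1)` of a product is the product of the leading forms, and it is irreducible (kernel of
`k[X,Y] → k[T]`, `X ↦ T^q`, `Y ↦ T^(q+1)`). St_GQ. -/
def St_Her : Prop := ∀ (k : Type) [Field k] [Finite k] (q : ℕ), 2 ≤ q →
  ∀ n : ℕ, AddGroup.FG (Kn n (KQG.MA (KTH.HR q k)))

end Pool.Agent.GQ
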