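import Pool.Agent.GQ.F
import Pool.Agent.GQ.ClK
import Pool.Agent.GQ.StE
import Pool.Agent.FGK.All
import Pool.Agent.KQG.All
import Pool.Agent.KQG.KI
import Pool.Agent.KPR.Sch

/-!
# GQ, part F: finite generation of `K'_n` in dimension at most one over prime fields
-/

set_option autoImplicit false

noncomputable section

namespace Pool.Agent.GQ

open CategoryTheory AlgebraicGeometry Pool.Agent.KQ Pool.Agent.KQG Pool.Agent.KTX Pool.Agent.KPR

theorem baseK_kInt (h : St_HOMK) (hGQ : St_GQ) : BaseK (kInt h) where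
  fld k _ _ n := FGK.all_KFG k n
  crv k A _ _ _ _ _ _ hi n := hGQ k A hi n

theorem fg_equiv {A B : Type 1} [AddCommGroup A] [AddCommGroup B] (e : A ≃+ B)
    (h : AddGroup.FG B) : AddGroup.FG A :=
  AddGroup.fg_of_surjective (f := e.symm.toAddMonoidHom) e.symm.surjective

/-- `K_n(k)` for finite fields -/
theorem fin_KA_field (k : Type) [Field k] [Finite k] (n : ℕ) : AddGroup.FG (KA n k) :=
  fg_equiv (kaEquiv n k) (FGK.all_KFG k n)

/-- `K'_n(B)` for rings of Krull dimension at most one -/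
theorem fin_KA (h : St_HOMK) (hGQ : St_GQ) (p : ℕ) [Fact p.Prime] (B : Type) [CommRing B]
    [Algebra (ZMod p) B] [Algebra.FiniteType (ZMod p) B] (hB : ringKrullDim B ≤ 1) (n : ℕ) :
    AddGroup.FG (KA n B) :=
  fg_equiv (kaEquiv n B) (thm_F1 (thm_ClK all_THY) (kInt h) (baseK_kInt h hGQ) p B hB n)

/-- `K'_n(B)` for rings of residual dimension at most one -/
theorem fin_KA_res (h : St_HOMK) (hGQ : St_GQ) (p : ℕ) [Fact p.Prime] (B : Type) [CommRing B]
    [Algebra (ZMod p) B] [Algebra.FiniteType (ZMod p) B] (hB : BassH.ResDimLE 1 B) (n : ℕ) :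
    AddGroup.FG (KA n B) :=
  fg_equiv (kaEquiv n B) (thm_F1r (thm_ClK all_THY) (kInt h) (baseK_kInt h hGQ) p B hB n)

/-- `K'_n(X)` for schemes of dimension at most one -/
theorem fin_KX (h : St_HOMK) (hGQ : St_GQ) (p : ℕ) [Fact p.Prime] (X : Scheme.{0})
    (f : X ⟶ Sp (ZMod p)) [LocallyOfFiniteType f] [QuasiCompact f]
    (hX : topologicalKrullDim X ≤ 1) (n : ℕ) : AddGroup.FG (KX n X) :=
  fg_equiv (kxEquiv n X) (thm_F2 all_THY thm_GE (thm_F1 (thm_ClK all_THY)) (kInt h)
    (baseK_kInt h hGQ) p X f hX n)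

end Pool.Agent.GQ
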