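import Pool.Agent.GQ.All
import Pool.Agent.GQ.FK
import Pool.Agent.KTH.FinN

/-!
# GQ, part F: finite generation of `K'_n` in dimension at most one, assembly

The only hypothesis is homotopy invariance for rings, `KQG.St_HOMK` (library KQH, helper83).
-/

set_option autoImplicit false

noncomputable section

namespace Pool.Agent.GQ

open Pool.Agent.KQG

/-- the base cases -/
theorem all_BaseK (h : St_HOMK) : BaseK (kInt h) := baseK_kInt h all_GQ

/-- schemes of dimension at most one over prime fields -/
theorem all_HDim1 (h : St_HOMK) : KTH.HDim1 := fun p _ X f _ _ hX n =>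
  fin_KX h all_GQ p X f hX n

/-- `K'_n` of affine curves over finite fields, no hypotheses -/
theorem all_KA_curve (k A : Type) [Field k] [Finite k] [CommRing A] [IsDomain A]
    [Algebra (Polynomial k) A] [Module.Finite (Polynomial k) A]
    (hi : Function.Injective (algebraMap (Polynomial k) A)) (n : ℕ) :
    AddGroup.FG (KPR.KA n A) := fg_equiv (KPR.kaEquiv n A) (all_GQ k A hi n)

end Pool.Agent.GQ
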