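import Pool.Agent.GQ.StB

/-!
# GQ: chains without destabilizing subspaces are bounded, after a twist (proof of `St_Bdd`)
-/

set_option autoImplicit false
set_option linter.unusedVariables false

noncomputable section

namespace Pool.Agent.GQ

open CategoryTheory Function Pool.Agent.KQ Pool.Agent.FGK

section

variable {A F : Type} [CommRing A] [Field F] [Algebra A F] (D : CD A F)
  {V : Type} [AddCommGroup V] [Module F V]

theorem bdd_t0 : D.t ≠ 0 := D.t0

theorem bdd_add (z : ℤ) (L : D.Lat V) (v w : V) (hv : D.Mem z L v) (hw : D.Mem z L w) :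
    D.Mem z L (v + w) := by
  change D.t ^ (-z) • (v + w) ∈ L.1
  rw [smul_add]
  exact L.1.add_mem hv hw

theorem bdd_zero (z : ℤ) (L : D.Lat V) : D.Mem z L 0 := by
  change D.t ^ (-z) • (0 : V) ∈ L.1
  rw [smul_zero]
  exact L.1.zero_mem

/-- `t ^ e u v` is in `t ^ (a + e) L` for `v` in `t ^ a L` -/
theorem bdd_smul (a : ℤ) (e : ℕ) (L : D.Lat V) (u : F) (hu : u ∈ D.O) (v : V)
    (hv : D.Mem a L v) : D.Mem (a + e) L ((D.t ^ e * u) • v) := by
  change D.t ^ (-(a + (e : ℤ))) • ((D.t ^ e * u) • v) ∈ L.1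
  have h1 : D.t ^ (-(a + (e : ℤ))) • ((D.t ^ e * u) • v) = u • (D.t ^ (-a) • v) := by
    rw [smul_smul, smul_smul]
    congr 1
    rw [← mul_assoc, ← zpow_natCast D.t e, ← zpow_add₀ (bdd_t0 D), mul_comm]
    congr 2
    ring
  rw [h1]
  exact L.2.1 u hu _ hv

/-- `t ^ y L' ⊆ t ^ (y + 1) L` -/
theorem bdd_near (L L' : D.Lat V) (h : D.Near L L') (y : ℤ) (v : V) (hv : D.Mem y L' v) :
    D.Mem (y + 1) L v := by
  have h1 := h _ hv
  change D.t ^ (-(y + 1)) • v ∈ L.1
  rw [smul_smul, ← zpow_neg_one, ← zpow_add₀ (bdd_t0 D)] at h1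
  have h2 : -(y + 1) = -1 + -y := by ring
  rw [h2]
  exact h1

variable [Module A V]

/-- the span of `M ∩ t ^ a L` -/
def bdd_W (M : Submodule A V) (L : D.Lat V) (a : ℤ) : Submodule F V :=
  Submodule.span F {m | m ∈ M ∧ D.Mem a L m}

variable [IsScalarTower A F V]

theorem bdd_H1z (M : Submodule A V) (L : D.Lat V) (e : ℕ)
    (he : ∀ f : F, ∃ a : A, ∃ u ∈ D.O, f = algebraMap A F a + D.t ^ e * u) (a : ℤ) :
    D.H1z M L (bdd_W D M L a) (a + e) := by
  intro w hw
  induction hw using Submodule.closure_induction with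
  | zero =>
    refine ⟨0, M.zero_mem, Submodule.zero_mem _, ?_⟩
    rw [sub_zero]
    exact bdd_zero D _ L
  | add x y hx hy h1 h2 =>
    obtain ⟨m, hm, hmW, hmL⟩ := h1
    obtain ⟨n, hn, hnW, hnL⟩ := h2
    refine ⟨m + n, M.add_mem hm hn, Submodule.add_mem _ hmW hnW, ?_⟩
    have h3 : x + y - (m + n) = (x - m) + (y - n) := by abel
    rw [h3]
    exact bdd_add D _ L _ _ hmL hnL
  | smul_mem c x hx =>
    obtain ⟨a', u, hu, hc⟩ := he c
    refine ⟨a' • x, M.smul_mem a' hx.1, ?_, ?_⟩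
    · rw [← algebraMap_smul F a' x]
      exact Submodule.smul_mem _ _ (Submodule.subset_span hx)
    · have h3 : c • x - a' • x = (D.t ^ e * u) • x := by
        rw [← algebraMap_smul F a' x, ← sub_smul, hc, add_sub_cancel_left]
      rw [h3]
      exact bdd_smul D a e L u hu x hx.2

end

/-- **Bdd.** -/
theorem thm_Bdd (h1 : St_Lat1) (h2 : St_Lat2) : St_Bdd := by
  intro A F V _ _ _ _ _ _ _ _ _ _ _ D
  obtain ⟨e, he⟩ := D.coc
  refine ⟨(Module.finrank F V - 1) * (e + 2) + e, ?_⟩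
  intro M L L' hM hLL hN hD
  obtain ⟨l1, -⟩ := h1 A F V D
  obtain ⟨-, ⟨a₀, ha₀⟩, -, -, -, hex⟩ := h2 A F V D M L hM
  -- the smallest `z`
  have hne : ∃ m ∈ M, m ≠ 0 := by
    by_contra hcon
    push Not at hcon
    have h6 : (⊤ : Submodule F V) = ⊥ := by
      rw [← hM.2, Submodule.span_eq_bot]
      exact hcon
    exact top_ne_bot h6
  obtain ⟨m₀, hm₀, hm₀'⟩ := hne
  obtain ⟨y₀, hy₀⟩ := hex m₀ hm₀
  obtain ⟨z, ⟨m, hm, hmz, hm0⟩, hz⟩ := Int.exists_least_of_bdd
    (P := fun z => ∃ m ∈ M, D.Mem z L m ∧ m ≠ 0)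
    ⟨a₀, fun z ⟨m, hm, h3, h4⟩ => by
      by_contra h5
      exact h4 (ha₀ z (by omega) m hm h3)⟩
    ⟨y₀, m₀, hm₀, hy₀, hm₀'⟩
  have hmono : ∀ i j, i ≤ j → bdd_W D M L i ≤ bdd_W D M L j := fun i j hij =>
    Submodule.span_mono fun x hx => ⟨hx.1, l1 L i j x hij hx.2⟩
  have hH : ∀ a, D.H1z M L (bdd_W D M L a) (a + e) := bdd_H1z D M L e he
  have hbot : ∀ a, z ≤ a → bdd_W D M L a ≠ ⊥ := by
    intro a ha h3
    have h4 : m ∈ bdd_W D M L a := hmono z a ha (Submodule.subset_span ⟨hm, hmz⟩)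
    rw [h3, Submodule.mem_bot] at h4
    exact hm0 h4
  -- the steps
  have hstep : ∀ a, z ≤ a → bdd_W D M L a ≠ ⊤ → bdd_W D M L a < bdd_W D M L (a + (e + 2)) := by
    intro a ha htop
    have h3 : ¬ D.H0z M L' (bdd_W D M L a) (a + e + 1) := by
      intro h4
      have h5 : bdd_W D M L a ∈ D.Dst M L L' := ⟨hbot a ha, htop, a + e, hH a, h4⟩
      rw [hD] at h5
      exact h5
    have h4 : ∃ n ∈ M, ∃ v : V, D.Mem (a + e + 1) L' v ∧ n - v ∈ bdd_W D M L a ∧
        n ∉ bdd_W D M L a := by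
      by_contra h5
      apply h3
      intro n hn v hv hnv
      by_contra h6
      exact h5 ⟨n, hn, v, hv, hnv, h6⟩
    obtain ⟨n, hn, v, hv, hnv, hnW⟩ := h4
    obtain ⟨n', hn', hnW', hL'⟩ := hH a _ hnv
    have h5 : D.Mem (a + (e + 2)) L (n - n') := by
      have h6 : n - n' = v + (n - v - n') := by abel
      rw [h6]
      apply bdd_add
      · have h7 := bdd_near D L L' hN _ v hv
        have h8 : a + (e : ℤ) + 1 + 1 = a + (e + 2) := by ring
        rw [h8] at h7
        exact h7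
      · exact l1 L _ _ _ (by omega) hL'
    refine lt_of_le_of_ne (hmono _ _ (by omega)) fun h6 => ?_
    have h7 : n - n' ∈ bdd_W D M L a := by
      rw [h6]
      exact Submodule.subset_span ⟨M.sub_mem hn hn', h5⟩
    have h8 : n = (n - n') + n' := by abel
    apply hnW
    rw [h8]
    exact Submodule.add_mem _ h7 hnW'
  have hdim : ∀ k : ℕ, bdd_W D M L (z + k * (e + 2)) = ⊤ ∨
      k + 1 ≤ Module.finrank F (bdd_W D M L (z + k * (e + 2))) := by
    intro k
    induction k with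
    | zero =>
      right
      rw [zero_add, Nat.succ_le_iff]
      have h3 := hbot (z + ((0 : ℕ) : ℤ) * (e + 2)) (by simp)
      exact Nat.pos_of_ne_zero fun h4 => h3 (Submodule.finrank_eq_zero.1 h4)
    | succ k ih =>
      have h3 : z + ((k + 1 : ℕ) : ℤ) * (e + 2) = (z + k * (e + 2)) + (e + 2) := by
        push_cast
        ring
      have h9 : (0 : ℤ) ≤ k * (e + 2) := by positivity
      rcases ih with ih | ih
      · left
        rw [h3, eq_top_iff, ← ih]
        exact hmono _ _ (by omega)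
      · by_cases htop : bdd_W D M L (z + k * (e + 2)) = ⊤
        · left
          rw [h3, eq_top_iff, ← htop]
          exact hmono _ _ (by omega)
        · right
          rw [h3]
          have h4 := Submodule.finrank_lt_finrank_of_lt (hstep (z + k * (e + 2)) (by omega) htop)
          omega
  have htop : bdd_W D M L (z + ((Module.finrank F V - 1 : ℕ) : ℤ) * (e + 2)) = ⊤ := by
    rcases hdim (Module.finrank F V - 1) with h3 | h3
    · exact h3
    · have h4 : 0 < Module.finrank F V := Module.finrank_pos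
      apply Submodule.eq_top_of_finrank_eq
      have h5 := Submodule.finrank_le
        (bdd_W D M L (z + ((Module.finrank F V - 1 : ℕ) : ℤ) * (e + 2)))
      omega
  refine ⟨z, ?_, ?_⟩
  · intro n hn hnz
    by_contra h3
    have h4 := hz (z - 1) ⟨n, hn, hnz, h3⟩
    omega
  · intro v
    have h3 : v ∈ bdd_W D M L (z + ((Module.finrank F V - 1 : ℕ) : ℤ) * (e + 2)) := by
      rw [htop]
      exact Submodule.mem_top
    obtain ⟨n, hn, -, h4⟩ := hH _ v h3
    refine ⟨n, hn, ?_⟩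
    have h5 : z + (((Module.finrank F V - 1) * (e + 2) + e : ℕ) : ℤ) =
        z + ((Module.finrank F V - 1 : ℕ) : ℤ) * (e + 2) + e := by
      push_cast
      ring
    rw [h5]
    exact h4

end Pool.Agent.GQ
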