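import Pool.Agent.GQ.StB
import Pool.Agent.GQ.StT

/-!
# GQ: the hypotheses of part T from part B; the final theorem
-/

set_option autoImplicit false
set_option linter.unusedVariables false

noncomputable section

namespace Pool.Agent.GQ

open CategoryTheory Function Pool.Agent.KQ Pool.Agent.FGK
open scoped TensorProduct

/-- finitely generated torsion-free modules are lattices -/
theorem finlat_emb (A F : Type) [CommRing A] [IsDomain A] [Field F] [Algebra A F]
    [IsFractionRing A F] (N : Type) [AddCommGroup N] [Module A N] [Module.Finite A N]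
    (hN : TFr A N) : ∃ M : Submodule A (Fin (Module.finrank A N) → F), IsLatA F M ∧
      Nonempty (N ≃ₗ[A] M) := by
  have hf : FaithfulSMul A F := (faithfulSMul_iff_algebraMap_injective A F).2
    (IsFractionRing.injective A F)
  have h1 : Module.finrank F (F ⊗[A] N) = Module.finrank A N :=
    (TensorProduct.isBaseChange A N F).finrank_eq
  let e : (F ⊗[A] N) ≃ₗ[F] (Fin (Module.finrank A N) → F) :=
    LinearEquiv.ofFinrankEq _ _ (by rw [h1, Module.finrank_fin_fun])
  let f : N →ₗ[A] (Fin (Module.finrank A N) → F) :=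
    (e.toLinearMap.restrictScalars A).comp (TensorProduct.mk A F N 1)
  have hf1 : ∀ x, f x = e (1 ⊗ₜ x) := fun x => rfl
  have hinj : Injective f := by
    rw [injective_iff_map_eq_zero]
    intro x hx
    rw [hf1, map_eq_zero_iff e e.injective] at hx
    have h2 : IsLocalizedModule (nonZeroDivisors A) (TensorProduct.mk A F N 1) :=
      (isLocalizedModule_iff_isBaseChange (nonZeroDivisors A) F _).2
        (TensorProduct.isBaseChange A N F)
    obtain ⟨s, hs⟩ := (IsLocalizedModule.eq_zero_iff (nonZeroDivisors A)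
      (TensorProduct.mk A F N 1)).1 hx
    exact (hN s.1 x hs).resolve_left (nonZeroDivisors.ne_zero s.2)
  refine ⟨LinearMap.range f, ⟨?_, ?_⟩, ⟨LinearEquiv.ofInjective f hinj⟩⟩
  · rw [LinearMap.range_eq_map]
    exact Module.Finite.fg_top.map f
  · rw [eq_top_iff]
    rintro v -
    obtain ⟨x, rfl⟩ := e.surjective v
    induction x using TensorProduct.induction_on with
    | zero =>
      rw [map_zero]
      exact zero_mem _
    | add x y hx hy =>
      rw [map_add]
      exact add_mem hx hy
    | tmul c n =>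
      have h3 : c ⊗ₜ[A] n = c • ((1 : F) ⊗ₜ[A] n) := by
        rw [TensorProduct.smul_tmul', smul_eq_mul, mul_one]
      rw [h3, map_smul]
      exact Submodule.smul_mem _ _ (Submodule.subset_span ⟨n, hf1 n⟩)

/-- images of lattices under linear automorphisms -/
theorem finlat_map {A F V : Type} [CommRing A] [Field F] [Algebra A F] [AddCommGroup V]
    [Module F V] [Module A V] [IsScalarTower A F V] (M M' : Submodule A V) (g : V ≃ₗ[F] V)
    (h : ∀ v, g v ∈ M' ↔ v ∈ M) (hM : IsLatA F M) :
    IsLatA F M' ∧ Nonempty (M ≃ₗ[A] M') := by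
  have h1 : M' = M.map (g.restrictScalars A).toLinearMap := by
    ext v
    obtain ⟨v, rfl⟩ := g.surjective v
    rw [h]
    constructor
    · intro hv
      exact ⟨v, hv, rfl⟩
    · rintro ⟨w, hw, hw'⟩
      rw [← g.injective hw']
      exact hw
  refine ⟨⟨?_, ?_⟩, ⟨?_⟩⟩
  · rw [h1]
    exact hM.1.map _
  · have h2 : (M' : Set V) = g '' (M : Set V) := by
      rw [h1]
      rfl
    rw [h2]
    have h3 : Submodule.span F (g '' (M : Set V)) = (Submodule.span F (M : Set V)).map
        g.toLinearMap := (Submodule.map_span g.toLinearMap (M : Set V)).symm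
    rw [h3, hM.2, Submodule.map_top]
    exact LinearEquiv.range g
  · rw [h1]
    exact (g.restrictScalars A).submoduleMap M

theorem thm_FinLat (hJZ : St_JZ) (A F : Type) [CommRing A] [IsDomain A] [Field F] [Algebra A F]
    [IsFractionRing A F] (D : CD A F) : FinLat A F := by
  intro r hr
  obtain ⟨T, hT, h⟩ := hJZ A F (Fin r → F) D
  refine ⟨{M ∈ T | IsLatA F M}, hT.subset fun M hM => hM.1, fun M hM => hM.2, ?_⟩
  intro N hN hN' hr'
  have hN : Module.Finite A N := hN
  subst hr'
  obtain ⟨M, hM, ⟨e⟩⟩ := finlat_emb A F N hN'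
  obtain ⟨g, M', hM', hg⟩ := h M hM
  obtain ⟨h1, ⟨e'⟩⟩ := finlat_map M M' g hg hM
  exact ⟨M', ⟨hM', h1⟩, ⟨e.trans e'⟩⟩

theorem thm_SlLat (hSt : St_StM) (A F : Type) [CommRing A] [IsDomain A] [Field F] [Algebra A F]
    [IsFractionRing A F] (D : CD A F) : SlLat A F := by
  intro r hr M hM
  obtain ⟨r, rfl⟩ : ∃ s, r = s + 1 := ⟨r - 1, by omega⟩
  exact hSt A F (Fin (r + 1) → F) D M hM

/-- **THE K-GROUPS OF CURVES OVER FINITE FIELDS.** The K-groups of a domain which is a finite
extension of `k[X]`, `k` a finite field, are finitely generated. -/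
theorem thm_T4 (hT3 : St_T3) (hJZ : St_JZ) (hSt : St_StM) (hO : St_Ord) (k A : Type) [Field k]
    [Finite k] [CommRing A] [IsDomain A] [Algebra (Polynomial k) A]
    [Module.Finite (Polynomial k) A]
    (h : Function.Injective (algebraMap (Polynomial k) A)) (n : ℕ) :
    AddGroup.FG (Kn n (KQG.MA A)) := by
  obtain ⟨D⟩ := hO k A (FractionRing A) h
  have : IsNoetherianRing A := isNoetherian_of_tower (Polynomial k)
    (inferInstance : IsNoetherian (Polynomial k) A)
  exact hT3 A (FractionRing A) (thm_FinLat hJZ A _ D) (thm_SlLat hSt A _ D) n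

end Pool.Agent.GQ
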