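import Pool.Agent.GQ.StE
import Pool.Agent.GQ.FinLat

/-!
# GQ, CK: K-groups of affine curves
-/

set_option autoImplicit false
set_option linter.unusedVariables false

noncomputable section

namespace Pool.Agent.GQ

open CategoryTheory Function Pool.Agent.KQ Pool.Agent.FGK

/-- **CK** -/
theorem thm_CK (hFL : St_FL) (hSt : St_StM) (hT3 : St_T3) : St_CK := by
  intro A F _ _ _ _ _ _ D n
  exact hT3 A F (hFL A F D) (thm_SlLat hSt A F D) n

end Pool.Agent.GQ
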