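import Pool.Agent.GQ.StA
import Pool.Agent.FGK.KAn
import Pool.Agent.FGK.ZQK

/-!
# GQ, module ClE: the `κ`-fold construction of an exact category with slender homology
-/

set_option autoImplicit false
set_option linter.unusedVariables false

noncomputable section

namespace Pool.Agent.GQ

open CategoryTheory CategoryTheory.Limits Function Pool.Agent.KQ Pool.Agent.FGK

universe u

/-- the comparison for `κ = 1` -/
def cle_one (E : ExCat.{u}) : obS.obj (Sd.obj E) ⟶ obS.obj ((itS Sd 1).obj E) :=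
  ⟨fun _ x => x, fun _ _ => rfl⟩

theorem cle_one_strong (E : ExCat.{u}) : SSt.Strong (cle_one E) :=
  SP_bij _ fun _ => ⟨fun _ _ h => h, fun x => ⟨x, rfl⟩⟩

theorem cle_all (hSl : St_Sl.{u + 1}) (hfs : St_fsStrong.{u + 1}) (hReal : St_AbReal.{u + 1})
    (hSpK : St_SpK.{u}) (hPow : St_PowSl.{u + 1}) (E : ExCat.{u})
    (hE : ∀ j, HSl (obS.obj (Sd.obj E)) j) (κ : ℕ) :
    ∀ j, HSl (obS.obj ((itS Sd (κ + 1)).obj E)) j := by
  induction κ with
  | zero => exact fun j => (kan_hsl hSl hfs (cle_one E) (cle_one_strong E) j).1 (hE j)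
  | succ κ ih =>
    intro j
    have hrow : ∀ m q : ℕ, HSl (((zqk_row (κ + 1)).obj E).obj m) q := fun m q =>
      (kan_hsl hSl hfs (spK (κ + 1) E m) (hSpK (κ + 1) (by omega) E m) q).2 (hPow.2 _ m ih q)
    have h3 : (SAb.diag (kan_Z ((zqk_row (κ + 1)).obj E))).SlAt j :=
      hReal.2.2.2.2.2.1 (kan_Z ((zqk_row (κ + 1)).obj E)) j (fun m q _ => hrow m q) j le_rfl
    have h4 : HSl (SSt.diag ((zqk_row (κ + 1)).obj E)) j :=
      (kan_sl hSl _ (kan_dg_weq ((zqk_row (κ + 1)).obj E)) j).1 h3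
    exact (kan_hsl hSl hfs (zqk_diag (κ + 1) E) (zqk_diag_strong (κ + 1) E) j).1 h4

/-- **ClE.** -/
theorem thm_ClE (hSl : St_Sl.{u + 1}) (hfs : St_fsStrong.{u + 1}) (hReal : St_AbReal.{u + 1})
    (hSpK : St_SpK.{u}) (hPow : St_PowSl.{u + 1}) : St_ClE.{u} := by
  intro E hE κ hκ p j
  obtain ⟨κ, rfl⟩ : ∃ κ', κ = κ' + 1 := ⟨κ - 1, by omega⟩
  exact hPow.2 _ p (cle_all hSl hfs hReal hSpK hPow E hE κ) j

end Pool.Agent.GQ
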