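import Pool.Agent.GQ.StB

/-!
# GQ: counting of sections (proof of `St_Cnt`)
-/

set_option autoImplicit false
set_option linter.unusedVariables false

noncomputable section

namespace Pool.Agent.GQ

open Function Pool.Agent.KQ Pool.Agent.FGK

section

variable {F V : Type} [Field F] [AddCommGroup V] [Module F V]

/-- the twist `t ^ z H` of an additive subgroup -/
def cnt_tw (t : F) (z : ℤ) (H : AddSubgroup V) : AddSubgroup V :=
  H.comap (DistribSMul.toAddMonoidHom V (t ^ (-z)))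

theorem cnt_mem (t : F) (z : ℤ) (H : AddSubgroup V) (v : V) :
    v ∈ cnt_tw t z H ↔ t ^ (-z) • v ∈ H := Iff.rfl

theorem cnt_tw_tw {t : F} (ht : t ≠ 0) (y z : ℤ) (H : AddSubgroup V) :
    cnt_tw t y (cnt_tw t z H) = cnt_tw t (y + z) H := by
  ext v
  rw [cnt_mem, cnt_mem, cnt_mem, smul_smul, ← zpow_add₀ ht]
  congr! 3
  ring

theorem cnt_tw_zero {t : F} (ht : t ≠ 0) (H : AddSubgroup V) : cnt_tw t 0 H = H := by
  ext v
  rw [cnt_mem, neg_zero, zpow_zero, one_smul]

theorem cnt_tw_mono (t : F) (z : ℤ) {H K : AddSubgroup V} (h : H ≤ K) :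
    cnt_tw t z H ≤ cnt_tw t z K := fun v hv => h hv

theorem cnt_relIndex_tw {t : F} (ht : t ≠ 0) (z : ℤ) (H K : AddSubgroup V) :
    (cnt_tw t z H).relIndex (cnt_tw t z K) = H.relIndex K := by
  unfold cnt_tw
  rw [AddSubgroup.relIndex_comap, AddSubgroup.map_comap_eq_self_of_surjective]
  intro v
  refine ⟨(t ^ (-z))⁻¹ • v, ?_⟩
  exact smul_inv_smul₀ (zpow_ne_zero _ ht) v

/-- the index of the twists -/
theorem cnt_pow {t : F} (ht : t ≠ 0) (H : AddSubgroup V) (h : H ≤ cnt_tw t 1 H) (a : ℤ) (n : ℕ) :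
    cnt_tw t a H ≤ cnt_tw t (a + n) H ∧
      (cnt_tw t a H).relIndex (cnt_tw t (a + n) H) = (H.relIndex (cnt_tw t 1 H)) ^ n := by
  induction n with
  | zero =>
    rw [Nat.cast_zero, add_zero, AddSubgroup.relIndex_self, pow_zero]
    exact ⟨le_rfl, rfl⟩
  | succ n ih =>
    have e : cnt_tw t (a + (n + 1 : ℕ)) H = cnt_tw t (a + n) (cnt_tw t 1 H) := by
      rw [cnt_tw_tw ht]
      congr 1
      push_cast
      ring
    have h1 : cnt_tw t (a + n) H ≤ cnt_tw t (a + (n + 1 : ℕ)) H := by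
      rw [e]
      exact cnt_tw_mono t _ h
    refine ⟨ih.1.trans h1, ?_⟩
    rw [← AddSubgroup.relIndex_mul_relIndex _ _ _ ih.1 h1, ih.2, e, cnt_relIndex_tw ht, pow_succ]

/-- a subgroup which meets `H` trivially embeds into the quotient -/
theorem cnt_card {G : Type} [AddCommGroup G] (M H K : AddSubgroup G) (h : M ⊓ H = ⊥)
    (h0 : H.relIndex K ≠ 0) : Finite (M ⊓ K : AddSubgroup G) ∧
      Nat.card (M ⊓ K : AddSubgroup G) ≤ H.relIndex K := by
  have h1 : H.relIndex (M ⊓ K) = Nat.card (M ⊓ K : AddSubgroup G) := by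
    rw [← AddSubgroup.inf_relIndex_right]
    have : H ⊓ (M ⊓ K) = ⊥ := by
      rw [← inf_assoc, inf_comm H M, h, bot_inf_eq]
    rw [this, AddSubgroup.relIndex_bot_left]
  have h2 : H.relIndex (M ⊓ K) ≤ H.relIndex K := AddSubgroup.relIndex_le_of_le_right inf_le_right h0
  have h3 : H.relIndex (M ⊓ K) ≠ 0 := by
    intro h4
    have := AddSubgroup.relIndex_eq_zero_of_le_right (H := H) (inf_le_right : M ⊓ K ≤ K) h4
    exact h0 this
  rw [h1] at h2 h3
  exact ⟨Nat.finite_of_card_ne_zero h3, h2⟩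

end

section

variable {A F : Type} [CommRing A] [Field F] [Algebra A F] (D : CD A F)

/-- `O` as an additive subgroup -/
def cnt_O : AddSubgroup F := D.O.toAddSubgroup

theorem cnt_t0 : D.t ≠ 0 := D.t0

theorem cnt_tO : D.t⁻¹ ∈ D.O := D.tO

theorem cnt_O_le : cnt_O D ≤ cnt_tw D.t 1 (cnt_O D) := by
  intro u hu
  rw [cnt_mem, zpow_neg_one]
  exact D.O.mul_mem (cnt_tO D) hu

/-- the number `Q` -/
def cnt_Q : ℕ := (cnt_O D).relIndex (cnt_tw D.t 1 (cnt_O D))

theorem cnt_Q_ne : cnt_Q D ≠ 0 := by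
  have e : cnt_Q D = (cnt_tw D.t (-1) (cnt_O D)).relIndex (cnt_O D) := by
    unfold cnt_Q
    rw [← cnt_relIndex_tw (cnt_t0 D) (-1), cnt_tw_tw (cnt_t0 D)]
    norm_num
    rw [cnt_tw_zero (cnt_t0 D)]
  rw [e]
  obtain ⟨S, hS, h⟩ := D.fin
  have : Finite S := hS
  unfold AddSubgroup.relIndex
  have hfin : Finite ((cnt_O D) ⧸ (cnt_tw D.t (-1) (cnt_O D)).addSubgroupOf (cnt_O D)) := by
    have h1 : ∀ q : (cnt_O D) ⧸ (cnt_tw D.t (-1) (cnt_O D)).addSubgroupOf (cnt_O D),
        ∃ s : S, D.t * ((Quotient.out q : cnt_O D).1 - s.1) ∈ D.O := by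
      intro q
      obtain ⟨s, hs, h2⟩ := h _ (Quotient.out q : cnt_O D).2
      exact ⟨⟨s, hs⟩, h2⟩
    choose f hf using h1
    refine Finite.of_injective f fun q q' hqq => ?_
    have h2 : D.t * ((Quotient.out q : cnt_O D).1 - (Quotient.out q' : cnt_O D).1) ∈ D.O := by
      have h3 := D.O.sub_mem (hf q) (hf q')
      rw [hqq] at h3
      have e2 : D.t * ((Quotient.out q : cnt_O D).1 - (f q').1) -
          D.t * ((Quotient.out q' : cnt_O D).1 - (f q').1) =
          D.t * ((Quotient.out q : cnt_O D).1 - (Quotient.out q' : cnt_O D).1) := by ring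
      rwa [e2] at h3
    rw [← Quotient.out_eq q, ← Quotient.out_eq q']
    refine QuotientAddGroup.eq.2 ?_
    rw [AddSubgroup.mem_addSubgroupOf, cnt_mem, neg_neg, zpow_one]
    have h4 := D.O.neg_mem h2
    have e3 : D.t • ((-Quotient.out q + Quotient.out q' : cnt_O D) : F) =
        -(D.t * ((Quotient.out q : cnt_O D).1 - (Quotient.out q' : cnt_O D).1)) := by
      push_cast
      rw [smul_eq_mul]
      ring
    rw [e3]
    exact h4
  exact AddSubgroup.index_ne_zero_of_finite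

theorem cnt_Q_ge [IsDomain A] : 2 ≤ cnt_Q D := by
  have h0 := cnt_Q_ne D
  have h1 : cnt_Q D ≠ 1 := by
    intro h
    have h2 : cnt_tw D.t 1 (cnt_O D) ≤ cnt_O D := AddSubgroup.relIndex_eq_one.1 h
    have ht : D.t ∈ D.O := by
      refine h2 ?_
      rw [cnt_mem, zpow_neg_one, smul_eq_mul, inv_mul_cancel₀ (cnt_t0 D)]
      exact D.O.one_mem
    obtain ⟨a, ha⟩ := D.dis
    have h3 := ha 1 (by
      rw [map_one, mul_one]
      exact D.O.pow_mem ht a)
    rw [map_one] at h3
    exact one_ne_zero h3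
  omega

/-- the standard lattice of a basis -/
def cnt_L {V : Type} [AddCommGroup V] [Module F V] {r : ℕ} (b : Module.Basis (Fin r) F V) :
    AddSubgroup V where
  carrier := {v | ∀ l, b.repr v l ∈ D.O}
  zero_mem' l := by
    rw [map_zero]
    exact D.O.zero_mem
  add_mem' {v w} hv hw l := by
    rw [map_add]
    exact D.O.add_mem (hv l) (hw l)
  neg_mem' {v} hv l := by
    rw [map_neg]
    exact D.O.neg_mem (hv l)

theorem cnt_L_le {V : Type} [AddCommGroup V] [Module F V] {r : ℕ} (b : Module.Basis (Fin r) F V) :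
    cnt_L D b ≤ cnt_tw D.t 1 (cnt_L D b) := by
  intro v hv l
  change b.repr (D.t ^ (-1 : ℤ) • v) l ∈ D.O
  rw [map_smul, zpow_neg_one]
  exact D.O.mul_mem (cnt_tO D) (hv l)

theorem cnt_L_index {V : Type} [AddCommGroup V] [Module F V] {r : ℕ}
    (b : Module.Basis (Fin r) F V) :
    (cnt_L D b).relIndex (cnt_tw D.t 1 (cnt_L D b)) = cnt_Q D ^ r := by
  let P : AddSubgroup F := cnt_tw D.t 1 (cnt_O D)
  let f : (Fin r → P) →+ V :=
    { toFun := fun c => b.equivFun.symm fun l => (c l : F)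
      map_zero' := by
        rw [← map_zero b.equivFun.symm]
        rfl
      map_add' := fun c c' => by
        rw [← map_add b.equivFun.symm]
        rfl }
  have hf : ∀ c l, b.repr (f c) l = c l := by
    intro c l
    change b.equivFun (b.equivFun.symm fun l => (c l : F)) l = _
    rw [LinearEquiv.apply_symm_apply]
  have h1 : f.range = cnt_tw D.t 1 (cnt_L D b) := by
    ext v
    constructor
    · rintro ⟨c, rfl⟩ l
      change b.repr (D.t ^ (-1 : ℤ) • f c) l ∈ D.O
      rw [map_smul]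
      change D.t ^ (-1 : ℤ) * b.repr (f c) l ∈ D.O
      rw [hf]
      exact (c l).2
    · intro hv
      have hv' : ∀ l, b.repr v l ∈ P := by
        intro l
        have := hv l
        change b.repr (D.t ^ (-1 : ℤ) • v) l ∈ D.O at this
        rw [map_smul] at this
        exact this
      refine ⟨fun l => ⟨b.repr v l, hv' l⟩, ?_⟩
      change b.equivFun.symm (b.equivFun v) = v
      exact b.equivFun.symm_apply_apply v
  have h2 : (cnt_L D b).comap f =
      AddSubgroup.pi Set.univ fun _ : Fin r => (cnt_O D).addSubgroupOf P := by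
    ext c
    rw [AddSubgroup.mem_comap, AddSubgroup.mem_pi]
    constructor
    · intro h l _
      have := h l
      rw [hf] at this
      exact this
    · intro h l
      rw [hf]
      exact h l trivial
  rw [← h1, ← AddSubgroup.index_comap, h2, AddSubgroup.index_pi, Finset.prod_const,
    Finset.card_univ, Fintype.card_fin]
  rfl

/-- `[t L : L] = Q ^ r` for all lattices -/
theorem cnt_lat {V : Type} [AddCommGroup V] [Module F V] (L : D.Lat V) :
    L.1 ≤ cnt_tw D.t 1 L.1 ∧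
      L.1.relIndex (cnt_tw D.t 1 L.1) = cnt_Q D ^ Module.finrank F V := by
  obtain ⟨hO, r, b, i, h1, h2⟩ := L.2
  have ht := cnt_t0 D
  have hle : L.1 ≤ cnt_tw D.t 1 L.1 := by
    intro v hv
    rw [cnt_mem, zpow_neg_one]
    exact hO _ (cnt_tO D) v hv
  refine ⟨hle, ?_⟩
  have hr : Module.finrank F V = r := by
    rw [Module.finrank_eq_card_basis b, Fintype.card_fin]
  rw [hr]
  have hs1 : cnt_tw D.t (-i) (cnt_L D b) ≤ L.1 := by
    intro v hv
    rw [cnt_mem, neg_neg, zpow_natCast] at hv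
    have := h1 _ hv
    rwa [inv_pow, inv_smul_smul₀ (pow_ne_zero _ ht)] at this
  have hs2 : L.1 ≤ cnt_tw D.t i (cnt_L D b) := by
    intro v hv l
    change b.repr (D.t ^ (-(i : ℤ)) • v) l ∈ D.O
    rw [map_smul, zpow_neg, zpow_natCast, ← inv_pow]
    exact h2 v hv l
  obtain ⟨L', hL'⟩ : ∃ L', L' = cnt_tw D.t i (cnt_L D b) := ⟨_, rfl⟩
  rw [← hL'] at hs2
  have hle' : L' ≤ cnt_tw D.t 1 L' := by
    rw [hL', cnt_tw_tw ht, add_comm, ← cnt_tw_tw ht]
    exact cnt_tw_mono _ _ (cnt_L_le D b)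
  have hi' : L'.relIndex (cnt_tw D.t 1 L') = cnt_Q D ^ r := by
    rw [hL', cnt_tw_tw ht, add_comm, ← cnt_tw_tw ht, cnt_relIndex_tw ht, cnt_L_index]
  have hne : L.1.relIndex L' ≠ 0 := by
    have h3 := (cnt_pow ht (cnt_L D b) (cnt_L_le D b) (-i) (2 * i)).2
    have e : (-(i : ℤ) + ((2 * i : ℕ) : ℤ)) = i := by
      push_cast
      ring
    rw [e, ← hL', cnt_L_index, ← AddSubgroup.relIndex_mul_relIndex _ _ _ hs1 hs2] at h3
    intro h4
    rw [h4, mul_zero] at h3
    exact pow_ne_zero _ (pow_ne_zero _ (cnt_Q_ne D)) h3.symm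
  have e1 := AddSubgroup.relIndex_mul_relIndex _ _ _ hs2 hle'
  have e2 := AddSubgroup.relIndex_mul_relIndex _ _ _ hle (cnt_tw_mono D.t 1 hs2)
  rw [cnt_relIndex_tw ht, ← e1, hi', mul_comm (L.1.relIndex L')] at e2
  exact Nat.eq_of_mul_eq_mul_right (Nat.pos_of_ne_zero hne) e2

end

theorem thm_Cnt : St_Cnt := by
  intro A F _ _ _ _ _ D
  have ht := cnt_t0 D
  obtain ⟨e, he⟩ := D.coc
  refine ⟨cnt_Q D, e, cnt_Q_ge D, ?_, ?_⟩
  · -- the sections of `O (j)`
    obtain ⟨a, ha⟩ := D.dis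
    let AA : AddSubgroup F := (algebraMap A F).toAddMonoidHom.range
    have hbot : AA ⊓ cnt_tw D.t (-a) (cnt_O D) = ⊥ := by
      rw [eq_bot_iff]
      rintro _ ⟨⟨x, rfl⟩, hx⟩
      change D.t ^ (-(-(a : ℤ))) * algebraMap A F x ∈ D.O at hx
      rw [neg_neg, zpow_natCast] at hx
      exact ha x hx
    have hfin : ∀ z : ℕ, Finite (AA ⊓ cnt_tw D.t z (cnt_O D) : AddSubgroup F) := by
      intro z
      have h1 := (cnt_pow ht (cnt_O D) (cnt_O_le D) (-a) (a + z)).2
      have e1 : (-(a : ℤ) + ((a + z : ℕ) : ℤ)) = z := by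
        push_cast
        ring
      rw [e1] at h1
      refine (cnt_card AA _ _ hbot ?_).1
      rw [h1]
      exact pow_ne_zero _ (cnt_Q_ne D)
    have hlow : ∀ i : ℕ, cnt_Q D ^ i ≤
        Nat.card (AA ⊓ cnt_tw D.t ((e + i : ℕ) : ℤ) (cnt_O D) : AddSubgroup F) := by
      intro i
      induction i with
      | zero =>
        rw [pow_zero]
        have := hfin (e + 0)
        exact Nat.card_pos
      | succ i ih =>
        obtain ⟨U, hU⟩ : ∃ U, U = AA ⊓ cnt_tw D.t ((e + i : ℕ) : ℤ) (cnt_O D) := ⟨_, rfl⟩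
        obtain ⟨U', hU'⟩ : ∃ U', U' = AA ⊓ cnt_tw D.t ((e + (i + 1) : ℕ) : ℤ) (cnt_O D) :=
          ⟨_, rfl⟩
        rw [← hU] at ih
        rw [← hU']
        have hstep := cnt_pow ht (cnt_O D) (cnt_O_le D) ((e + i : ℕ) : ℤ) 1
        have e1 : (((e + i : ℕ) : ℤ) + ((1 : ℕ) : ℤ)) = ((e + (i + 1) : ℕ) : ℤ) := by
          push_cast
          ring
        rw [e1, pow_one] at hstep
        obtain ⟨hs1, hs2⟩ := hstep
        have hle : U ≤ U' := by
          rw [hU, hU']
          exact inf_le_inf_left _ hs1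
        have h1 : U = U' ⊓ cnt_tw D.t ((e + i : ℕ) : ℤ) (cnt_O D) := by
          rw [hU, hU', inf_assoc, inf_eq_right.2 hs1]
        have h2 : cnt_tw D.t ((e + (i + 1) : ℕ) : ℤ) (cnt_O D) =
            U' ⊔ cnt_tw D.t ((e + i : ℕ) : ℤ) (cnt_O D) := by
          refine le_antisymm ?_ (sup_le (by rw [hU']; exact inf_le_right) hs1)
          intro v hv
          obtain ⟨x, u, hu, hxu⟩ := he v
          have h5 : D.t ^ e * u ∈ cnt_tw D.t ((e + i : ℕ) : ℤ) (cnt_O D) := by
            have h6 := (cnt_pow ht (cnt_O D) (cnt_O_le D) (e : ℤ) i).1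
            rw [← Nat.cast_add] at h6
            refine h6 ?_
            change D.t ^ (-(e : ℤ)) * (D.t ^ e * u) ∈ D.O
            rw [zpow_neg, zpow_natCast, inv_mul_cancel_left₀ (pow_ne_zero _ ht)]
            exact hu
          have h6 : algebraMap A F x ∈ U' := by
            rw [hU']
            refine ⟨⟨x, rfl⟩, ?_⟩
            have h7 : algebraMap A F x = v - D.t ^ e * u := by
              rw [hxu]
              change _ = algebraMap A F x + D.t ^ e * u - D.t ^ e * u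
              ring
            rw [h7]
            exact AddSubgroup.sub_mem _ hv (hs1 h5)
          rw [hxu]
          exact AddSubgroup.add_mem_sup h6 h5
        have h3 : U.relIndex U' = cnt_Q D := by
          rw [h1, inf_comm, AddSubgroup.inf_relIndex_right, ← AddSubgroup.relIndex_sup_right,
            ← h2, hs2]
          rfl
        have h4 := AddSubgroup.relIndex_mul_relIndex (⊥ : AddSubgroup F) U U' bot_le hle
        rw [AddSubgroup.relIndex_bot_left, AddSubgroup.relIndex_bot_left, h3] at h4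
        rw [← h4, pow_succ]
        exact Nat.mul_le_mul_right _ ih
    intro i
    have heq : {a : A | D.t⁻¹ ^ (e + i) * algebraMap A F a ∈ D.O} ≃
        (AA ⊓ cnt_tw D.t ((e + i : ℕ) : ℤ) (cnt_O D) : AddSubgroup F) := by
      have hm : ∀ x : A, D.t⁻¹ ^ (e + i) * algebraMap A F x ∈ D.O →
          algebraMap A F x ∈ (AA ⊓ cnt_tw D.t ((e + i : ℕ) : ℤ) (cnt_O D) : AddSubgroup F) := by
        intro x hx
        refine ⟨⟨x, rfl⟩, ?_⟩
        change D.t ^ (-((e + i : ℕ) : ℤ)) * algebraMap A F x ∈ D.O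
        rw [zpow_neg, zpow_natCast, ← inv_pow]
        exact hx
      refine Equiv.ofBijective (fun x => ⟨algebraMap A F x.1, hm x.1 x.2⟩) ⟨fun x y hxy => ?_, ?_⟩
      · exact Subtype.ext (IsFractionRing.injective A F (congrArg Subtype.val hxy))
      · rintro ⟨_, ⟨x, rfl⟩, hx⟩
        refine ⟨⟨x, ?_⟩, rfl⟩
        change D.t ^ (-((e + i : ℕ) : ℤ)) * algebraMap A F x ∈ D.O at hx
        rw [zpow_neg, zpow_natCast, ← inv_pow] at hx
        exact hx
    have h1 := hfin (e + i)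
    refine ⟨Finite.of_equiv _ heq.symm, ?_⟩
    rw [Nat.card_congr heq]
    exact hlow i
  · intro V _ _ _ _ _ M L _ hM j
    obtain ⟨h1, h2⟩ := cnt_lat D L
    have hbot : M.toAddSubgroup ⊓ cnt_tw D.t (-1) L.1 = ⊥ := by
      rw [eq_bot_iff]
      rintro v ⟨hv, hv'⟩
      exact hM v hv hv'
    have h3 := (cnt_pow ht L.1 h1 (-1) (j + 1)).2
    have e1 : (-1 + ((j + 1 : ℕ) : ℤ)) = j := by
      push_cast
      ring
    rw [e1, h2, ← pow_mul] at h3
    obtain ⟨h4, h5⟩ := cnt_card M.toAddSubgroup _ _ hbot (by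
      rw [h3]
      exact pow_ne_zero _ (cnt_Q_ne D))
    rw [h3] at h5
    have heq : {m : V | m ∈ M ∧ D.Mem j L m} ≃
        (M.toAddSubgroup ⊓ cnt_tw D.t (j : ℤ) L.1 : AddSubgroup V) :=
      Equiv.subtypeEquivRight fun x => Iff.rfl
    refine ⟨Finite.of_equiv _ heq.symm, ?_⟩
    rw [Nat.card_congr heq]
    exact h5

end Pool.Agent.GQ
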