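import Pool.Agent.GQ.StA
import Pool.Agent.FGK.KFG

/-!
# GQ, module EFG: the K-groups of an exact category with slender homology are finitely generated
-/

set_option autoImplicit false
set_option linter.unusedVariables false

noncomputable section

namespace Pool.Agent.GQ

open CategoryTheory CategoryTheory.Limits Function Pool.Agent.KQ Pool.Agent.FGK

universe u

/-- **EFG.** -/
theorem thm_EFG (hSl : St_Sl.{u + 1}) (hStr : St_fsStrong.{u + 1}) (hCl : St_ClE.{u})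
    (hZQ : St_ZQK.{u}) (hZP : St_ZPSl.{u + 1}) (hFT : St_FoxTriv.{u + 1})
    (hFS : St_FoxSl.{u + 1}) (hFG : St_FG2.{u + 1}) : St_EFG.{u} := by
  intro V hV n
  let κ := n + 3
  let X : SOb Pointed.{u + 1} := (SOb.mapF obF).obj ((itS Sd κ).obj V)
  have e : (DK κ).obj V ≅ frS X := (dIso Sd obF κ).app V
  have hT : SGp.Triv κ (frS X) :=
    kfg_triv e ((all_Low Sd ZcE kfg_zclass (obF ⋙ cF) kfg_triv0 κ V).2)
  have hX : ∀ j, HSl (undS X) j := by
    intro j
    have h1 := hCl V hV κ (by omega) 1 j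
    let Y : SSt.{u + 1} := obS.obj ((itS Sd κ).obj V)
    let p : Y.pow 1 ⟶ Y := ⟨fun n x => x 0, fun _ _ => rfl⟩
    let q : Y ⟶ Y.pow 1 := ⟨fun n x _ => x, fun _ _ => rfl⟩
    have hp : SAb.Weq (ZSmap p) := by
      refine prods_iso_weq (ZSmap p) (ZSmap q) ?_ ?_
      · rw [← prods_ZSmap_comp, show p ≫ q = 𝟙 _ from ?_, prods_ZSmap_id]
        apply SSt.hom_ext
        intro n x
        funext i
        rw [Subsingleton.elim i 0]
        rfl
      · rw [← prods_ZSmap_comp, show q ≫ p = 𝟙 _ from rfl, prods_ZSmap_id]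
    have h2 : HSl Y j := kfg_hsl hSl p hp j h1
    exact kfg_hsl hSl (zq ((itS Sd κ).obj V)) (hStr _ _ (hZQ κ (by omega) V)) j h2
  have h1 : SAb.Triv κ (ZP X) := hFT κ X hT
  have h2 := hZP X hX
  have h3 : ∀ j < 2 * κ, HSl (frS X).und j := fun j hj => hFS κ X hT h1 j hj (h2 j)
  have h4 := hFG κ (2 * κ) (frS X) (by omega) hT le_rfl h3 (2 * n + 2 + 1) (by omega)
  have h5 : Sl (((DK κ).obj V).Pi (2 * n + 2 + 1)) :=
    hSl.1 (SGp.PiEquiv e (2 * n + 2 + 1)).toMonoidHom (SGp.PiEquiv e (2 * n + 2 + 1)).injective h4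
  have h6 : Group.FG (((DK κ).obj V).Pi (2 * n + 2 + 1)) := ⟨h5 ⊤⟩
  exact inferInstanceAs (AddGroup.FG (Additive (((DK κ).obj V).Pi (2 * n + 2 + 1))))

end Pool.Agent.GQ
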