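import Pool.Agent.GQ.StB

/-!
# GQ [ExL]: every lattice over `A` has a bounded lattice over `O`
-/

set_option autoImplicit false
set_option linter.unusedVariables false

noncomputable section

namespace Pool.Agent.GQ

open CategoryTheory Function Pool.Agent.KQ Pool.Agent.FGK

section

variable {A F V : Type} [CommRing A] [Field F] [Algebra A F] [AddCommGroup V] [Module F V]

/-- the vectors whose coordinates vanish from the place `k` on -/
def exl_W {r : ℕ} (b : Module.Basis (Fin r) F V) (k : ℕ) : Submodule F V where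
  carrier := {v | ∀ l : Fin r, k ≤ (l : ℕ) → b.repr v l = 0}
  add_mem' {v w} hv hw l hl := by
    rw [map_add, Finsupp.add_apply, hv l hl, hw l hl, add_zero]
  zero_mem' l hl := by rw [map_zero]; rfl
  smul_mem' c v hv l hl := by
    rw [map_smul, Finsupp.smul_apply, hv l hl, smul_zero]

theorem exl_repr {r : ℕ} (b : Module.Basis (Fin r) F V) (x : F) (i l : Fin r) :
    b.repr (x • b i) l = if i = l then x else 0 := by
  rw [map_smul, Finsupp.smul_apply, b.repr_self, Finsupp.single_apply, smul_eq_mul]
  split_ifs <;> simp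

theorem exl_tne (D : CD A F) : D.t ≠ 0 := D.t0

end

/-- the numbers `z_i` -/
theorem exl_z (h1 : St_Lat1) (h2 : St_Lat2) {A F V : Type} [CommRing A] [IsDomain A] [Field F]
    [Algebra A F] [IsFractionRing A F] [AddCommGroup V] [Module F V] [FiniteDimensional F V]
    [Module A V] [IsScalarTower A F V] (D : CD A F) (M : Submodule A V) (hM : IsLatA F M)
    {r : ℕ} (b : Module.Basis (Fin r) F V) (i : Fin r) :
    ∃ z : ℤ, (∃ m ∈ M, m ∈ exl_W b (i + 1) ∧ b.repr m i ≠ 0 ∧ D.t ^ (-z) * b.repr m i ∈ D.O) ∧
      ∀ m ∈ M, m ∈ exl_W b (i + 1) → D.t ^ (-(z - 1)) * b.repr m i ∈ D.O → b.repr m i = 0 := by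
  obtain ⟨L, hL⟩ := (h1 A F V D).2.2.1 r b 0
  obtain ⟨-, -, -, h4, h5, -⟩ := h2 A F V D M L hM
  obtain ⟨a, ha⟩ := h4 (exl_W b (i + 1))
  obtain ⟨c, hc⟩ := h5 (exl_W b i)
  have hne : ∃ m ∈ M, m ∈ exl_W b (i + 1) ∧ b.repr m i ≠ 0 := by
    by_contra hcon
    push_neg at hcon
    have hall : ∀ f : F, D.t ^ (-a) * f ∈ D.O := by
      intro f
      have hw : f • b i ∈ exl_W b (i + 1) := by
        intro l hl
        rw [exl_repr, if_neg]
        rintro rfl
        omega
      obtain ⟨m, hm, hm', hm''⟩ := ha a le_rfl _ hw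
      have := (hL a _).1 hm'' i
      rw [map_sub, Finsupp.sub_apply, exl_repr, if_pos rfl, hcon m hm hm', sub_zero,
        Pi.zero_apply, add_zero] at this
      exact this
    obtain ⟨n, hn⟩ := D.dis
    have h6 := hn 1 (by
      have := hall (D.t ^ a * (D.t ^ n * 1))
      rw [← mul_assoc, ← zpow_add₀ (exl_tne D), neg_add_cancel, zpow_zero, one_mul] at this
      rw [map_one]
      exact this)
    rw [map_one] at h6
    exact one_ne_zero h6
  have hleast := Int.exists_least_of_bdd (P := fun z : ℤ => ∃ m ∈ M, m ∈ exl_W b (i + 1) ∧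
    b.repr m i ≠ 0 ∧ D.t ^ (-z) * b.repr m i ∈ D.O) ⟨c, ?_⟩ ?_
  · obtain ⟨z, hz, hz'⟩ := hleast
    refine ⟨z, hz, fun m hm hm' hm'' => ?_⟩
    by_contra h0
    have := hz' (z - 1) ⟨m, hm, hm', h0, hm''⟩
    omega
  · rintro z ⟨m, hm, hm', h0, h7⟩
    by_contra hcz
    refine h0 (hc z (by omega) m hm (b.repr m i • b i) ?_ ?_ i le_rfl)
    · rw [hL]
      intro l
      rw [exl_repr, Pi.zero_apply, add_zero]
      split_ifs with hil
      · exact h7
      · rw [mul_zero]
        exact D.O.zero_mem
    · intro l hl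
      rw [map_sub, Finsupp.sub_apply, exl_repr]
      split_ifs with hil
      · rw [hil, sub_self]
      · rw [hm' l (by
          have : (i : ℕ) ≠ l := fun h => hil (Fin.ext h)
          omega), sub_zero]
  · obtain ⟨m, hm, hm', h0⟩ := hne
    obtain ⟨j, hj⟩ := D.abs (b.repr m i)
    refine ⟨j, m, hm, hm', h0, ?_⟩
    rw [zpow_neg, zpow_natCast, ← inv_pow]
    exact hj

/-- **ExL** -/
theorem thm_ExL (h1 : St_Lat1) (h2 : St_Lat2) : St_ExL := by
  intro A F V _ _ _ _ _ _ _ _ _ _ D
  obtain ⟨e, he⟩ := D.coc
  refine ⟨e, fun M hM => ?_⟩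
  let b := Module.finBasis F V
  choose z hz hz' using exl_z h1 h2 D M hM b
  obtain ⟨L, hL⟩ := (h1 A F V D).2.2.1 _ b z
  refine ⟨L, fun m hm hmL => ?_, fun v => ?_⟩
  · by_contra hm0
    have hex : ∃ i, b.repr m i ≠ 0 := by
      by_contra hcon
      push_neg at hcon
      exact hm0 (b.repr.map_eq_zero_iff.1 (Finsupp.ext hcon))
    classical
    let S := Finset.univ.filter fun i => b.repr m i ≠ 0
    have hS : S.Nonempty := by
      obtain ⟨i, hi⟩ := hex
      exact ⟨i, by simp [S, hi]⟩
    have hi := S.max'_mem hS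
    rw [Finset.mem_filter] at hi
    refine hi.2 (hz' (S.max' hS) m hm (fun l hl => ?_) ?_)
    · by_contra hl0
      have := S.le_max' l (by simp [S, hl0])
      have : (l : ℕ) ≤ (S.max' hS : Fin _) := this
      omega
    · have := (hL _ _).1 hmL (S.max' hS)
      rw [show -(z (S.max' hS) - 1) = -(-1 + z (S.max' hS)) by ring]
      exact this
  · have key : ∀ k : ℕ, ∃ m ∈ M, ∀ l : Fin (Module.finrank F V),
        Module.finrank F V ≤ k + (l : ℕ) →
          D.t ^ (-((e : ℤ) + z l)) * b.repr (v - m) l ∈ D.O := by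
      intro k
      induction k with
      | zero =>
        refine ⟨0, M.zero_mem, fun l hl => ?_⟩
        have := l.2
        omega
      | succ k ih =>
        obtain ⟨m, hm, hml⟩ := ih
        by_cases hk : k < Module.finrank F V
        · let i : Fin (Module.finrank F V) := ⟨Module.finrank F V - (k + 1), by omega⟩
          obtain ⟨m1, hm1, hm1', h0, h3⟩ := hz i
          obtain ⟨a, u, hu, hau⟩ := he (b.repr (v - m) i / b.repr m1 i)
          have e1 : b.repr (v - m) i = algebraMap A F a * b.repr m1 i +
              D.t ^ e * u * b.repr m1 i := by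
            rw [div_eq_iff h0] at hau
            rw [hau]
            change (algebraMap A F a + D.t ^ e * u) * b.repr m1 i = _
            ring
          refine ⟨m + a • m1, M.add_mem hm (M.smul_mem a hm1), fun l hl => ?_⟩
          have e2 : b.repr (v - (m + a • m1)) l = b.repr (v - m) l -
              algebraMap A F a * b.repr m1 l := by
            rw [← sub_sub, map_sub, Finsupp.sub_apply, ← algebraMap_smul F a m1, map_smul,
              Finsupp.smul_apply, smul_eq_mul]
          rw [e2]
          by_cases hil : i = l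
          · subst hil
            rw [e1, add_sub_cancel_left]
            have e3 : D.t ^ (-((e : ℤ) + z i)) * (D.t ^ e * u * b.repr m1 i) =
                u * (D.t ^ (-z i) * b.repr m1 i) := by
              rw [neg_add, zpow_add₀ (exl_tne D), zpow_neg, zpow_natCast]
              have := pow_ne_zero e (exl_tne D)
              field_simp
            rw [e3]
            exact D.O.mul_mem hu h3
          · have hl' : (i : ℕ) < l := by
              have h5 : (i : ℕ) = Module.finrank F V - (k + 1) := rfl
              have h6 : (i : ℕ) ≠ l := fun h => hil (Fin.ext h)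
              omega
            rw [hm1' l hl', mul_zero, sub_zero]
            refine hml l ?_
            have h5 : (i : ℕ) = Module.finrank F V - (k + 1) := rfl
            omega
        · exact ⟨m, hm, fun l hl => hml l (by omega)⟩
    obtain ⟨m, hm, hml⟩ := key (Module.finrank F V)
    exact ⟨m, hm, (hL _ _).2 fun l => hml l (by omega)⟩

end Pool.Agent.GQ
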