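import Pool.Agent.GQ.StE
import Pool.Agent.GQ.FinLat

/-!
# GQ, FL: finitely many torsion-free modules in every rank
-/

set_option autoImplicit false
set_option linter.unusedVariables false

noncomputable section

namespace Pool.Agent.GQ

open CategoryTheory Function Pool.Agent.KQ Pool.Agent.FGK

/-- **FL** (`thm_FinLat` of helper38) -/
theorem thm_FL (hJZ : St_JZ) : St_FL := by
  intro A F _ _ _ _ _ _ D
  exact thm_FinLat hJZ A F D

end Pool.Agent.GQ
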