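import Pool.Agent.GQ.StT
import Pool.Agent.FGK.ZR
import Pool.Agent.FGK.FoxSl
import Pool.Agent.FGK.AbEx
import Pool.Agent.FGK.Sl

/-!
# GQ, part T: triples, excision, the quotients of the rank filtration (helper14)

`thm_Trip : St_Trip`, `thm_Filt (hPair : St_Pair) : St_Filt`.
-/

set_option autoImplicit false
set_option linter.unusedVariables false

noncomputable section

namespace Pool.Agent.GQ

open CategoryTheory CategoryTheory.Limits Function Pool.Agent.KQ Pool.Agent.FGK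

universe u

/-! ### triples and excision -/

/-- simplicial subsets with the same elements are equal -/
theorem filt_ext {X : SSt.{u}} {A B : SubS X} (h : ∀ n x, x ∈ A.s n ↔ x ∈ B.s n) : A = B := by
  obtain ⟨s, hs⟩ := A
  obtain ⟨t, ht⟩ := B
  have h1 : s = t := funext fun n => Set.ext (h n)
  subst h1
  rfl

/-- a degreewise bijective homomorphism in front of a short exact sequence -/
theorem filt_pre {X' X Y Z : SAb.{u}} (φ : X' ⟶ X) (hφ : ∀ n, Bijective (φ.app n)) (f : X ⟶ Y)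
    (g : Y ⟶ Z) (h : SAb.SES f g) : SAb.SES (φ ≫ f) g where
  inj n := (h.inj n).comp (hφ n).1
  ex n y := by
    rw [h.ex n y]
    constructor
    · rintro ⟨x, rfl⟩
      obtain ⟨x', rfl⟩ := (hφ n).2 x
      exact ⟨x', rfl⟩
    · rintro ⟨x, rfl⟩
      exact ⟨φ.app n x, rfl⟩
  surj := h.surj

theorem filt_1 (X : SSt.{u}) (A B C : SubS X) (hAB : ∀ n x, x ∈ A.s n → x ∈ B.s n)
    (hBC : ∀ n x, x ∈ B.s n → x ∈ C.s n) :
    ∃ (i : ZR B.S (subIn A B) ⟶ ZR C.S (subIn A C))
      (π : ZR C.S (subIn A C) ⟶ ZR C.S (subIn B C)), SAb.SES i π := by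
  have he : subUn (subIn A C) (subIn B C) = subIn B C :=
    filt_ext fun n x => ⟨fun h => h.elim (fun h1 => hAB n x.1 h1) id, Or.inr⟩
  have h1 := zr_1 C.S (subIn A C) (subIn B C)
  rw [he] at h1
  obtain ⟨i, π, h1⟩ := h1
  obtain ⟨k, hk⟩ : ∃ k : B.S ⟶ (subIn B C).S, ∀ n x, (k.app n x).1.1 = x.1 :=
    ⟨⟨fun n x => ⟨⟨x.1, hBC n x.1 x.2⟩, x.2⟩, fun _ _ => rfl⟩, fun _ _ => rfl⟩
  have h3 : ∀ n x, x ∈ (subIn A B).s n → k.app n x ∈ (subIn (subIn A C) (subIn B C)).s n := by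
    intro n x hx
    change (k.app n x).1.1 ∈ A.s n
    rw [hk]
    exact hx
  have h2 : ∀ n, Bijective ((zr_M (subIn A B) (subIn (subIn A C) (subIn B C)) k h3).app n) := by
    intro n
    refine zr_5b (subIn A B) (subIn (subIn A C) (subIn B C)) k h3 (fun n y _ => ?_)
      (fun n x hx => ?_) n
    · refine ⟨(⟨y.1.1, y.2⟩ : B.s n), Subtype.ext (Subtype.ext (hk n _)), fun x hx => ?_⟩
      have h4 : (k.app n x).1.1 = y.1.1 :=
        congrArg (fun z : (subIn B C).S.obj n => z.1.1) hx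
      exact Subtype.ext ((hk n x).symm.trans h4)
    · change (k.app n x).1.1 ∈ A.s n at hx
      rw [hk] at hx
      exact hx
  exact ⟨_, π, filt_pre _ h2 i π h1⟩

theorem filt_2 (X : SSt.{u}) (B C D : SubS X)
    (h1 : ∀ n x, x ∈ C.s n → (x ∈ B.s n ↔ x ∈ D.s n)) (h2 : ∀ n x, x ∈ D.s n ∨ x ∈ C.s n) :
    ∃ f : ZR C.S (subIn B C) ⟶ ZR X D, ∀ n, Bijective (f.app n) := by
  have h3 : ∀ n x, x ∈ (subIn B C).s n → C.ι.app n x ∈ D.s n :=
    fun n x hx => (h1 n x.1 x.2).1 hx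
  refine ⟨zr_M (subIn B C) D C.ι h3, fun n => ?_⟩
  refine zr_5b (subIn B C) D C.ι h3 (fun n y hy => ?_) (fun n x hx => (h1 n x.1 x.2).2 hx) n
  have hC : y ∈ C.s n := (h2 n y).resolve_left hy
  exact ⟨⟨y, hC⟩, rfl, fun x hx => Subtype.ext hx⟩

/-- **TRIP.** -/
theorem thm_Trip : St_Trip.{u} := ⟨filt_1, filt_2⟩

/-! ### transfer along degreewise bijections -/

theorem filt_AbEx : St_AbEx.{u} := thm_AbEx thm_Sl thm_Bd thm_Bd0

/-- the properties of the quotients -/
def filt_P (c : ℕ) (X : SAb.{u}) : Prop := SAb.Triv c X ∧ ∀ j, X.SlAt j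

theorem filt_src {c : ℕ} {X Y : SAb.{u}} (f : X ⟶ Y) (h : ∀ n, Bijective (f.app n))
    (hY : filt_P c Y) : filt_P c X := by
  have hw := foxsl_weq filt_AbEx f h
  refine ⟨fun j hj x => ?_, fun j => (thm_Sl.{u}).1 _ (hw j).1 (hY.2 j)⟩
  apply (hw j).1
  rw [map_one]
  exact hY.1 j hj _

theorem filt_tgt {c : ℕ} {X Y : SAb.{u}} (f : X ⟶ Y) (h : ∀ n, Bijective (f.app n))
    (hX : filt_P c X) : filt_P c Y := by
  have hw := foxsl_weq filt_AbEx f h
  refine ⟨fun j hj y => ?_, fun j => (thm_Sl.{u}).2.1 _ (hw j).2 (hX.2 j)⟩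
  obtain ⟨x, rfl⟩ := (hw j).2 y
  rw [hX.1 j hj x, map_one]

theorem filt_mid {c : ℕ} {X Y Z : SAb.{u}} (f : X ⟶ Y) (g : Y ⟶ Z) (h : SAb.SES f g)
    (hX : filt_P c X) (hZ : filt_P c Z) : filt_P c Y :=
  ⟨(filt_AbEx f g h c).1 hX.1 hZ.1, fun j =>
    (filt_AbEx f g h c).2.2.2.2.2.2.2.1 j (hX.2 j) (hZ.2 j)⟩

theorem filt_zero (c : ℕ) (X : SSt.{u}) (A : SubS X) (h : ∀ n x, x ∈ A.s n) :
    filt_P c (ZR X A) := by
  have h0 : ∀ (n : ℕ) (x : (ZR X A).obj n), x = 0 := by
    intro n x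
    obtain ⟨z, rfl⟩ := QuotientAddGroup.mk_surjective x
    refine (QuotientAddGroup.eq_zero_iff z).2 ((zr_mem (A.s n) z).2 fun y hy => ?_)
    exact absurd (h n y) hy
  exact ⟨foxsl_zero _ h0 c, fun j => foxsl_triv _ (j + 1) (foxsl_zero _ h0 _) (Nat.lt_succ_self j)⟩

/-! ### the filtration -/

section

variable {A F : Type} [CommRing A] [IsDomain A] [Field F] [Algebra A F] (r : ℕ)

/-- the diagrams of rank `≤ r` in those of rank `≤ r + 1` -/
def filt_B (A : Type) [CommRing A] [IsDomain A] (r : ℕ) : SubS (rkT A (r + 1)).S :=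
  subIn (rkT A r) (rkT A (r + 1))

/-- the modules in `S` -/
def filt_set (S : Set (Submodule A (Fin (r + 1) → F))) : Set (ModuleCat.{0} A) :=
  (fun M : Submodule A (Fin (r + 1) → F) => ModuleCat.of A M) '' S

/-- the diagrams with `rank D(0,n) ≤ r` or `D(0,n)` isomorphic to a module in `S` -/
def filt_Y (S : Set (Submodule A (Fin (r + 1) → F))) : SubS (rkT A (r + 1)).S :=
  clsT (r + 1) (isoIn (filt_set r S)) (isoIn_inv _)

theorem filt_mem_Y (S : Set (Submodule A (Fin (r + 1) → F))) (n : ℕ)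
    (D : (rkT A (r + 1)).S.obj n) : D ∈ (filt_Y r S).s n ↔
      Module.finrank A (topT D.1) < r + 1 ∨ ∃ M ∈ S, Nonempty (topT D.1 ≃ₗ[A] M) := by
  constructor
  · rintro (h | ⟨N, ⟨M, hM, rfl⟩, h⟩)
    · exact Or.inl h
    · exact Or.inr ⟨M, hM, h⟩
  · rintro (h | ⟨M, hM, h⟩)
    · exact Or.inl h
    · exact Or.inr ⟨ModuleCat.of A M, ⟨M, hM, rfl⟩, h⟩

theorem filt_mem_B (n : ℕ) (D : (rkT A (r + 1)).S.obj n) : D ∈ (filt_B A r).s n ↔
      Module.finrank A (topT D.1) < r + 1 := Nat.lt_succ_iff.symm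

theorem filt_insert [IsNoetherianRing A] [IsFractionRing A F] (hPair : St_Pair) (hsl : SlLat A F)
    (S : Set (Submodule A (Fin (r + 1) → F))) (M : Submodule A (Fin (r + 1) → F))
    (hM : IsLatA F M)
    (ih : filt_P (r + 1) (ZR (filt_Y r S).S (subIn (filt_B A r) (filt_Y r S)))) :
    filt_P (r + 1) (ZR (filt_Y r (insert M S)).S
      (subIn (filt_B A r) (filt_Y r (insert M S)))) := by
  by_cases hex : ∃ M' ∈ S, Nonempty (M ≃ₗ[A] M')
  · obtain ⟨M', hM', ⟨e⟩⟩ := hex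
    have h1 : filt_Y r (insert M S) = filt_Y r S := by
      refine filt_ext fun n D => ?_
      rw [filt_mem_Y, filt_mem_Y]
      refine or_congr Iff.rfl ⟨?_, ?_⟩
      · rintro ⟨N, hN, h⟩
        rcases hN with rfl | hN
        · exact ⟨M', hM', h.map fun e' => e'.trans e⟩
        · exact ⟨N, hN, h⟩
      · rintro ⟨N, hN, h⟩
        exact ⟨N, Or.inr hN, h⟩
    rw [h1]
    exact ih
  · obtain ⟨i, π, hs⟩ := filt_1 (rkT A (r + 1)).S (filt_B A r) (filt_Y r S)
      (filt_Y r (insert M S))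
      (fun n D hD => (filt_mem_Y r S n D).2 (Or.inl ((filt_mem_B r n D).1 hD)))
      (fun n D hD => (filt_mem_Y r _ n D).2 (((filt_mem_Y r S n D).1 hD).imp id
        fun ⟨N, hN, h⟩ => ⟨N, Or.inr hN, h⟩))
    refine filt_mid i π hs ih ?_
    obtain ⟨f, hf⟩ := filt_2 (rkT A (r + 1)).S (filt_Y r S) (filt_Y r (insert M S))
      (clsT (r + 1) (notIso (ModuleCat.of A M)) (notIso_inv _))
      (fun n D hD => by
        rw [filt_mem_Y] at hD ⊢
        constructor
        · rintro (h | ⟨N, hN, ⟨e⟩⟩)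
          · exact Or.inl h
          · refine Or.inr ?_
            rintro ⟨e'⟩
            exact hex ⟨N, hN, ⟨(show topT D.1 ≃ₗ[A] M from e').symm.trans e⟩⟩
        · rintro (h | h)
          · exact Or.inl h
          · rcases hD with h' | ⟨N, hN, h'⟩
            · exact Or.inl h'
            · rcases hN with rfl | hN
              · exact absurd h' h
              · exact Or.inr ⟨N, hN, h'⟩)
      (fun n D => by
        rw [filt_mem_Y]
        by_cases h : Nonempty (topT D.1 ≃ₗ[A] M)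
        · exact Or.inr (Or.inr ⟨M, Or.inl rfl, h⟩)
        · exact Or.inl (Or.inr h))
    refine filt_src f hf ?_
    have key : ∀ R, R = r + 1 → (SAb.Triv R (ZR (rkT A R).S
        (clsT R (notIso (ModuleCat.of A M)) (notIso_inv _))) ∧
        (StSl F M → ∀ j, (ZR (rkT A R).S
          (clsT R (notIso (ModuleCat.of A M)) (notIso_inv _))).SlAt j)) →
        filt_P (r + 1) (ZR (rkT A (r + 1)).S
          (clsT (r + 1) (notIso (ModuleCat.of A M)) (notIso_inv _))) := by
      rintro _ rfl h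
      exact ⟨h.1, h.2 (hsl (r + 1) (by omega) M hM)⟩
    exact key _ (Module.finrank_fin_fun F) (hPair A F (Fin (r + 1) → F) M hM)

end

/-- **FILT.** -/
theorem thm_Filt (hPair : St_Pair) : St_Filt := by
  intro A F _ _ _ _ _ _ hfin hsl r
  obtain ⟨S, hS, hlat, hall⟩ := hfin (r + 1) (by omega)
  have claim : ∀ S : Set (Submodule A (Fin (r + 1) → F)), S.Finite →
      (∀ M ∈ S, IsLatA F M) →
      filt_P (r + 1) (ZR (filt_Y r S).S (subIn (filt_B A r) (filt_Y r S))) := by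
    intro S hS
    induction S, hS using Set.Finite.induction_on with
    | empty =>
      intro _
      refine filt_zero _ _ _ fun n D => ?_
      have h := (filt_mem_Y r ∅ n D.1).1 D.2
      rcases h with h | ⟨M, hM, -⟩
      · exact (filt_mem_B r n D.1).2 h
      · exact absurd hM (Set.notMem_empty M)
    | @insert M S _ _ ih =>
      intro h
      exact filt_insert r hPair hsl S M (h M (Set.mem_insert _ _))
        (ih fun M' hM' => h M' (Set.mem_insert_of_mem _ hM'))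
  have h1 := claim S hS hlat
  obtain ⟨f, hf⟩ := filt_2 (rkT A (r + 1)).S (filt_B A r) (filt_Y r S) (filt_B A r)
    (fun n D _ => Iff.rfl) (fun n D => by
      rw [filt_mem_Y, filt_mem_B]
      have h2 : Module.finrank A (topT D.1) ≤ r + 1 := D.2
      rcases Nat.lt_or_ge (Module.finrank A (topT D.1)) (r + 1) with h3 | h3
      · exact Or.inl h3
      · exact Or.inr (Or.inr (hall (topT D.1) (entT_finite _ _) (entT_tf _ _)
          (le_antisymm h2 h3))))
  exact filt_tgt f hf h1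

end Pool.Agent.GQ
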