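import Pool.Agent.GQ.StB

/-!
# GQ, FinP: finitely many isomorphism classes of bounded pairs (helper14)

`thm_FinP (hLat : St_Lat1) (hCnt : St_Cnt) : St_FinP`.
-/

set_option autoImplicit false
set_option linter.unusedVariables false
set_option linter.unusedSectionVars false

noncomputable section

namespace Pool.Agent.GQ

open CategoryTheory Function Pool.Agent.KQ Pool.Agent.FGK

section

variable {A F V : Type} [CommRing A] [IsDomain A] [Field F] [Algebra A F]
  [IsFractionRing A F] [AddCommGroup V] [Module F V] [FiniteDimensional F V] [Module A V]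
  [IsScalarTower A F V] (D : CD A F)

theorem finp_t0 : D.t ≠ 0 := D.t0

/-! ### `t ^ z L` -/

theorem finp_add {z : ℤ} {L : D.Lat V} {v w : V} (hv : D.Mem z L v) (hw : D.Mem z L w) :
    D.Mem z L (v + w) := by
  unfold CD.Mem at *
  rw [smul_add]
  exact L.1.add_mem hv hw

theorem finp_neg {z : ℤ} {L : D.Lat V} {v : V} (hv : D.Mem z L v) : D.Mem z L (-v) := by
  unfold CD.Mem at *
  rw [smul_neg]
  exact L.1.neg_mem hv

theorem finp_sub {z : ℤ} {L : D.Lat V} {v w : V} (hv : D.Mem z L v) (hw : D.Mem z L w) :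
    D.Mem z L (v - w) := by
  rw [sub_eq_add_neg]
  exact finp_add D hv (finp_neg D hw)

theorem finp_zero (z : ℤ) (L : D.Lat V) : D.Mem z L (0 : V) := by
  unfold CD.Mem
  rw [smul_zero]
  exact L.1.zero_mem

theorem finp_zpow {y z : ℤ} {L : D.Lat V} {v : V} (hv : D.Mem z L v) :
    D.Mem (z + y) L (D.t ^ y • v) := by
  unfold CD.Mem at *
  rw [smul_smul, ← zpow_add₀ (finp_t0 D), show -(z + y) + y = -z by ring]
  exact hv

theorem finp_t {z : ℤ} {L : D.Lat V} {v : V} (hv : D.Mem z L v) :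
    D.Mem (z + 1) L (D.t • v) := by
  have h := finp_zpow D (y := 1) hv
  rwa [zpow_one] at h

theorem finp_tinv {z : ℤ} {L : D.Lat V} {v : V} (hv : D.Mem z L v) :
    D.Mem (z - 1) L (D.t⁻¹ • v) := by
  have h := finp_zpow D (y := -1) hv
  rwa [zpow_neg_one] at h

theorem finp_O {z : ℤ} {L : D.Lat V} {v : V} {x : F} (hx : x ∈ D.O) (hv : D.Mem z L v) :
    D.Mem z L (x • v) := by
  unfold CD.Mem at *
  rw [smul_comm]
  exact L.2.1 x hx _ hv

theorem finp_tt (x : V) : D.t • D.t⁻¹ • x = x := smul_inv_smul₀ (finp_t0 D) x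

theorem finp_tA (x : V) : D.τ • x = D.t • x := (algebraMap_smul F D.τ x).symm

/-! ### the scalars -/

/-- `S = A ∩ t ^ E O` -/
def finp_S (E : ℕ) : AddSubgroup A where
  carrier := {a | D.t⁻¹ ^ E * algebraMap A F a ∈ D.O}
  add_mem' {a b} ha hb := by
    change _ * _ ∈ D.O
    rw [map_add, mul_add]
    exact D.O.add_mem ha hb
  zero_mem' := by
    change _ * _ ∈ D.O
    rw [map_zero, mul_zero]
    exact D.O.zero_mem
  neg_mem' {a} ha := by
    change _ * _ ∈ D.O
    rw [map_neg, mul_neg]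
    exact D.O.neg_mem ha

theorem finp_S_smul {E : ℕ} {a : A} (ha : a ∈ finp_S D E) {z : ℤ} {L : D.Lat V} {v : V}
    (hv : D.Mem z L v) : D.Mem (z + E) L (a • v) := by
  have h1 := finp_zpow D (y := (E : ℤ)) (finp_O D (x := D.t⁻¹ ^ E * algebraMap A F a) ha hv)
  rw [smul_smul, ← mul_assoc, zpow_natCast, ← mul_pow, mul_inv_cancel₀ (finp_t0 D), one_pow,
    one_mul, algebraMap_smul] at h1
  exact h1

/-! ### the finite groups `M ∩ t ^ j L` -/

/-- `M ∩ t ^ j L` -/
def finp_U (M : Submodule A V) (L : D.Lat V) (j : ℕ) : AddSubgroup V where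
  carrier := {m | m ∈ M ∧ D.Mem j L m}
  add_mem' ha hb := ⟨M.add_mem ha.1 hb.1, finp_add D ha.2 hb.2⟩
  zero_mem' := ⟨M.zero_mem, finp_zero D _ L⟩
  neg_mem' ha := ⟨M.neg_mem ha.1, finp_neg D ha.2⟩

theorem finp_S_U {M : Submodule A V} {L : D.Lat V} {E j : ℕ} {a : A} (ha : a ∈ finp_S D E)
    {v : V} (hv : v ∈ finp_U D M L j) : a • v ∈ finp_U D M L (j + E) :=
  ⟨M.smul_mem a hv.1, by
    have := finp_S_smul D ha hv.2
    push_cast
    exact this⟩

/-- bounded pairs -/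
def finp_Good (b : ℕ) (M : Submodule A V) (L : D.Lat V) : Prop :=
  IsLatA F M ∧ (∀ m ∈ M, D.Mem (-1) L m → m = 0) ∧ ∀ v, ∃ m ∈ M, D.Mem b L (v - m)

variable {D}

theorem finp_mono (hLat : St_Lat1) {L : D.Lat V} {y z : ℤ} {v : V} (h : y ≤ z)
    (hv : D.Mem y L v) : D.Mem z L v := (hLat A F V D).1 L y z v h hv

/-- (p2) -/
theorem finp_gen (hLat : St_Lat1) {b : ℕ} {M : Submodule A V} {L : D.Lat V}
    (h : finp_Good D b M L) (k : ℕ) : ∀ m ∈ M, D.Mem ((b : ℤ) + 1 + k) L m →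
      m ∈ Submodule.span A (finp_U D M L (b + 1) : Set V) := by
  induction k with
  | zero =>
    intro m hm h1
    refine Submodule.subset_span ⟨hm, ?_⟩
    push_cast
    rw [Nat.cast_zero, add_zero] at h1
    exact h1
  | succ k ih =>
    intro m hm h1
    obtain ⟨n, hn, h2⟩ := h.2.2 (D.t⁻¹ • m)
    have h3 : D.Mem ((b : ℤ) + 1 + k) L (D.t⁻¹ • m) := by
      have := finp_tinv D h1
      rwa [show (b : ℤ) + 1 + ((k + 1 : ℕ) : ℤ) - 1 = (b : ℤ) + 1 + k by push_cast; ring] at this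
    have h4 : D.Mem ((b : ℤ) + 1 + k) L n := by
      have := finp_sub D h3 (finp_mono hLat (z := (b : ℤ) + 1 + k) (by omega) h2)
      rwa [sub_sub_cancel] at this
    have h5 : D.Mem ((b : ℤ) + 1 + k) L (D.t • (D.t⁻¹ • m - n)) :=
      finp_mono hLat (by omega) (finp_t D h2)
    have h6 : D.t • (D.t⁻¹ • m - n) = m - D.τ • n := by
      rw [smul_sub, finp_tt, finp_tA]
    rw [h6] at h5
    have h7 := ih (m - D.τ • n) (M.sub_mem hm (M.smul_mem _ hn)) h5
    have h8 := Submodule.add_mem _ h7 (Submodule.smul_mem _ D.τ (ih n hn h4))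
    rwa [sub_add_cancel] at h8

theorem finp_span (hLat : St_Lat1) {b : ℕ} {M : Submodule A V} {L : D.Lat V}
    (h : finp_Good D b M L) {m : V} (hm : m ∈ M) :
      m ∈ Submodule.span A (finp_U D M L (b + 1) : Set V) := by
  obtain ⟨z, hz⟩ := (hLat A F V D).2.2.2.2.1 L m
  exact finp_gen hLat h z.toNat m hm (finp_mono hLat (by omega) hz)

theorem finp_spanF (hLat : St_Lat1) {b : ℕ} {M : Submodule A V} {L : D.Lat V}
    (h : finp_Good D b M L) : Submodule.span F (finp_U D M L (b + 1) : Set V) = ⊤ := by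
  rw [eq_top_iff, ← h.1.2, Submodule.span_le]
  intro m hm
  have h1 := finp_span hLat h hm
  refine Submodule.span_induction (p := fun x _ => x ∈ Submodule.span F
    (finp_U D M L (b + 1) : Set V)) ?_ ?_ ?_ ?_ h1
  · exact fun x hx => Submodule.subset_span hx
  · exact Submodule.zero_mem _
  · exact fun x y _ _ hx hy => Submodule.add_mem _ hx hy
  · intro a x _ hx
    rw [← algebraMap_smul F a x]
    exact Submodule.smul_mem _ _ hx

/-- the generators `t ^ (-i) u` -/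
def finp_C (D : CD A F) (M : Submodule A V) (L : D.Lat V) (j : ℕ) : Set V :=
  {x : V | ∃ (i : ℕ) (u : V), u ∈ finp_U D M L j ∧ x = D.t⁻¹ ^ i • u}

theorem finp_clos {M : Submodule A V} {L : D.Lat V} {j : ℕ} {w : V}
    (hw : w ∈ AddSubgroup.closure (finp_C D M L j)) :
    D.t⁻¹ • w ∈ AddSubgroup.closure (finp_C D M L j) := by
  induction hw using AddSubgroup.closure_induction with
  | mem x hx =>
    obtain ⟨i, u, hu, rfl⟩ := hx
    refine AddSubgroup.subset_closure ⟨i + 1, u, hu, ?_⟩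
    rw [smul_smul, ← pow_succ']
  | zero => rw [smul_zero]; exact AddSubgroup.zero_mem _
  | add x y _ _ hx hy => rw [smul_add]; exact AddSubgroup.add_mem _ hx hy
  | neg x _ hx => rw [smul_neg]; exact AddSubgroup.neg_mem _ hx

/-- (p1) -/
theorem finp_app (hLat : St_Lat1) {b : ℕ} {M : Submodule A V} {L : D.Lat V}
    (h : finp_Good D b M L) (n : ℕ) : ∀ v : V, D.Mem ((b : ℤ) + 1) L v →
      ∃ w ∈ AddSubgroup.closure (finp_C D M L (b + 1)),
        D.Mem ((b : ℤ) + 1 - n) L (v - w) := by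
  induction n with
  | zero =>
    intro v hv
    refine ⟨0, AddSubgroup.zero_mem _, ?_⟩
    rw [sub_zero, Nat.cast_zero, sub_zero]
    exact hv
  | succ n ih =>
    intro v hv
    obtain ⟨u, hu, h1⟩ := h.2.2 v
    have hu2 : D.Mem ((b : ℤ) + 1) L u := by
      have := finp_sub D hv (finp_mono hLat (z := (b : ℤ) + 1) (by omega) h1)
      rwa [sub_sub_cancel] at this
    obtain ⟨w, hw, h2⟩ := ih (D.t • (v - u)) (finp_t D h1)
    refine ⟨u + D.t⁻¹ • w, ?_, ?_⟩
    · refine AddSubgroup.add_mem _ (AddSubgroup.subset_closure ⟨0, u, ⟨hu, ?_⟩, ?_⟩)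
        (finp_clos hw)
      · push_cast
        exact hu2
      · rw [pow_zero, one_smul]
    · have h3 := finp_tinv D h2
      rw [smul_sub, inv_smul_smul₀ (finp_t0 D)] at h3
      rw [← sub_sub]
      rwa [show (b : ℤ) + 1 - ((n + 1 : ℕ) : ℤ) = (b : ℤ) + 1 - n - 1 by push_cast; ring]

/-! ### linear maps -/

theorem finp_comm (hLat : St_Lat1) (g : V ≃ₗ[F] V) (L L' : D.Lat V) :
    ∃ n : ℕ, ∀ (z : ℤ) (v : V), D.Mem z L v → D.Mem (z + n) L' (g v) := by
  have B := Module.finBasis F V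
  obtain ⟨i, -, h1⟩ := (hLat A F V D).2.1 L _ B
  obtain ⟨i', h2, -⟩ := (hLat A F V D).2.1 L' _ (B.map g)
  refine ⟨i + i', fun z v hv => ?_⟩
  have h3 : D.Mem i' L' (D.t ^ (-(z + i)) • g v) := by
    refine h2 _ fun l => ?_
    rw [map_smul, Finsupp.smul_apply, Module.Basis.map_repr, LinearEquiv.trans_apply,
      LinearEquiv.symm_apply_apply]
    exact h1 z v hv l
  have h4 := finp_zpow D (y := z + i) h3
  rw [smul_smul, ← zpow_add₀ (finp_t0 D), add_neg_cancel, zpow_zero, one_smul] at h4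
  rwa [show (z : ℤ) + ((i + i' : ℕ) : ℤ) = i' + (z + i) by push_cast; ring]

theorem finp_half (hLat : St_Lat1) {b : ℕ} {M M' : Submodule A V} {L L' : D.Lat V}
    (h : finp_Good D b M L) (g : V ≃ₗ[F] V)
    (hg : ∀ u ∈ finp_U D M L (b + 1), g u ∈ finp_U D M' L' (b + 1)) :
    (∀ m ∈ M, g m ∈ M') ∧ ∀ v ∈ L.1, g v ∈ L'.1 := by
  constructor
  · intro m hm
    refine Submodule.span_induction (p := fun x _ => g x ∈ M') ?_ ?_ ?_ ?_ (finp_span hLat h hm)
    · exact fun x hx => (hg x hx).1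
    · rw [map_zero]; exact M'.zero_mem
    · intro x y _ _ hx hy
      rw [map_add]
      exact M'.add_mem hx hy
    · intro a x _ hx
      rw [← algebraMap_smul F a x, map_smul, algebraMap_smul]
      exact M'.smul_mem _ hx
  · intro v hv
    obtain ⟨n, hn⟩ := finp_comm hLat g L L'
    have h0 : D.Mem 0 L v := by
      unfold CD.Mem
      rw [neg_zero, zpow_zero, one_smul]
      exact hv
    have h1 := finp_zpow D (y := (b : ℤ) + 1) h0
    rw [zero_add] at h1
    obtain ⟨w, hw, h2⟩ := finp_app hLat h n _ h1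
    have h3 : D.Mem ((b : ℤ) + 1) L' (g w) := by
      clear h2
      induction hw using AddSubgroup.closure_induction with
      | mem x hx =>
        obtain ⟨i, u, hu, rfl⟩ := hx
        rw [map_smul]
        have h4 := (hg u hu).2
        push_cast at h4
        exact finp_O D (D.O.pow_mem D.tO i) h4
      | zero => rw [map_zero]; exact finp_zero D _ L'
      | add x y _ _ hx hy => rw [map_add]; exact finp_add D hx hy
      | neg x _ hx => rw [map_neg]; exact finp_neg D hx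
    have h5 := hn _ _ h2
    rw [sub_add_cancel] at h5
    have h6 := finp_add D h5 h3
    rw [← map_add, sub_add_cancel, map_smul] at h6
    have h7 := finp_zpow D (y := -((b : ℤ) + 1)) h6
    rw [smul_smul, ← zpow_add₀ (finp_t0 D), neg_add_cancel, zpow_zero, one_smul,
      add_neg_cancel] at h7
    unfold CD.Mem at h7
    rwa [neg_zero, zpow_zero, one_smul] at h7

/-- the isomorphism of pairs from a linear isomorphism -/
theorem finp_iso (hLat : St_Lat1) {b : ℕ} {M M' : Submodule A V} {L L' : D.Lat V}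
    (h : finp_Good D b M L) (h' : finp_Good D b M' L') (g : V ≃ₗ[F] V)
    (hg : ∀ u ∈ finp_U D M L (b + 1), g u ∈ finp_U D M' L' (b + 1))
    (hg' : ∀ u ∈ finp_U D M' L' (b + 1), g.symm u ∈ finp_U D M L (b + 1)) :
    (∀ v, g v ∈ M' ↔ v ∈ M) ∧ L' = D.latG g L := by
  obtain ⟨h1, h2⟩ := finp_half hLat h g hg
  obtain ⟨h3, h4⟩ := finp_half hLat h' g.symm hg'
  refine ⟨fun v => ⟨fun hv => ?_, h1 v⟩, Subtype.ext (AddSubgroup.ext fun v => ?_)⟩
  · have := h3 _ hv
    rwa [g.symm_apply_apply] at this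
  · rw [CD.mem_latG]
    constructor
    · exact h4 v
    · intro hv
      have := h2 _ hv
      rwa [g.apply_symm_apply] at this

/-! ### counting -/

/-- the linear relation -/
theorem finp_rel {b E i r : ℕ} {M : Submodule A V} {L : D.Lat V} {Q : ℕ} (hQ : 2 ≤ Q)
    (hi : (b + 1 + E + 1) * r < i * (r + 1))
    (hS : (finp_S D E : Set A).Finite) (hSc : Q ^ i ≤ Nat.card (finp_S D E))
    (hU : (finp_U D M L (b + 1 + E) : Set V).Finite)
    (hUc : Nat.card (finp_U D M L (b + 1 + E)) ≤ Q ^ (r * (b + 1 + E + 1)))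
    (v : Fin r → V) (hv : ∀ l, v l ∈ finp_U D M L (b + 1)) (hli : LinearIndependent F v)
    (u : V) (hu : u ∈ finp_U D M L (b + 1)) :
    ∃ (a : A) (c : Fin r → A), a ≠ 0 ∧ a ∈ finp_S D E ∧ (∀ l, c l ∈ finp_S D E) ∧
      a • u = ∑ l, c l • v l := by
  have hfS : Finite (finp_S D E) := hS.to_subtype
  have hfU : Finite (finp_U D M L (b + 1 + E)) := hU.to_subtype
  have hmem : ∀ (x : finp_S D E × (Fin r → finp_S D E)),
      (x.1.1 • u - ∑ l, (x.2 l).1 • v l) ∈ finp_U D M L (b + 1 + E) := by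
    intro x
    refine AddSubgroup.sub_mem _ (finp_S_U D x.1.2 hu) (AddSubgroup.sum_mem _ fun l _ => ?_)
    exact finp_S_U D (x.2 l).2 (hv l)
  have hcard : Nat.card (finp_U D M L (b + 1 + E)) <
      Nat.card (finp_S D E × (Fin r → finp_S D E)) := by
    rw [Nat.card_prod, Nat.card_fun, Nat.card_eq_fintype_card (α := Fin r), Fintype.card_fin,
      ← pow_succ']
    refine lt_of_le_of_lt hUc (lt_of_lt_of_le ?_ (Nat.pow_le_pow_left hSc _))
    rw [← pow_mul]
    exact Nat.pow_lt_pow_right (by omega) (by rwa [mul_comm r])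
  have hninj : ¬ Injective (fun x : finp_S D E × (Fin r → finp_S D E) =>
      (⟨_, hmem x⟩ : finp_U D M L (b + 1 + E))) := by
    intro hinj
    exact absurd (Nat.card_le_card_of_injective _ hinj) (by omega)
  obtain ⟨x, y, hxy, hne⟩ : ∃ x y : finp_S D E × (Fin r → finp_S D E),
      (⟨_, hmem x⟩ : finp_U D M L (b + 1 + E)) = ⟨_, hmem y⟩ ∧ x ≠ y := by
    by_contra hc
    push Not at hc
    exact hninj fun x y h => hc x y h
  have h1 : x.1.1 • u - ∑ l, (x.2 l).1 • v l = y.1.1 • u - ∑ l, (y.2 l).1 • v l :=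
    congrArg Subtype.val hxy
  have h2 : (x.1.1 - y.1.1) • u = ∑ l, ((x.2 l).1 - (y.2 l).1) • v l := by
    simp only [sub_smul, Finset.sum_sub_distrib]
    rw [sub_eq_sub_iff_sub_eq_sub] at h1
    exact h1
  refine ⟨x.1.1 - y.1.1, fun l => (x.2 l).1 - (y.2 l).1, fun h0 => ?_,
    AddSubgroup.sub_mem _ x.1.2 y.1.2, fun l => AddSubgroup.sub_mem _ (x.2 l).2 (y.2 l).2, h2⟩
  rw [h0, zero_smul] at h2
  apply hne
  have h3 : ∀ l, algebraMap A F ((x.2 l).1 - (y.2 l).1) = 0 := by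
    refine Fintype.linearIndependent_iff.1 hli _ ?_
    rw [h2]
    exact Finset.sum_congr rfl fun l _ => algebraMap_smul F _ _
  refine Prod.ext (Subtype.ext (sub_eq_zero.1 h0)) (funext fun l => Subtype.ext ?_)
  have h4 := h3 l
  rw [map_eq_zero_iff _ (IsFractionRing.injective A F)] at h4
  exact sub_eq_zero.1 h4

theorem finp_U_mono (hLat : St_Lat1) {M : Submodule A V} {L : D.Lat V} {j k : ℕ} (hjk : j ≤ k)
    {v : V} (hv : v ∈ finp_U D M L j) : v ∈ finp_U D M L k :=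
  ⟨hv.1, finp_mono hLat (by exact_mod_cast hjk) hv.2⟩

/-- an additive map which respects the scalars in `S` comes from a linear map -/
theorem finp_lin (hLat : St_Lat1) {b E i : ℕ} {M : Submodule A V} {L : D.Lat V} {Q : ℕ}
    (h : finp_Good D b M L) (hQ : 2 ≤ Q)
    (hi : (b + 1 + E + 1) * Module.finrank F V < i * (Module.finrank F V + 1))
    (hS : (finp_S D E : Set A).Finite) (hSc : Q ^ i ≤ Nat.card (finp_S D E))
    (hU : (finp_U D M L (b + 1 + E) : Set V).Finite)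
    (hUc : Nat.card (finp_U D M L (b + 1 + E)) ≤
      Q ^ (Module.finrank F V * (b + 1 + E + 1)))
    (φ : finp_U D M L (b + 1 + E) →+ V)
    (hact : ∀ a ∈ finp_S D E, ∀ u w : finp_U D M L (b + 1 + E), u.1 ∈ finp_U D M L (b + 1) →
      w.1 = a • u.1 → φ w = a • φ u) :
    ∃ g : V →ₗ[F] V, ∀ u : finp_U D M L (b + 1 + E), u.1 ∈ finp_U D M L (b + 1) →
      g u.1 = φ u := by
  have hsp := finp_spanF hLat h
  obtain ⟨v, hv, hvs, hli⟩ := Submodule.exists_fun_fin_finrank_span_eq F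
    (finp_U D M L (b + 1) : Set V)
  have hr : Module.finrank F (Submodule.span F (finp_U D M L (b + 1) : Set V)) =
      Module.finrank F V := by
    rw [hsp]
    exact finrank_top F V
  have hv' : ∀ l, v l ∈ finp_U D M L (b + 1 + E) := fun l =>
    finp_U_mono hLat (by omega) (hv l)
  have B := Module.Basis.mk hli (by rw [hvs, hsp])
  obtain ⟨g, hg⟩ : ∃ g : V →ₗ[F] V, ∀ l, g (v l) = φ ⟨v l, hv' l⟩ := by
    refine ⟨(Module.Basis.mk hli (by rw [hvs, hsp])).constr F fun l => φ ⟨v l, hv' l⟩,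
      fun l => ?_⟩
    have h1 := (Module.Basis.mk hli (by rw [hvs, hsp])).constr_basis F
      (fun l => φ ⟨v l, hv' l⟩) l
    rwa [Module.Basis.mk_apply] at h1
  refine ⟨g, fun u hu => ?_⟩
  obtain ⟨a, c, ha0, ha, hc, hrel⟩ := finp_rel (r := Module.finrank F (Submodule.span F
    (finp_U D M L (b + 1) : Set V))) hQ (by rw [hr]; exact hi) hS hSc hU
    (by rw [hr]; exact hUc) v hv hli u.1 hu
  have hw : a • u.1 ∈ finp_U D M L (b + 1 + E) := finp_S_U D ha hu
  have hcv : ∀ l, c l • v l ∈ finp_U D M L (b + 1 + E) := fun l => finp_S_U D (hc l) (hv l)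
  have h1 : (⟨a • u.1, hw⟩ : finp_U D M L (b + 1 + E)) = ∑ l, ⟨c l • v l, hcv l⟩ := by
    refine Subtype.ext ?_
    rw [AddSubgroup.val_finsetSum]
    exact hrel
  have h2 : a • φ u = a • g u.1 := by
    rw [← hact a ha u ⟨a • u.1, hw⟩ hu rfl, h1, map_sum,
      ← algebraMap_smul F a (g u.1), ← map_smul, algebraMap_smul, hrel, map_sum]
    refine Finset.sum_congr rfl fun l _ => ?_
    rw [hact (c l) (hc l) ⟨v l, hv' l⟩ _ (hv l) rfl, ← hg, ← algebraMap_smul F (c l) (g (v l)),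
      ← map_smul, algebraMap_smul]
  rw [← algebraMap_smul F a, ← algebraMap_smul F a (g u.1)] at h2
  have h3 : algebraMap A F a ≠ 0 := by
    rwa [Ne, map_eq_zero_iff _ (IsFractionRing.injective A F)]
  exact (smul_right_injective V h3 h2).symm

/-- the core: pairs with isomorphic data are isomorphic -/
theorem finp_core (hLat : St_Lat1) {b E i : ℕ} {M M' : Submodule A V} {L L' : D.Lat V} {Q : ℕ}
    (h : finp_Good D b M L) (h' : finp_Good D b M' L') (hQ : 2 ≤ Q)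
    (hi : (b + 1 + E + 1) * Module.finrank F V < i * (Module.finrank F V + 1))
    (hS : (finp_S D E : Set A).Finite) (hSc : Q ^ i ≤ Nat.card (finp_S D E))
    (hU : (finp_U D M L (b + 1 + E) : Set V).Finite)
    (hUc : Nat.card (finp_U D M L (b + 1 + E)) ≤
      Q ^ (Module.finrank F V * (b + 1 + E + 1)))
    (φ : finp_U D M L (b + 1 + E) → finp_U D M' L' (b + 1 + E))
    (ψ : finp_U D M' L' (b + 1 + E) → finp_U D M L (b + 1 + E))
    (hψφ : ∀ u, ψ (φ u) = u) (hφψ : ∀ u, φ (ψ u) = u)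
    (hadd : ∀ u v, φ (u + v) = φ u + φ v)
    (hJ : ∀ u, u.1 ∈ finp_U D M L (b + 1) → (φ u).1 ∈ finp_U D M' L' (b + 1))
    (hJ' : ∀ u, u.1 ∈ finp_U D M' L' (b + 1) → (ψ u).1 ∈ finp_U D M L (b + 1))
    (hact : ∀ a ∈ finp_S D E, ∀ u w : finp_U D M L (b + 1 + E), u.1 ∈ finp_U D M L (b + 1) →
      w.1 = a • u.1 → (φ w).1 = a • (φ u).1) :
    ∃ g : V ≃ₗ[F] V, (∀ v, g v ∈ M' ↔ v ∈ M) ∧ L' = D.latG g L := by
  obtain ⟨g, hg⟩ := finp_lin hLat h hQ hi hS hSc hU hUc
    (AddMonoidHom.mk' (fun u => (φ u).1) fun u v => congrArg Subtype.val (hadd u v))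
    (fun a ha u w hu hw => hact a ha u w hu hw)
  have hg1 : ∀ u (hu : u ∈ finp_U D M L (b + 1)), g u =
      (φ ⟨u, finp_U_mono hLat (by omega) hu⟩).1 := fun u hu =>
    hg ⟨u, finp_U_mono hLat (by omega) hu⟩ hu
  have hg2 : ∀ u (hu : u ∈ finp_U D M' L' (b + 1)),
      g (ψ ⟨u, finp_U_mono hLat (by omega) hu⟩).1 = u := by
    intro u hu
    have h1 := hg (ψ ⟨u, finp_U_mono hLat (by omega) hu⟩) (hJ' _ hu)
    rw [h1]
    change (φ (ψ ⟨u, _⟩)).1 = u
    rw [hφψ]
  have hsurj : Surjective g := by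
    rw [← LinearMap.range_eq_top, eq_top_iff, ← finp_spanF hLat h', Submodule.span_le]
    intro u hu
    exact ⟨_, hg2 u hu⟩
  have hinj : Injective g := LinearMap.injective_iff_surjective.2 hsurj
  obtain ⟨G, hG⟩ : ∃ G : V ≃ₗ[F] V, ∀ v, G v = g v :=
    ⟨LinearEquiv.ofBijective g ⟨hinj, hsurj⟩, fun v => rfl⟩
  refine ⟨G, finp_iso hLat h h' G (fun u hu => ?_) fun u hu => ?_⟩
  · rw [hG, hg1 u hu]
    exact hJ _ hu
  · have h1 : G.symm u = (ψ ⟨u, finp_U_mono hLat (by omega) hu⟩).1 := by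
      rw [LinearEquiv.symm_apply_eq, hG, hg2 u hu]
    rw [h1]
    exact hJ' _ hu

/-! ### codes -/

/-- the data of a pair, with values in a finite type -/
def finp_code (D : CD A F) {b E K : ℕ} (M : Submodule A V) (L : D.Lat V)
    (ι : finp_U D M L (b + 1 + E) → Fin K) :
    Set (Fin K × Fin K × Fin K) × (finp_S D E → Set (Fin K × Fin K)) :=
  ({x | ∃ u v, x = (ι u, ι v, ι (u + v))},
    fun a => {x | ∃ u w, u.1 ∈ finp_U D M L (b + 1) ∧ w.1 = a.1 • u.1 ∧ x = (ι u, ι w)})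

theorem finp_tr {b E K : ℕ} {M M' : Submodule A V} {L L' : D.Lat V}
    {ι : finp_U D M L (b + 1 + E) → Fin K} {ι' : finp_U D M' L' (b + 1 + E) → Fin K}
    (hι' : Function.Injective ι') (h : finp_code D M L ι = finp_code D M' L' ι') :
    ∃ φ : finp_U D M L (b + 1 + E) → finp_U D M' L' (b + 1 + E), (∀ u, ι' (φ u) = ι u) ∧
      (∀ u v, φ (u + v) = φ u + φ v) ∧
      (∀ u, u.1 ∈ finp_U D M L (b + 1) → (φ u).1 ∈ finp_U D M' L' (b + 1)) ∧
      ∀ a ∈ finp_S D E, ∀ u w : finp_U D M L (b + 1 + E), u.1 ∈ finp_U D M L (b + 1) →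
        w.1 = a • u.1 → (φ w).1 = a • (φ u).1 := by
  have h1 : ∀ u v, ∃ u' v', (ι u, ι v, ι (u + v)) = (ι' u', ι' v', ι' (u' + v')) := by
    intro u v
    have h2 : (ι u, ι v, ι (u + v)) ∈ (finp_code D M L ι).1 := ⟨u, v, rfl⟩
    rw [h] at h2
    exact h2
  have h3 : ∀ (a : finp_S D E) u w, u.1 ∈ finp_U D M L (b + 1) → w.1 = a.1 • u.1 →
      ∃ u' w', u'.1 ∈ finp_U D M' L' (b + 1) ∧ w'.1 = a.1 • u'.1 ∧
        (ι u, ι w) = (ι' u', ι' w') := by
    intro a u w hu hw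
    have h2 : (ι u, ι w) ∈ (finp_code D M L ι).2 a := ⟨u, w, hu, hw, rfl⟩
    rw [h] at h2
    exact h2
  have h4 : ∀ u, ∃ u', ι' u' = ι u := by
    intro u
    obtain ⟨u', v', h5⟩ := h1 u 0
    exact ⟨u', (congrArg Prod.fst h5).symm⟩
  choose φ hφ using h4
  refine ⟨φ, hφ, fun u v => ?_, fun u hu => ?_, fun a ha u w hu hw => ?_⟩
  · obtain ⟨u', v', h5⟩ := h1 u v
    simp only [Prod.mk.injEq] at h5
    have e1 : φ u = u' := hι' ((hφ u).trans h5.1)
    have e2 : φ v = v' := hι' ((hφ v).trans h5.2.1)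
    rw [e1, e2]
    exact hι' ((hφ _).trans h5.2.2)
  · obtain ⟨u', w', hu', -, h5⟩ := h3 0 u 0 hu (by
      change (0 : V) = (0 : A) • u.1
      rw [zero_smul])
    simp only [Prod.mk.injEq] at h5
    have e1 : φ u = u' := hι' ((hφ u).trans h5.1)
    rw [e1]
    exact hu'
  · obtain ⟨u', w', hu', hw', h5⟩ := h3 ⟨a, ha⟩ u w hu hw
    simp only [Prod.mk.injEq] at h5
    have e1 : φ u = u' := hι' ((hφ u).trans h5.1)
    have e2 : φ w = w' := hι' ((hφ w).trans h5.2)
    rw [e1, e2]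
    exact hw'

end

/-- **FinP.** -/
theorem thm_FinP (hLat : St_Lat1) (hCnt : St_Cnt) : St_FinP := by
  intro A F V _ _ _ _ _ _ _ _ _ _ D b
  obtain ⟨Q, e, hQ, hc1, hc2⟩ := hCnt A F D
  obtain ⟨r, hr⟩ : ∃ r, r = Module.finrank F V := ⟨_, rfl⟩
  obtain ⟨i, hi0⟩ : ∃ i, i = r * (b + 1 + e + 1) + 1 := ⟨_, rfl⟩
  obtain ⟨E, hE⟩ : ∃ E, E = e + i := ⟨_, rfl⟩
  have hi : (b + 1 + E + 1) * Module.finrank F V < i * (Module.finrank F V + 1) := by
    rw [← hr]
    have e1 : (b + 1 + E + 1) * r = i * r + r * (b + 1 + e + 1) := by rw [hE]; ring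
    have e2 : i * (r + 1) = i * r + i := by ring
    omega
  have hS : (finp_S D E : Set A).Finite := by
    rw [hE]
    exact (hc1 i).1
  have hSc : Q ^ i ≤ Nat.card (finp_S D E) := by
    rw [hE]
    exact (hc1 i).2
  have hfS : Finite (finp_S D E) := hS.to_subtype
  obtain ⟨K, hK⟩ : ∃ K, K = Q ^ (Module.finrank F V * (b + 1 + E + 1)) := ⟨_, rfl⟩
  have hUf : ∀ (M : Submodule A V) (L : D.Lat V), finp_Good D b M L →
      (finp_U D M L (b + 1 + E) : Set V).Finite ∧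
        Nat.card (finp_U D M L (b + 1 + E)) ≤ K := by
    intro M L h
    have h1 := hc2 V M L h.1 h.2.1 (b + 1 + E)
    rw [hK]
    exact h1
  have hι : ∀ p : {p : Submodule A V × D.Lat V // finp_Good D b p.1 p.2},
      ∃ ι : finp_U D p.1.1 p.1.2 (b + 1 + E) → Fin K, Function.Injective ι := by
    intro p
    obtain ⟨h1, h2⟩ := hUf _ _ p.2
    have h3 : Finite (finp_U D p.1.1 p.1.2 (b + 1 + E)) := h1.to_subtype
    have h4 : Fintype (finp_U D p.1.1 p.1.2 (b + 1 + E)) := Fintype.ofFinite _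
    rw [Nat.card_eq_fintype_card] at h2
    obtain ⟨f⟩ := Function.Embedding.nonempty_of_card_le
      (α := finp_U D p.1.1 p.1.2 (b + 1 + E)) (β := Fin K) (by
        rw [Fintype.card_fin]
        exact h2)
    exact ⟨f, f.injective⟩
  choose ι hι using hι
  obtain ⟨code, hcode⟩ : ∃ code : {p : Submodule A V × D.Lat V // finp_Good D b p.1 p.2} →
      Set (Fin K × Fin K × Fin K) × (finp_S D E → Set (Fin K × Fin K)),
      ∀ p, code p = finp_code D p.1.1 p.1.2 (ι p) := ⟨_, fun p => rfl⟩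
  have hrep : ∀ c : Set.range code, ∃ p, code p = c.1 := fun c => c.2
  choose rep hrep using hrep
  refine ⟨Set.range fun c => (rep c).1, Set.finite_range _, fun M L h1 h2 h3 => ?_⟩
  obtain ⟨p, hp⟩ : ∃ p : {p : Submodule A V × D.Lat V // finp_Good D b p.1 p.2},
      p.1 = (M, L) := ⟨⟨(M, L), h1, h2, h3⟩, rfl⟩
  obtain ⟨p', hp'⟩ : ∃ p', p' = rep ⟨code p, p, rfl⟩ := ⟨_, rfl⟩
  have hcc : code p' = code p := by
    rw [hp']
    exact hrep _
  rw [hcode, hcode] at hcc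
  obtain ⟨φ, hφ, hadd, hJ, hact⟩ := finp_tr (hι p') hcc.symm
  obtain ⟨ψ, hψ, -, hJ', -⟩ := finp_tr (hι p) hcc
  obtain ⟨g, hg1, hg2⟩ := finp_core hLat p.2 p'.2 hQ hi hS hSc (hUf _ _ p.2).1
    (by rw [← hK]; exact (hUf _ _ p.2).2) φ ψ
    (fun u => hι p ((hψ _).trans (hφ u))) (fun u => hι p' ((hφ _).trans (hψ u)))
    hadd hJ hJ' hact
  have e1 : p.1.1 = M := congrArg Prod.fst hp
  have e2 : p.1.2 = L := congrArg Prod.snd hp
  rw [e1] at hg1
  rw [e2] at hg2
  exact ⟨g, p'.1.1, p'.1.2, ⟨_, congrArg Subtype.val hp'.symm⟩, hg1, hg2⟩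

end Pool.Agent.GQ
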