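import Pool.Agent.GQ.StA
import Pool.Agent.FGK.FoxSl
import Pool.Agent.FGK.redTriv
import Pool.Agent.FGK.Post

/-!
# GQ, FsSl: `M[Y]` has slender homotopy groups (helper14)

`thm_FsSl (hSl : St_Sl) (hSF : St_SlFin) (hEx : St_AbEx) (hR : St_AbReal) (hC : St_fsConn)
(hfs : St_fsEx) : St_FsSl`.

The simplicial subgroup `P` generated by finitely many `c`-cycles which generate `π_c(M)` is finitely
generated in every degree and `c`-trivial, and `M / P` is `(c + 1)`-trivial.
-/

set_option autoImplicit false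
set_option linter.unusedVariables false

noncomputable section

namespace Pool.Agent.GQ

open CategoryTheory Function Pool.Agent.KQ Pool.Agent.FGK

universe u

/-! ### constants -/

/-- exact sequences of constants -/
theorem fssl_cses {A B C : Type u} [AddCommGroup A] [AddCommGroup B] [AddCommGroup C]
    (f : A →+ B) (g : B →+ C) (hf : Injective f) (hg : Surjective g)
    (h : ∀ b, g b = 0 ↔ ∃ a, f a = b) : SAb.SES (redtriv_cm f) (redtriv_cm g) :=
  { inj := fun _ => hf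
    ex := fun _ b => h b
    surj := fun _ => hg }

/-- `B[Y]` is slender in the degrees `≤ J` -/
def fssl_Q (J : ℕ) (Y : SSt.{u}) (B : Type u) [AddCommGroup B] : Prop :=
  ∀ j ≤ J, ((SAb.const B).fs Y).SlAt j

theorem fssl_free (hEx : St_AbEx.{u}) (hfs : St_fsEx.{u}) (J : ℕ) (Y : SSt.{u})
    (hY : ∀ j ≤ J, HSl Y j) (b : ℕ) : fssl_Q J Y (Fin b → ULift.{u} ℤ) := by
  induction b with
  | zero =>
    intro j _
    refine foxsl_triv _ (j + 1) (foxsl_zero _ (fun n x => ?_) _) (Nat.lt_succ_self j)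
    refine Finsupp.ext fun y => ?_
    exact @Subsingleton.elim (Fin 0 → ULift.{u} ℤ) _ _ _
  | succ b ih =>
    intro j hj
    have hs := fssl_cses (A := Fin b → ULift.{u} ℤ) (B := Fin (b + 1) → ULift.{u} ℤ)
      (C := ULift.{u} ℤ)
      { toFun := fun x => Fin.cons 0 x
        map_zero' := by
          funext i
          refine Fin.cases rfl (fun i => rfl) i
        map_add' := fun x y => by
          funext i
          refine Fin.cases ?_ (fun i => ?_) i
          · exact (add_zero (0 : ULift.{u} ℤ)).symm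
          · rfl }
      (Pi.evalAddMonoidHom _ 0) (fun x y h => by
        have h1 : (Fin.cons 0 x : Fin (b + 1) → ULift.{u} ℤ) = Fin.cons 0 y := h
        exact Fin.cons_right_injective (α := fun _ => ULift.{u} ℤ) 0 h1)
      (fun c => ⟨fun _ => c, rfl⟩) (fun x => by
        constructor
        · intro h
          have h' : x 0 = 0 := h
          refine ⟨Fin.tail x, ?_⟩
          change Fin.cons 0 (Fin.tail x) = x
          rw [← h']
          exact Fin.cons_self_tail x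
        · rintro ⟨y, rfl⟩
          rfl)
    exact (hEx _ _ (hfs _ _ hs Y).1 0).2.2.2.2.2.2.2.1 j (ih j hj) (hY j hj)

/-- the presentation of a finitely generated abelian group -/
theorem fssl_pres (B : Type u) [AddCommGroup B] (hB : AddGroup.FG B) :
    ∃ (b : ℕ) (K : AddSubgroup (Fin b → ULift.{u} ℤ)) (g : (Fin b → ULift.{u} ℤ) →+ B),
      AddGroup.FG K ∧ SAb.SES (redtriv_cm K.subtype) (redtriv_cm g) := by
  have : Module.Finite ℤ B := Module.Finite.iff_addGroup_fg.2 hB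
  obtain ⟨b, f, hf⟩ := Module.Finite.exists_fin' ℤ B
  obtain ⟨g, hg⟩ : ∃ g : (Fin b → ULift.{u} ℤ) →+ B, ∀ x, g x = f fun i => (x i).down :=
    ⟨{ toFun := fun x => f fun i => (x i).down
       map_zero' := map_zero f
       map_add' := fun x y => map_add f (fun i => (x i).down) fun i => (y i).down },
      fun x => rfl⟩
  refine ⟨b, g.ker, g, ?_, fssl_cses _ _ Subtype.val_injective ?_ ?_⟩
  · have : Module.Finite ℤ (ULift.{u} ℤ) :=
      Module.Finite.equiv (ULift.moduleEquiv (R := ℤ) (M := ℤ)).symm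
    have h1 : IsNoetherian ℤ (Fin b → ULift.{u} ℤ) :=
      isNoetherian_of_isNoetherianRing_of_finite ℤ _
    have h2 := h1.noetherian (AddSubgroup.toIntSubmodule g.ker)
    rw [Submodule.fg_iff_addSubgroup_fg, AddSubgroup.toIntSubmodule_toAddSubgroup] at h2
    exact (AddGroup.fg_iff_addSubgroup_fg _).2 h2
  · intro x
    obtain ⟨y, hy⟩ := hf x
    exact ⟨fun i => ⟨y i⟩, (hg _).trans hy⟩
  · exact fun x => ⟨fun h => ⟨⟨x, h⟩, rfl⟩, fun ⟨y, hy⟩ => hy ▸ y.2⟩

theorem fssl_const (hEx : St_AbEx.{u}) (hfs : St_fsEx.{u}) (J : ℕ) (Y : SSt.{u})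
    (hY : ∀ j ≤ J, HSl Y j) (j : ℕ) :
    ∀ (B : Type u) [AddCommGroup B], AddGroup.FG B → j ≤ J →
      ((SAb.const B).fs Y).SlAt j := by
  induction j with
  | zero =>
    intro B _ hB hj
    obtain ⟨b, K, g, hK, hs⟩ := fssl_pres B hB
    exact (hEx _ _ (hfs _ _ hs Y).1 0).2.2.2.2.2.2.2.2.2.2.1 (fssl_free hEx hfs J Y hY b 0 hj)
  | succ j ih =>
    intro B _ hB hj
    obtain ⟨b, K, g, hK, hs⟩ := fssl_pres B hB
    exact (hEx _ _ (hfs _ _ hs Y).1 0).2.2.2.2.2.2.2.2.2.1 j (ih K hK (by omega))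
      (fssl_free hEx hfs J Y hY b (j + 1) hj)

/-! ### finitely generated in every degree -/

/-- the map of the rows -/
def fssl_row {A B : Type u} [AddCommGroup A] [AddCommGroup B] (f : A →+ B) (Y : SSt.{u}) :
    (SAb.const A).fs Y ⟶ (SAb.const B).fs Y := SAb.fsMap (redtriv_cm f) (𝟙 Y)

theorem fssl_row_app {A B : Type u} [AddCommGroup A] [AddCommGroup B] (f : A →+ B)
    (Y : SSt.{u}) (n : ℕ) (x : ((SAb.const A).fs Y).obj n) :
    (fssl_row f Y).app n x = Finsupp.mapRange f (map_zero f) x :=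
  redtriv_fs_app f Y n x

/-- the bisimplicial abelian group with the rows `(const M_m)[Y]` -/
def fssl_W (M : SAb.{u}) (Y : SSt.{u}) : SOb SAb.{u} where
  obj m := (SAb.const (M.obj m)).fs Y
  map θ := fssl_row (M.map θ) Y
  map_id m := by
    refine SAb.hom_ext fun n x => ?_
    rw [fssl_row_app]
    refine Finsupp.ext fun y => ?_
    exact M.map_id _ _
  map_comp f g := by
    refine SAb.hom_ext fun n x => ?_
    rw [SAb.comp_app, fssl_row_app, fssl_row_app, fssl_row_app]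
    refine Finsupp.ext fun y => ?_
    exact M.map_comp f g _

theorem fssl_diag_map (M : SAb.{u}) (Y : SSt.{u}) {m n : ℕ} (θ : Mo m n)
    (x : Y.obj n →₀ M.obj n) : (SAb.diag (fssl_W M Y)).map θ x = (M.fs Y).map θ x := by
  change Finsupp.mapDomain (Y.map θ) (Finsupp.mapRange (AddMonoidHom.id (M.obj m)) (map_zero _)
    ((fssl_row (M.map θ) Y).app n x)) =
    Finsupp.mapDomain (Y.map θ) (Finsupp.mapRange (M.map θ) (map_zero _) x)
  have h1 : (fssl_row (M.map θ) Y).app n x = Finsupp.mapRange (M.map θ) (map_zero _) x :=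
    fssl_row_app _ Y n x
  rw [h1]
  congr 1
  exact Finsupp.ext fun y => rfl

/-- comparison with `M[Y]` -/
def fssl_u (M : SAb.{u}) (Y : SSt.{u}) : SAb.diag (fssl_W M Y) ⟶ M.fs Y :=
  ⟨fun n => AddMonoidHom.id (Y.obj n →₀ M.obj n), fun θ x => fssl_diag_map M Y θ x⟩

theorem fssl_fg (hSl : St_Sl.{u}) (hEx : St_AbEx.{u}) (hR : St_AbReal.{u}) (hfs : St_fsEx.{u})
    (J : ℕ) (M : SAb.{u}) (Y : SSt.{u}) (hM : ∀ m, AddGroup.FG (M.obj m))
    (hY : ∀ j ≤ J, HSl Y j) (j : ℕ) (hj : j ≤ J) : (M.fs Y).SlAt j := by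
  have h1 : (SAb.diag (fssl_W M Y)).SlAt j := hR.2.2.2.2.2.1 (fssl_W M Y) J
    (fun m q hq => fssl_const hEx hfs J Y hY q (M.obj m) (hM m) hq) j hj
  exact hSl.2.1 _ (foxsl_weq hEx (fssl_u M Y) (fun n => bijective_id) j).2 h1

/-- finitely generated in every degree implies slender -/
theorem fssl_slfg (hSl : St_Sl.{u}) (hSF : St_SlFin.{u}) (M : SAb.{u})
    (hM : ∀ m, AddGroup.FG (M.obj m)) (j : ℕ) : M.SlAt j := by
  have h1 : Sl (Multiplicative (M.obj j)) := hSF.1 _ (hM j)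
  have h2 : Sl ((SAb.gp.obj M).Z j) :=
    hSl.1 ((SAb.gp.obj M).Z j).subtype Subtype.val_injective h1
  exact hSl.2.1 ((SAb.gp.obj M).cls j) ((SAb.gp.obj M).cls_surj j) h2

/-! ### the simplicial subgroup generated by cycles -/

section sub

variable (M : SAb.{u}) (c : ℕ) (T : Set (M.obj c))

/-- the subgroup in degree `m` -/
def fssl_S (m : ℕ) : AddSubgroup (M.obj m) :=
  AddSubgroup.closure {y | ∃ t ∈ T, ∃ f : Mo m c, M.map f t = y}

theorem fssl_S_map {m n : ℕ} (θ : Mo m n) (x : M.obj n) (hx : x ∈ fssl_S M c T n) :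
    M.map θ x ∈ fssl_S M c T m := by
  unfold fssl_S at hx
  induction hx using AddSubgroup.closure_induction with
  | mem z hz =>
    obtain ⟨t, ht, f, rfl⟩ := hz
    exact AddSubgroup.subset_closure ⟨t, ht, f.comp θ, M.map_comp θ f t⟩
  | zero => rw [map_zero]; exact zero_mem _
  | add a b _ _ ha hb => rw [map_add]; exact add_mem ha hb
  | neg a _ ha => rw [map_neg]; exact neg_mem ha

/-- the simplicial subgroup generated by `T` -/
def fssl_X : SAb.{u} where
  obj n := fssl_S M c T n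
  map {m n} θ := ((M.map θ).comp (fssl_S M c T n).subtype).codRestrict _ fun x =>
    fssl_S_map M c T θ x.1 x.2
  map_id n x := Subtype.ext (M.map_id n x.1)
  map_comp f g x := Subtype.ext (M.map_comp f g x.1)

/-- the inclusion -/
def fssl_i : fssl_X M c T ⟶ M := ⟨fun n => (fssl_S M c T n).subtype, fun _ _ => rfl⟩

/-- the quotient -/
def fssl_Y : SAb.{u} := M.quot (fssl_S M c T) (fssl_S_map M c T)

/-- the projection -/
def fssl_p : M ⟶ fssl_Y M c T := M.quotπ (fssl_S M c T) (fssl_S_map M c T)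

theorem fssl_ses : SAb.SES (fssl_i M c T) (fssl_p M c T) where
  inj n := Subtype.val_injective
  ex n y := by
    constructor
    · intro h
      exact ⟨⟨y, (QuotientAddGroup.eq_zero_iff y).1 h⟩, rfl⟩
    · rintro ⟨x, rfl⟩
      exact (QuotientAddGroup.eq_zero_iff _).2 x.2
  surj n := QuotientAddGroup.mk'_surjective _

theorem fssl_X_fg (hT : T.Finite) (m : ℕ) : AddGroup.FG ((fssl_X M c T).obj m) := by
  have h1 : Finite (Mo m c) := DFunLike.finite _
  have h2 : {y | ∃ t ∈ T, ∃ f : Mo m c, M.map f t = y}.Finite := by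
    have h3 : {y | ∃ t ∈ T, ∃ f : Mo m c, M.map f t = y} =
        (fun p : M.obj c × Mo m c => M.map p.2 p.1) '' (T ×ˢ Set.univ) := by
      ext y
      constructor
      · rintro ⟨t, ht, f, rfl⟩
        exact ⟨(t, f), ⟨ht, trivial⟩, rfl⟩
      · rintro ⟨⟨t, f⟩, ⟨ht, -⟩, rfl⟩
        exact ⟨t, ht, f, rfl⟩
    rw [h3]
    exact (hT.prod Set.finite_univ).image _
  exact (AddGroup.fg_iff_addSubgroup_fg _).2 ⟨h2.toFinset, by
    rw [Set.Finite.coe_toFinset]
    rfl⟩

theorem fssl_X_zero (hT : ∀ t ∈ T, (Multiplicative.ofAdd t : (SAb.gp.obj M).obj c) ∈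
    (SAb.gp.obj M).Z c) (m : ℕ) (hm : m < c) (x : (fssl_X M c T).obj m) : x = 0 := by
  obtain ⟨x, hx⟩ := x
  refine Subtype.ext ?_
  change x = 0
  change x ∈ fssl_S M c T m at hx
  have h1 : fssl_S M c T m ≤ ⊥ := by
    refine (AddSubgroup.closure_le _).2 ?_
    rintro y ⟨t, ht, f, rfl⟩
    obtain ⟨c, rfl⟩ : ∃ d, c = d + 1 := ⟨c - 1, by omega⟩
    obtain ⟨i, hi⟩ := post_miss f hm
    obtain ⟨g, rfl⟩ := post_fac f i hi
    have h2 : M.map (dl i) t = 0 := (SGp.mem_Z_succ _).1 (hT t ht) i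
    change M.map ((dl i).comp g) t = 0
    rw [M.map_comp, h2, map_zero]
  exact h1 hx

/-- the quotient is `(c + 1)`-trivial -/
theorem fssl_Y_triv (hEx : St_AbEx.{u}) (hM : SAb.Triv c M)
    (hT : ∀ t ∈ T, (Multiplicative.ofAdd t : (SAb.gp.obj M).obj c) ∈ (SAb.gp.obj M).Z c)
    (hgen : Subgroup.closure {p : (SAb.gp.obj M).Pi c | ∃ z : (SAb.gp.obj M).Z c,
      (Multiplicative.toAdd z.1 : M.obj c) ∈ T ∧ (SAb.gp.obj M).cls c z = p} = ⊤) :
    SAb.Triv (c + 1) (fssl_Y M c T) := by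
  have hX : SAb.Triv c (fssl_X M c T) := by
    intro j hj x
    obtain ⟨y, rfl⟩ := SGp.cls_surj _ j x
    have h1 : y = 1 := Subtype.ext (fssl_X_zero M c T hT j hj y.1)
    rw [h1, map_one]
  have hc : SAb.Conn c (fssl_p M c T) := (hEx _ _ (fssl_ses M c T) c).2.1 hX
  intro j hj x
  rcases Nat.lt_or_ge j c with h | h
  · obtain ⟨y, rfl⟩ := (hc.1 j h).2 x
    rw [hM j h y, map_one]
  · obtain rfl : j = c := by omega
    obtain ⟨y, rfl⟩ := hc.2 x
    have hy : y ∈ Subgroup.closure {p : (SAb.gp.obj M).Pi j | ∃ z : (SAb.gp.obj M).Z j,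
      (Multiplicative.toAdd z.1 : M.obj j) ∈ T ∧ (SAb.gp.obj M).cls j z = p} := by
      rw [hgen]
      trivial
    have hle : Subgroup.closure {p : (SAb.gp.obj M).Pi j | ∃ z : (SAb.gp.obj M).Z j,
      (Multiplicative.toAdd z.1 : M.obj j) ∈ T ∧ (SAb.gp.obj M).cls j z = p} ≤
        (SGp.PiMap (SAb.gp.map (fssl_p M j T)) j).ker := by
      refine (Subgroup.closure_le _).2 ?_
      rintro p ⟨z, hz, rfl⟩
      change SGp.PiMap _ j _ = 1
      rw [SGp.PiMap_cls]
      have h1 : SGp.Zmap (SAb.gp.map (fssl_p M j T)) j z = 1 := by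
        refine Subtype.ext ?_
        refine (QuotientAddGroup.eq_zero_iff _).2 (AddSubgroup.subset_closure ?_)
        exact ⟨_, hz, OrderHom.id, M.map_id j _⟩
      rw [h1, map_one]
    exact hle hy

end sub

/-- the induction -/
theorem fssl_main (hSl : St_Sl.{u}) (hSF : St_SlFin.{u}) (hEx : St_AbEx.{u})
    (hR : St_AbReal.{u}) (hC : St_fsConn.{u}) (hfs : St_fsEx.{u}) (J : ℕ) (Y : SSt.{u})
    (hY : ∀ j ≤ J, HSl Y j) (k : ℕ) : ∀ (c : ℕ) (M : SAb.{u}), J + 1 ≤ c + k →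
      SAb.Triv c M → (∀ j ≤ J, M.SlAt j) → ∀ j ≤ J, (M.fs Y).SlAt j := by
  induction k with
  | zero =>
    intro c M hc hM _ j hj
    exact foxsl_triv _ c (hC.2.2 c M Y hM) (by omega)
  | succ k ih =>
    intro c M hc hM hMs j hj
    rcases Nat.lt_or_ge J c with h | h
    · exact foxsl_triv _ c (hC.2.2 c M Y hM) (by omega)
    · obtain ⟨S, hS⟩ : (⊤ : Subgroup ((SAb.gp.obj M).Pi c)).FG := hMs c h ⊤
      have hl : ∀ p : (SAb.gp.obj M).Pi c, ∃ z : (SAb.gp.obj M).Z c,
        (SAb.gp.obj M).cls c z = p := (SAb.gp.obj M).cls_surj c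
      choose l hl using hl
      obtain ⟨T, hT⟩ : ∃ T : Set (M.obj c), T =
        (fun p => (Multiplicative.toAdd (l p).1 : M.obj c)) '' (S : Set _) := ⟨_, rfl⟩
      have hTf : T.Finite := by
        rw [hT]
        exact S.finite_toSet.image _
      have hTZ : ∀ t ∈ T, (Multiplicative.ofAdd t : (SAb.gp.obj M).obj c) ∈
          (SAb.gp.obj M).Z c := by
        intro t ht
        rw [hT] at ht
        obtain ⟨p, -, rfl⟩ := ht
        exact (l p).2
      have hgen : Subgroup.closure {p : (SAb.gp.obj M).Pi c | ∃ z : (SAb.gp.obj M).Z c,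
          (Multiplicative.toAdd z.1 : M.obj c) ∈ T ∧ (SAb.gp.obj M).cls c z = p} = ⊤ := by
        rw [eq_top_iff, ← hS]
        refine Subgroup.closure_mono fun p hp => ⟨l p, ?_, hl p⟩
        rw [hT]
        exact ⟨p, hp, rfl⟩
      have hQ := fssl_Y_triv M c T hEx hM hTZ hgen
      have hXf := fssl_X_fg M c T hTf
      have hXs : ∀ j, (fssl_X M c T).SlAt j := fssl_slfg hSl hSF _ hXf
      have hE := hEx _ _ (fssl_ses M c T) 0
      have hQs : ∀ j ≤ J, (fssl_Y M c T).SlAt j := by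
        intro j hj
        rcases j with _ | j
        · exact hE.2.2.2.2.2.2.2.2.2.2.1 (hMs 0 hj)
        · exact hE.2.2.2.2.2.2.2.2.2.1 j (hXs j) (hMs (j + 1) hj)
      exact (hEx _ _ (hfs _ _ (fssl_ses M c T) Y).1 0).2.2.2.2.2.2.2.1 j
        (fssl_fg hSl hEx hR hfs J _ Y hXf hY j hj) (ih (c + 1) _ (by omega) hQ hQs j hj)

/-- **FsSl.** -/
theorem thm_FsSl (hSl : St_Sl.{u}) (hSF : St_SlFin.{u}) (hEx : St_AbEx.{u})
    (hR : St_AbReal.{u}) (hC : St_fsConn.{u}) (hfs : St_fsEx.{u}) : St_FsSl.{u} := by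
  intro J M Y hM hY
  exact fssl_main hSl hSF hEx hR hC hfs J Y hY (J + 1) 0 M (by omega)
    (fun j hj => absurd hj (Nat.not_lt_zero j)) hM

end Pool.Agent.GQ
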