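import Pool.Agent.GQ.StE

/-!
# GQ, GQ: the theorem of Harder, Quillen and Grayson, affine form
-/

set_option autoImplicit false
set_option linter.unusedVariables false

noncomputable section

namespace Pool.Agent.GQ

open CategoryTheory Function Pool.Agent.KQ Pool.Agent.FGK

/-- **GQ** -/
theorem thm_GQ (hO : St_Ord) (hCK : St_CK) : St_GQ := by
  intro k A _ _ _ _ _ _ h n
  obtain ⟨D⟩ := hO k A (FractionRing A) h
  have hN : IsNoetherianRing A := isNoetherian_of_tower (Polynomial k)
    (inferInstance : IsNoetherian (Polynomial k) A)
  exact hCK A (FractionRing A) D n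

end Pool.Agent.GQ
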