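import Pool.Agent.GQ.StE

/-!
# GQ, Her: the affine Hermitian curve is a domain

`Y ^ q + Y - X ^ (q + 1)` is, up to the sign, an Eisenstein polynomial in `X` over `k[Y]`, at the
prime `Y`: its constant coefficient is `Y (Y ^ (q - 1) + 1)`.
-/

set_option autoImplicit false
set_option linter.unusedVariables false

noncomputable section

namespace Pool.Agent.GQ

open CategoryTheory Function Pool.Agent.KQ Pool.Agent.FGK
open scoped Polynomial
open Polynomial

/-- the equation with the variables exchanged is irreducible (Eisenstein) -/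
theorem her_irr (k : Type) [Field k] (q : ℕ) (hq : 2 ≤ q) :
    Irreducible (X ^ (q + 1) - C (X ^ q + X) : k[X][X]) := by
  have hP : (Ideal.span {(X : k[X])}).IsPrime :=
    (Ideal.span_singleton_prime X_ne_zero).2 prime_X
  have hm : (X ^ (q + 1) - C (X ^ q + X) : k[X][X]).Monic :=
    monic_X_pow_sub_C _ (Nat.succ_ne_zero q)
  have hd : (X ^ (q + 1) - C (X ^ q + X) : k[X][X]).natDegree = q + 1 := natDegree_X_pow_sub_C
  have h0 : (X ^ (q + 1) - C (X ^ q + X) : k[X][X]).coeff 0 = -(X ^ q + X) := by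
    rw [coeff_sub, coeff_X_pow, coeff_C_zero, if_neg (Nat.succ_ne_zero q).symm, zero_sub]
  refine IsEisensteinAt.irreducible (𝓟 := Ideal.span {(X : k[X])}) ⟨?_, ?_, ?_⟩ hP
    hm.isPrimitive (by rw [hd]; exact Nat.succ_pos q)
  · rw [hm.leadingCoeff]
    exact fun h => hP.ne_top ((Ideal.eq_top_iff_one _).2 h)
  · intro n hn
    rw [hd] at hn
    rw [Ideal.mem_span_singleton]
    rcases Nat.eq_zero_or_pos n with rfl | h
    · rw [h0, dvd_neg]
      exact dvd_add (dvd_pow_self X (by omega)) dvd_rfl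
    · rw [coeff_sub, coeff_X_pow, if_neg hn.ne, coeff_C, if_neg h.ne', sub_zero]
      exact dvd_zero _
  · rw [h0, neg_mem_iff, Ideal.span_singleton_pow, Ideal.mem_span_singleton, X_pow_dvd_iff]
    intro h
    have h1 := h 1 (by norm_num)
    rw [coeff_add, coeff_X_pow, if_neg (by omega), coeff_X_one, zero_add] at h1
    exact one_ne_zero h1

theorem her_prime (k : Type) [Field k] (q : ℕ) (hq : 2 ≤ q) :
    Prime (X ^ q + X - C (X ^ (q + 1)) : k[X][X]) := by
  have h1 : Bivariate.swap (X ^ (q + 1) - C (X ^ q + X) : k[X][X]) =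
      -(X ^ q + X - C (X ^ (q + 1)) : k[X][X]) := by
    rw [map_sub, map_pow, Bivariate.swap_Y, map_add C, map_pow C, map_add, map_pow,
      Bivariate.swap_X, map_pow C, neg_sub]
  have h2 : Irreducible (Bivariate.swap (X ^ (q + 1) - C (X ^ q + X) : k[X][X])) :=
    (MulEquiv.irreducible_iff (Bivariate.swap (R := k)).toMulEquiv).2 (her_irr k q hq)
  rw [h1] at h2
  exact (((Associated.refl _).neg_left).irreducible h2).prime

/-- **Her** -/
theorem thm_Her (hGQ : St_GQ) : St_Her := by
  intro k _ _ q hq n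
  have hm : (X ^ q + X - C (X ^ (q + 1)) : k[X][X]).Monic := by
    have h1 : (X ^ q + X - C (X ^ (q + 1)) : k[X][X]) = X ^ q + (X - C (X ^ (q + 1))) := by
      ring
    rw [h1]
    refine monic_X_pow_add ?_
    rw [degree_X_sub_C]
    exact_mod_cast hq
  have hdeg : (X ^ q + X - C (X ^ (q + 1)) : k[X][X]).degree ≠ 0 := by
    have h1 : (X ^ q + X - C (X ^ (q + 1)) : k[X][X]) = X ^ q + (X - C (X ^ (q + 1))) := by
      ring
    rw [h1, degree_add_eq_left_of_degree_lt, degree_X_pow]
    · exact_mod_cast (by omega : q ≠ 0)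
    · rw [degree_X_sub_C, degree_X_pow]
      exact_mod_cast hq
  have hD : IsDomain (KTH.HR q k) := AdjoinRoot.isDomain_of_prime (her_prime k q hq)
  have hF : Module.Finite k[X] (KTH.HR q k) := hm.finite_adjoinRoot
  exact hGQ k (KTH.HR q k) (AdjoinRoot.of.injective_of_degree_ne_zero hdeg) n

end Pool.Agent.GQ
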