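import Pool.Agent.GQ.StB

/-!
# GQ: JZ, finitely many isomorphism classes of lattices over `A`

From ExL (every lattice has a bounded `L`) and FinP (finitely many classes of bounded pairs).
-/

set_option autoImplicit false
set_option linter.unusedVariables false

noncomputable section

namespace Pool.Agent.GQ

open CategoryTheory Function Pool.Agent.KQ Pool.Agent.FGK

theorem thm_JZ (h1 : St_ExL) (h2 : St_FinP) : St_JZ := by
  intro A F V _ _ _ _ _ _ _ _ _ _ D
  obtain ⟨b, hb⟩ := h1 A F V D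
  obtain ⟨T, hT, hTp⟩ := h2 A F V D b
  refine ⟨Prod.fst '' T, hT.image _, fun M hM => ?_⟩
  obtain ⟨L, hL1, hL2⟩ := hb M hM
  obtain ⟨g, M', L', hmem, hg, -⟩ := hTp M L hM hL1 hL2
  exact ⟨g, M', ⟨(M', L'), hmem, rfl⟩, hg⟩

end Pool.Agent.GQ
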