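import Pool.Agent.GQ.StT

/-!
# GQ: lattices in vector spaces over the fraction field of a noetherian domain (proof of `St_Lat`)
-/

set_option autoImplicit false

noncomputable section

namespace Pool.Agent.GQ

open CategoryTheory CategoryTheory.Limits Function Pool.Agent.KQ Pool.Agent.FGK
open scoped nonZeroDivisors

section

variable {A F : Type} [CommRing A] [IsDomain A] [Field F] [Algebra A F] [IsFractionRing A F]

omit [IsDomain A] in
theorem Lat_ne {a : A} (ha : a ≠ 0) : algebraMap A F a ≠ 0 := by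
  intro h
  exact ha (IsFractionRing.injective A F (by rw [h, map_zero]))

section

variable {V : Type} [AddCommGroup V] [Module F V] [Module A V] [IsScalarTower A F V]

omit [IsDomain A] in
theorem Lat_inv {a : A} (ha : a ≠ 0) (x : V) : (algebraMap A F a)⁻¹ • (a • x) = x := by
  rw [← algebraMap_smul F a x, inv_smul_smul₀ (Lat_ne ha)]

omit [IsDomain A] in
theorem Lat_inv' {a : A} (ha : a ≠ 0) (x : V) : a • ((algebraMap A F a)⁻¹ • x) = x := by
  rw [← algebraMap_smul F a, smul_inv_smul₀ (Lat_ne ha)]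

omit [IsDomain A] in
theorem Lat_mem (W : Submodule F V) (a : A) (x : V) (h : a • x ∈ W) : a = 0 ∨ x ∈ W := by
  by_cases ha : a = 0
  · exact Or.inl ha
  · right
    rw [← Lat_inv (F := F) ha x]
    exact W.smul_mem _ h

omit [IsDomain A] [IsFractionRing A F] in
theorem Lat_smul (W : Submodule F V) (a : A) {x : V} (h : x ∈ W) : a • x ∈ W := by
  rw [← algebraMap_smul F a x]
  exact W.smul_mem _ h

/-- common denominators -/
theorem Lat_den (L : Submodule A V) {v : V} (hv : v ∈ Submodule.span F (L : Set V)) :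
    ∃ a : A, a ≠ 0 ∧ a • v ∈ L := by
  induction hv using Submodule.span_induction with
  | mem x hx => exact ⟨1, one_ne_zero, by rw [one_smul]; exact hx⟩
  | zero => exact ⟨1, one_ne_zero, by rw [smul_zero]; exact L.zero_mem⟩
  | add x y _ _ hx hy =>
    obtain ⟨a, ha, hx⟩ := hx
    obtain ⟨b, hb, hy⟩ := hy
    refine ⟨a * b, mul_ne_zero ha hb, ?_⟩
    rw [smul_add]
    refine L.add_mem ?_ ?_
    · rw [mul_comm, mul_smul]
      exact L.smul_mem _ hx
    · rw [mul_smul]
      exact L.smul_mem _ hy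
  | smul c x _ hx =>
    obtain ⟨a, ha, hx⟩ := hx
    obtain ⟨⟨n, d⟩, hd⟩ := IsLocalization.surj A⁰ c
    refine ⟨a * d, mul_ne_zero ha (nonZeroDivisors.ne_zero d.2), ?_⟩
    have h1 : (a * (d : A)) • c • x = n • a • x := by
      rw [← algebraMap_smul F (a * (d : A)) (c • x), ← algebraMap_smul F n (a • x),
        ← algebraMap_smul F a x, smul_smul, smul_smul, map_mul]
      congr 1
      change c * algebraMap A F d = algebraMap A F n at hd
      rw [← hd]
      ring
    rw [h1]
    exact L.smul_mem _ hx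

end

end

/-- injective maps to vector spaces with denominators are localizations -/
theorem Lat_loc (A F V N : Type) [CommRing A] [IsDomain A] [Field F] [Algebra A F]
    [IsFractionRing A F] [AddCommGroup V] [Module F V] [Module A V] [IsScalarTower A F V]
    [AddCommGroup N] [Module A N] (f : N →ₗ[A] V) (hf : Injective f)
    (h : ∀ u, ∃ a : A, a ≠ 0 ∧ ∃ x, f x = a • u) : IsLocalizedModule A⁰ f where
  map_units s := by
    have hs : (s : A) ≠ 0 := nonZeroDivisors.ne_zero s.2
    rw [Module.End.isUnit_iff]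
    constructor
    · intro x y hxy
      have h1 : (s : A) • x = (s : A) • y := hxy
      rw [← Lat_inv (F := F) hs x, h1, Lat_inv (F := F) hs y]
    · intro y
      exact ⟨(algebraMap A F s)⁻¹ • y, Lat_inv' (F := F) hs y⟩
  surj u := by
    obtain ⟨a, ha, x, hx⟩ := h u
    exact ⟨(x, ⟨a, mem_nonZeroDivisors_of_ne_zero ha⟩), hx.symm⟩
  exists_of_eq {x y} hxy := ⟨1, by rw [hf hxy]⟩

theorem thm_Lat : St_Lat := by
  intro A F V _ _ _ _ _ _ _ _ _ _ M hM
  have hnoeth : IsNoetherian A M := isNoetherian_of_fg_of_noetherian M hM.1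
  have hden : ∀ v : V, ∃ a : A, a ≠ 0 ∧ a • v ∈ M := fun v =>
    Lat_den (F := F) M (by rw [hM.2]; trivial)
  refine ⟨?_, fun W => ⟨?_, ?_, ?_, fun a x h => Lat_mem W a x h⟩, ?_, ?_⟩
  · obtain ⟨S, hS⟩ := hM.1
    refine ⟨⟨S, ?_⟩⟩
    rw [eq_top_iff, ← hM.2, Submodule.span_le]
    intro x hx
    rw [← hS] at hx
    change x ∈ Submodule.span A (S : Set V) at hx
    exact Submodule.span_le_restrictScalars A F (S : Set V) hx
  · exact Module.Finite.iff_fg.2 (isNoetherian_submodule.1 hnoeth _ inf_le_left)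
  · let f : cut M W →ₗ[A] W :=
      { toFun := fun x => ⟨x.1, x.2.2⟩
        map_add' := fun _ _ => rfl
        map_smul' := fun _ _ => rfl }
    have hf : Injective f := fun x y h => Subtype.ext (congrArg (fun t : W => (t : V)) h)
    have h1 : IsLocalizedModule A⁰ f := Lat_loc A F W (cut M W) f hf fun u => by
      obtain ⟨a, ha, h⟩ := hden u.1
      exact ⟨a, ha, ⟨a • u.1, h, Lat_smul W a u.2⟩, rfl⟩
    have h2 := IsLocalizedModule.finrank_eq A⁰ f le_rfl
    have h3 := IsLocalization.finrank_eq (R := A) (N := W) F A⁰ le_rfl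
    rw [h3, h2]
  · apply le_antisymm
    · rw [Submodule.span_le]
      exact fun x hx => hx.2
    · intro w hw
      obtain ⟨a, ha, h⟩ := hden w
      rw [← Lat_inv (F := F) ha w]
      exact Submodule.smul_mem _ _ (Submodule.subset_span ⟨h, Lat_smul W a hw⟩)
  · intro L hL h
    apply le_antisymm
    · rintro x ⟨hx, hx'⟩
      obtain ⟨a, ha, h1⟩ := Lat_den (F := F) L hx'
      exact (h a x hx h1).resolve_left ha
    · exact fun x hx => ⟨hL hx, Submodule.subset_span hx⟩
  · intro e
    have i1 : IsLocalizedModule A⁰ M.subtype := Lat_loc A F V M _ M.injective_subtype fun u => by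
      obtain ⟨a, ha, h⟩ := hden u
      exact ⟨a, ha, ⟨a • u, h⟩, rfl⟩
    have i2 : IsLocalizedModule A⁰ (M.subtype ∘ₗ e.toLinearMap) :=
      Lat_loc A F V M _ (M.injective_subtype.comp e.injective) fun u => by
        obtain ⟨a, ha, h⟩ := hden u
        refine ⟨a, ha, e.symm ⟨a • u, h⟩, ?_⟩
        change ((e (e.symm ⟨a • u, h⟩) : M) : V) = _
        rw [e.apply_symm_apply]
    let g : V ≃ₗ[F] V := LinearEquiv.extendScalarsOfIsLocalization A⁰ F
      (IsLocalizedModule.linearEquiv A⁰ M.subtype (M.subtype ∘ₗ e.toLinearMap))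
    have hg : ∀ x : M, g x.1 = (e x).1 := fun x =>
      IsLocalizedModule.linearEquiv_apply A⁰ M.subtype (M.subtype ∘ₗ e.toLinearMap) x
    refine ⟨g, fun v => ⟨fun hv => ?_, fun hv => ?_⟩, hg⟩
    · have h1 := hg (e.symm ⟨g v, hv⟩)
      rw [e.apply_symm_apply] at h1
      rw [← g.injective h1]
      exact (e.symm ⟨g v, hv⟩).2
    · rw [hg ⟨v, hv⟩]
      exact (e ⟨v, hv⟩).2

end Pool.Agent.GQ
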