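import Pool.Agent.GQ.StB

/-!
# GQ [Lat1]: lattices over `O`: bases, sums, finiteness (helper70)
-/

set_option autoImplicit false
set_option linter.unusedVariables false

noncomputable section

namespace Pool.Agent.GQ

open CategoryTheory Function Pool.Agent.KQ Pool.Agent.FGK

section

variable {A F : Type} [CommRing A] [Field F] [Algebra A F] (D : CD A F)

theorem lat1_t0 : D.t ≠ 0 := D.t0

theorem lat1_zpow {z : ℤ} (hz : z ≤ 0) : D.t ^ z ∈ D.O := by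
  obtain ⟨n, rfl⟩ : ∃ n : ℕ, z = -n := ⟨z.natAbs, by omega⟩
  rw [zpow_neg, zpow_natCast, ← inv_pow]
  exact pow_mem D.tO n

/-- `x` in `t ^ y O` is in `t ^ z O` for `y ≤ z` -/
theorem lat1_mono {y z : ℤ} (h : y ≤ z) {x : F} (hx : D.t ^ (-y) * x ∈ D.O) :
    D.t ^ (-z) * x ∈ D.O := by
  have h1 : D.t ^ (-z) * x = D.t ^ (y - z) * (D.t ^ (-y) * x) := by
    rw [← mul_assoc, ← zpow_add₀ (lat1_t0 D)]
    congr 2
    ring
  rw [h1]
  exact mul_mem (lat1_zpow D (by omega)) hx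

theorem lat1_inv_pow (i : ℕ) : D.t⁻¹ ^ i = D.t ^ (-(i : ℤ)) := by
  rw [zpow_neg, zpow_natCast, inv_pow]

theorem lat1_abs (x : F) : ∃ i : ℕ, D.t ^ (-(i : ℤ)) * x ∈ D.O := by
  obtain ⟨i, hi⟩ := D.abs x
  exact ⟨i, by rw [← lat1_inv_pow]; exact hi⟩

/-- a common exponent -/
theorem lat1_bd {ι : Type} [Fintype ι] (c : ι → F) :
    ∃ i : ℕ, ∀ k, D.t ^ (-(i : ℤ)) * c k ∈ D.O := by
  choose i hi using fun k => lat1_abs D (c k)
  refine ⟨Finset.univ.sup i, fun k => lat1_mono D (y := (i k : ℤ)) ?_ (hi k)⟩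
  exact_mod_cast Finset.le_sup (f := i) (Finset.mem_univ k)

theorem lat1_bd2 {ι κ : Type} [Fintype ι] [Fintype κ] (c : ι → κ → F) :
    ∃ i : ℕ, ∀ k l, D.t ^ (-(i : ℤ)) * c k l ∈ D.O := by
  obtain ⟨i, hi⟩ := lat1_bd D (fun p : ι × κ => c p.1 p.2)
  exact ⟨i, fun k l => hi (k, l)⟩

variable {V : Type} [AddCommGroup V] [Module F V]

theorem lat1_Mem {L : D.Lat V} {y z : ℤ} {v : V} (h : y ≤ z) (hv : D.Mem y L v) :
    D.Mem z L v := by
  have h1 : D.t ^ (-z) • v = D.t ^ (y - z) • (D.t ^ (-y) • v) := by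
    rw [smul_smul, ← zpow_add₀ (lat1_t0 D)]
    congr 2
    ring
  show D.t ^ (-z) • v ∈ L.1
  rw [h1]
  exact L.2.1 _ (lat1_zpow D (by omega)) _ hv

/-- coordinates in another basis -/
theorem lat1_coord {r s : ℕ} (b : Module.Basis (Fin r) F V) (b' : Module.Basis (Fin s) F V)
    (v : V) (l : Fin s) : b'.repr v l = ∑ k, b.repr v k * b'.repr (b k) l := by
  conv_lhs => rw [← b.sum_repr v]
  rw [map_sum, Finsupp.finsetSum_apply]
  refine Finset.sum_congr rfl fun k _ => ?_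
  rw [map_smul, Finsupp.smul_apply, smul_eq_mul]

theorem lat1_two (L : D.Lat V) (r : ℕ) (b : Module.Basis (Fin r) F V) : ∃ i : ℕ,
    (∀ v : V, (∀ l, b.repr v l ∈ D.O) → D.Mem i L v) ∧
    ∀ (z : ℤ) (v : V), D.Mem z L v → ∀ l, D.t ^ (-(z + i)) * b.repr v l ∈ D.O := by
  obtain ⟨r₀, b₀, i₀, h1, h2⟩ := L.2.2
  obtain ⟨j, hj⟩ := lat1_bd2 D (fun k l => b₀.repr (b k) l)
  obtain ⟨j', hj'⟩ := lat1_bd2 D (fun k l => b.repr (b₀ k) l)
  refine ⟨i₀ + (j + j'), fun v hv => ?_, fun z v hv l => ?_⟩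
  · refine lat1_Mem D (y := ((i₀ + j : ℕ) : ℤ)) (by push_cast; omega) ?_
    show D.t ^ (-((i₀ + j : ℕ) : ℤ)) • v ∈ L.1
    have h3 : D.t ^ (-((i₀ + j : ℕ) : ℤ)) • v = D.t⁻¹ ^ i₀ • (D.t ^ (-(j : ℤ)) • v) := by
      rw [lat1_inv_pow, smul_smul, ← zpow_add₀ (lat1_t0 D)]
      congr 2
      push_cast
      ring
    rw [h3]
    refine h1 _ fun l => ?_
    rw [map_smul, Finsupp.smul_apply, smul_eq_mul, lat1_coord b b₀, Finset.mul_sum]
    refine sum_mem fun k _ => ?_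
    rw [mul_left_comm]
    exact mul_mem (hv k) (hj k l)
  · have h3 : D.t ^ (-(z + ((i₀ + (j + j') : ℕ) : ℤ))) * b.repr v l =
        D.t ^ (-(j : ℤ)) * ∑ k, (D.t⁻¹ ^ i₀ * b₀.repr (D.t ^ (-z) • v) k) *
          (D.t ^ (-(j' : ℤ)) * b.repr (b₀ k) l) := by
      rw [lat1_coord b₀ b, Finset.mul_sum, Finset.mul_sum]
      refine Finset.sum_congr rfl fun k _ => ?_
      rw [map_smul, Finsupp.smul_apply, smul_eq_mul, lat1_inv_pow]
      have h4 : D.t ^ (-(z + ((i₀ + (j + j') : ℕ) : ℤ))) =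
          D.t ^ (-(j : ℤ)) * (D.t ^ (-(i₀ : ℤ)) * (D.t ^ (-z) * D.t ^ (-(j' : ℤ)))) := by
        rw [← zpow_add₀ (lat1_t0 D), ← zpow_add₀ (lat1_t0 D), ← zpow_add₀ (lat1_t0 D)]
        congr 1
        push_cast
        ring
      rw [h4]
      ring
    rw [h3]
    refine mul_mem (lat1_zpow D (by omega)) (sum_mem fun k _ => mul_mem (h2 _ hv k) (hj' k l))

/-- the lattice of a basis and exponents -/
def lat1_std {r : ℕ} (b : Module.Basis (Fin r) F V) (e : Fin r → ℤ) : D.Lat V :=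
  ⟨{ carrier := {v | ∀ l, D.t ^ (-(e l)) * b.repr v l ∈ D.O}
     zero_mem' := fun l => by
       rw [map_zero, Finsupp.zero_apply, mul_zero]
       exact zero_mem _
     add_mem' := fun {v w} hv hw l => by
       rw [map_add, Finsupp.add_apply, mul_add]
       exact add_mem (hv l) (hw l)
     neg_mem' := fun {v} hv l => by
       rw [map_neg, Finsupp.neg_apply, mul_neg]
       exact neg_mem (hv l) },
   fun u hu v hv l => by
     show D.t ^ (-(e l)) * b.repr (u • v) l ∈ D.O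
     rw [map_smul, Finsupp.smul_apply, smul_eq_mul, mul_left_comm]
     exact mul_mem hu (hv l),
   r, b, ∑ l, (e l).natAbs, fun v hv l => by
     have h1 : ((e l).natAbs : ℤ) ≤ ((∑ l, (e l).natAbs : ℕ) : ℤ) := by
       exact_mod_cast Finset.single_le_sum (f := fun l => (e l).natAbs)
         (fun _ _ => Nat.zero_le _) (Finset.mem_univ l)
     show D.t ^ (-(e l)) * b.repr (D.t⁻¹ ^ _ • v) l ∈ D.O
     rw [map_smul, Finsupp.smul_apply, smul_eq_mul, lat1_inv_pow, ← mul_assoc,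
       ← zpow_add₀ (lat1_t0 D)]
     exact mul_mem (lat1_zpow D (by omega)) (hv l),
   fun v hv l => by
     have h1 : ((e l).natAbs : ℤ) ≤ ((∑ l, (e l).natAbs : ℕ) : ℤ) := by
       exact_mod_cast Finset.single_le_sum (f := fun l => (e l).natAbs)
         (fun _ _ => Nat.zero_le _) (Finset.mem_univ l)
     rw [lat1_inv_pow]
     exact lat1_mono D (y := e l) (by omega) (hv l)⟩

theorem lat1_mem_std {r : ℕ} (b : Module.Basis (Fin r) F V) (e : Fin r → ℤ) (z : ℤ) (v : V) :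
    D.Mem z (lat1_std D b e) v ↔ ∀ l, D.t ^ (-(z + e l)) * b.repr v l ∈ D.O := by
  show (∀ l, D.t ^ (-(e l)) * b.repr (D.t ^ (-z) • v) l ∈ D.O) ↔ _
  refine forall_congr' fun l => ?_
  rw [map_smul, Finsupp.smul_apply, smul_eq_mul, ← mul_assoc, ← zpow_add₀ (lat1_t0 D)]
  rw [show -(e l) + -z = -(z + e l) by ring]

theorem lat1_sup (L L' : D.Lat V) : ∃ L'' : D.Lat V, L''.1 = L.1 ⊔ L'.1 := by
  obtain ⟨r, b, i, h1, h2⟩ := L.2.2
  obtain ⟨j, _, h4⟩ := lat1_two D L' r b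
  refine ⟨⟨L.1 ⊔ L'.1, fun u hu v hv => ?_, r, b, i + j, fun v hv => ?_, fun v hv l => ?_⟩, rfl⟩
  · obtain ⟨x, hx, y, hy, rfl⟩ := AddSubgroup.mem_sup.1 hv
    rw [smul_add]
    exact AddSubgroup.add_mem_sup (L.2.1 u hu x hx) (L'.2.1 u hu y hy)
  · refine AddSubgroup.mem_sup_left ?_
    rw [pow_add, mul_comm, mul_smul]
    exact L.2.1 _ (pow_mem D.tO j) _ (h1 v hv)
  · obtain ⟨x, hx, y, hy, rfl⟩ := AddSubgroup.mem_sup.1 hv
    rw [map_add, Finsupp.add_apply, mul_add]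
    refine add_mem ?_ ?_
    · rw [pow_add, mul_comm (D.t⁻¹ ^ i), mul_assoc]
      exact mul_mem (pow_mem D.tO j) (h2 x hx l)
    · have h5 := h4 0 y (by
        show D.t ^ (-(0 : ℤ)) • y ∈ L'.1
        rw [neg_zero, zpow_zero, one_smul]
        exact hy) l
      rw [zero_add, ← lat1_inv_pow] at h5
      rw [pow_add, mul_assoc]
      exact mul_mem (pow_mem D.tO i) h5

theorem lat1_ex (L : D.Lat V) (v : V) : ∃ z, D.Mem z L v := by
  obtain ⟨r, b, i, h1, _⟩ := L.2.2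
  obtain ⟨j, hj⟩ := lat1_bd D (fun l => b.repr v l)
  refine ⟨((i + j : ℕ) : ℤ), ?_⟩
  show D.t ^ (-((i + j : ℕ) : ℤ)) • v ∈ L.1
  have h3 : D.t ^ (-((i + j : ℕ) : ℤ)) • v = D.t⁻¹ ^ i • (D.t ^ (-(j : ℤ)) • v) := by
    rw [lat1_inv_pow, smul_smul, ← zpow_add₀ (lat1_t0 D)]
    congr 2
    push_cast
    ring
  rw [h3]
  refine h1 _ fun l => ?_
  rw [map_smul, Finsupp.smul_apply, smul_eq_mul]
  exact hj l

theorem lat1_inter {x : F} (hx : ∀ z : ℤ, D.t ^ z * x ∈ D.O) : x = 0 := by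
  by_contra hne
  obtain ⟨j, hj⟩ := lat1_abs D x⁻¹
  have h1 : ∀ z : ℤ, D.t ^ z ∈ D.O := by
    intro z
    have h2 : D.t ^ z = (D.t ^ (z + j) * x) * (D.t ^ (-(j : ℤ)) * x⁻¹) := by
      rw [mul_mul_mul_comm, mul_inv_cancel₀ hne, mul_one, ← zpow_add₀ (lat1_t0 D)]
      congr 1
      ring
    rw [h2]
    exact mul_mem (hx _) hj
  have h3 : ∀ f : F, f ∈ D.O := by
    intro f
    obtain ⟨i, hi⟩ := lat1_abs D f
    have h4 : f = D.t ^ (i : ℤ) * (D.t ^ (-(i : ℤ)) * f) := by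
      rw [← mul_assoc, ← zpow_add₀ (lat1_t0 D), add_neg_cancel, zpow_zero, one_mul]
    rw [h4]
    exact mul_mem (h1 _) hi
  obtain ⟨a, ha⟩ := D.dis
  exact D.t0 (ha D.τ (h3 _))

theorem lat1_zero (L : D.Lat V) (v : V) (hv : ∀ z, D.Mem z L v) : v = 0 := by
  obtain ⟨r, b, i, _, h2⟩ := L.2.2
  apply b.ext_elem
  intro l
  rw [map_zero, Finsupp.zero_apply]
  refine lat1_inter D fun z => ?_
  have h3 := h2 _ (hv (-(z + i))) l
  rw [map_smul, Finsupp.smul_apply, smul_eq_mul, lat1_inv_pow, ← mul_assoc,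
    ← zpow_add₀ (lat1_t0 D)] at h3
  rwa [show -(i : ℤ) + -(-(z + i)) = z by ring] at h3

/-- `O / t ^ (-n) O` is finite -/
theorem lat1_fin (n : ℕ) : ∃ S : Set F, S.Finite ∧ ∀ u ∈ D.O, ∃ s ∈ S,
    D.t ^ n * (u - s) ∈ D.O := by
  induction n with
  | zero =>
    refine ⟨{0}, Set.finite_singleton _, fun u hu => ⟨0, rfl, ?_⟩⟩
    rw [pow_zero, one_mul, sub_zero]
    exact hu
  | succ n ih =>
    obtain ⟨S, hS, h1⟩ := ih
    obtain ⟨S', hS', h2⟩ := D.fin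
    refine ⟨Set.image2 (fun s' s => s' + D.t⁻¹ * s) S' S, hS'.image2 _ hS, fun u hu => ?_⟩
    obtain ⟨s', hs', h3⟩ := h2 u hu
    obtain ⟨s, hs, h4⟩ := h1 _ h3
    refine ⟨_, Set.mem_image2_of_mem hs' hs, ?_⟩
    have h5 : D.t ^ (n + 1) * (u - (s' + D.t⁻¹ * s)) = D.t ^ n * (D.t * (u - s') - s) := by
      have h6 := lat1_t0 D
      field_simp
      ring
    rw [h5]
    exact h4

theorem lat1_near (L : D.Lat V) : ∃ S : Set V, S.Finite ∧ ∀ v : V, D.t⁻¹ • v ∈ L.1 →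
    ∃ s ∈ S, v - s ∈ L.1 := by
  obtain ⟨r, b, i, h1, h2⟩ := L.2.2
  obtain ⟨S, hS, h3⟩ := lat1_fin D (i + (i + 1))
  refine ⟨(fun s : Fin r → F => ∑ l, (D.t ^ (i + 1) * s l) • b l) ''
    (Set.univ.pi fun _ => S), (Set.Finite.pi fun _ => hS).image _, fun v hv => ?_⟩
  · have h4 : ∀ l, ∃ s ∈ S, D.t ^ (i + (i + 1)) * (D.t⁻¹ ^ (i + 1) * b.repr v l - s) ∈ D.O := by
      intro l
      refine h3 _ ?_
      have h5 := h2 _ hv l
      rw [map_smul, Finsupp.smul_apply, smul_eq_mul, ← mul_assoc, ← pow_succ] at h5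
      exact h5
    choose s hs h5 using h4
    refine ⟨_, Set.mem_image_of_mem _ (fun l _ => hs l), ?_⟩
    have h6 : v - ∑ l, (D.t ^ (i + 1) * s l) • b l =
        D.t⁻¹ ^ i • (D.t ^ i • (v - ∑ l, (D.t ^ (i + 1) * s l) • b l)) := by
      rw [smul_smul, ← mul_pow, inv_mul_cancel₀ (lat1_t0 D), one_pow, one_smul]
    rw [h6]
    refine h1 _ fun l => ?_
    rw [map_smul, map_sub, Finsupp.smul_apply, Finsupp.sub_apply, smul_eq_mul, b.repr_sum_self]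
    have h7 : D.t ^ i * (b.repr v l - D.t ^ (i + 1) * s l) =
        D.t ^ (i + (i + 1)) * (D.t⁻¹ ^ (i + 1) * b.repr v l - s l) := by
      have h8 : D.t ^ (i + 1) * D.t⁻¹ ^ (i + 1) = 1 := by
        rw [← mul_pow, mul_inv_cancel₀ (lat1_t0 D), one_pow]
      rw [pow_add D.t i (i + 1)]
      generalize D.t ^ (i + 1) = P at h8 ⊢
      generalize D.t⁻¹ ^ (i + 1) = Q at h8 ⊢
      linear_combination (-(D.t ^ i * b.repr v l)) * h8
    rw [h7]
    exact h5 l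

theorem lat1_finite (L : D.Lat V) : {L' : D.Lat V | L ≤ L' ∧ D.Near L L'}.Finite := by
  obtain ⟨S, hS, h1⟩ := lat1_near D L
  refine Set.Finite.of_injOn (f := fun L' : D.Lat V => {s | s ∈ S ∧ s ∈ L'.1})
    (t := {T : Set V | T ⊆ S}) ?_ ?_ hS.finite_subsets
  · intro L' _ s hs
    exact hs.1
  · rintro L₁ ⟨h2, h3⟩ L₂ ⟨h4, h5⟩ h6
    have key : ∀ L₁ L₂ : D.Lat V, L ≤ L₁ → D.Near L L₁ → L ≤ L₂ →
        {s | s ∈ S ∧ s ∈ L₁.1} = {s | s ∈ S ∧ s ∈ L₂.1} → L₁.1 ≤ L₂.1 := by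
      intro L₁ L₂ h2 h3 h4 h6 v hv
      obtain ⟨s, hs, h7⟩ := h1 v (h3 v hv)
      have h8 : s ∈ L₁.1 := by
        have h9 := L₁.1.sub_mem hv (h2 h7)
        rwa [sub_sub_cancel] at h9
      have h9 : s ∈ {s | s ∈ S ∧ s ∈ L₂.1} := h6 ▸ ⟨hs, h8⟩
      have h10 := L₂.1.add_mem (h4 h7) h9.2
      rwa [sub_add_cancel] at h10
    exact Subtype.ext (le_antisymm (key L₁ L₂ h2 h3 h4 h6) (key L₂ L₁ h4 h5 h2 h6.symm))

end

theorem thm_Lat1 : St_Lat1 := by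
  intro A F V _ _ _ _ _ _ _ _ D
  exact ⟨fun L y z v h hv => lat1_Mem D h hv, fun L r b => lat1_two D L r b,
    fun r b e => ⟨lat1_std D b e, fun z v => lat1_mem_std D b e z v⟩,
    fun L L' => lat1_sup D L L', fun L v => lat1_ex D L v, fun L v hv => lat1_zero D L v hv,
    fun L => lat1_finite D L⟩

end Pool.Agent.GQ
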