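import Pool.Agent.GQ.StB

/-!
# GQ, module Lat2: lattices over `A` and lattices over `O`
-/

set_option autoImplicit false
set_option linter.unusedVariables false

noncomputable section

namespace Pool.Agent.GQ

open CategoryTheory Function Pool.Agent.KQ Pool.Agent.FGK

section

variable {A F V : Type} [CommRing A] [IsDomain A] [Field F] [Algebra A F]
  [IsFractionRing A F] [AddCommGroup V] [Module F V] [FiniteDimensional F V] [Module A V]
  [IsScalarTower A F V] (D : CD A F)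

omit [IsDomain A] [IsFractionRing A F] in
theorem lat2_tO (n : ℕ) : D.t⁻¹ ^ n ∈ D.O := pow_mem D.tO n

omit [IsDomain A] [IsFractionRing A F] in
theorem lat2_pow {y z : ℤ} (h : z ≤ y) : ∃ n : ℕ, D.t ^ (-y) = D.t⁻¹ ^ n * D.t ^ (-z) := by
  refine ⟨(y - z).toNat, ?_⟩
  have h1 : (((y - z).toNat : ℕ) : ℤ) = y - z := Int.toNat_of_nonneg (by omega)
  have h0 : D.t ≠ 0 := D.t0
  rw [inv_pow, ← zpow_natCast, h1, ← zpow_neg, ← zpow_add₀ h0]
  congr 1
  ring

omit [IsDomain A] [IsFractionRing A F] in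
/-- `t ^ z O ⊆ t ^ y O` for `z ≤ y` -/
theorem lat2_up {x : F} {y z : ℤ} (h : z ≤ y) (hx : D.t ^ (-z) * x ∈ D.O) :
    D.t ^ (-y) * x ∈ D.O := by
  obtain ⟨n, hn⟩ := lat2_pow D h
  rw [hn, mul_assoc]
  exact D.O.mul_mem (lat2_tO D n) hx

omit [IsDomain A] [IsFractionRing A F] [FiniteDimensional F V] [Module A V]
  [IsScalarTower A F V] in
theorem lat2_mup (L : D.Lat V) {v : V} {y z : ℤ} (h : z ≤ y) (hv : D.Mem z L v) :
    D.Mem y L v := by
  obtain ⟨n, hn⟩ := lat2_pow D h
  show D.t ^ (-y) • v ∈ L.1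
  rw [hn, mul_smul]
  exact L.2.1 _ (lat2_tO D n) _ hv

omit [IsDomain A] [IsFractionRing A F] [FiniteDimensional F V] [Module A V]
  [IsScalarTower A F V] in
theorem lat2_sum (L : D.Lat V) {z : ℤ} {ι : Type*} (s : Finset ι) (f : ι → V)
    (h : ∀ i ∈ s, D.Mem z L (f i)) : D.Mem z L (∑ i ∈ s, f i) := by
  show D.t ^ (-z) • (∑ i ∈ s, f i) ∈ L.1
  rw [Finset.smul_sum]
  exact sum_mem h

omit [IsDomain A] [IsFractionRing A F] [FiniteDimensional F V] [Module A V]
  [IsScalarTower A F V] in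
theorem lat2_smul (L : D.Lat V) {z : ℤ} {u : F} (hu : u ∈ D.O) {v : V} (hv : D.Mem z L v) :
    D.Mem z L (u • v) := by
  show D.t ^ (-z) • (u • v) ∈ L.1
  rw [smul_comm]
  exact L.2.1 _ hu _ hv

omit [IsDomain A] [IsFractionRing A F] [FiniteDimensional F V] [Module A V]
  [IsScalarTower A F V] in
theorem lat2_tmul (L : D.Lat V) {z : ℤ} (k : ℕ) {v : V} (hv : D.Mem z L v) :
    D.Mem (z + k) L (D.t ^ k • v) := by
  show D.t ^ (-(z + k)) • (D.t ^ k • v) ∈ L.1
  have h0 : D.t ≠ 0 := D.t0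
  have h1 : D.t ^ (-(z + k)) * D.t ^ k = D.t ^ (-z) := by
    rw [← zpow_natCast D.t k, ← zpow_add₀ h0]
    congr 1
    ring
  rw [smul_smul, h1]
  exact hv

omit [IsDomain A] [IsFractionRing A F] in
/-- finitely many elements of `F` are in a common `t ^ N O` -/
theorem lat2_absf {r : ℕ} (f : Fin r → F) : ∃ N : ℕ, ∀ l, D.t⁻¹ ^ N * f l ∈ D.O := by
  choose n hn using fun l => D.abs (f l)
  refine ⟨Finset.univ.sup n, fun l => ?_⟩
  have h1 : n l ≤ Finset.univ.sup n := Finset.le_sup (Finset.mem_univ l)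
  have h2 : D.t⁻¹ ^ (Finset.univ.sup n) = D.t⁻¹ ^ (Finset.univ.sup n - n l) * D.t⁻¹ ^ (n l) := by
    rw [← pow_add, Nat.sub_add_cancel h1]
  rw [h2, mul_assoc]
  exact D.O.mul_mem (lat2_tO D _) (hn l)

omit [IsDomain A] [IsFractionRing A F] [FiniteDimensional F V] [Module A V]
  [IsScalarTower A F V] in
/-- every vector is in some `t ^ z L` -/
theorem lat2_abs (L : D.Lat V) (v : V) : ∃ z : ℤ, D.Mem z L v := by
  obtain ⟨r, b, i, h1, h2⟩ := L.2.2
  obtain ⟨N, hN⟩ := lat2_absf D (fun l => b.repr v l)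
  refine ⟨((i + N : ℕ) : ℤ), ?_⟩
  show D.t ^ (-((i + N : ℕ) : ℤ)) • v ∈ L.1
  have h3 : D.t ^ (-((i + N : ℕ) : ℤ)) = D.t⁻¹ ^ i * D.t⁻¹ ^ N := by
    rw [zpow_neg, zpow_natCast, ← inv_pow, pow_add]
  rw [h3, mul_smul]
  refine h1 _ fun l => ?_
  rw [map_smul, Finsupp.smul_apply, smul_eq_mul]
  exact hN l

omit [FiniteDimensional F V] in
/-- denominators -/
theorem lat2_den {M : Submodule A V} (hM : Submodule.span F (M : Set V) = ⊤) (v : V) :
    ∃ a : A, a ≠ 0 ∧ a • v ∈ M := by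
  have hv : v ∈ Submodule.span F (M : Set V) := by
    rw [hM]
    trivial
  induction hv using Submodule.span_induction with
  | mem x hx => exact ⟨1, one_ne_zero, by rw [one_smul]; exact hx⟩
  | zero => exact ⟨1, one_ne_zero, by rw [smul_zero]; exact M.zero_mem⟩
  | add x y _ _ hx hy =>
    obtain ⟨a, ha, hx⟩ := hx
    obtain ⟨b, hb, hy⟩ := hy
    refine ⟨a * b, mul_ne_zero ha hb, ?_⟩
    rw [smul_add]
    refine M.add_mem ?_ ?_
    · rw [mul_comm, mul_smul]
      exact M.smul_mem _ hx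
    · rw [mul_smul]
      exact M.smul_mem _ hy
  | smul c x _ hx =>
    obtain ⟨a, ha, hx⟩ := hx
    obtain ⟨p, q, hq, hpq⟩ := IsFractionRing.div_surjective A c
    have hq0 : q ≠ 0 := nonZeroDivisors.ne_zero hq
    have hq1 : algebraMap A F q ≠ 0 := by
      intro h
      exact hq0 ((IsFractionRing.injective A F) (by rw [h, map_zero]))
    refine ⟨q * a, mul_ne_zero hq0 ha, ?_⟩
    have h1 : (q * a) • (c • x) = p • (a • x) := by
      rw [← algebraMap_smul F (q * a) (c • x), ← algebraMap_smul F p (a • x),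
        ← algebraMap_smul F a x, smul_smul, smul_smul, map_mul, ← hpq]
      congr 1
      field_simp
    rw [h1]
    exact M.smul_mem _ hx

omit [FiniteDimensional F V] in
/-- a common denominator for the values of a linear form on `M` -/
theorem lat2_phi1 {M : Submodule A V} (hM : M.FG) (φ : V →ₗ[F] F) :
    ∃ d : A, d ≠ 0 ∧ ∀ m ∈ M, ∃ x : A, algebraMap A F d * φ m = algebraMap A F x := by
  classical
  obtain ⟨s, rfl⟩ := hM
  obtain ⟨b, hb⟩ := IsLocalization.exist_integer_multiples_of_finset (nonZeroDivisors A)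
    (s.image φ)
  refine ⟨b, nonZeroDivisors.ne_zero b.2, fun m hm => ?_⟩
  induction hm using Submodule.span_induction with
  | mem x hx =>
    obtain ⟨y, hy⟩ := hb (φ x) (Finset.mem_image_of_mem _ hx)
    refine ⟨y, ?_⟩
    rw [hy, Algebra.smul_def]
  | zero => exact ⟨0, by rw [map_zero, map_zero, mul_zero]⟩
  | add x y _ _ hx hy =>
    obtain ⟨x', hx⟩ := hx
    obtain ⟨y', hy⟩ := hy
    exact ⟨x' + y', by rw [map_add, map_add, mul_add, hx, hy]⟩
  | smul a x _ hx =>
    obtain ⟨x', hx⟩ := hx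
    refine ⟨a * x', ?_⟩
    rw [← algebraMap_smul F a x, map_smul, smul_eq_mul, map_mul, ← hx]
    ring

omit [IsDomain A] [IsFractionRing A F] [FiniteDimensional F V] [Module A V]
  [IsScalarTower A F V] in
/-- linear forms are bounded on lattices -/
theorem lat2_phi2 (L : D.Lat V) (φ : V →ₗ[F] F) :
    ∃ N : ℤ, ∀ (z : ℤ) (v : V), D.Mem z L v → D.t ^ (-(z + N)) * φ v ∈ D.O := by
  obtain ⟨r, b, i, h1, h2⟩ := L.2.2
  obtain ⟨N, hN⟩ := lat2_absf D (fun l => φ (b l))
  refine ⟨((i + N : ℕ) : ℤ), fun z v hv => ?_⟩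
  have h3 : D.t ^ (-(z + ((i + N : ℕ) : ℤ))) = D.t⁻¹ ^ i * D.t ^ (-z) * D.t⁻¹ ^ N := by
    have h0 : D.t ≠ 0 := D.t0
    have e : -(z + ((i + N : ℕ) : ℤ)) = -(i : ℤ) + -z + -(N : ℤ) := by
      push_cast
      ring
    rw [e, zpow_add₀ h0, zpow_add₀ h0, zpow_neg, zpow_natCast, zpow_neg D.t (N : ℤ), zpow_natCast,
      inv_pow, inv_pow]
  have h4 : φ v = ∑ l, b.repr v l * φ (b l) := by
    conv_lhs => rw [← b.sum_repr v]
    rw [map_sum]
    exact Finset.sum_congr rfl fun l _ => by rw [map_smul, smul_eq_mul]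
  rw [h3, h4, Finset.mul_sum]
  refine sum_mem fun l _ => ?_
  have h5 := h2 _ hv l
  rw [map_smul, Finsupp.smul_apply, smul_eq_mul] at h5
  have h6 : D.t⁻¹ ^ i * D.t ^ (-z) * D.t⁻¹ ^ N * (b.repr v l * φ (b l)) =
      (D.t⁻¹ ^ i * (D.t ^ (-z) * b.repr v l)) * (D.t⁻¹ ^ N * φ (b l)) := by ring
  rw [h6]
  exact D.O.mul_mem h5 (hN l)

omit [FiniteDimensional F V] in
/-- linear forms separate `M` and `t ^ z L` for small `z` -/
theorem lat2_phi3 {M : Submodule A V} (hM : M.FG) (L : D.Lat V) (φ : V →ₗ[F] F) :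
    ∃ a : ℤ, ∀ z, z ≤ a → ∀ m ∈ M, ∀ v, D.Mem z L v → φ m = φ v → φ m = 0 := by
  obtain ⟨d, hd, hd1⟩ := lat2_phi1 hM φ
  obtain ⟨N, hN⟩ := lat2_phi2 D L φ
  obtain ⟨j, hj⟩ := D.abs (algebraMap A F d)
  obtain ⟨a, ha⟩ := D.dis
  have hd2 : algebraMap A F d ≠ 0 := by
    intro h
    exact hd ((IsFractionRing.injective A F) (by rw [h, map_zero]))
  refine ⟨-(a : ℤ) - N - j, fun z hz m hm v hv hmv => ?_⟩
  obtain ⟨x, hx⟩ := hd1 m hm
  have h1 := D.O.mul_mem hj (hN z v hv)
  have h0 : D.t ≠ 0 := D.t0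
  have h2 : (algebraMap A F D.τ)⁻¹ ^ j * algebraMap A F d * (D.t ^ (-(z + N)) * φ v) =
      D.t ^ (-(z + N + j)) * algebraMap A F x := by
    have e : -(z + N + (j : ℤ)) = -(j : ℤ) + -(z + N) := by ring
    rw [← hx, hmv, e, zpow_add₀ h0, zpow_neg D.t (j : ℤ), zpow_natCast, ← inv_pow]
    show D.t⁻¹ ^ j * algebraMap A F d * (D.t ^ (-(z + N)) * φ v) = _
    ring
  rw [h2] at h1
  have h3 : D.t ^ (-(-(a : ℤ))) * algebraMap A F x ∈ D.O := lat2_up D (by omega) h1
  rw [neg_neg, zpow_natCast] at h3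
  have h4 := ha x h3
  rw [h4] at hx
  exact (mul_eq_zero.1 hx).resolve_left hd2

omit [IsDomain A] in
/-- `A ∩ t ^ N O` is finite -/
theorem lat2_fin (N : ℤ) : {x : A | D.t ^ (-N) * algebraMap A F x ∈ D.O}.Finite := by
  obtain ⟨a, ha⟩ := D.dis
  obtain ⟨S, hS, hS1⟩ := D.fin
  have h0 : D.t ≠ 0 := D.t0
  have key : ∀ n : ℕ, {x : A | D.t ^ (-(-(a : ℤ) + n)) * algebraMap A F x ∈ D.O}.Finite := by
    intro n
    induction n with
    | zero =>
      refine (Set.finite_singleton (0 : A)).subset ?_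
      intro x hx
      have h1 : D.t ^ (-(-(a : ℤ) + (0 : ℕ))) * algebraMap A F x ∈ D.O := hx
      rw [Nat.cast_zero, add_zero, neg_neg, zpow_natCast] at h1
      have h2 := ha x h1
      exact (IsFractionRing.injective A F) (by rw [h2, map_zero])
    | succ n ih =>
      have h1 : {x : A | D.t ^ (-(-(a : ℤ) + (n + 1 : ℕ))) * algebraMap A F x ∈ D.O} ⊆
          ⋃ s ∈ S, {x : A | D.t * (D.t ^ (-(-(a : ℤ) + (n + 1 : ℕ))) * algebraMap A F x - s) ∈
            D.O} := by
        intro x hx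
        obtain ⟨s, hs, h2⟩ := hS1 _ hx
        rw [Set.mem_iUnion₂]
        exact ⟨s, hs, h2⟩
      refine (hS.biUnion fun s _ => ?_).subset h1
      rcases Set.eq_empty_or_nonempty {x : A | D.t * (D.t ^ (-(-(a : ℤ) + (n + 1 : ℕ))) *
        algebraMap A F x - s) ∈ D.O} with h2 | ⟨y, hy⟩
      · rw [h2]
        exact Set.finite_empty
      · refine (ih.image fun x => x + y).subset ?_
        intro x hx
        refine ⟨x - y, ?_, sub_add_cancel x y⟩
        have h3 := D.O.sub_mem hx hy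
        show D.t ^ (-(-(a : ℤ) + n)) * algebraMap A F (x - y) ∈ D.O
        have h4 : D.t * (D.t ^ (-(-(a : ℤ) + (n + 1 : ℕ))) * algebraMap A F x - s) -
            D.t * (D.t ^ (-(-(a : ℤ) + (n + 1 : ℕ))) * algebraMap A F y - s) =
            D.t ^ (-(-(a : ℤ) + n)) * algebraMap A F (x - y) := by
          have e : -(-(a : ℤ) + n) = 1 + -(-(a : ℤ) + (n + 1 : ℕ)) := by
            push_cast
            ring
          rw [e, zpow_add₀ h0, zpow_one, map_sub]
          ring
        rw [h4] at h3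
        exact h3
  refine (key (N + a).toNat).subset ?_
  intro x hx
  have h1 : N ≤ -(a : ℤ) + ((N + a).toNat : ℕ) := by
    have := Int.self_le_toNat (N + a)
    omega
  exact lat2_up D h1 hx

end

theorem thm_Lat2 : St_Lat2 := by
  intro A F V _ _ _ _ _ _ _ _ _ _ D M L hM
  obtain ⟨hfg, hsp⟩ := hM
  have h4 : ∀ W : Submodule F V, ∃ a : ℤ, ∀ z, a ≤ z → D.H1z M L W z := by
    intro W
    obtain ⟨e, he⟩ := D.coc
    obtain ⟨s, hs⟩ := IsNoetherian.noetherian W
    choose d hd using lat2_den (F := F) hsp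
    choose zz hz using lat2_abs D L
    obtain ⟨Z, hZ⟩ := (s.finite_toSet.image fun v => zz (d v • v)).bddAbove
    refine ⟨Z + e, fun z hze w hw => ?_⟩
    rw [← hs, Submodule.mem_span_finset] at hw
    obtain ⟨f, -, hf⟩ := hw
    choose p u hu hpu using fun v => he (f v * (algebraMap A F (d v))⁻¹)
    refine ⟨∑ v ∈ s, p v • (d v • v), sum_mem fun v _ => M.smul_mem _ (hd v).2,
      sum_mem fun v hv => ?_, ?_⟩
    · rw [← algebraMap_smul F (p v) (d v • v), ← algebraMap_smul F (d v) v]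
      refine W.smul_mem _ (W.smul_mem _ ?_)
      rw [← hs]
      exact Submodule.subset_span hv
    · refine lat2_mup D L hze ?_
      rw [← hf, ← Finset.sum_sub_distrib]
      refine lat2_sum D L s _ fun v hv => ?_
      have hd2 : algebraMap A F (d v) ≠ 0 := by
        intro h
        exact (hd v).1 ((IsFractionRing.injective A F) (by rw [h, map_zero]))
      have h1 : f v • v - p v • (d v • v) = D.t ^ e • (u v • (d v • v)) := by
        rw [← algebraMap_smul F (p v) (d v • v), ← algebraMap_smul F (d v) v, smul_smul, smul_smul,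
          smul_smul, ← sub_smul]
        congr 1
        have h2 : f v = (algebraMap A F (p v) + algebraMap A F D.τ ^ e * u v) *
            algebraMap A F (d v) := by
          rw [← hpu v, mul_assoc, inv_mul_cancel₀ hd2, mul_one]
        rw [h2]
        show _ = algebraMap A F D.τ ^ e * u v * algebraMap A F (d v)
        ring
      rw [h1]
      refine lat2_tmul D L e (lat2_smul D L (hu v) ?_)
      exact lat2_mup D L (hZ ⟨v, hv, rfl⟩) (hz (d v • v))
  have h5 : ∀ W : Submodule F V, ∃ a : ℤ, ∀ z, z ≤ a → D.H0z M L W z := by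
    intro W
    let c := Module.finBasis F (V ⧸ W)
    choose a ha using fun l => lat2_phi3 D hfg L ((c.coord l).comp W.mkQ)
    obtain ⟨Z, hZ⟩ := (Set.finite_range a).bddBelow
    refine ⟨Z, fun z hz m hm v hv hmv => ?_⟩
    rw [← Submodule.Quotient.mk_eq_zero]
    apply c.repr.injective
    rw [map_zero]
    ext l
    have h1 : (c.coord l).comp W.mkQ m = (c.coord l).comp W.mkQ v := by
      have h2 : W.mkQ m = W.mkQ v := by
        rw [← sub_eq_zero, ← map_sub]
        exact (Submodule.Quotient.mk_eq_zero W).2 hmv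
      show c.coord l (W.mkQ m) = c.coord l (W.mkQ v)
      rw [h2]
    exact ha l z (hz.trans (hZ ⟨l, rfl⟩)) m hm v hv h1
  refine ⟨?_, ?_, fun z => ?_, h4, h5, fun m _ => lat2_abs D L m⟩
  · obtain ⟨a, ha⟩ := h4 ⊤
    refine ⟨a, fun z hz v => ?_⟩
    obtain ⟨m, hm, -, h⟩ := ha z hz v trivial
    exact ⟨m, hm, h⟩
  · obtain ⟨a, ha⟩ := h5 ⊥
    refine ⟨a, fun z hz m hm h => ?_⟩
    have h1 := ha z hz m hm m h (by rw [sub_self]; exact Submodule.zero_mem _)
    exact h1
  · let b := Module.finBasis F V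
    choose d hd hd1 using fun l => lat2_phi1 (F := F) hfg (b.coord l)
    choose N hN using fun l => lat2_phi2 D L (b.coord l)
    choose j hj using fun l => D.abs (algebraMap A F (d l))
    have h0 : D.t ≠ 0 := D.t0
    refine Set.Finite.of_injOn (f := fun v l => algebraMap A F (d l) * b.coord l v)
      (t := {f | ∀ l, f l ∈ algebraMap A F ''
        {x : A | D.t ^ (-(z + N l + j l)) * algebraMap A F x ∈ D.O}}) ?_ ?_
      (Set.Finite.pi' fun l => (lat2_fin D _).image _)
    · rintro m ⟨hm, hmz⟩ l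
      obtain ⟨x, hx⟩ := hd1 l m hm
      refine ⟨x, ?_, hx.symm⟩
      have h1 := D.O.mul_mem (hj l) (hN l z m hmz)
      have h2 : (algebraMap A F D.τ)⁻¹ ^ (j l) * algebraMap A F (d l) *
          (D.t ^ (-(z + N l)) * b.coord l m) =
          D.t ^ (-(z + N l + j l)) * algebraMap A F x := by
        have e : -(z + N l + (j l : ℤ)) = -(j l : ℤ) + -(z + N l) := by ring
        rw [← hx, e, zpow_add₀ h0, zpow_neg D.t (j l : ℤ), zpow_natCast, ← inv_pow]
        show D.t⁻¹ ^ (j l) * algebraMap A F (d l) * (D.t ^ (-(z + N l)) * b.coord l m) = _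
        ring
      rw [h2] at h1
      exact h1
    · intro v _ w _ hvw
      apply b.repr.injective
      ext l
      have h1 : algebraMap A F (d l) * b.coord l v = algebraMap A F (d l) * b.coord l w :=
        congrFun hvw l
      have hd2 : algebraMap A F (d l) ≠ 0 := by
        intro h
        exact hd l ((IsFractionRing.injective A F) (by rw [h, map_zero]))
      exact mul_left_cancel₀ hd2 h1

end Pool.Agent.GQ
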