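import Pool.Agent.GQ.StT

/-!
# GQ, PLQ: flags with chosen quotients of a lattice over the S-diagrams, group action
-/

set_option autoImplicit false
set_option linter.unusedVariables false
set_option linter.unusedSectionVars false

noncomputable section

namespace Pool.Agent.GQ

open CategoryTheory CategoryTheory.Limits Function Pool.Agent.KQ Pool.Agent.FGK

/-! ### maps on quotients -/

section desc

variable {k A B C : Type} [CommRing k] [AddCommGroup A] [Module k A] [AddCommGroup B] [Module k B]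
  [AddCommGroup C] [Module k C]

/-- the map induced on a quotient -/
def plq_desc (p : A →ₗ[k] B) (hp : Surjective p) (q : A →ₗ[k] C)
    (h : LinearMap.ker p ≤ LinearMap.ker q) : B →ₗ[k] C :=
  ((LinearMap.ker p).liftQ q h).comp (p.quotKerEquivOfSurjective hp).symm.toLinearMap

theorem plq_desc_apply (p : A →ₗ[k] B) (hp : Surjective p) (q : A →ₗ[k] C)
    (h : LinearMap.ker p ≤ LinearMap.ker q) (a : A) : plq_desc p hp q h (p a) = q a := by
  have e1 : (p.quotKerEquivOfSurjective hp).symm (p a) = Submodule.Quotient.mk a := by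
    rw [LinearEquiv.symm_apply_eq]
    rfl
  change (LinearMap.ker p).liftQ q h ((p.quotKerEquivOfSurjective hp).symm (p a)) = q a
  rw [e1]
  rfl

end desc

section

variable {A F V : Type} [CommRing A] [Field F] [Algebra A F] [AddCommGroup V] [Module F V]
  [Module A V] [IsScalarTower A F V] {M : Submodule A V} {n : ℕ}

/-- equality of flags with chosen quotients -/
theorem plq_ext {Fl Fl' : Fin (n + 1) →o Submodule F V} {N : Ar (Fin (n + 1)) → ModuleCat.{0} A}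
    {p : ∀ x : Ar (Fin (n + 1)), cut M (Fl x.1.2) →ₗ[A] N x}
    {p' : ∀ x : Ar (Fin (n + 1)), cut M (Fl' x.1.2) →ₗ[A] N x}
    (s1 : ∀ x, Surjective (p x)) (s2 : ∀ x, Surjective (p' x))
    (k1 : ∀ x, LinearMap.ker (p x) = (cut M (Fl x.1.1)).submoduleOf (cut M (Fl x.1.2)))
    (k2 : ∀ x, LinearMap.ker (p' x) = (cut M (Fl' x.1.1)).submoduleOf (cut M (Fl' x.1.2)))
    (h : Fl = Fl')
    (hp : ∀ x w (hw : w ∈ cut M (Fl x.1.2)) (hw' : w ∈ cut M (Fl' x.1.2)),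
      p x ⟨w, hw⟩ = p' x ⟨w, hw'⟩) :
    (⟨Fl, N, p, s1, k1⟩ : PL F M n) = ⟨Fl', N, p', s2, k2⟩ := by
  subst h
  have e1 : p = p' := funext fun x => LinearMap.ext fun w => hp x w.1 w.2 w.2
  subst e1
  rfl

theorem plq_heq {P Q : PL F M n} (h : P = Q) (x : Ar (Fin (n + 1))) (w : V)
    (hw : w ∈ cut M (P.Fl x.1.2)) (hw' : w ∈ cut M (Q.Fl x.1.2)) :
    HEq (P.p x ⟨w, hw⟩) (Q.p x ⟨w, hw'⟩) := by
  subst h
  rfl

/-- the inclusion of flags -/
def plq_inc (P : PL F M n) {x y : Ar (Fin (n + 1))} (h : x ≤ y) :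
    cut M (P.Fl x.1.2) →ₗ[A] cut M (P.Fl y.1.2) :=
  Submodule.inclusion (cut_mono M (P.Fl.monotone h.2))

theorem plq_mem_ker (P : PL F M n) {x : Ar (Fin (n + 1))} {w : cut M (P.Fl x.1.2)} :
    P.p x w = 0 ↔ w.1 ∈ cut M (P.Fl x.1.1) := by
  rw [← LinearMap.mem_ker, P.ker]
  rfl

theorem plq_ker (P : PL F M n) {x y : Ar (Fin (n + 1))} (h : x ≤ y) :
    LinearMap.ker (P.p x) ≤ LinearMap.ker ((P.p y).comp (plq_inc P h)) := by
  intro w hw
  rw [LinearMap.mem_ker] at hw ⊢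
  exact (plq_mem_ker P).2 (cut_mono M (P.Fl.monotone h.1) ((plq_mem_ker P).1 hw))

/-- the maps of the diagram -/
def plq_mp (P : PL F M n) {x y : Ar (Fin (n + 1))} (h : x ≤ y) : P.N x →ₗ[A] P.N y :=
  plq_desc (P.p x) (P.surj x) ((P.p y).comp (plq_inc P h)) (plq_ker P h)

theorem plq_mp_apply (P : PL F M n) {x y : Ar (Fin (n + 1))} (h : x ≤ y)
    (w : cut M (P.Fl x.1.2)) :
    plq_mp P h (P.p x w) = P.p y ⟨w.1, cut_mono M (P.Fl.monotone h.2) w.2⟩ :=
  plq_desc_apply _ _ _ _ _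

theorem plq_mp_unique (P : PL F M n) {x y : Ar (Fin (n + 1))} (h : x ≤ y)
    (g : P.N x →ₗ[A] P.N y)
    (hg : ∀ w : cut M (P.Fl x.1.2),
      g (P.p x w) = P.p y ⟨w.1, cut_mono M (P.Fl.monotone h.2) w.2⟩) :
    plq_mp P h = g := by
  refine LinearMap.ext fun a => ?_
  obtain ⟨w, rfl⟩ := P.surj x a
  rw [plq_mp_apply, hg]

/-- the diagram -/
def plq_D (P : PL F M n) : Ar (Fin (n + 1)) ⥤ ModuleCat.{0} A where
  obj := P.N
  map h := ModuleCat.ofHom (plq_mp P (leOfHom h))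
  map_id x := by
    rw [plq_mp_unique P (leOfHom (𝟙 x)) LinearMap.id fun w => rfl]
    rfl
  map_comp {x y z} f g := by
    rw [plq_mp_unique P (leOfHom (f ≫ g)) ((plq_mp P (leOfHom g)).comp (plq_mp P (leOfHom f)))
      fun w => by rw [LinearMap.comp_apply, plq_mp_apply, plq_mp_apply]]
    rfl

theorem plq_D_ext {P Q : PL F M n} (hM : P.N = Q.N)
    (h : ∀ (x y : Ar (Fin (n + 1))) (hxy : x ≤ y), HEq (plq_mp P hxy) (plq_mp Q hxy)) :
    plq_D P = plq_D Q := by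
  obtain ⟨Fl, N, p, s1, k1⟩ := P
  obtain ⟨Fl', N', p', s2, k2⟩ := Q
  obtain rfl : N = N' := hM
  refine CategoryTheory.Functor.hext (fun _ => rfl) fun x y f => ?_
  have := eq_of_heq (h x y (leOfHom f))
  refine heq_of_eq ?_
  exact congrArg ModuleCat.ofHom this

theorem plq_mp_heq {P Q : PL F M n} (h : plq_D P = plq_D Q) (hM : P.N = Q.N)
    (x y : Ar (Fin (n + 1))) (hxy : x ≤ y) : HEq (plq_mp P hxy) (plq_mp Q hxy) := by
  obtain ⟨Fl, N, p, s1, k1⟩ := P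
  obtain ⟨Fl', N', p', s2, k2⟩ := Q
  obtain rfl : N = N' := hM
  have h1 : ModuleCat.ofHom (plq_mp (⟨Fl, N, p, s1, k1⟩ : PL F M n) hxy) =
      ModuleCat.ofHom (plq_mp (⟨Fl', N, p', s2, k2⟩ : PL F M n) hxy) :=
    eq_of_heq (CategoryTheory.Functor.hcongr_hom h (homOfLE hxy))
  exact heq_of_eq (congrArg ModuleCat.Hom.hom h1)

/-! ### it is an S-diagram -/

theorem plq_inj (P : PL F M n) {i j l : Fin (n + 1)} (hij : i ≤ j) (hjl : j ≤ l) :
    Injective (plq_mp P (show ar i j hij ≤ ar i l (hij.trans hjl) from ⟨le_rfl, hjl⟩)) := by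
  rw [injective_iff_map_eq_zero]
  intro a ha
  obtain ⟨w, rfl⟩ := P.surj _ a
  rw [plq_mp_apply, plq_mem_ker] at ha
  exact (plq_mem_ker P).2 ha

variable (hfin : ∀ W : Submodule F V, Module.Finite A (cut M W))
  (htf : ∀ (W : Submodule F V) (a : A) (x : V), a • x ∈ W → a = 0 ∨ x ∈ W)

include hfin htf in
theorem plq_SP (P : PL F M n) : ((TF A).SP (Fin (n + 1))).Q (plq_D P) := by
  refine ⟨fun x => ⟨?_, ?_⟩, fun i => ?_, fun i j l hij hjl => ?_⟩
  · have := hfin (P.Fl x.1.2)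
    exact Module.Finite.of_surjective (P.p x) (P.surj x)
  · intro a y hy
    obtain ⟨w, rfl⟩ := P.surj x y
    have hy1 : P.p x (a • w) = 0 := (map_smul (P.p x) a w).trans hy
    have hy2 := (plq_mem_ker P).1 hy1
    refine (htf _ a w.1 hy2.2).imp id fun h => ?_
    exact (plq_mem_ker P).2 ⟨w.2.1, h⟩
  · have : Subsingleton (P.N (ar i i le_rfl)) := by
      refine ⟨fun a b => ?_⟩
      obtain ⟨v, rfl⟩ := P.surj _ a
      obtain ⟨w, rfl⟩ := P.surj _ b
      rw [(plq_mem_ker P).2 v.2, (plq_mem_ker P).2 w.2]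
    exact ModuleCat.isZero_of_subsingleton (P.N (ar i i le_rfl))
  · refine (KQG.ses_mod _ _).2 ⟨plq_inj P hij hjl, fun b => ?_, fun c => ?_⟩
    · constructor
      · intro hb
        obtain ⟨v, rfl⟩ := P.surj _ b
        have hb' : plq_mp P (show ar i l (hij.trans hjl) ≤ ar j l hjl from ⟨hij, le_rfl⟩)
          (P.p _ v) = 0 := hb
        rw [plq_mp_apply, plq_mem_ker] at hb'
        exact ⟨P.p (ar i j hij) ⟨v.1, hb'⟩, plq_mp_apply P _ _⟩
      · rintro ⟨a, rfl⟩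
        obtain ⟨w, rfl⟩ := P.surj _ a
        change plq_mp P _ (plq_mp P _ (P.p _ w)) = 0
        rw [plq_mp_apply, plq_mp_apply, plq_mem_ker]
        exact w.2
    · obtain ⟨v, rfl⟩ := P.surj _ c
      exact ⟨P.p _ v, plq_mp_apply P _ _⟩

/-- the S-diagram -/
def plq_f (P : PL F M n) : (XT A).obj n := ⟨plq_D P, plq_SP hfin htf P⟩

variable [IsDomain A] (hrk : ∀ W : Submodule F V, Module.finrank A (cut M W) = Module.finrank F W)

include hrk in
theorem plq_rank (P : PL F M n) :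
    Module.finrank A (topT (plq_f hfin htf P)) + Module.finrank F (P.Fl 0) =
      Module.finrank F (P.Fl (Fin.last n)) := by
  have h0 := hfin (P.Fl (Fin.last n))
  have hle := cut_mono M (P.Fl.monotone (Fin.zero_le (Fin.last n)))
  have h1 := finrank_exact (Submodule.inclusion hle)
    (P.p (ar 0 (Fin.last n) (Fin.zero_le _))) (Submodule.inclusion_injective hle)
    (fun w => by
      refine (plq_mem_ker P (x := ar 0 (Fin.last n) (Fin.zero_le _)) (w := w)).trans ?_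
      constructor
      · intro h
        exact ⟨⟨w.1, h⟩, rfl⟩
      · rintro ⟨v, rfl⟩
        exact v.2) (P.surj _)
  rw [hrk, hrk] at h1
  change Module.finrank A (P.N (ar 0 (Fin.last n) (Fin.zero_le _))) + _ = _
  omega

variable [FiniteDimensional F V]

include hrk in
theorem plq_rank_le (P : PL F M n) :
    Module.finrank A (topT (plq_f hfin htf P)) ≤ Module.finrank F V := by
  have h1 := plq_rank hfin htf hrk P
  have h2 := Submodule.finrank_le (P.Fl (Fin.last n))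
  omega

include hrk in
theorem plq_rank_iff (P : PL F M n) :
    Module.finrank A (topT (plq_f hfin htf P)) < Module.finrank F V ↔
      P.Fl 0 ≠ ⊥ ∨ P.Fl (Fin.last n) ≠ ⊤ := by
  have h1 := plq_rank hfin htf hrk P
  have h2 := Submodule.finrank_le (P.Fl (Fin.last n))
  constructor
  · intro h
    by_contra h3
    push Not at h3
    rw [h3.1, h3.2, finrank_top, finrank_bot] at h1
    omega
  · rintro (h | h)
    · have h3 : Module.finrank F (P.Fl 0) ≠ 0 := fun h4 => h (Submodule.finrank_eq_zero.1 h4)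
      omega
    · have h3 : Module.finrank F (P.Fl (Fin.last n)) < Module.finrank F V :=
        Submodule.finrank_lt h
      omega

include hrk in
/-- the map to the S-diagrams -/
def plq_map : PLS F M ⟶ (rkT A (Module.finrank F V)).S :=
  ⟨fun n P => ⟨plq_f hfin htf P, plq_rank_le hfin htf hrk P⟩, fun {m n} θ P => rfl⟩

end

/-! ### the action -/

section act

variable {A F V : Type} [CommRing A] [Field F] [Algebra A F] [AddCommGroup V] [Module F V]
  [Module A V] [IsScalarTower A F V] {M : Submodule A V} {n : ℕ}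

theorem plq_mem_map (g : V ≃ₗ[F] V) (W : Submodule F V) (w : V) :
    w ∈ W.map g.toLinearMap ↔ g.symm w ∈ W := Submodule.mem_map_equiv _

theorem plq_gam_symm (g : Gam (F := F) M) (w : V) : g.1.symm w ∈ M ↔ w ∈ M := by
  have h := g.2 (g.1.symm w)
  rw [LinearEquiv.apply_symm_apply] at h
  exact h.symm

theorem plq_mem_cut (g : Gam (F := F) M) (W : Submodule F V) (w : V) :
    w ∈ cut M (W.map g.1.toLinearMap) ↔ g.1.symm w ∈ cut M W :=
  and_congr (plq_gam_symm g w).symm (plq_mem_map g.1 W w)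

/-- the inverse of the action on a member of the flag -/
def plq_res (g : Gam (F := F) M) (W : Submodule F V) :
    cut M (W.map g.1.toLinearMap) →ₗ[A] cut M W :=
  (g.1.symm.toLinearMap.restrictScalars A).restrict fun w hw => (plq_mem_cut g W w).1 hw

theorem plq_res_surj (g : Gam (F := F) M) (W : Submodule F V) : Surjective (plq_res g W) := by
  intro w
  have h : g.1.symm (g.1 w.1) = w.1 := g.1.symm_apply_apply _
  refine ⟨⟨g.1 w.1, (plq_mem_cut g W _).2 (by rw [h]; exact w.2)⟩, Subtype.ext h⟩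

/-- the action on flags with quotients -/
def plq_actO (g : Gam (F := F) M) (P : PL F M n) : PL F M n where
  Fl := (mapSub g.1).comp P.Fl
  N := P.N
  p x := (P.p x).comp (plq_res g (P.Fl x.1.2))
  surj x := (P.surj x).comp (plq_res_surj g (P.Fl x.1.2))
  ker x := by
    ext w
    refine (plq_mem_ker P (x := x) (w := plq_res g (P.Fl x.1.2) w)).trans ?_
    exact (plq_mem_cut g (P.Fl x.1.1) w.1).symm

theorem plq_act_p (g : Gam (F := F) M) (P : PL F M n) (x : Ar (Fin (n + 1))) (w : V)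
    (hw : w ∈ cut M ((plq_actO g P).Fl x.1.2)) (hw' : g.1.symm w ∈ cut M (P.Fl x.1.2)) :
    (plq_actO g P).p x ⟨w, hw⟩ = P.p x ⟨g.1.symm w, hw'⟩ := rfl

/-- the action -/
def plq_act (g : Gam (F := F) M) : PLS F M ⟶ PLS F M :=
  ⟨fun n P => plq_actO g P, fun {m n} θ P => rfl⟩

theorem plq_act_one : plq_act (1 : Gam (F := F) M) = 𝟙 (PLS F M) := by
  refine SSt.hom_ext fun n P => ?_
  refine plq_ext _ _ _ _ ?_ ?_
  · exact congrArg (fun f : Submodule F V →o Submodule F V => f.comp P.Fl)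
      (mapSub_one (F := F) (V := V))
  · intro x w hw hw'
    exact plq_act_p 1 P x w hw hw'

theorem plq_act_mul (g h : Gam (F := F) M) : plq_act (g * h) = plq_act h ≫ plq_act g := by
  refine SSt.hom_ext fun n P => ?_
  refine plq_ext _ _ _ _ ?_ ?_
  · exact congrArg (fun f : Submodule F V →o Submodule F V => f.comp P.Fl)
      (mapSub_mul g.1 h.1)
  · intro x w hw hw'
    rfl

variable (F M) in
/-- the action, as a structure -/
def plq_G : GAct (Gam (F := F) M) (PLS F M) := ⟨plq_act, plq_act_one, plq_act_mul⟩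

theorem plq_act_mp (g : Gam (F := F) M) (P : PL F M n) {x y : Ar (Fin (n + 1))} (h : x ≤ y) :
    plq_mp (plq_actO g P) h = plq_mp P h := by
  refine plq_mp_unique (plq_actO g P) h (plq_mp P h) fun w => ?_
  exact plq_mp_apply P h _

theorem plq_act_D (g : Gam (F := F) M) (P : PL F M n) : plq_D (plq_actO g P) = plq_D P :=
  plq_D_ext rfl fun x y h => heq_of_eq (plq_act_mp g P h)

end act

/-! ### surjectivity -/

section onto

variable {A F V : Type} [CommRing A] [Field F] [Algebra A F] [AddCommGroup V] [Module F V]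
  [Module A V] [IsScalarTower A F V] {M : Submodule A V} {n : ℕ}

variable (D : (XT A).obj n)

theorem plq_ent_comp {x y z : Ar (Fin (n + 1))} (h : x ≤ y) (h' : y ≤ z) (a : entT D x) :
    entTMap D h' (entTMap D h a) = entTMap D (h.trans h') a := by
  have h1 : D.obj.map (homOfLE (h.trans h')) = D.obj.map (homOfLE h) ≫ D.obj.map (homOfLE h') := by
    rw [← D.obj.map_comp]
    rfl
  exact (congrArg (fun t : entT D x ⟶ entT D z => ModuleCat.Hom.hom t a) h1).symm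

/-- the map `D(0, i) → D(0, n)` -/
def plq_i (i : Fin (n + 1)) : entT D (ar 0 i (Fin.zero_le _)) →ₗ[A] topT D :=
  entTMap D (show ar 0 i (Fin.zero_le _) ≤ ar 0 (Fin.last n) (Fin.zero_le _) from
    ⟨le_rfl, Fin.le_last _⟩)

theorem plq_i_inj (i : Fin (n + 1)) : Injective (plq_i D i) :=
  (entT_ses D 0 i (Fin.last n) (Fin.zero_le _) (Fin.le_last _)).1

variable (e : M ≃ₗ[A] topT D)

/-- the submodules of `M` -/
def plq_L (i : Fin (n + 1)) : Submodule A V :=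
  ((LinearMap.range (plq_i D i)).comap e.toLinearMap).map M.subtype

theorem plq_mem_L (i : Fin (n + 1)) (w : V) :
    w ∈ plq_L D e i ↔ ∃ h : w ∈ M, ∃ a, plq_i D i a = e ⟨w, h⟩ := by
  constructor
  · rintro ⟨m, ⟨a, ha⟩, rfl⟩
    exact ⟨m.2, a, ha⟩
  · rintro ⟨h, a, ha⟩
    exact ⟨⟨w, h⟩, ⟨a, ha⟩, rfl⟩

theorem plq_L_mono {i j : Fin (n + 1)} (h : i ≤ j) : plq_L D e i ≤ plq_L D e j := by
  intro w hw
  obtain ⟨h1, a, ha⟩ := (plq_mem_L D e i w).1 hw
  refine (plq_mem_L D e j w).2 ⟨h1, entTMap D (show ar 0 i (Fin.zero_le _) ≤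
    ar 0 j (Fin.zero_le _) from ⟨le_rfl, h⟩) a, ?_⟩
  exact (plq_ent_comp D _ _ a).trans ha

variable (F) in
/-- the flag of a diagram -/
def plq_rF : Fin (n + 1) →o Submodule F V where
  toFun i := Submodule.span F (plq_L D e i : Set V)
  monotone' i j h := Submodule.span_mono (plq_L_mono D e h)

variable (hsat : ∀ L : Submodule A V, L ≤ M →
    (∀ (a : A) (x : V), x ∈ M → a • x ∈ L → a = 0 ∨ x ∈ L) →
    cut M (Submodule.span F (L : Set V)) = L)

include hsat in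
theorem plq_rcut (i : Fin (n + 1)) : cut M (plq_rF F D e i) = plq_L D e i := by
  refine hsat _ (fun w hw => ((plq_mem_L D e i w).1 hw).1) fun a x hx hax => ?_
  obtain ⟨h1, b, hb⟩ := (plq_mem_L D e i _).1 hax
  have h2 : e ⟨a • x, h1⟩ = a • e ⟨x, hx⟩ := by
    rw [← map_smul]
    rfl
  have h3 := (entT_ses D 0 i (Fin.last n) (Fin.zero_le _) (Fin.le_last _)).2.1
  have h4 : entTMap D (show ar 0 (Fin.last n) (Fin.zero_le _) ≤
      ar i (Fin.last n) (Fin.le_last _) from ⟨Fin.zero_le _, le_rfl⟩) (a • e ⟨x, hx⟩) = 0 :=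
    (h3 _).2 ⟨b, hb.trans h2⟩
  have h5 : a • entTMap D (show ar 0 (Fin.last n) (Fin.zero_le _) ≤
      ar i (Fin.last n) (Fin.le_last _) from ⟨Fin.zero_le _, le_rfl⟩) (e ⟨x, hx⟩) = 0 :=
    (map_smul _ a _).symm.trans h4
  refine (entT_tf D _ a _ h5).imp id fun h6 => ?_
  exact (plq_mem_L D e i x).2 ⟨hx, (h3 _).1 h6⟩

include hsat in
theorem plq_rmem {i : Fin (n + 1)} {w : V} (hw : w ∈ cut M (plq_rF F D e i)) :
    ∃ h : w ∈ M, ∃ a, plq_i D i a = e ⟨w, h⟩ :=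
  (plq_mem_L D e i w).1 (plq_rcut D e hsat i ▸ hw)

/-- the map of the flag to the diagram -/
def plq_rl (j : Fin (n + 1)) :
    cut M (plq_rF F D e j) →ₗ[A] entT D (ar 0 j (Fin.zero_le _)) :=
  (LinearEquiv.ofInjective (plq_i D j) (plq_i_inj D j)).symm.toLinearMap.comp
    ((e.toLinearMap.comp (Submodule.inclusion inf_le_left)).codRestrict
      (LinearMap.range (plq_i D j)) fun w => (plq_rmem D e hsat w.2).2)

theorem plq_rl_spec (j : Fin (n + 1)) (w : V) (hw : w ∈ cut M (plq_rF F D e j)) :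
    plq_i D j (plq_rl D e hsat j ⟨w, hw⟩) = e ⟨w, hw.1⟩ :=
  congrArg Subtype.val ((LinearEquiv.ofInjective (plq_i D j) (plq_i_inj D j)).apply_symm_apply
    (((e.toLinearMap.comp (Submodule.inclusion inf_le_left)).codRestrict
      (LinearMap.range (plq_i D j)) fun w => (plq_rmem D e hsat w.2).2) ⟨w, hw⟩))

theorem plq_rl_surj (j : Fin (n + 1)) : Surjective (plq_rl D e hsat j) := by
  intro a
  have h1 : (e.symm (plq_i D j a)).1 ∈ plq_L D e j :=
    (plq_mem_L D e j _).2 ⟨(e.symm (plq_i D j a)).2, a, (e.apply_symm_apply _).symm⟩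
  have h2 : (e.symm (plq_i D j a)).1 ∈ cut M (plq_rF F D e j) := by
    rw [plq_rcut D e hsat j]
    exact h1
  refine ⟨⟨_, h2⟩, plq_i_inj D j ?_⟩
  rw [plq_rl_spec]
  exact e.apply_symm_apply _

/-- the flag with quotients of a diagram -/
def plq_rP : PL F M n where
  Fl := plq_rF F D e
  N := entT D
  p x := (entTMap D (show ar 0 x.1.2 (Fin.zero_le _) ≤ x from ⟨Fin.zero_le _, le_rfl⟩)).comp
    (plq_rl D e hsat x.1.2)
  surj x := (entT_ses D 0 x.1.1 x.1.2 (Fin.zero_le _) x.2).2.2.comp (plq_rl_surj D e hsat x.1.2)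
  ker x := by
    ext w
    obtain ⟨w, hw⟩ := w
    have h1 := (entT_ses D 0 x.1.1 x.1.2 (Fin.zero_le _) x.2).2.1
      (plq_rl D e hsat x.1.2 ⟨w, hw⟩)
    have h0 : w ∈ cut M (plq_rF F D e x.1.1) ↔ w ∈ plq_L D e x.1.1 := by
      rw [plq_rcut D e hsat]
    refine h1.trans (Iff.trans ?_ (h0.trans (plq_mem_L D e x.1.1 w)).symm)
    constructor
    · rintro ⟨b, hb⟩
      refine ⟨hw.1, b, ?_⟩
      have h2 := plq_rl_spec D e hsat x.1.2 w hw
      rw [← hb] at h2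
      exact (plq_ent_comp D _ _ b).symm.trans h2
    · rintro ⟨h, b, hb⟩
      refine ⟨b, plq_i_inj D _ ?_⟩
      rw [plq_rl_spec]
      exact (plq_ent_comp D _ _ b).trans hb

theorem plq_rP_D : plq_D (plq_rP D e hsat) = D.obj := by
  refine CategoryTheory.Functor.hext (fun _ => rfl) fun x y f => ?_
  refine heq_of_eq ?_
  have h1 : plq_mp (plq_rP D e hsat) (leOfHom f) = entTMap D (leOfHom f) := by
    refine plq_mp_unique (plq_rP D e hsat) (leOfHom f) (entTMap D (leOfHom f)) fun w => ?_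
    have h2 : plq_rl D e hsat y.1.2 ⟨w.1, cut_mono M ((plq_rF F D e).monotone (leOfHom f).2) w.2⟩ =
        entTMap D (show ar 0 x.1.2 (Fin.zero_le _) ≤ ar 0 y.1.2 (Fin.zero_le _) from
          ⟨le_rfl, (leOfHom f).2⟩) (plq_rl D e hsat x.1.2 w) := by
      apply plq_i_inj D y.1.2
      rw [plq_rl_spec]
      refine Eq.trans ?_ (plq_ent_comp D _ _ _).symm
      exact (plq_rl_spec D e hsat x.1.2 w.1 w.2).symm
    refine (plq_ent_comp D _ _ _).trans ?_
    refine Eq.trans ?_ (congrArg (entTMap D (show ar 0 y.1.2 (Fin.zero_le _) ≤ y from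
      ⟨Fin.zero_le _, le_rfl⟩)) h2.symm)
    exact (plq_ent_comp D _ _ _).symm
  exact congrArg ModuleCat.ofHom h1

end onto

/-! ### orbits -/

section orb

variable {A F V : Type} [CommRing A] [Field F] [Algebra A F] [AddCommGroup V] [Module F V]
  [Module A V] [IsScalarTower A F V] {M : Submodule A V} {n : ℕ}

theorem plq_in (P : PL F M n) (h1 : P.Fl (Fin.last n) = ⊤) :
    M ≤ cut M (P.Fl (Fin.last n)) := fun w hw => ⟨hw, by rw [h1]; trivial⟩

/-- the isomorphism to the last entry -/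
def plq_q (P : PL F M n) (h0 : P.Fl 0 = ⊥) (h1 : P.Fl (Fin.last n) = ⊤) :
    M ≃ₗ[A] P.N (ar 0 (Fin.last n) (Fin.zero_le _)) :=
  LinearEquiv.ofBijective ((P.p (ar 0 (Fin.last n) (Fin.zero_le _))).comp
    (Submodule.inclusion (plq_in P h1))) ⟨by
      rw [injective_iff_map_eq_zero]
      intro w hw
      have h2 : w.1 ∈ P.Fl 0 := ((plq_mem_ker P).1 hw).2
      rw [h0] at h2
      exact Subtype.ext ((Submodule.mem_bot F).1 h2), fun a => by
      obtain ⟨w, rfl⟩ := P.surj _ a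
      exact ⟨⟨w.1, w.2.1⟩, rfl⟩⟩

theorem plq_q_apply (P : PL F M n) (h0 : P.Fl 0 = ⊥) (h1 : P.Fl (Fin.last n) = ⊤) (w : V)
    (hm : w ∈ M) (hw : w ∈ cut M (P.Fl (Fin.last n))) :
    plq_q P h0 h1 ⟨w, hm⟩ = P.p (ar 0 (Fin.last n) (Fin.zero_le _)) ⟨w, hw⟩ := rfl

theorem plq_orb1 {Fl Fl' : Fin (n + 1) →o Submodule F V} {N : Ar (Fin (n + 1)) → ModuleCat.{0} A}
    {p : ∀ x : Ar (Fin (n + 1)), cut M (Fl x.1.2) →ₗ[A] N x}
    {p' : ∀ x : Ar (Fin (n + 1)), cut M (Fl' x.1.2) →ₗ[A] N x}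
    (s1 : ∀ x, Surjective (p x)) (s2 : ∀ x, Surjective (p' x))
    (k1 : ∀ x, LinearMap.ker (p x) = (cut M (Fl x.1.1)).submoduleOf (cut M (Fl x.1.2)))
    (k2 : ∀ x, LinearMap.ker (p' x) = (cut M (Fl' x.1.1)).submoduleOf (cut M (Fl' x.1.2)))
    (h : ∀ (x y : Ar (Fin (n + 1))) (hxy : x ≤ y),
      plq_mp (⟨Fl, N, p, s1, k1⟩ : PL F M n) hxy = plq_mp (⟨Fl', N, p', s2, k2⟩ : PL F M n) hxy)
    (h0 : Fl 0 = ⊥) (h1 : Fl (Fin.last n) = ⊤) (h0' : Fl' 0 = ⊥) (h1' : Fl' (Fin.last n) = ⊤)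
    (j : Fin (n + 1)) (w : V) (hw : w ∈ cut M (Fl j)) :
    ∃ hw' : ((plq_q (⟨Fl', N, p', s2, k2⟩ : PL F M n) h0' h1').symm
        (plq_q (⟨Fl, N, p, s1, k1⟩ : PL F M n) h0 h1 ⟨w, hw.1⟩)).1 ∈ cut M (Fl' j),
      p' (ar 0 j (Fin.zero_le _)) ⟨_, hw'⟩ = p (ar 0 j (Fin.zero_le _)) ⟨w, hw⟩ := by
  obtain ⟨⟨v, hv⟩, hv'⟩ := s2 (ar 0 j (Fin.zero_le _)) (p (ar 0 j (Fin.zero_le _)) ⟨w, hw⟩)
  have e0 : ar 0 j (Fin.zero_le _) ≤ ar 0 (Fin.last n) (Fin.zero_le _) :=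
    ⟨le_rfl, Fin.le_last _⟩
  have e1 := plq_mp_apply (⟨Fl', N, p', s2, k2⟩ : PL F M n) e0 ⟨v, hv⟩
  have e2 := plq_mp_apply (⟨Fl, N, p, s1, k1⟩ : PL F M n) e0 ⟨w, hw⟩
  have e3 : plq_q (⟨Fl', N, p', s2, k2⟩ : PL F M n) h0' h1' ⟨v, hv.1⟩ =
      plq_q (⟨Fl, N, p, s1, k1⟩ : PL F M n) h0 h1 ⟨w, hw.1⟩ := by
    refine Eq.trans e1.symm ?_
    refine Eq.trans ?_ e2
    rw [h _ _ e0]
    exact congrArg _ hv'
  have e4 : ((plq_q (⟨Fl', N, p', s2, k2⟩ : PL F M n) h0' h1').symm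
      (plq_q (⟨Fl, N, p, s1, k1⟩ : PL F M n) h0 h1 ⟨w, hw.1⟩)) = ⟨v, hv.1⟩ := by
    rw [LinearEquiv.symm_apply_eq, e3]
  refine ⟨by rw [e4]; exact hv, ?_⟩
  rw [← hv']
  congr 1
  exact Subtype.ext (congrArg (fun t : M => t.1) e4)

theorem plq_orb (hsp : ∀ W : Submodule F V, Submodule.span F (cut M W : Set V) = W)
    (hext : ∀ e : M ≃ₗ[A] M, ∃ g ∈ Gam (F := F) M, ∀ x : M, g x.1 = (e x).1)
    (P Q : PL F M n) (hP : ¬ (P.Fl 0 ≠ ⊥ ∨ P.Fl (Fin.last n) ≠ ⊤))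
    (hQ : ¬ (Q.Fl 0 ≠ ⊥ ∨ Q.Fl (Fin.last n) ≠ ⊤)) (h : plq_D P = plq_D Q) :
    ∃ g : Gam (F := F) M, plq_actO g P = Q := by
  push Not at hP hQ
  have hM : P.N = Q.N := congrArg CategoryTheory.Functor.obj h
  have h2 := plq_mp_heq h hM
  obtain ⟨Fl, N, p, s1, k1⟩ := P
  obtain ⟨Fl', N', p', s2, k2⟩ := Q
  obtain rfl : N = N' := hM
  have h3 : ∀ (x y : Ar (Fin (n + 1))) (hxy : x ≤ y),
      plq_mp (⟨Fl, N, p, s1, k1⟩ : PL F M n) hxy = plq_mp (⟨Fl', N, p', s2, k2⟩ : PL F M n) hxy :=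
    fun x y hxy => eq_of_heq (h2 x y hxy)
  have a1 := plq_orb1 s1 s2 k1 k2 h3 hP.1 hP.2 hQ.1 hQ.2
  have a2 := plq_orb1 s2 s1 k2 k1 (fun x y hxy => (h3 x y hxy).symm) hQ.1 hQ.2 hP.1 hP.2
  obtain ⟨g, hg, hge⟩ := hext ((plq_q (⟨Fl, N, p, s1, k1⟩ : PL F M n) hP.1 hP.2).trans
    (plq_q (⟨Fl', N, p', s2, k2⟩ : PL F M n) hQ.1 hQ.2).symm)
  have hgs : ∀ (w : V) (hw : w ∈ M), g.symm w =
      ((plq_q (⟨Fl, N, p, s1, k1⟩ : PL F M n) hP.1 hP.2).symm
        (plq_q (⟨Fl', N, p', s2, k2⟩ : PL F M n) hQ.1 hQ.2 ⟨w, hw⟩)).1 := by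
    intro w hw
    rw [LinearEquiv.symm_apply_eq, hge]
    change w = ((plq_q (⟨Fl', N, p', s2, k2⟩ : PL F M n) hQ.1 hQ.2).symm
      (plq_q (⟨Fl, N, p, s1, k1⟩ : PL F M n) hP.1 hP.2
        ((plq_q (⟨Fl, N, p, s1, k1⟩ : PL F M n) hP.1 hP.2).symm
          (plq_q (⟨Fl', N, p', s2, k2⟩ : PL F M n) hQ.1 hQ.2 ⟨w, hw⟩)))).1
    rw [LinearEquiv.apply_symm_apply, LinearEquiv.symm_apply_apply]
  refine ⟨⟨g, hg⟩, ?_⟩
  refine plq_ext _ _ _ _ ?_ ?_
  · refine OrderHom.ext _ _ (funext fun i => ?_)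
    change (Fl i).map g.toLinearMap = Fl' i
    refine le_antisymm ?_ ?_
    · rw [← hsp (Fl i), Submodule.map_span_le]
      intro m hm
      have h4 := (a1 i m hm).1
      have h5 : g m = ((plq_q (⟨Fl', N, p', s2, k2⟩ : PL F M n) hQ.1 hQ.2).symm
        (plq_q (⟨Fl, N, p, s1, k1⟩ : PL F M n) hP.1 hP.2 ⟨m, hm.1⟩)).1 := hge ⟨m, hm.1⟩
      change g m ∈ Fl' i
      rw [h5]
      exact h4.2
    · rw [← hsp (Fl' i), Submodule.span_le]
      intro m hm
      refine (plq_mem_map g (Fl i) m).2 ?_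
      rw [hgs m hm.1]
      exact (a2 i m hm).1.2
  · intro x w hw hw'
    obtain ⟨h4, h5⟩ := a2 x.1.2 w hw'
    have h6 : g.symm w ∈ cut M (Fl x.1.2) := by
      rw [hgs w hw'.1]
      exact h4
    refine (plq_act_p ⟨g, hg⟩ (⟨Fl, N, p, s1, k1⟩ : PL F M n) x w hw h6).trans ?_
    have e0 : ar 0 x.1.2 (Fin.zero_le _) ≤ x := ⟨Fin.zero_le _, le_rfl⟩
    have e1 := plq_mp_apply (⟨Fl', N, p', s2, k2⟩ : PL F M n) e0 ⟨w, hw'⟩
    have e2 := plq_mp_apply (⟨Fl, N, p, s1, k1⟩ : PL F M n) e0 ⟨g.symm w, h6⟩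
    refine Eq.trans e2.symm (Eq.trans ?_ e1)
    rw [h3 _ _ e0]
    refine congrArg _ (Eq.trans ?_ h5)
    change p (ar 0 x.1.2 (Fin.zero_le _)) ⟨g.symm w, h6⟩ = p (ar 0 x.1.2 (Fin.zero_le _)) ⟨_, h4⟩
    exact congrArg _ (Subtype.ext (hgs w hw'.1))

theorem plq_free (hM : Submodule.span F (M : Set V) = ⊤)
    (P : PL F M n) (hP : ¬ (P.Fl 0 ≠ ⊥ ∨ P.Fl (Fin.last n) ≠ ⊤)) (g : Gam (F := F) M)
    (h : plq_actO g P = P) : g = 1 := by
  push Not at hP
  have e1 : ∀ w ∈ M, g.1.symm w = w := by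
    intro w hm
    have hm' : g.1.symm w ∈ M := (plq_gam_symm g w).2 hm
    have h1 : w ∈ cut M (P.Fl (Fin.last n)) := plq_in P hP.2 hm
    have h2 : g.1.symm w ∈ cut M (P.Fl (Fin.last n)) := plq_in P hP.2 hm'
    have h3 : w ∈ cut M ((plq_actO g P).Fl (Fin.last n)) :=
      (plq_mem_cut g (P.Fl (Fin.last n)) w).2 h2
    have h4 := plq_heq h (ar 0 (Fin.last n) (Fin.zero_le _)) w h3 h1
    have h5 := plq_act_p g P (ar 0 (Fin.last n) (Fin.zero_le _)) w h3 h2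
    have h6 : P.p (ar 0 (Fin.last n) (Fin.zero_le _)) ⟨g.1.symm w, h2⟩ =
      P.p (ar 0 (Fin.last n) (Fin.zero_le _)) ⟨w, h1⟩ := h5.symm.trans (eq_of_heq h4)
    have h7 : plq_q P hP.1 hP.2 ⟨g.1.symm w, hm'⟩ = plq_q P hP.1 hP.2 ⟨w, hm⟩ := h6
    exact congrArg Subtype.val ((plq_q P hP.1 hP.2).injective h7)
  have e2 : g.1.symm.toLinearMap = LinearMap.id :=
    LinearMap.ext_on hM fun w hw => e1 w hw
  refine Subtype.ext (LinearEquiv.ext fun w => ?_)
  have h1 : g.1.symm (g.1 w) = g.1 w := congrArg (fun t : V →ₗ[F] V => t (g.1 w)) e2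
  rw [LinearEquiv.symm_apply_apply] at h1
  exact h1.symm

end orb

/-- **PLQ.** -/
theorem thm_PLQ (hLat : St_Lat) : St_PLQ := by
  intro A F V _ _ _ _ _ _ _ _ _ _ M hM
  obtain ⟨hfd, hcut, hsat, hext⟩ := hLat A F V M hM
  have hfin : ∀ W : Submodule F V, Module.Finite A (cut M W) := fun W => (hcut W).1
  have hrk : ∀ W : Submodule F V, Module.finrank A (cut M W) = Module.finrank F W :=
    fun W => (hcut W).2.1
  have hsp : ∀ W : Submodule F V, Submodule.span F (cut M W : Set V) = W :=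
    fun W => (hcut W).2.2.1
  have htf : ∀ (W : Submodule F V) (a : A) (x : V), a • x ∈ W → a = 0 ∨ x ∈ W :=
    fun W => (hcut W).2.2.2
  refine ⟨plq_map hfin htf hrk, plq_G F M, fun g => rfl, fun g => ?_, fun n y => ?_,
    fun n z hz => ?_, fun n y y' hy hy' h => ?_, fun n y g hy h => plq_free hM.2 y hy g h⟩
  · refine SSt.hom_ext fun n P => ?_
    refine Subtype.ext ?_
    exact ObjectProperty.FullSubcategory.ext (plq_act_D g P)
  · have h1 := plq_rank_iff hfin htf hrk y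
    constructor
    · rintro (h2 | h2)
      · exact h1.1 h2
      · by_contra h3
        have h4 : ¬ (y.Fl 0 ≠ ⊥ ∨ y.Fl (Fin.last n) ≠ ⊤) := h3
        push Not at h4
        exact h2 ⟨(plq_q y h4.1 h4.2).symm⟩
    · intro h2
      exact Or.inl (h1.2 h2)
  · have h1 : ¬ (Module.finrank A (topT z.1) < Module.finrank F V ∨
      notIso (ModuleCat.of A M) (topT z.1)) := hz
    push Not at h1
    obtain ⟨e⟩ := not_not.1 h1.2
    have e' : topT z.1 ≃ₗ[A] M := e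
    refine ⟨plq_rP z.1 e'.symm hsat, Subtype.ext ?_⟩
    exact ObjectProperty.FullSubcategory.ext (plq_rP_D _ _ _)
  · have h1 : plq_D y = plq_D y' := congrArg (fun t => t.1.obj) h
    obtain ⟨g, hg⟩ := plq_orb hsp hext y y' hy hy' h1
    exact ⟨g, hg⟩

end Pool.Agent.GQ
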