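import Pool.Agent.GQ.StT
import Pool.Agent.FGK.PStr

/-!
# GQ, PLStr: forget the chosen quotients
-/

set_option autoImplicit false
set_option linter.unusedVariables false

noncomputable section

namespace Pool.Agent.GQ

open CategoryTheory CategoryTheory.Limits Function Pool.Agent.KQ Pool.Agent.FGK

section

variable {A F V : Type} [CommRing A] [Field F] [Algebra A F] [AddCommGroup V] [Module F V]
  [Module A V] [IsScalarTower A F V] {M : Submodule A V}

/-- flags with quotients from dependent pairs -/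
def plstr_mk {n : ℕ} (W : Fin (n + 1) →o Submodule F V)
    (Q : ∀ x : Ar (Fin (n + 1)), Σ N : ModuleCat.{0} A, (cut M (W x.1.2) →ₗ[A] N))
    (hs : ∀ x, Surjective (Q x).2)
    (hk : ∀ x, LinearMap.ker (Q x).2 = (cut M (W x.1.1)).submoduleOf (cut M (W x.1.2))) :
    PL F M n :=
  ⟨W, fun x => (Q x).1, fun x => (Q x).2, hs, hk⟩

theorem plstr_mk_congr {n : ℕ} (W : Fin (n + 1) →o Submodule F V)
    {Q Q' : ∀ x : Ar (Fin (n + 1)), Σ N : ModuleCat.{0} A, (cut M (W x.1.2) →ₗ[A] N)} (h : Q = Q')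
    (hs : ∀ x, Surjective (Q x).2)
    (hk : ∀ x, LinearMap.ker (Q x).2 = (cut M (W x.1.1)).submoduleOf (cut M (W x.1.2)))
    (hs' : ∀ x, Surjective (Q' x).2)
    (hk' : ∀ x, LinearMap.ker (Q' x).2 = (cut M (W x.1.1)).submoduleOf (cut M (W x.1.2))) :
    plstr_mk W Q hs hk = plstr_mk W Q' hs' hk' := by
  subst h
  rfl

variable (M) in
/-- the standard quotients -/
def plstr_Q {n : ℕ} (W : Fin (n + 1) →o Submodule F V) (x : Ar (Fin (n + 1))) :
    Σ N : ModuleCat.{0} A, (cut M (W x.1.2) →ₗ[A] N) :=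
  ⟨ModuleCat.of A (cut M (W x.1.2) ⧸ (cut M (W x.1.1)).submoduleOf (cut M (W x.1.2))),
    ((cut M (W x.1.1)).submoduleOf (cut M (W x.1.2))).mkQ⟩

variable (M) in
theorem plstr_Q_surj {n : ℕ} (W : Fin (n + 1) →o Submodule F V) (x : Ar (Fin (n + 1))) :
    Surjective (plstr_Q M W x).2 := Submodule.mkQ_surjective _

variable (M) in
theorem plstr_Q_ker {n : ℕ} (W : Fin (n + 1) →o Submodule F V) (x : Ar (Fin (n + 1))) :
    LinearMap.ker (plstr_Q M W x).2 = (cut M (W x.1.1)).submoduleOf (cut M (W x.1.2)) :=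
  Submodule.ker_mkQ _

variable (F M) in
/-- the standard quotients, as a section -/
def plstr_s : nvS.{1} (Submodule F V) ⟶ PLS F M :=
  ⟨fun _ W => plstr_mk W.down (plstr_Q M W.down) (plstr_Q_surj M W.down) (plstr_Q_ker M W.down),
    fun _ _ => rfl⟩

/-- the pairs of the homotopy -/
def plstr_hQ {n : ℕ} (α : Fin (n + 1) →o Bool) (P : PL F M n) (x : Ar (Fin (n + 1))) :
    Σ N : ModuleCat.{0} A, (cut M (P.Fl x.1.2) →ₗ[A] N) :=
  match α x.1.2 with
  | false => ⟨P.N x, P.p x⟩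
  | true => plstr_Q M P.Fl x

theorem plstr_hQ_false {n : ℕ} (α : Fin (n + 1) →o Bool) (P : PL F M n) (x : Ar (Fin (n + 1)))
    (h : α x.1.2 = false) : plstr_hQ α P x = ⟨P.N x, P.p x⟩ := by
  unfold plstr_hQ
  rw [h]

theorem plstr_hQ_true {n : ℕ} (α : Fin (n + 1) →o Bool) (P : PL F M n) (x : Ar (Fin (n + 1)))
    (h : α x.1.2 = true) : plstr_hQ α P x = plstr_Q M P.Fl x := by
  unfold plstr_hQ
  rw [h]

theorem plstr_hQ_surj {n : ℕ} (α : Fin (n + 1) →o Bool) (P : PL F M n) (x : Ar (Fin (n + 1))) :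
    Surjective (plstr_hQ α P x).2 := by
  cases h : α x.1.2 with
  | false =>
    rw [plstr_hQ_false α P x h]
    exact P.surj x
  | true =>
    rw [plstr_hQ_true α P x h]
    exact plstr_Q_surj M P.Fl x

theorem plstr_hQ_ker {n : ℕ} (α : Fin (n + 1) →o Bool) (P : PL F M n) (x : Ar (Fin (n + 1))) :
    LinearMap.ker (plstr_hQ α P x).2 =
      (cut M (P.Fl x.1.1)).submoduleOf (cut M (P.Fl x.1.2)) := by
  cases h : α x.1.2 with
  | false =>
    rw [plstr_hQ_false α P x h]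
    exact P.ker x
  | true =>
    rw [plstr_hQ_true α P x h]
    exact plstr_Q_ker M P.Fl x

variable (F M) in
/-- the homotopy -/
def plstr_H : SSt.Htpy (𝟙 (PLS F M)) (plG F M ≫ plstr_s F M) where
  h n α P := plstr_mk P.Fl (plstr_hQ α P) (plstr_hQ_surj α P) (plstr_hQ_ker α P)
  nat θ α P := rfl
  h0 n α P hα := by
    change plstr_mk P.Fl (plstr_hQ α P) _ _ = plstr_mk P.Fl (fun x => ⟨P.N x, P.p x⟩) P.surj P.ker
    exact plstr_mk_congr _ (funext fun x => plstr_hQ_false α P x (hα _)) _ _ _ _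
  h1 n α P hα := by
    change plstr_mk P.Fl (plstr_hQ α P) _ _ = plstr_mk P.Fl (plstr_Q M P.Fl) _ _
    exact plstr_mk_congr _ (funext fun x => plstr_hQ_true α P x (hα _)) _ _ _ _

end

/-- **PLStr** -/
theorem thm_PLStr : St_PLStr := by
  intro A F V _ _ _ _ _ _ _ M
  refine ⟨pstr_strong (plG F M) (plstr_s F M) rfl ⟨plstr_H F M⟩, ?_⟩
  exact pstr_strong _ (SubS.mapS (plstr_s F M) (badS.{1} (Submodule F V)) (badL F M)
    fun n x hx => hx) rfl ⟨pstr_restr (plG F M) (plstr_s F M) (plstr_H F M) (badL F M)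
      (badS.{1} (Submodule F V)) (fun n x hx => hx) (fun n x hx => hx) fun n α x hx => hx⟩

end Pool.Agent.GQ
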