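import Pool.Agent.GQ.StT
import Pool.Agent.FGK.Sl

/-!
# GQ: the part of the rank filtration which belongs to one isomorphism class
-/

set_option autoImplicit false
set_option linter.unusedVariables false

noncomputable section

namespace Pool.Agent.GQ

open CategoryTheory CategoryTheory.Limits Function Pool.Agent.KQ Pool.Agent.FGK

universe u

theorem pair_triv {X Y : SAb.{u}} {f : X ⟶ Y} (h : SAb.Weq f) (c : ℕ) (hX : SAb.Triv c X) :
    SAb.Triv c Y := by
  intro j hj y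
  obtain ⟨x, rfl⟩ := (h j).2 y
  rw [hX j hj x, map_one]

theorem pair_triv' {X Y : SAb.{u}} {f : X ⟶ Y} (h : SAb.Weq f) (c : ℕ) (hY : SAb.Triv c Y) :
    SAb.Triv c X := by
  intro j hj x
  apply (h j).1
  rw [map_one]
  exact hY j hj _

theorem pair_sl {X Y : SAb.{u}} {f : X ⟶ Y} (h : SAb.Weq f) (j : ℕ) (hX : X.SlAt j) :
    Y.SlAt j := thm_Sl.2.1 _ (h j).2 hX

theorem pair_sl' {X Y : SAb.{u}} {f : X ⟶ Y} (h : SAb.Weq f) (j : ℕ) (hY : Y.SlAt j) :
    X.SlAt j := thm_Sl.1 _ (h j).1 hY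

section

variable {A F V : Type} [CommRing A] [Field F] [Algebra A F] [AddCommGroup V] [Module F V]
  [Module A V] [IsScalarTower A F V]

theorem pair_mapSub (g : V ≃ₗ[F] V) (W : Submodule F V) :
    mapSub g⁻¹ (mapSub g W) = W := by
  have h := congrArg (fun e : Submodule F V →o Submodule F V => e W) (mapSub_mul g⁻¹ g)
  rw [inv_mul_cancel, mapSub_one] at h
  exact h.symm

theorem pair_inv_nv (M : Submodule A V) :
    (nvAct.{u} (F := F) M).Inv (badS.{u} (Submodule F V)) := by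
  intro g n y hy
  change mapSub g.1 (y.down 0) ≠ ⊥ ∨ mapSub g.1 (y.down (Fin.last n)) ≠ ⊤
  refine hy.imp (fun h h1 => h ?_) fun h h1 => h ?_
  · rw [← pair_mapSub g.1 (y.down 0), h1]
    exact Submodule.map_bot _
  · rw [← pair_mapSub g.1 (y.down (Fin.last n)), h1]
    change Submodule.map ((g.1)⁻¹ : V ≃ₗ[F] V).toLinearMap ⊤ = ⊤
    rw [Submodule.map_top]
    exact LinearEquiv.range _

theorem pair_inv_pl (M : Submodule A V) (a : GAct (Gam (F := F) M) (PLS F M))
    (h : a.Eqv (nvAct.{1} (F := F) M) (plG F M)) : a.Inv (badL F M) := by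
  intro g n y hy
  have h1 := congrArg (fun e : PLS F M ⟶ nvS.{1} (Submodule F V) => e.app n y) (h g)
  have h2 : (plG F M).app n ((a.act g).app n y) ∈ (badS.{1} (Submodule F V)).s n := by
    change (plG F M).app n ((a.act g).app n y) = _ at h1
    rw [h1]
    exact pair_inv_nv M g n ((plG F M).app n y) hy
  exact h2

end

theorem thm_Pair (hLat : St_Lat) (hStr : St_hOStr.{1}) (hOrb : St_hOOrb.{1})
    (hTriv : St_hOTriv.{1}) (hRB : St_RB.{1}) (hPL : St_PLStr) (hPQ : St_PLQ) : St_Pair := by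
  intro A F V _ _ _ _ _ _ _ _ _ _ M hM
  obtain ⟨f, a, h1, h2, h3, h4, h5, h6⟩ := hPQ A F V M hM
  have hfd := (hLat A F V M hM).1
  have hA := pair_inv_pl M a h1
  have hI := pair_inv_nv.{1} (F := F) M
  obtain ⟨π1, hπ1⟩ := hOrb a (badL F M) _ f h2 h3 h4 h5 h6
  obtain ⟨π2, hπ2⟩ := hStr.2 a (nvAct M) (plG F M) h1 (badL F M) (badS (Submodule F V)) hA hI
    (fun n x hx => hx) (hPL A F V M).1 (hPL A F V M).2
  refine ⟨?_, fun hs j => ?_⟩
  · exact pair_triv hπ1 _ (pair_triv' hπ2 _ (hTriv _ (nvAct M) _ hI (hRB F V)))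
  · exact pair_sl hπ1 _ (pair_sl' hπ2 _ (hs j))

end Pool.Agent.GQ
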