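import Pool.Agent.GQ.StB

/-!
# GQ, Path: a path of lattices
-/

set_option autoImplicit false
set_option linter.unusedVariables false

noncomputable section

namespace Pool.Agent.GQ

open CategoryTheory Function Pool.Agent.KQ Pool.Agent.FGK

/-! ### a basis which is adapted to a chain of subspaces -/

section basis

variable {F V : Type} [Field F] [AddCommGroup V] [Module F V]

/-- the first `d` members of `v` are a basis of `W` -/
def path_BP (v : ℕ → V) (d : ℕ) (W : Submodule F V) : Prop :=
  LinearIndependent F (fun l : Fin d => v l) ∧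
    Submodule.span F (Set.range fun l : Fin d => v l) = W

theorem path_BP_finrank {v : ℕ → V} {d : ℕ} {W : Submodule F V} (h : path_BP v d W) :
    Module.finrank F W = d := by
  rw [← h.2, finrank_span_eq_card h.1, Fintype.card_fin]

theorem path_BP_congr {v v' : ℕ → V} {d : ℕ} {W : Submodule F V} (h : path_BP v d W)
    (e : ∀ l < d, v' l = v l) : path_BP v' d W := by
  have : (fun l : Fin d => v' l) = fun l : Fin d => v l := funext fun l => e l l.2
  unfold path_BP
  rw [this]
  exact h

theorem path_ext [FiniteDimensional F V] {v : ℕ → V} {d : ℕ} {W W' : Submodule F V}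
    (h : path_BP v d W) (hW : W ≤ W') :
    ∃ (v' : ℕ → V) (d' : ℕ), d ≤ d' ∧ (∀ l < d, v' l = v l) ∧ path_BP v' d' W' := by
  classical
  obtain ⟨C, hC⟩ := Submodule.exists_isCompl W
  let c := Module.finBasis F (C ⊓ W' : Submodule F V)
  set d'' := Module.finrank F (C ⊓ W' : Submodule F V) with hd''
  let v' : ℕ → V := fun l => if l < d then v l else
    if h' : l - d < d'' then (c ⟨l - d, h'⟩ : V) else 0
  have e1 : ∀ l < d, v' l = v l := fun l hl => if_pos hl
  have hsum : W ⊔ C ⊓ W' = W' := by
    rw [← sup_inf_assoc_of_le C hW, hC.sup_eq_top, top_inf_eq]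
  have hc1 : LinearIndependent F (fun l : Fin d'' => (c l : V)) :=
    c.linearIndependent.map' (C ⊓ W').subtype (Submodule.ker_subtype _)
  have hc2 : Submodule.span F (Set.range fun l : Fin d'' => (c l : V)) = C ⊓ W' := by
    have h2 := congrArg (Submodule.map (C ⊓ W').subtype) c.span_eq
    rw [Submodule.map_span, ← Set.range_comp, Submodule.map_top, Submodule.range_subtype] at h2
    exact h2
  have hdis : Disjoint (Submodule.span F (Set.range fun l : Fin d => v l))
      (Submodule.span F (Set.range fun l : Fin d'' => (c l : V))) := by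
    rw [h.2, hc2]
    exact hC.disjoint.mono_right inf_le_left
  have hLI := LinearIndependent.sum_type h.1 hc1 hdis
  have hfun : (fun l : Fin (d + d'') => v' l) ∘ finSumFinEquiv =
      Sum.elim (fun l : Fin d => v l) (fun l : Fin d'' => (c l : V)) := by
    funext x
    rcases x with l | l
    · change v' (Fin.castAdd d'' l) = v l
      rw [Fin.val_castAdd]
      exact e1 _ l.2
    · change v' (Fin.natAdd d l) = (c l : V)
      rw [Fin.val_natAdd]
      have h1 : ¬ d + (l : ℕ) < d := by omega
      have h2 : d + (l : ℕ) - d = l := by omega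
      have h3 : d + (l : ℕ) - d < d'' := by rw [h2]; exact l.2
      change (if d + (l : ℕ) < d then v (d + l) else
        if h' : d + (l : ℕ) - d < d'' then (c ⟨d + l - d, h'⟩ : V) else 0) = _
      rw [if_neg h1, dif_pos h3]
      congr 2
      exact Fin.ext h2
  refine ⟨v', d + d'', Nat.le_add_right _ _, e1, ?_, ?_⟩
  · rw [← linearIndependent_equiv finSumFinEquiv, hfun]
    exact hLI
  · have h3 : Set.range (fun l : Fin (d + d'') => v' l) =
        (Set.range fun l : Fin d => v l) ∪ Set.range fun l : Fin d'' => (c l : V) := by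
      rw [← finSumFinEquiv.surjective.range_comp, hfun, Set.Sum.elim_range]
    rw [h3, Submodule.span_union, h.2, hc2, hsum]

theorem path_seq [FiniteDimensional F V] (n : ℕ) (g : ℕ → Submodule F V) (hg : Monotone g) :
    ∃ v : ℕ → V, ∀ i ≤ n, ∃ d, path_BP v d (g i) := by
  induction n with
  | zero =>
    have h0 : path_BP (F := F) (fun _ => (0 : V)) 0 ⊥ :=
      ⟨linearIndependent_empty_type, by
        rw [Set.range_eq_empty, Submodule.span_empty]⟩
    obtain ⟨v, d, -, -, h⟩ := path_ext h0 (bot_le : ⊥ ≤ g 0)
    exact ⟨v, fun i hi => ⟨d, by rw [Nat.le_zero.1 hi]; exact h⟩⟩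
  | succ n ih =>
    obtain ⟨v, hv⟩ := ih
    obtain ⟨dn, hn⟩ := hv n le_rfl
    obtain ⟨v', d', -, e, h'⟩ := path_ext hn (hg (Nat.le_succ n))
    refine ⟨v', fun i hi => ?_⟩
    rcases Nat.lt_or_ge n i with h | h
    · have : i = n + 1 := by omega
      rw [this]
      exact ⟨d', h'⟩
    · obtain ⟨d, hd⟩ := hv i h
      refine ⟨d, path_BP_congr hd fun l hl => e l ?_⟩
      have h1 := Submodule.finrank_mono (hg h)
      rw [path_BP_finrank hd, path_BP_finrank hn] at h1
      omega

theorem path_basis [FiniteDimensional F V] {q : ℕ} (f : Fin (q + 1) →o Submodule F V) :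
    ∃ (r : ℕ) (b : Module.Basis (Fin r) F V), ∀ i, ∃ d : ℕ, ∀ w, w ∈ f i ↔
      ∀ l : Fin r, d ≤ (l : ℕ) → b.repr w l = 0 := by
  classical
  let g : ℕ → Submodule F V := fun i => if h : i < q + 1 then f ⟨i, h⟩ else ⊤
  have hg : Monotone g := by
    intro i j hij
    by_cases hj : j < q + 1
    · have hi : i < q + 1 := lt_of_le_of_lt hij hj
      simp only [g]
      rw [dif_pos hi, dif_pos hj]
      exact f.monotone hij
    · simp only [g]
      rw [dif_neg hj]
      exact le_top
  obtain ⟨v, hv⟩ := path_seq (q + 1) g hg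
  obtain ⟨r, hr⟩ := hv (q + 1) le_rfl
  have htop : g (q + 1) = ⊤ := dif_neg (lt_irrefl _)
  rw [htop] at hr
  let b : Module.Basis (Fin r) F V := Module.Basis.mk hr.1 hr.2.ge
  have hb : ∀ l : Fin r, b l = v l := fun l => Module.Basis.mk_apply _ _ l
  refine ⟨r, b, fun i => ?_⟩
  obtain ⟨d, hd⟩ := hv i (Nat.le_of_lt i.2)
  have hgi : g i = f i := dif_pos i.2
  rw [hgi] at hd
  have hdr : d ≤ r := by
    have h1 := Submodule.finrank_mono (le_top : f i ≤ ⊤)
    rw [path_BP_finrank hd, path_BP_finrank hr] at h1
    exact h1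
  refine ⟨d, fun w => ?_⟩
  have h1 : (Set.range fun l : Fin d => v l) = b '' {l : Fin r | (l : ℕ) < d} := by
    ext x
    constructor
    · rintro ⟨l, rfl⟩
      exact ⟨⟨l, by omega⟩, l.2, hb _⟩
    · rintro ⟨l, hl, rfl⟩
      exact ⟨⟨l, hl⟩, (hb l).symm⟩
  rw [← hd.2, h1, Module.Basis.mem_span_image]
  constructor
  · intro h2 l hl
    by_contra h3
    have h4 : (l : ℕ) < d := h2 (Finsupp.mem_support_iff.2 h3)
    omega
  · intro h2 l hl
    by_contra h3
    exact Finsupp.mem_support_iff.1 hl (h2 l (not_lt.1 h3))

end basis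

/-! ### the exponents -/

theorem path_N (r : ℕ) (B : ℤ) (S : ℕ → (ℕ → ℤ) → ℤ → Prop)
    (hext : ∀ d N N' x, (∀ l, d ≤ l → N' l = N l) → S d N x → S d N' x)
    (hex : ∀ d N y, ∃ x, y ≤ x ∧ S d N x) :
    ∃ N : ℕ → ℤ, (∀ l, B ≤ N l) ∧ (∀ l, N (l + 1) ≤ N l) ∧
      ∀ d, d < r → S (d + 1) N (N d) := by
  classical
  have key : ∀ k, k ≤ r → ∃ N : ℕ → ℤ, (∀ l, B ≤ N l) ∧ (∀ l, r ≤ l + k → N (l + 1) ≤ N l) ∧
      ∀ d, d < r → r ≤ d + k → S (d + 1) N (N d) := by
    intro k
    induction k with
    | zero =>
      intro _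
      exact ⟨fun _ => B, fun _ => le_rfl, fun _ _ => le_rfl, fun d h1 h2 => by omega⟩
    | succ k ih =>
      intro hk
      obtain ⟨N, n1, n2, n3⟩ := ih (by omega)
      set l0 := r - k - 1 with hl0
      obtain ⟨x, hx, hS⟩ := hex (l0 + 1) N (N (l0 + 1))
      refine ⟨update N l0 x, fun l => ?_, fun l hl => ?_, fun d hd1 hd2 => ?_⟩
      · by_cases h : l = l0
        · subst h
          rw [update_self]
          exact (n1 _).trans hx
        · rw [update_of_ne h]
          exact n1 l
      · rw [update_of_ne (by omega : l + 1 ≠ l0)]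
        by_cases h : l = l0
        · rw [h, update_self]
          exact hx
        · rw [update_of_ne h]
          exact n2 l (by omega)
      · by_cases h : d = l0
        · rw [h, update_self]
          exact hext _ _ _ _ (fun l hl => update_of_ne (by omega) _ _) hS
        · rw [update_of_ne h]
          exact hext _ _ _ _ (fun l hl => update_of_ne (by omega) _ _) (n3 d hd1 (by omega))
  obtain ⟨N, n1, n2, n3⟩ := key r le_rfl
  exact ⟨N, n1, fun l => n2 l (by omega), fun d hd => n3 d hd (by omega)⟩

/-! ### paths -/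

theorem path_of_refl {X : Type} (R : X → X → Prop) {x y : X} (h : Relation.ReflTransGen R x y) :
    ∃ (K : ℕ) (p : ℕ → X), p 0 = x ∧ p K = y ∧ ∀ s < K, R (p s) (p (s + 1)) := by
  classical
  induction h with
  | refl => exact ⟨0, fun _ => x, rfl, rfl, fun s hs => absurd hs (Nat.not_lt_zero s)⟩
  | @tail y z _ hR ih =>
    obtain ⟨K, p, h0, hK, hs⟩ := ih
    refine ⟨K + 1, fun s => if s ≤ K then p s else z, ?_, ?_, fun s h => ?_⟩
    · show (if 0 ≤ K then p 0 else z) = x
      rw [if_pos (Nat.zero_le K)]
      exact h0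
    · show (if K + 1 ≤ K then p (K + 1) else z) = z
      rw [if_neg (by omega)]
    · show R (if s ≤ K then p s else z) (if s + 1 ≤ K then p (s + 1) else z)
      rcases Nat.lt_or_ge s K with h1 | h1
      · rw [if_pos (by omega), if_pos (by omega)]
        exact hs s h1
      · have h2 : s = K := by omega
        rw [if_pos (by omega), if_neg (by omega), h2, hK]
        exact hR

/-! ### the theorem -/

section main

variable {A F V : Type} [CommRing A] [Field F] [Algebra A F] [AddCommGroup V] [Module F V]

theorem path_pm (D : CD A F) {y z : ℤ} (h : y ≤ z) {c : F} (hc : D.t ^ (-y) * c ∈ D.O) :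
    D.t ^ (-z) * c ∈ D.O := by
  have ht : D.t ≠ 0 := D.t0
  have hinv : D.t⁻¹ ∈ D.O := D.tO
  have e : D.t ^ (-z) * c = D.t⁻¹ ^ (z - y).toNat * (D.t ^ (-y) * c) := by
    rw [← mul_assoc]
    congr 1
    rw [inv_pow, ← zpow_natCast, Int.toNat_of_nonneg (by omega), ← zpow_neg, ← zpow_add₀ ht]
    congr 1
    ring
  rw [e]
  exact D.O.mul_mem (pow_mem hinv _) hc

theorem path_mem_zero (D : CD A F) (L : D.Lat V) (v : V) : D.Mem 0 L v ↔ v ∈ L.1 := by
  unfold CD.Mem
  rw [neg_zero, zpow_zero, one_smul]

/-- the vectors whose coordinates with number at least `d` vanish -/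
def path_W {r : ℕ} (b : Module.Basis (Fin r) F V) (d : ℕ) : Submodule F V where
  carrier := {w | ∀ l : Fin r, d ≤ (l : ℕ) → b.repr w l = 0}
  add_mem' {x y} hx hy l hl := by rw [map_add, Finsupp.add_apply, hx l hl, hy l hl, add_zero]
  zero_mem' l hl := by rw [map_zero, Finsupp.zero_apply]
  smul_mem' c x hx l hl := by rw [map_smul, Finsupp.smul_apply, hx l hl, smul_zero]

/-- the coordinates with number at least `d` -/
def path_tr {r : ℕ} (b : Module.Basis (Fin r) F V) (d : ℕ) (v : V) : V :=
  b.equivFun.symm fun l => if d ≤ (l : ℕ) then b.repr v l else 0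

theorem path_tr_repr {r : ℕ} (b : Module.Basis (Fin r) F V) (d : ℕ) (v : V) (l : Fin r) :
    b.repr (path_tr b d v) l = if d ≤ (l : ℕ) then b.repr v l else 0 :=
  congrFun (b.equivFun.apply_symm_apply fun l => if d ≤ (l : ℕ) then b.repr v l else 0) l

theorem path_tr_sub {r : ℕ} (b : Module.Basis (Fin r) F V) (d : ℕ) (v : V) :
    v - path_tr b d v ∈ path_W b d := by
  intro l hl
  rw [map_sub, Finsupp.sub_apply, path_tr_repr, if_pos hl, sub_self]

/-- the steps of the path -/
def path_Step [Module A V] [IsScalarTower A F V] (D : CD A F) (M : Submodule A V) {q : ℕ}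
    (f : Fin (q + 1) →o Submodule F V) (Lm Lp : D.Lat V) (X Y : D.Lat V) : Prop :=
  X ≤ Y ∧ D.Near X Y ∧ ∀ L L' P P' : D.Lat V, Lm ≤ L → L ≤ L' → L' ≤ Lp →
    (∀ i, f i = ⊤ ∨ f i ∈ D.Dst M L L') → D.IsSum L X P → D.IsSum L' Y P' →
    ∀ i, f i = ⊤ ∨ f i ∈ D.Dst M P P'

end main

theorem thm_Path (hLat1 : St_Lat1) (hLat2 : St_Lat2) : St_Path := by
  classical
  intro A F V _ _ _ _ _ _ _ _ _ _ D M hM q f hf Lm Lp
  have ht : D.t ≠ 0 := D.t0
  obtain ⟨r, b, hb⟩ := path_basis f
  obtain ⟨-, g2, g3, -, -, -, -⟩ := hLat1 A F V D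
  choose Lam hLam using g3 r b
  have hL2 := fun L => hLat2 A F V D M L hM
  have hmem : ∀ (e : Fin r → ℤ) (v : V), v ∈ (Lam e).1 ↔
      ∀ l, D.t ^ (-(e l)) * b.repr v l ∈ D.O := by
    intro e v
    rw [← path_mem_zero, hLam]
    simp only [zero_add]
  -- bounds
  obtain ⟨i1, j1, -⟩ := g2 Lm r b
  obtain ⟨i2, -, j2⟩ := g2 Lp r b
  set B : ℤ := max (i1 : ℤ) i2 with hB
  have hB0 : 0 ≤ B := le_trans (Int.natCast_nonneg i1) (le_max_left _ _)
  have hLm : ∀ v : V, (∀ l, D.t ^ B * b.repr v l ∈ D.O) → v ∈ Lm.1 := by
    intro v hv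
    have h1 := j1 (D.t ^ (i1 : ℤ) • v) (fun l => by
      rw [map_smul, Finsupp.smul_apply, smul_eq_mul]
      have h2 := path_pm D (y := -B) (z := -(i1 : ℤ)) (by
        have := le_max_left (i1 : ℤ) i2
        omega) (c := b.repr v l) (by rw [neg_neg]; exact hv l)
      rw [neg_neg] at h2
      exact h2)
    unfold CD.Mem at h1
    rw [smul_smul, ← zpow_add₀ ht, neg_add_cancel, zpow_zero, one_smul] at h1
    exact h1
  have hLp : ∀ v ∈ Lp.1, ∀ l, D.t ^ (-B) * b.repr v l ∈ D.O := by
    intro v hv l
    have h1 := j2 0 v ((path_mem_zero D Lp v).2 hv) l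
    rw [zero_add] at h1
    exact path_pm D (le_max_right _ _) h1
  -- exponents
  let S : ℕ → (ℕ → ℤ) → ℤ → Prop := fun d N x => ∃ a : ℤ,
    D.H0z M (Lam fun l : Fin r => if d ≤ (l : ℕ) then N l else B) (path_W b d) (a + 1) ∧
      D.H1z M (Lam fun _ => x) (path_W b d) a
  obtain ⟨N, n1, n2, n3⟩ := path_N r B S (by
    rintro d N N' x hN ⟨a, ha⟩
    refine ⟨a, ?_⟩
    have : (fun l : Fin r => if d ≤ (l : ℕ) then N' l else B) =
        fun l : Fin r => if d ≤ (l : ℕ) then N l else B := by
      funext l
      split_ifs with h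
      · exact hN _ h
      · rfl
    rw [this]
    exact ha) (by
    intro d N y
    obtain ⟨-, -, -, -, h5, -⟩ := hL2 (Lam fun l : Fin r => if d ≤ (l : ℕ) then N l else B)
    obtain ⟨a0, ha0⟩ := h5 (path_W b d)
    obtain ⟨-, -, -, h4, -, -⟩ := hL2 (Lam fun _ => 0)
    obtain ⟨a1, ha1⟩ := h4 (path_W b d)
    refine ⟨max y (a1 - (a0 - 1)), le_max_left _ _, a0 - 1, ?_, ?_⟩
    · rw [sub_add_cancel]
      exact ha0 a0 le_rfl
    · intro w hw
      obtain ⟨m, hm, hmW, h6⟩ := ha1 (a0 - 1 + max y (a1 - (a0 - 1)))
        (by have := le_max_right y (a1 - (a0 - 1)); omega) w hw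
      refine ⟨m, hm, hmW, ?_⟩
      rw [hLam] at h6 ⊢
      intro l
      have h7 := h6 l
      rw [add_zero] at h7
      exact h7)
  have hanti : Antitone N := antitone_nat_of_succ_le n2
  -- the steps
  let E : ℕ → ℤ → Fin r → ℤ := fun k x l => if (l : ℕ) < k then N l else
    if (l : ℕ) = k then x else -B
  have hstep : ∀ k, k < r → ∀ x, x + 1 ≤ N k →
      path_Step D M f Lm Lp (Lam (E k x)) (Lam (E k (x + 1))) := by
    intro k hk x hx
    have hle : ∀ l, E k x l ≤ E k (x + 1) l := by
      intro l
      simp only [E]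
      split_ifs <;> omega
    have hle1 : ∀ l, E k (x + 1) l ≤ E k x l + 1 := by
      intro l
      simp only [E]
      split_ifs <;> omega
    refine ⟨fun v hv => ?_, fun v hv => ?_, ?_⟩
    · rw [hmem] at hv ⊢
      exact fun l => path_pm D (hle l) (hv l)
    · rw [hmem] at hv ⊢
      intro l
      have h1 := path_pm D (hle1 l) (hv l)
      rw [map_smul, Finsupp.smul_apply, smul_eq_mul]
      have e : D.t ^ (-(E k x l)) * (D.t⁻¹ * b.repr v l) =
          D.t ^ (-(E k x l + 1)) * b.repr v l := by
        rw [neg_add, zpow_add₀ ht, zpow_neg_one, mul_assoc]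
      rw [e]
      exact h1
    · intro L L' P P' h1 h2 h3 hD hP hP' i
      rcases hD i with h4 | ⟨w1, w2, a, hH1, hH0⟩
      · exact Or.inl h4
      right
      obtain ⟨d, hd⟩ := hb i
      have hW : f i = path_W b d := Submodule.ext fun w => hd w
      rw [hW] at w1 w2 hH1 hH0 ⊢
      have hdr : d < r := by
        by_contra hc
        apply w2
        rw [eq_top_iff]
        intro w _ l hl
        have := l.2
        omega
      have hd0 : 0 < d := by
        rcases Nat.eq_zero_or_pos d with h0 | h0
        · exfalso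
          apply w1
          rw [eq_bot_iff]
          intro w hw
          rw [Submodule.mem_bot]
          apply b.repr.injective
          ext l
          rw [map_zero, Finsupp.zero_apply]
          exact hw l (by omega)
        · exact h0
      have hLP : ∀ v ∈ L.1, v ∈ P.1 := fun v hv => by
        rw [hP]
        exact (le_sup_left : L.1 ≤ L.1 ⊔ (Lam (E k x)).1) hv
      have hXP : ∀ v ∈ (Lam (E k x)).1, v ∈ P.1 := fun v hv => by
        rw [hP]
        exact (le_sup_right : (Lam (E k x)).1 ≤ L.1 ⊔ (Lam (E k x)).1) hv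
      by_cases hkd : k < d
      · -- a coordinate in `W` is raised
        refine ⟨w1, w2, a, fun w hw => ?_, fun m hm v hv hmv => ?_⟩
        · obtain ⟨m, hm, hmW, h5⟩ := hH1 w hw
          exact ⟨m, hm, hmW, hLP _ h5⟩
        · unfold CD.Mem at hv
          rw [hP', AddSubgroup.mem_sup] at hv
          obtain ⟨x', hx', y', hy', hxy⟩ := hv
          -- replace `y'` by its truncation
          have h6 : path_tr b d y' ∈ L'.1 := by
            apply h2
            apply h1
            apply hLm
            intro l
            rw [path_tr_repr]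
            split_ifs with hl
            · have h7 := (hmem _ _).1 hy' l
              have e : E k (x + 1) l = -B := by
                simp only [E]
                rw [if_neg (by omega), if_neg (by omega)]
              rw [e, neg_neg] at h7
              exact h7
            · rw [mul_zero]
              exact D.O.zero_mem
          have h8 : v = D.t ^ (a + 1) • (x' + y') := by
            rw [hxy, smul_smul, ← zpow_add₀ ht, add_neg_cancel, zpow_zero, one_smul]
          refine hH0 m hm (D.t ^ (a + 1) • (x' + path_tr b d y')) ?_ ?_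
          · unfold CD.Mem
            rw [smul_smul, ← zpow_add₀ ht, neg_add_cancel, zpow_zero, one_smul]
            exact L'.1.add_mem hx' h6
          · have e : m - D.t ^ (a + 1) • (x' + path_tr b d y') =
                (m - v) + D.t ^ (a + 1) • (y' - path_tr b d y') := by
              rw [h8, smul_add, smul_add, smul_sub]
              abel
            rw [e]
            exact Submodule.add_mem _ hmv (Submodule.smul_mem _ _ (path_tr_sub b d y'))
      · -- a coordinate outside `W` is raised
        have hkd' : d ≤ k := not_lt.1 hkd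
        obtain ⟨a', hA0, hA1⟩ := n3 (d - 1) (by omega)
        have hdd : d - 1 + 1 = d := by omega
        rw [hdd] at hA0 hA1
        refine ⟨w1, w2, a', fun w hw => ?_, fun m hm v hv hmv => ?_⟩
        · obtain ⟨m, hm, hmW, h5⟩ := hA1 w hw
          refine ⟨m, hm, hmW, ?_⟩
          apply hXP
          change D.Mem a' (Lam (E k x)) (w - m)
          rw [hLam] at h5 ⊢
          intro l
          by_cases hl : d ≤ (l : ℕ)
          · have h6 : b.repr (w - m) l = 0 := (path_W b d).sub_mem hw hmW l hl
            rw [h6, mul_zero]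
            exact D.O.zero_mem
          · have e : E k x l = N l := by
              simp only [E]
              rw [if_pos (by omega)]
            refine path_pm D ?_ (h5 l)
            have := hanti (show (l : ℕ) ≤ d - 1 by omega)
            rw [e]
            omega
        · refine hA0 m hm (path_tr b d v) ?_ ?_
          · rw [hLam]
            intro l
            rw [path_tr_repr]
            by_cases hl : d ≤ (l : ℕ)
            · rw [if_pos hl, if_pos hl]
              unfold CD.Mem at hv
              rw [hP', AddSubgroup.mem_sup] at hv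
              obtain ⟨x', hx', y', hy', hxy⟩ := hv
              have h6 := path_pm D (n1 l) (hLp x' (h3 hx') l)
              have h7 : D.t ^ (-(N l)) * b.repr y' l ∈ D.O := by
                refine path_pm D ?_ ((hmem _ _).1 hy' l)
                simp only [E]
                split_ifs with c1 c2
                · exact le_rfl
                · rw [c2]
                  exact hx
                · have := n1 l
                  omega
              have e : D.t ^ (-(a' + 1 + N l)) * b.repr v l =
                  D.t ^ (-(N l)) * b.repr x' l + D.t ^ (-(N l)) * b.repr y' l := by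
                rw [← mul_add, ← Finsupp.add_apply, ← map_add, hxy, map_smul,
                  Finsupp.smul_apply, smul_eq_mul, ← mul_assoc, ← zpow_add₀ ht]
                congr 2
                ring
              rw [e]
              exact D.O.add_mem h6 h7
            · rw [if_neg hl, if_neg hl, mul_zero]
              exact D.O.zero_mem
          · have e : m - path_tr b d v = (m - v) + (v - path_tr b d v) := by abel
            rw [e]
            exact Submodule.add_mem _ hmv (path_tr_sub b d v)
  -- raise one coordinate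
  have hraise : ∀ k, k < r → ∀ j : ℕ, -B + j ≤ N k →
      Relation.ReflTransGen (path_Step D M f Lm Lp) (Lam (E k (-B))) (Lam (E k (-B + j))) := by
    intro k hk j
    induction j with
    | zero =>
      intro _
      rw [Nat.cast_zero, add_zero]
    | succ j ih =>
      intro hj
      push_cast at hj ⊢
      refine (ih (by omega)).tail ?_
      rw [← add_assoc]
      exact hstep k hk _ (by omega)
  have hall : ∀ k, k ≤ r → Relation.ReflTransGen (path_Step D M f Lm Lp)
      (Lam fun l : Fin r => -B) (Lam fun l : Fin r => if (l : ℕ) < k then N l else -B) := by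
    intro k
    induction k with
    | zero =>
      intro _
      have : (fun l : Fin r => if (l : ℕ) < 0 then N l else -B) = fun l : Fin r => -B := by
        funext l
        rw [if_neg (Nat.not_lt_zero _)]
      rw [this]
    | succ k ih =>
      intro hk
      refine (ih (by omega)).trans ?_
      have h1 := hraise k (by omega) (N k + B).toNat (by
        have := n1 k
        omega)
      have e1 : (fun l : Fin r => if (l : ℕ) < k then N l else -B) = E k (-B) := by
        funext l
        simp only [E]
        split_ifs <;> rfl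
      have e2 : (fun l : Fin r => if (l : ℕ) < k + 1 then N l else -B) =
          E k (-B + ((N k + B).toNat : ℤ)) := by
        funext l
        simp only [E]
        have := n1 k
        rcases lt_trichotomy (l : ℕ) k with h | h | h
        · rw [if_pos (by omega), if_pos h]
        · rw [if_pos (by omega), if_neg (by omega), if_pos h, h]
          omega
        · rw [if_neg (by omega), if_neg (by omega), if_neg (by omega)]
      rw [e1, e2]
      exact h1
  obtain ⟨K, p, p0, pK, hp⟩ := path_of_refl _ (hall r le_rfl)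
  refine ⟨K, p, ?_, ?_, fun s hs => (hp s hs).1, fun s hs => (hp s hs).2.1, ?_⟩
  · rw [p0]
    intro v hv
    apply hLm
    intro l
    have := (hmem _ _).1 hv l
    rw [neg_neg] at this
    exact this
  · rw [pK]
    intro v hv
    change v ∈ (Lam _).1
    rw [hmem]
    intro l
    rw [if_pos l.2]
    exact path_pm D (n1 l) (hLp v hv l)
  · intro L L' P P' h1 h2 h3 hD s hs hP hP'
    exact (hp s hs).2.2 L L' P P' h1 h2 h3 hD hP hP'

end Pool.Agent.GQ
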