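import Pool.Agent.GQ.StA
import Pool.Agent.FGK.Prods
import Pool.Agent.FGK.KAn

/-!
# GQ, module PowSl: products and powers have slender homology
-/

set_option autoImplicit false
set_option linter.unusedVariables false

noncomputable section

namespace Pool.Agent.GQ

open CategoryTheory Function Pool.Agent.KQ Pool.Agent.FGK

universe u

/-- the inverse of a degreewise bijective homomorphism -/
def powsl_inv {X Y : SAb.{u}} (f : X ⟶ Y) (h : ∀ n, Bijective (f.app n)) : Y ⟶ X :=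
  ⟨fun n => ((AddEquiv.ofBijective (f.app n) (h n)).symm : Y.obj n →+ X.obj n),
    fun {m n} θ y => by
      apply (h m).1
      rw [f.nat]
      change (AddEquiv.ofBijective (f.app m) (h m))
          ((AddEquiv.ofBijective (f.app m) (h m)).symm _) =
        Y.map θ ((AddEquiv.ofBijective (f.app n) (h n))
          ((AddEquiv.ofBijective (f.app n) (h n)).symm y))
      rw [AddEquiv.apply_symm_apply, AddEquiv.apply_symm_apply]⟩

theorem powsl_weq {X Y : SAb.{u}} (f : X ⟶ Y) (h : ∀ n, Bijective (f.app n)) : SAb.Weq f := by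
  intro j
  have h1 : f ≫ powsl_inv f h = 𝟙 X :=
    SAb.hom_ext fun n x => (AddEquiv.ofBijective (f.app n) (h n)).symm_apply_apply x
  have h2 : powsl_inv f h ≫ f = 𝟙 Y :=
    SAb.hom_ext fun n x => (AddEquiv.ofBijective (f.app n) (h n)).apply_symm_apply x
  refine bijective_iff_has_inverse.2 ⟨SGp.PiMap (SAb.gp.map (powsl_inv f h)) j, fun x => ?_,
    fun x => ?_⟩
  · rw [← SGp.PiMap_comp, ← CategoryTheory.Functor.map_comp, h1, CategoryTheory.Functor.map_id,
      SGp.PiMap_id]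
  · rw [← SGp.PiMap_comp, ← CategoryTheory.Functor.map_comp, h2, CategoryTheory.Functor.map_id,
      SGp.PiMap_id]

theorem powsl_prod (hSl : St_Sl.{u}) (hP : St_fsProd.{u}) (hF : St_FsSl.{u}) (J : ℕ)
    (Y Y' : SSt.{u}) (hY : ∀ j ≤ J, HSl Y j) (hY' : ∀ j ≤ J, HSl Y' j) :
    ∀ j ≤ J, HSl (Y.prod Y') j := by
  intro j hj
  obtain ⟨φ, hφ, -⟩ := hP (SAb.const (ULift.{u} ℤ)) Y Y'
  exact (kan_sl hSl φ (powsl_weq φ hφ) j).1 (hF J (ZS Y) Y' hY hY' j hj)

/-- isomorphic simplicial sets have the same homology -/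
theorem powsl_iso (hSl : St_Sl.{u}) {X Y : SSt.{u}} (f : X ⟶ Y) (g : Y ⟶ X) (h1 : f ≫ g = 𝟙 X)
    (j : ℕ) (hY : HSl Y j) : HSl X j := by
  refine hSl.1 (SGp.PiMap (SAb.gp.map (ZSmap f)) j) ?_ hY
  refine LeftInverse.injective (g := SGp.PiMap (SAb.gp.map (ZSmap g)) j) fun x => ?_
  rw [← SGp.PiMap_comp, ← CategoryTheory.Functor.map_comp, ← kan_ZSmap_comp, h1, kan_ZSmap_id,
    CategoryTheory.Functor.map_id, SGp.PiMap_id]

/-- **PowSl.** -/
theorem thm_PowSl (hSl : St_Sl.{u}) (hFin : St_SlFin.{u}) (hP : St_fsProd.{u})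
    (hF : St_FsSl.{u}) : St_PowSl.{u} := by
  refine ⟨fun J Y Y' hY hY' j hj => powsl_prod hSl hP hF J Y Y' hY hY' j hj, fun Y p hY => ?_⟩
  induction p with
  | zero =>
    refine hFin.2.1 (Y.pow 0) fun n => ?_
    exact @Finite.of_subsingleton _ ⟨fun x y => funext fun i => i.elim0⟩
  | succ p ih =>
    intro j
    exact powsl_iso hSl (prods_powTo Y p) (prods_powFrom Y p) (prods_pow1 Y p) j
      (powsl_prod hSl hP hF j Y (Y.pow p) (fun i _ => hY i) (fun i _ => ih i) j le_rfl)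

end Pool.Agent.GQ
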