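import Pool.Agent.GQ.StT
import Pool.Agent.FGK.Sl
import Pool.Agent.FGK.SlFin
import Pool.Agent.FGK.fsStrong
import Pool.Agent.KQ.ZQ
import Pool.Agent.KQ.Core

/-!
# GQ, part T: rank zero
-/

set_option autoImplicit false

noncomputable section

namespace Pool.Agent.GQ

open CategoryTheory CategoryTheory.Limits Function Pool.Agent.KQ Pool.Agent.FGK

section

variable {A : Type} [CommRing A] [IsDomain A]

/-- the rank of all entries is at most the rank of the last one -/
theorem Rk0_rank {n : ℕ} (D : (XT A).obj n) (x : Ar (Fin (n + 1))) :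
    Module.finrank A (entT D x) ≤ Module.finrank A (topT D) := by
  obtain ⟨⟨i, j⟩, hij⟩ := x
  have h1 := rank_ses D 0 j (Fin.last n) (Fin.zero_le _) (Fin.le_last _)
  have h2 := rank_ses D 0 i j (Fin.zero_le _) hij
  change Module.finrank A (entT D (ar i j hij)) ≤
    Module.finrank A (entT D (ar 0 (Fin.last n) (Fin.zero_le _)))
  omega

theorem Rk0_zero {n : ℕ} (D : (XT A).obj n) (h : Module.finrank A (topT D) ≤ 0) :
    IsZero D.obj := by
  refine (isZero_functor _).2 fun x => ?_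
  have h0 := entT_finite D x
  have h1 : Subsingleton (entT D x) := (entT_tf D x).subsingleton (by
    have h2 := Rk0_rank D x
    omega)
  exact ModuleCat.isZero_of_subsingleton (entT D x)

theorem Rk0_of_zero {n : ℕ} (D : (XT A).obj n) (h : IsZero D.obj) :
    Module.finrank A (topT D) ≤ 0 := by
  have h1 := (isZero_functor _).1 h (ar 0 (Fin.last n) (Fin.zero_le _))
  have h2 : Subsingleton (topT D) := ModuleCat.subsingleton_of_isZero h1
  exact (Module.finrank_zero_of_subsingleton (R := A) (M := topT D)).le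

variable (A) in
/-- the diagrams of rank zero are the zero diagrams -/
def Rk0_e : (rkT A 0).S ⟶ (ZQ_Z (SOb.const (TF A))).S :=
  ⟨fun _ D => ⟨D.1, Rk0_zero D.1 D.2⟩, fun _ _ => rfl⟩

variable (A) in
theorem Rk0_contr : SSt.Contr (rkT A 0).S := by
  have h1 : SSt.Strong (Rk0_e A) := by
    refine SS_bij _ fun n => ⟨?_, fun D => ?_⟩
    · rintro ⟨D, hD⟩ ⟨D', hD'⟩ h
      have h1 : D = D' := congrArg (fun z : (ZQ_Z (SOb.const (TF A))).S.obj n => z.1) h
      exact Subtype.ext h1
    · exact ⟨⟨D.1, Rk0_of_zero D.1 D.2⟩, rfl⟩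
  have h2 : SSt.Strong ((ZQ_Z (SOb.const (TF A))).S.toPt) := ZQ_contr all_StrHt _
  have h3 : (rkT A 0).S.toPt = Rk0_e A ≫ (ZQ_Z (SOb.const (TF A))).S.toPt := rfl
  change SSt.Strong (rkT A 0).S.toPt
  rw [h3]
  exact thm_Str23.1 _ _ h1 h2

end

theorem thm_Rk0 : St_Rk0 := by
  intro A _ _ j
  have h1 := thm_fsStrong all_RealW (SAb.const (ULift.{1} ℤ)) _ (Rk0_contr A)
  have h2 : HSl (SSt.const PUnit.{2}) j :=
    (thm_SlFin thm_Sl).2.1 _ (fun _ => inferInstanceAs (Finite PUnit.{2})) j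
  exact thm_Sl.1 _ (h1 j).1 h2

end Pool.Agent.GQ
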