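import Pool.Agent.GQ.StT
import Pool.Agent.FGK.RkConn

/-!
# GQ, module RkC: the inclusion of the rank filtration is `r`-connected on homology
-/

set_option autoImplicit false
set_option linter.unusedVariables false

noncomputable section

namespace Pool.Agent.GQ

open CategoryTheory CategoryTheory.Limits Function Pool.Agent.KQ Pool.Agent.FGK

/-- **RKC.** -/
theorem thm_RkC (hZR : St_ZR.{1}) (hAb : St_AbEx.{1}) : St_RkC := by
  intro A _ _ hT r
  have hA : ∀ s t, s ≤ t → ∀ n x, x ∈ (rkT A s).s n → x ∈ (rkT A t).s n := by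
    intro s t h n x hx
    exact le_trans hx h
  have h1 : ∀ s, SAb.Conn s (ZSmap (rkconn_inc (rkT A s) (rkT A (s + 1))
      (hA s (s + 1) (Nat.le_succ s)))) := by
    intro s
    refine rkconn_step _ _ _ s ?_
    obtain ⟨π, hπ⟩ := hZR.2.1 (rkT A (s + 1)).S (subIn (rkT A s) (rkT A (s + 1)))
    have h2 := hT s
    have h3 := (hAb _ _ hπ (s + 1)).2.2.2.2.1 h2
    have h4 := (hAb _ _ hπ s).2.2.2.2.2.1 h2
    exact ⟨h4, h3 s (Nat.lt_succ_self s)⟩
  refine rkconn_seq (rkT A) hA
    (fun n x => ⟨Module.finrank A (topT x), le_refl (Module.finrank A (topT x))⟩) r ?_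
  intro t ht
  induction t, ht using Nat.le_induction with
  | base =>
    have e : rkconn_inc (rkT A r) (rkT A r) (hA r r le_rfl) = 𝟙 _ := rfl
    rw [e, prods_ZSmap_id]
    exact prods_weq_conn r (prods_iso_weq (𝟙 _) (𝟙 _) (Category.comp_id _) (Category.comp_id _))
  | succ t ht ih =>
    have e : rkconn_inc (rkT A r) (rkT A (t + 1)) (hA r (t + 1) (ht.trans (Nat.le_succ t))) =
      rkconn_inc (rkT A r) (rkT A t) (hA r t ht) ≫
      rkconn_inc (rkT A t) (rkT A (t + 1)) (hA t (t + 1) (Nat.le_succ t)) := rfl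
    rw [e, prods_ZSmap_comp]
    exact prods_conn_comp ih (rkconn_mono ht (h1 t))

end Pool.Agent.GQ
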