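import Pool.Agent.GQ.StB
import Pool.Agent.FGK.Sl

/-!
# GQ, StM: the homology of `GL(M)` with coefficients in the Steinberg module is slender
-/

set_option autoImplicit false
set_option linter.unusedVariables false
set_option linter.unusedSectionVars false

noncomputable section

namespace Pool.Agent.GQ

open CategoryTheory Function Pool.Agent.KQ Pool.Agent.FGK

universe u

/-! ### slender and trivial homotopy groups -/

theorem stm_surj {X Y : SAb.{u}} (f : X ⟶ Y) (h : SAb.Weq f) (j : ℕ) (hX : X.SlAt j) :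
    Y.SlAt j := thm_Sl.2.1 _ (h j).2 hX

theorem stm_inj {X Y : SAb.{u}} (f : X ⟶ Y) (h : SAb.Weq f) (j : ℕ) (hY : Y.SlAt j) :
    X.SlAt j := thm_Sl.1 _ (h j).1 hY

theorem stm_triv {X : SAb.{u}} (h : ∀ c, SAb.Triv c X) (j : ℕ) : X.SlAt j := by
  intro H
  have h1 : H = ⊥ := by
    rw [Subgroup.eq_bot_iff_forall]
    intro x _
    exact h (j + 1) j (Nat.lt_succ_self j) x
  rw [h1]
  exact ⟨∅, by rw [Finset.coe_empty, Subgroup.closure_empty]⟩

/-! ### the action on subspaces -/

section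

variable {A F V : Type} [CommRing A] [Field F] [Algebra A F] [AddCommGroup V] [Module F V]
  [Module A V] [IsScalarTower A F V] (D : CD A F) (M : Submodule A V)

theorem stm_map_inv (g : V ≃ₗ[F] V) (W : Submodule F V) : mapSub g⁻¹ (mapSub g W) = W := by
  have h := congrArg (fun e : Submodule F V →o Submodule F V => e W) (mapSub_mul g⁻¹ g)
  rw [inv_mul_cancel, mapSub_one] at h
  exact h.symm

theorem stm_map_bot (g : V ≃ₗ[F] V) (W : Submodule F V) (h : mapSub g W = ⊥) : W = ⊥ := by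
  rw [← stm_map_inv g W, h]
  exact Submodule.map_bot _

theorem stm_map_top (g : V ≃ₗ[F] V) (W : Submodule F V) (h : mapSub g W = ⊤) : W = ⊤ := by
  rw [← stm_map_inv g W, h]
  exact (Submodule.map_top _).trans (LinearEquiv.range _)

theorem stm_map_top' (g : V ≃ₗ[F] V) : mapSub g (⊤ : Submodule F V) = ⊤ :=
  (Submodule.map_top _).trans (LinearEquiv.range _)

/-! ### the action on lattices -/

theorem stm_t0 : D.t ≠ 0 := D.t0

theorem stm_gz (x : Gam (F := F) M × Multiplicative ℤ) (v : V) :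
    D.gz M x v = D.t ^ (Multiplicative.toAdd x.2) • x.1.1 v := by
  change x.1.1 ((D.tU ^ (Multiplicative.toAdd x.2) : Fˣ) • v) = _
  rw [Units.smul_def, map_smul, Units.val_zpow_eq_zpow_val]
  rfl

theorem stm_symm (x : Gam (F := F) M × Multiplicative ℤ) (v : V) :
    (D.gz M x).symm v = D.t ^ (-Multiplicative.toAdd x.2) • x.1.1.symm v := by
  rw [LinearEquiv.symm_apply_eq, stm_gz, map_smul, LinearEquiv.apply_symm_apply, smul_smul,
    ← zpow_add₀ (stm_t0 D), add_neg_cancel, zpow_zero, one_smul]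

theorem stm_mem (x : Gam (F := F) M × Multiplicative ℤ) (a : ℤ) (L : D.Lat V) (v : V) :
    D.Mem a (D.latG (D.gz M x) L) v ↔
      D.Mem (a + Multiplicative.toAdd x.2) L (x.1.1.symm v) := by
  change (D.gz M x).symm (D.t ^ (-a) • v) ∈ L.1 ↔
    D.t ^ (-(a + Multiplicative.toAdd x.2)) • x.1.1.symm v ∈ L.1
  rw [map_smul, stm_symm, smul_smul, ← zpow_add₀ (stm_t0 D), neg_add]

theorem stm_dst (x : Gam (F := F) M × Multiplicative ℤ) (L L' : D.Lat V) (W : Submodule F V)
    (h : W ∈ D.Dst M L L') :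
    mapSub x.1.1 W ∈ D.Dst M (D.latG (D.gz M x) L) (D.latG (D.gz M x) L') := by
  obtain ⟨h1, h2, a, h3, h4⟩ := h
  refine ⟨fun h => h1 (stm_map_bot _ _ h), fun h => h2 (stm_map_top _ _ h),
    a - Multiplicative.toAdd x.2, fun w hw => ?_, fun m hm v hv hmv => ?_⟩
  · obtain ⟨w', hw', rfl⟩ := hw
    obtain ⟨m, hm, hmW, h5⟩ := h3 w' hw'
    refine ⟨x.1.1 m, (x.1.2 m).2 hm, ⟨m, hmW, rfl⟩, ?_⟩
    rw [stm_mem, sub_add_cancel]
    have h6 : x.1.1.symm (x.1.1.toLinearMap w' - x.1.1 m) = w' - m := by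
      rw [LinearEquiv.coe_coe, ← map_sub, LinearEquiv.symm_apply_apply]
    rw [h6]
    exact h5
  · obtain ⟨w', hw', h5⟩ := hmv
    rw [stm_mem, show a - Multiplicative.toAdd x.2 + 1 + Multiplicative.toAdd x.2 = a + 1 by
      ring] at hv
    have h6 : x.1.1.symm m - x.1.1.symm v = w' := by
      rw [← map_sub, ← h5]
      exact LinearEquiv.symm_apply_apply _ _
    have h7 := h4 (x.1.1.symm m) ((x.1.2 _).1 (by rwa [LinearEquiv.apply_symm_apply]))
      (x.1.1.symm v) hv (h6 ▸ hw')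
    exact ⟨_, h7, LinearEquiv.apply_symm_apply _ _⟩

/-- the action on the chains of lattices -/
def stm_aX : GAct (Gam (F := F) M × Multiplicative ℤ) (D.X V) := (D.xG V).res (D.gz M)

/-- the action on the flags -/
def stm_aN : GAct (Gam (F := F) M × Multiplicative ℤ) (nvS.{1} (Submodule F V)) :=
  (nvAct.{1} (F := F) M).fst

theorem stm_zz (x : Gam (F := F) M × Multiplicative ℤ) (n : ℕ)
    (y : ((D.X V).prod (nvS.{1} (Submodule F V))).obj n) (hy : y ∈ (D.zz M).s n) :
    ((((stm_aX D M).act x).app n y.1, ((stm_aN M).act x).app n y.2) :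
      ((D.X V).prod (nvS.{1} (Submodule F V))).obj n) ∈ (D.zz M).s n := by
  refine ⟨fun h => hy.1 (stm_map_bot _ _ h), fun i => ?_⟩
  rcases hy.2 i with h | h
  · left
    change mapSub x.1.1 (y.2.down i) = ⊤
    rw [h]
    exact stm_map_top' _
  · right
    exact stm_dst D M x _ _ _ h

/-- the action on the pairs -/
def stm_aZ : GAct (Gam (F := F) M × Multiplicative ℤ) (D.zz M).S where
  act x := ⟨fun n y => ⟨(((stm_aX D M).act x).app n y.1.1, ((stm_aN M).act x).app n y.1.2),
    stm_zz D M x n y.1 y.2⟩, fun θ y => Subtype.ext (Prod.ext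
      (((stm_aX D M).act x).nat θ y.1.1) (((stm_aN M).act x).nat θ y.1.2))⟩
  one := SSt.hom_ext fun n y => Subtype.ext (Prod.ext
    (congrArg (fun e : D.X V ⟶ D.X V => e.app n y.1.1) (stm_aX D M).one)
    (congrArg (fun e : nvS.{1} (Submodule F V) ⟶ nvS.{1} (Submodule F V) => e.app n y.1.2)
      (stm_aN M).one))
  mul g h := SSt.hom_ext fun n y => Subtype.ext (Prod.ext
    (congrArg (fun e : D.X V ⟶ D.X V => e.app n y.1.1) ((stm_aX D M).mul g h))
    (congrArg (fun e : nvS.{1} (Submodule F V) ⟶ nvS.{1} (Submodule F V) => e.app n y.1.2)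
      ((stm_aN M).mul g h)))

theorem stm_unS : (stm_aX D M).Inv (D.unS M) := by
  rintro x n y ⟨W, hW⟩
  exact ⟨mapSub x.1.1 W, stm_dst D M x _ _ _ hW⟩

theorem stm_zzP : (stm_aZ D M).Inv (D.zzP M) := by
  intro x n y hy h
  exact hy (stm_map_top _ _ h)

theorem stm_prS : (nvAct.{1} (F := F) M).Inv (prS F V) := by
  intro x n y hy h
  exact hy (stm_map_top _ _ h)

theorem stm_nzS : (nvAct.{1} (F := F) M).Inv (nzS F V) := by
  intro x n y hy h
  exact hy (stm_map_bot _ _ h)

/-! ### the proper flags -/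

/-- the constant map to the flag `⊥` -/
def stm_c (F V : Type) [Field F] [AddCommGroup V] [Module F V] :
    nvS.{1} (Submodule F V) ⟶ nvS.{1} (Submodule F V) :=
  ⟨fun n x => ⟨⟨fun _ => ⊥, fun _ _ _ => le_rfl⟩⟩, fun _ _ => rfl⟩

/-- the homotopy from the constant map to the identity -/
def stm_h (F V : Type) [Field F] [AddCommGroup V] [Module F V] :
    SSt.Htpy (stm_c F V) (𝟙 (nvS.{1} (Submodule F V))) where
  h n α x := ⟨⟨fun i => if α i = true then x.down i else ⊥, fun i j hij => by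
    by_cases h : α i = true
    · have h1 : α j = true := by
        have := α.monotone hij
        rw [h] at this
        exact top_le_iff.1 this
      change (if α i = true then x.down i else ⊥) ≤ if α j = true then x.down j else ⊥
      rw [if_pos h, if_pos h1]
      exact x.down.monotone hij
    · change (if α i = true then x.down i else ⊥) ≤ if α j = true then x.down j else ⊥
      rw [if_neg h]
      exact bot_le⟩⟩
  nat θ α x := rfl
  h0 n α x h := by
    apply ULift.ext
    apply OrderHom.ext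
    funext i
    change (if α i = true then x.down i else ⊥) = ⊥
    rw [if_neg (by rw [h i]; exact Bool.false_ne_true)]
  h1 n α x h := by
    apply ULift.ext
    apply OrderHom.ext
    funext i
    change (if α i = true then x.down i else ⊥) = x.down i
    rw [if_pos (h i)]

theorem stm_prTriv (hZR : St_ZR.{1}) (F V : Type) [Field F] [AddCommGroup V] [Module F V]
    [Nontrivial V] (c : ℕ) : SAb.Triv c (ZR (nvS.{1} (Submodule F V)) (prS F V)) := by
  refine hZR.2.2.2.1 _ (prS F V) (stm_c F V) (stm_h F V) (fun n α x hx => ?_)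
    (fun n x => ?_) c
  · change (if α (Fin.last n) = true then x.down (Fin.last n) else ⊥) ≠ ⊤
    split
    · exact hx
    · exact bot_ne_top
  · exact bot_ne_top

theorem stm_bad (F V : Type) [Field F] [AddCommGroup V] [Module F V] :
    subUn (prS F V) (nzS F V) = badS.{1} (Submodule F V) := by
  have h : (subUn (prS F V) (nzS F V)).s = (badS.{1} (Submodule F V)).s := by
    funext n
    ext x
    exact or_comm
  cases h1 : subUn (prS F V) (nzS F V) with
  | mk s hs =>
    cases h2 : badS.{1} (Submodule F V) with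
    | mk s' hs' =>
      rw [h1, h2] at h
      subst h
      rfl

end

/-- **StM** -/
theorem thm_StM (hXFin : St_XFin) (hZX : St_ZX) (hSl : St_hOSl.{1}) (hStr : St_hOStr.{1})
    (hFst : St_hOFst.{1}) (hEx : St_hOEx.{1}) (hTriv : St_hOTriv.{1}) (hZR : St_ZR.{1})
    (hAb : St_AbEx.{1}) : St_StM := by
  intro A F V _ _ _ _ _ _ _ _ _ _ _ D M hM
  -- the stable part
  obtain ⟨hf1, hf2⟩ := hXFin A F V D M hM
  have h1 : ∀ j, (ZR (hO (stm_aX D M)) (hOs (stm_aX D M) (D.unS M))).SlAt j :=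
    hSl (stm_aX D M) (D.unS M) (stm_unS D M) hf1 fun n y _ => hf2 n y
  -- the pairs
  obtain ⟨z1, z2, ⟨k1, z3⟩, ⟨k2, z4⟩⟩ := hZX A F V D M hM
  obtain ⟨π1, hπ1⟩ := hStr.2 (stm_aZ D M) (stm_aX D M) (D.zz1 M)
    (fun x => SSt.hom_ext fun n y => rfl) (D.zzP M) (D.unS M) (stm_zzP D M) (stm_unS D M) k1 z1 z3
  have h2 : ∀ j, (ZR (hO (stm_aZ D M)) (hOs (stm_aZ D M) (D.zzP M))).SlAt j :=
    fun j => stm_inj π1 hπ1 j (h1 j)
  -- the flags
  obtain ⟨b, hb, i, π, hses⟩ := hEx (nvAct.{1} (F := F) M) (prS F V) (nzS F V) (stm_prS M)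
    (stm_nzS M)
  have hbI : (b.fst (C := Multiplicative ℤ)).Inv (subIn (prS F V) (nzS F V)) := by
    intro x n y hy
    change ((b.act x.1).app n y).1 ∈ (prS F V).s n
    rw [hb]
    exact stm_prS M _ _ _ hy
  obtain ⟨π2, hπ2⟩ := hStr.2 (stm_aZ D M) (b.fst (C := Multiplicative ℤ)) (D.zz2 M)
    (fun x => SSt.hom_ext fun n y => Subtype.ext (hb x.1 n ((D.zz2 M).app n y)).symm)
    (D.zzP M) (subIn (prS F V) (nzS F V)) (stm_zzP D M) hbI k2 z2 z4
  have h3 : ∀ j, (ZR (hO b) (hOs b (subIn (prS F V) (nzS F V)))).SlAt j :=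
    fun j => hFst b _ j (stm_surj π2 hπ2 j (h2 j))
  have h4 : ∀ j, (ZR (hO (nvAct.{1} (F := F) M)) (hOs (nvAct.{1} (F := F) M) (prS F V))).SlAt j :=
    stm_triv fun c => hTriv c _ _ (stm_prS M) (stm_prTriv hZR F V c)
  have h5 : ∀ j, (ZR (hO (nvAct.{1} (F := F) M)) (hOs (nvAct.{1} (F := F) M)
      (subUn (prS F V) (nzS F V)))).SlAt j := by
    intro j
    obtain ⟨-, -, -, -, -, -, -, -, -, h10, h11, -⟩ := hAb i π hses 0
    cases j with
    | zero => exact h11 (h4 0)
    | succ j => exact h10 j (h3 j) (h4 (j + 1))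
  rw [stm_bad] at h5
  exact h5

end Pool.Agent.GQ
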