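import Pool.Agent.GQ.StT
import Pool.Agent.FGK.Sl
import Pool.Agent.FGK.Prods
import Pool.Agent.FGK.ZR
import Pool.Agent.FGK.AbEx

/-!
# GQ: `ob S.(TF A)` has slender homology
-/

set_option autoImplicit false
set_option linter.unusedVariables false

noncomputable section

namespace Pool.Agent.GQ

open CategoryTheory CategoryTheory.Limits Function Pool.Agent.KQ Pool.Agent.FGK

universe u

/-- a simplicial subset, as a subset of a larger one -/
theorem t2_subIn {X : SSt.{u}} (A B : SubS X) (h : ∀ n x, x ∈ A.s n → x ∈ B.s n) (j : ℕ)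
    (hA : HSl A.S j) : HSl (subIn A B).S j := by
  let φ : A.S ⟶ (subIn A B).S := ⟨fun n x => ⟨⟨x.1, h n x.1 x.2⟩, x.2⟩, fun _ _ => rfl⟩
  let ψ : (subIn A B).S ⟶ A.S := ⟨fun n x => ⟨x.1.1, x.2⟩, fun _ _ => rfl⟩
  have h1 : SAb.Weq (ZSmap φ) := by
    refine prods_iso_weq (ZSmap φ) (ZSmap ψ) ?_ ?_
    · rw [← prods_ZSmap_comp, show φ ≫ ψ = 𝟙 _ from rfl, prods_ZSmap_id]
    · rw [← prods_ZSmap_comp, show ψ ≫ φ = 𝟙 _ from rfl, prods_ZSmap_id]
  exact thm_Sl.2.1 _ (h1 j).2 hA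

theorem thm_T2 (hAb : St_AbEx.{1}) (hRk0 : St_Rk0) (hRkC : St_RkC) (hF : St_Filt) : St_T2 := by
  intro A F _ _ _ _ _ _ hFin hSl j
  have h0 : ∀ r j, HSl (rkT A r).S j := by
    intro r
    induction r with
    | zero => exact fun j => hRk0 A j
    | succ r ih =>
      intro j
      obtain ⟨π, hπ⟩ := thm_ZR.2.1 (rkT A (r + 1)).S (subIn (rkT A r) (rkT A (r + 1)))
      refine (hAb _ _ hπ 0).2.2.2.2.2.2.2.1 j ?_ ((hF A F hFin hSl r).2 j)
      exact t2_subIn _ _ (fun n x hx => le_trans hx (Nat.le_succ r)) j (ih j)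
  have h1 := hRkC A (fun r => (hF A F hFin hSl r).1) j
  exact thm_Sl.2.1 _ h1.2 (h0 j j)

end Pool.Agent.GQ
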