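import Pool.Agent.GQ.StT
import Pool.Agent.KQ.StLocK

/-!
# GQ: the K-groups of `A` are finitely generated
-/

set_option autoImplicit false
set_option linter.unusedVariables false

noncomputable section

namespace Pool.Agent.GQ

open CategoryTheory CategoryTheory.Limits Function Pool.Agent.KQ Pool.Agent.FGK

/-- the torsion-free modules as a subcategory of the finitely generated modules -/
def tfP (A : Type) [CommRing A] : SubP (KQG.MA A) where
  P := (TF A).P
  le := fun M h => h.1
  iso := (TF A).iso
  zero := (TF A).zero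
  ext := (TF A).ext

theorem t3_ker {A M N : Type} [CommRing A] [AddCommGroup M] [Module A M] [AddCommGroup N]
    [Module A N] (f : M →ₗ[A] N) (hf : Injective f) (h : TFr A N) : TFr A M := by
  intro a x hx
  refine (h a (f x) (by rw [← map_smul, hx, map_zero])).imp id fun h1 => ?_
  exact hf (by rw [h1, map_zero])

theorem t3_free (A : Type) [CommRing A] [IsDomain A] (ι : Type) : TFr A (ι → A) := by
  intro a x hx
  by_cases ha : a = 0
  · exact Or.inl ha
  · right
    funext i
    have h1 : a * x i = 0 := congrFun hx i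
    exact (mul_eq_zero.1 h1).resolve_left ha

theorem t3_res (A : Type) [CommRing A] [IsDomain A] [IsNoetherianRing A] :
    ResH (KQG.MA A).P (tfP A).P where
  isoP := fun e h => (KQG.MA A).iso e h
  extP := fun f g h h1 h2 => (KQG.MA A).ext f g h h1 h2
  zerP := fun X h => (KQG.MA A).zero X h
  le := fun X h => h.1
  isoA := fun e h => (TF A).iso e h
  extA := fun f g h h1 h2 => (TF A).ext f g h h1 h2
  zerA := fun X h => (TF A).zero X h
  ker := fun {X Y Z} f g h h1 h2 h3 =>
    ⟨h1, t3_ker f.hom ((KQG.ses_mod f g).1 h).1 h2.2⟩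
  cov := fun (M : ModuleCat.{0} A) hM => by
    have hM : Module.Finite A M := hM
    obtain ⟨n, g, hg⟩ := Module.Finite.exists_fin' A M
    have h1 : Module.Finite A (LinearMap.ker g) := Module.IsNoetherian.finite A _
    refine ⟨ModuleCat.of A (LinearMap.ker g), ModuleCat.of A (Fin n → A),
      ModuleCat.ofHom (LinearMap.ker g).subtype, ModuleCat.ofHom g, ?_, ?_, ?_⟩
    · refine (KQG.ses_mod _ _).2 ⟨Subtype.val_injective, fun x => ?_, hg⟩
      exact ⟨fun h => ⟨⟨x, h⟩, rfl⟩, fun ⟨y, hy⟩ => hy ▸ y.2⟩
    · exact ⟨h1, t3_ker (LinearMap.ker g).subtype Subtype.val_injective (t3_free A _)⟩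
    · exact ⟨inferInstanceAs (Module.Finite A (Fin n → A)), t3_free A _⟩

theorem thm_T3 (hT2 : St_T2) (hE : St_EFG.{0}) (hR : St_ResK.{0}) : St_T3 := by
  intro A F _ _ _ _ _ _ hFin hSl n
  have h1 : AddGroup.FG (Kn n ((KQG.MA A).sub (tfP A))) :=
    hE (TF A) (hT2 A F hFin hSl) n
  have h2 := hR (KQG.MA A) (tfP A) (t3_res A) n
  exact AddGroup.fg_of_surjective h2.2

end Pool.Agent.GQ
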