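import Pool.Agent.GQ.StB

/-!
# GQ, module Tot (helper92): the destabilizing subspaces of a chain are totally ordered
-/

set_option autoImplicit false
set_option linter.unusedVariables false
set_option linter.unusedSectionVars false

noncomputable section

namespace Pool.Agent.GQ

open CategoryTheory Function Pool.Agent.KQ Pool.Agent.FGK

section

variable {A F : Type} [CommRing A] [IsDomain A] [Field F] [Algebra A F] [IsFractionRing A F]
  (D : CD A F)

/-- the powers of `t` are not bounded -/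
theorem tot_unb (N : ℕ) (h : ∀ i : ℕ, D.t⁻¹ ^ N * D.t ^ i ∈ D.O) : False := by
  have ht : D.t ≠ 0 := D.t0
  have h1 : ∀ i : ℕ, D.t ^ i ∈ D.O := by
    intro i
    have h2 := h (N + i)
    rw [pow_add, ← mul_assoc, ← mul_pow, inv_mul_cancel₀ ht, one_pow, one_mul] at h2
    exact h2
  obtain ⟨a, ha⟩ := D.dis
  have h3 := ha 1 (by
    rw [map_one, mul_one]
    exact h1 a)
  rw [map_one] at h3
  exact one_ne_zero h3

variable {V : Type} [AddCommGroup V] [Module F V] [FiniteDimensional F V] [Module A V]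
  [IsScalarTower A F V]

/-- linear forms are bounded on lattices -/
theorem tot_bdd (L : D.Lat V) (φ : V →ₗ[F] F) : ∃ N : ℕ, ∀ v ∈ L.1, D.t⁻¹ ^ N * φ v ∈ D.O := by
  obtain ⟨r, b, i, _, h2⟩ := L.2.2
  have h3 : ∀ l, ∃ j : ℕ, D.t⁻¹ ^ j * φ (b l) ∈ D.O := fun l => D.abs (φ (b l))
  choose j hj using h3
  refine ⟨i + ∑ l, j l, fun v hv => ?_⟩
  have h4 : φ v = ∑ l, b.repr v l * φ (b l) := by
    conv_lhs => rw [← b.sum_repr v]
    rw [map_sum]
    exact Finset.sum_congr rfl (fun l _ => by rw [map_smul, smul_eq_mul])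
  rw [h4, Finset.mul_sum]
  refine Subring.sum_mem _ (fun l _ => ?_)
  have h5 : D.t⁻¹ ^ (i + ∑ l, j l) * (b.repr v l * φ (b l)) =
      D.t⁻¹ ^ (∑ k ∈ Finset.univ.erase l, j k) *
        ((D.t⁻¹ ^ i * b.repr v l) * (D.t⁻¹ ^ j l * φ (b l))) := by
    rw [← Finset.add_sum_erase Finset.univ j (Finset.mem_univ l), pow_add, pow_add]
    ring
  rw [h5]
  exact Subring.mul_mem _ (Subring.pow_mem _ D.tO _) (Subring.mul_mem _ (h2 v hv l) (hj l))

/-- one step -/
theorem tot_step (hL : St_Lat1) (M : Submodule A V) (L L' : D.Lat V) (hLL : L ≤ L')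
    (W W' : Submodule F V) (a a' : ℤ) (haa : a ≤ a') (h1 : D.H1z M L W a)
    (h0 : D.H0z M L' W' (a' + 1)) (l : V) (hl : l ∈ L.1) (hlW : l ∈ W) :
    ∃ l' ∈ L.1, l' ∈ W ∧ D.t • l - l' ∈ W' := by
  have ht : D.t ≠ 0 := D.t0
  obtain ⟨m, hm, hmW, h2⟩ := h1 (D.t ^ (a + 1) • l) (W.smul_mem _ hlW)
  have h3 : D.t ^ (-a) • (D.t ^ (a + 1) • l - m) = D.t • l - D.t ^ (-a) • m := by
    rw [smul_sub, smul_smul, ← zpow_add₀ ht]
    congr 2
    rw [show -a + (a + 1) = 1 by ring, zpow_one]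
  have h4 : D.t • l - D.t ^ (-a) • m ∈ L.1 := by
    rw [← h3]
    exact h2
  have h5 : D.Mem (a + 1) L m := by
    have h6 : D.t⁻¹ • (D.t • l - D.t ^ (-a) • m) ∈ L.1 := L.2.1 _ D.tO _ h4
    have h7 : D.t⁻¹ • (D.t • l - D.t ^ (-a) • m) = l - D.t ^ (-(a + 1)) • m := by
      rw [smul_sub, smul_smul, smul_smul, inv_mul_cancel₀ ht, one_smul]
      congr 2
      rw [neg_add, zpow_add₀ ht, zpow_neg_one, mul_comm]
    rw [h7] at h6
    have h8 := L.1.sub_mem hl h6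
    rw [sub_sub_cancel] at h8
    exact h8
  have h6 : D.Mem (a' + 1) L m := (hL A F V D).1 L (a + 1) (a' + 1) m (by omega) h5
  have h7 : D.Mem (a' + 1) L' m := hLL h6
  have h8 : m ∈ W' := h0 m hm m h7 (by rw [sub_self]; exact W'.zero_mem)
  refine ⟨D.t • l - D.t ^ (-a) • m, h4, W.sub_mem (W.smul_mem _ hlW) (W.smul_mem _ hmW), ?_⟩
  rw [sub_sub_cancel]
  exact W'.smul_mem _ h8

theorem tot_main (hL : St_Lat1) (M : Submodule A V) (L L' : D.Lat V) (hLL : L ≤ L')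
    (W W' : Submodule F V) (a a' : ℤ) (haa : a ≤ a') (h1 : D.H1z M L W a)
    (h0 : D.H0z M L' W' (a' + 1)) : W ≤ W' := by
  have ht : D.t ≠ 0 := D.t0
  intro w hw
  by_contra hw'
  obtain ⟨z, hz⟩ := (hL A F V D).2.2.2.2.1 L w
  have hl0 : D.t ^ (-z) • w ∈ L.1 := hz
  have hl0W : D.t ^ (-z) • w ∈ W := W.smul_mem _ hw
  have hl0W' : D.t ^ (-z) • w ∉ W' := by
    intro h
    apply hw'
    have h2 := W'.smul_mem (D.t ^ z) h
    rw [smul_smul, ← zpow_add₀ ht, add_neg_cancel, zpow_zero, one_smul] at h2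
    exact h2
  have h2 : ∀ i : ℕ, ∃ l' ∈ L.1, l' ∈ W ∧ D.t ^ i • (D.t ^ (-z) • w) - l' ∈ W' := by
    intro i
    induction i with
    | zero =>
      refine ⟨_, hl0, hl0W, ?_⟩
      rw [pow_zero, one_smul, sub_self]
      exact W'.zero_mem
    | succ i ih =>
      obtain ⟨l, hl, hlW, h3⟩ := ih
      obtain ⟨l', hl', hlW', h4⟩ := tot_step D hL M L L' hLL W W' a a' haa h1 h0 l hl hlW
      refine ⟨l', hl', hlW', ?_⟩
      have h5 := W'.add_mem (W'.smul_mem D.t h3) h4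
      have h6 : D.t • (D.t ^ i • (D.t ^ (-z) • w) - l) + (D.t • l - l') =
          D.t ^ (i + 1) • (D.t ^ (-z) • w) - l' := by
        rw [smul_sub, smul_smul D.t (D.t ^ i), pow_succ']
        abel
      rw [h6] at h5
      exact h5
  obtain ⟨φ, hφ, hφW⟩ := Submodule.exists_le_ker_of_notMem hl0W'
  obtain ⟨N, hN⟩ := tot_bdd D L ((φ (D.t ^ (-z) • w))⁻¹ • φ)
  refine tot_unb D N (fun i => ?_)
  obtain ⟨l', hl', _, h3⟩ := h2 i
  have h4 := hN l' hl'
  have h5 : φ l' = D.t ^ i * φ (D.t ^ (-z) • w) := by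
    have h6 : φ (D.t ^ i • (D.t ^ (-z) • w) - l') = 0 := LinearMap.mem_ker.1 (hφW h3)
    rw [map_sub, map_smul, smul_eq_mul, sub_eq_zero] at h6
    exact h6.symm
  have h7 : ((φ (D.t ^ (-z) • w))⁻¹ • φ) l' = D.t ^ i := by
    rw [LinearMap.smul_apply, h5, smul_eq_mul, mul_comm (D.t ^ i), inv_mul_cancel_left₀ hφ]
  rw [h7] at h4
  exact h4

end

theorem thm_Tot (hL : St_Lat1) : St_Tot := by
  intro A F V _ _ _ _ _ _ _ _ _ _ D M L L' _ hLL W hW W' hW'
  obtain ⟨_, _, a, h1, h0⟩ := hW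
  obtain ⟨_, _, a', h1', h0'⟩ := hW'
  rcases le_total a a' with h | h
  · exact Or.inl (tot_main D hL M L L' hLL W W' a a' h h1 h0')
  · exact Or.inr (tot_main D hL M L L' hLL W' W a' a h h1' h0)

end Pool.Agent.GQ

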