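import Pool.Agent.GQ.StB
import Pool.Agent.KQ.Core

/-!
# GQ, module XCon: contractibility of the parts of the complex of lattices
-/

set_option autoImplicit false
set_option linter.unusedVariables false

noncomputable section

namespace Pool.Agent.GQ

open CategoryTheory Function Pool.Agent.KQ Pool.Agent.FGK

universe u

theorem xcon_refl {X Y : SSt.{u}} {f g : X ⟶ Y} (h : f = g) : SSt.StrEq f g := by
  subst h
  exact fun _ _ => rfl

theorem xcon_trans {X Y : SSt.{u}} {f g h : X ⟶ Y} (h1 : SSt.StrEq f g) (h2 : SSt.StrEq g h) :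
    SSt.StrEq f h := fun Φ n => (h1 Φ n).trans (h2 Φ n)

theorem xcon_symm {X Y : SSt.{u}} {f g : X ⟶ Y} (h1 : SSt.StrEq f g) : SSt.StrEq g f :=
  fun Φ n => (h1 Φ n).symm

theorem xcon_pre {W X Y : SSt.{u}} (e : W ⟶ X) {f g : X ⟶ Y} (h : SSt.StrEq f g) :
    SSt.StrEq (e ≫ f) (e ≫ g) := by
  intro Φ n
  have h1 := h Φ n
  rw [Φ.ap.map_comp, Φ.ap.map_comp]
  ext x
  rw [SGp.PiMap_comp, SGp.PiMap_comp, h1]

section

variable {A F V : Type} [CommRing A] [Field F] [Algebra A F] [AddCommGroup V] [Module F V]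
  (D : CD A F)

/-- the sum of two lattices -/
def xcon_sm (hS : ∀ L L' : D.Lat V, ∃ L'' : D.Lat V, L''.1 = L.1 ⊔ L'.1) (L L' : D.Lat V) :
    D.Lat V :=
  ⟨L.1 ⊔ L'.1, by
    obtain ⟨L'', h⟩ := hS L L'
    rw [← h]
    exact L''.2⟩

variable (hS : ∀ L L' : D.Lat V, ∃ L'' : D.Lat V, L''.1 = L.1 ⊔ L'.1)

theorem xcon_sm_mono {L L' P P' : D.Lat V} (h : L ≤ P) (h' : L' ≤ P') :
    xcon_sm D hS L L' ≤ xcon_sm D hS P P' := sup_le_sup (α := AddSubgroup V) h h'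

theorem xcon_sm_left {L L' : D.Lat V} (h : L' ≤ L) : xcon_sm D hS L L' = L :=
  Subtype.ext (sup_eq_left.2 (show L'.1 ≤ L.1 from h))

theorem xcon_sm_right {L L' : D.Lat V} (h : L ≤ L') : xcon_sm D hS L L' = L' :=
  Subtype.ext (sup_eq_right.2 (show L.1 ≤ L'.1 from h))

theorem xcon_near_mono {L L' P P' : D.Lat V} (h : L ≤ P) (h' : P' ≤ L') (hn : D.Near L L') :
    D.Near P P' := fun v hv => h (hn v (h' hv))

theorem xcon_near_self (L : D.Lat V) : D.Near L L := fun v hv => L.2.1 _ D.tO v hv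

theorem xcon_near_sm {L L' P P' : D.Lat V} (h1 : D.Near L L') (h2 : D.Near P P') :
    D.Near (xcon_sm D hS L P) (xcon_sm D hS L' P') := by
  intro v hv
  obtain ⟨a, ha, b, hb, rfl⟩ := AddSubgroup.mem_sup.1 (show v ∈ L'.1 ⊔ P'.1 from hv)
  rw [smul_add]
  exact AddSubgroup.mem_sup.2 ⟨_, h1 a ha, _, h2 b hb, rfl⟩

variable [Module A V] (M : Submodule A V) {q : ℕ}
  (f : Fin (q + 1) →o Submodule F V)

/-- the condition for a chain which starts with `L` and ends with `L'` -/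
def xcon_ok (L L' : D.Lat V) : Prop := D.Near L L' ∧ ∀ i, f i = ⊤ ∨ f i ∈ D.Dst M L L'

theorem xcon_ok_mono {L L' P P' : D.Lat V} (h : L ≤ P) (h' : P' ≤ L')
    (hk : xcon_ok D M f L L') : xcon_ok D M f P P' :=
  ⟨xcon_near_mono D h h' hk.1, fun i => (hk.2 i).imp id fun h1 => D.Dst_mono M h h' h1⟩

/-- simplices of the complex from monotone maps -/
def xcon_mk {n : ℕ} (σ : Fin (n + 1) →o D.Lat V)
    (h : xcon_ok D M f (σ 0) (σ (Fin.last n))) : (D.XF M f).S.obj n :=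
  ⟨⟨⟨σ, h.1⟩⟩, h.2⟩

/-- the underlying monotone map -/
def xcon_un {n : ℕ} (x : (D.XF M f).S.obj n) : Fin (n + 1) →o D.Lat V := x.1.down.1

theorem xcon_un_ok {n : ℕ} (x : (D.XF M f).S.obj n) :
    xcon_ok D M f (xcon_un D M f x 0) (xcon_un D M f x (Fin.last n)) := ⟨x.1.down.2, x.2⟩

theorem xcon_ext {n : ℕ} {x y : (D.XF M f).S.obj n}
    (h : ∀ i, xcon_un D M f x i = xcon_un D M f y i) : x = y :=
  Subtype.ext (ULift.ext _ _ (Subtype.ext (OrderHom.ext _ _ (funext h))))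

/-- the bounded parts -/
def xcon_XB (P P' : D.Lat V) : SubS (D.XF M f).S where
  s n := {x | P ≤ xcon_un D M f x 0 ∧ xcon_un D M f x (Fin.last n) ≤ P'}
  map_mem {m n} θ x h :=
    ⟨h.1.trans ((xcon_un D M f x).monotone (Fin.zero_le _)),
      le_trans ((xcon_un D M f x).monotone (Fin.le_last _)) h.2⟩

/-- the chain `i ↦ σ_i + Λ_(γ i)` -/
def xcon_ch {n : ℕ} (Λ : ℕ →o D.Lat V) (γ : Fin (n + 1) →o ℕ) (σ : Fin (n + 1) →o D.Lat V) :
    Fin (n + 1) →o D.Lat V :=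
  ⟨fun i => xcon_sm D hS (σ i) (Λ (γ i)),
    fun i j h => xcon_sm_mono D hS (σ.monotone h) (Λ.monotone (γ.monotone h))⟩

/-- the map `σ_i ↦ σ_i + Λ_s` -/
def xcon_phi (P P' : D.Lat V) (Λ : ℕ →o D.Lat V) (s : ℕ)
    (h : ∀ L L', P ≤ L → L ≤ L' → L' ≤ P' → xcon_ok D M f L L' →
      xcon_ok D M f (xcon_sm D hS L (Λ s)) (xcon_sm D hS L' (Λ s))) :
    (xcon_XB D M f P P').S ⟶ (D.XF M f).S :=
  ⟨fun n x => xcon_mk D M f (xcon_ch D hS Λ ⟨fun _ => s, fun _ _ _ => le_rfl⟩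
      (xcon_un D M f x.1)) (h _ _ x.2.1 ((xcon_un D M f x.1).monotone (Fin.zero_le _)) x.2.2
      (xcon_un_ok D M f x.1)), fun _ _ => rfl⟩

/-- the constant map to a vertex -/
def xcon_cst (L : D.Lat V) (h : xcon_ok D M f L L) :
    SSt.const PUnit.{2} ⟶ (D.XF M f).S :=
  ⟨fun n x => xcon_mk D M f ⟨fun _ => L, fun _ _ _ => le_rfl⟩ h, fun _ _ => rfl⟩

/-- the homotopy -/
def xcon_htpy (P P' : D.Lat V) (Λ : ℕ →o D.Lat V) (s : ℕ)
    (h : ∀ L L', P ≤ L → L ≤ L' → L' ≤ P' → xcon_ok D M f L L' →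
      xcon_ok D M f (xcon_sm D hS L (Λ s)) (xcon_sm D hS L' (Λ (s + 1)))) :
    SSt.Htpy
      (xcon_phi D hS M f P P' Λ s fun L L' h1 h2 h3 h4 =>
        xcon_ok_mono D M f le_rfl (xcon_sm_mono D hS le_rfl (Λ.monotone (Nat.le_succ s)))
          (h L L' h1 h2 h3 h4))
      (xcon_phi D hS M f P P' Λ (s + 1) fun L L' h1 h2 h3 h4 =>
        xcon_ok_mono D M f (xcon_sm_mono D hS le_rfl (Λ.monotone (Nat.le_succ s))) le_rfl
          (h L L' h1 h2 h3 h4)) where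
  h n α x := xcon_mk D M f (xcon_ch D hS Λ ⟨fun i => cond (α i) (s + 1) s, fun i j hij => by
      have h1 := α.monotone hij
      change cond (α i) (s + 1) s ≤ cond (α j) (s + 1) s
      cases h2 : α i
      · cases h3 : α j
        · exact le_rfl
        · exact Nat.le_succ s
      · rw [h2] at h1
        have h3 : α j = true := top_le_iff.1 h1
        rw [h3]⟩ (xcon_un D M f x.1))
    (xcon_ok_mono D M f
      (xcon_sm_mono D hS le_rfl (Λ.monotone (by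
        change s ≤ cond (α 0) (s + 1) s
        cases α 0
        · exact le_rfl
        · exact Nat.le_succ s)))
      (xcon_sm_mono D hS le_rfl (Λ.monotone (by
        change cond (α (Fin.last n)) (s + 1) s ≤ s + 1
        cases α (Fin.last n)
        · exact Nat.le_succ s
        · exact le_rfl)))
      (h _ _ x.2.1 ((xcon_un D M f x.1).monotone (Fin.zero_le _)) x.2.2 (xcon_un_ok D M f x.1)))
  nat _ _ _ := rfl
  h0 n α x hα := xcon_ext D M f fun i => by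
    change xcon_sm D hS _ (Λ (cond (α i) (s + 1) s)) = xcon_sm D hS _ (Λ s)
    rw [hα]
    rfl
  h1 n α x hα := xcon_ext D M f fun i => by
    change xcon_sm D hS _ (Λ (cond (α i) (s + 1) s)) = xcon_sm D hS _ (Λ (s + 1))
    rw [hα]
    rfl

/-- all the maps are homotopic -/
theorem xcon_chain (P P' : D.Lat V) (Λ : ℕ →o D.Lat V) (K : ℕ)
    (h : ∀ s < K, ∀ L L', P ≤ L → L ≤ L' → L' ≤ P' → xcon_ok D M f L L' →
      xcon_ok D M f (xcon_sm D hS L (Λ s)) (xcon_sm D hS L' (Λ (s + 1))))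
    (h0 : Λ 0 ≤ P) (hK : P' ≤ Λ K) :
    ∀ s ≤ K, ∃ h', SSt.StrEq (xcon_XB D M f P P').ι (xcon_phi D hS M f P P' Λ s h') := by
  intro s hs
  induction s with
  | zero =>
    have h1 : ∀ L L', P ≤ L → L ≤ L' → L' ≤ P' → xcon_ok D M f L L' →
        xcon_ok D M f (xcon_sm D hS L (Λ 0)) (xcon_sm D hS L' (Λ 0)) := by
      intro L L' h1 h2 h3 h4
      rw [xcon_sm_left D hS (h0.trans h1), xcon_sm_left D hS (h0.trans (h1.trans h2))]
      exact h4
    refine ⟨h1, xcon_refl (SSt.hom_ext fun n x => xcon_ext D M f fun i => ?_)⟩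
    exact (xcon_sm_left D hS (h0.trans (x.2.1.trans
      ((xcon_un D M f x.1).monotone (Fin.zero_le i))))).symm
  | succ s ih =>
    obtain ⟨h1, h2⟩ := ih (by omega)
    exact ⟨_, xcon_trans h2 (all_StrHt.1 _ _ ⟨xcon_htpy D hS M f P P' Λ s (h s (by omega))⟩)⟩

/-- the inclusion of a bounded part is homotopic to a constant map -/
theorem xcon_const (P P' : D.Lat V) (Λ : ℕ →o D.Lat V) (K : ℕ)
    (h : ∀ s < K, ∀ L L', P ≤ L → L ≤ L' → L' ≤ P' → xcon_ok D M f L L' →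
      xcon_ok D M f (xcon_sm D hS L (Λ s)) (xcon_sm D hS L' (Λ (s + 1))))
    (h0 : Λ 0 ≤ P) (hK : P' ≤ Λ K) (L₀ : D.Lat V) (h₀ : xcon_ok D M f L₀ L₀) (hP : P ≤ L₀)
    (hP' : L₀ ≤ P') :
    SSt.StrEq (xcon_XB D M f P P').ι
      ((xcon_XB D M f P P').S.toPt ≫ xcon_cst D M f L₀ h₀) := by
  obtain ⟨h1, h2⟩ := xcon_chain D hS M f P P' Λ K h h0 hK K le_rfl
  have hK1 : xcon_ok D M f (Λ K) (Λ K) := by
    have h3 := h1 L₀ L₀ hP le_rfl hP' h₀
    rwa [xcon_sm_right D hS (hP'.trans hK)] at h3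
  have h3 : xcon_phi D hS M f P P' Λ K h1 =
      (xcon_XB D M f P P').S.toPt ≫ xcon_cst D M f (Λ K) hK1 := by
    refine SSt.hom_ext fun n x => xcon_ext D M f fun i => ?_
    exact xcon_sm_right D hS (le_trans (le_trans
      ((xcon_un D M f x.1).monotone (Fin.le_last i)) x.2.2) hK)
  rw [h3] at h2
  -- the vertex `L₀`
  let v : SSt.const PUnit.{2} ⟶ (xcon_XB D M f P P').S :=
    ⟨fun n x => ⟨(xcon_cst D M f L₀ h₀).app n x, hP, hP'⟩, fun _ _ => rfl⟩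
  have h4 := xcon_pre v h2
  have h5 : v ≫ (xcon_XB D M f P P').ι = xcon_cst D M f L₀ h₀ := rfl
  have h6 : v ≫ (xcon_XB D M f P P').S.toPt ≫ xcon_cst D M f (Λ K) hK1 =
      xcon_cst D M f (Λ K) hK1 := rfl
  rw [h5, h6] at h4
  exact xcon_trans h2 (xcon_symm (xcon_pre _ h4))

end

theorem thm_XCon (hL1 : St_Lat1) (hPa : St_Path) (hNe : St_XNe) : St_XCon := by
  intro A F V _ _ _ _ _ _ _ _ _ _ D M hM q f hf
  obtain ⟨l1, l2, l3, l4, l5, l6, l7⟩ := hL1 A F V D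
  have ht : D.t ≠ 0 := D.t0
  -- the lattices `t ^ z L`
  have hT : ∀ z : ℤ, ∃ L : D.Lat V, ∀ (w : ℤ) (v : V), D.Mem w L v ↔
      ∀ l, D.t ^ (-(w + z)) * (Module.finBasis F V).repr v l ∈ D.O := fun z =>
    l3 _ (Module.finBasis F V) fun _ => z
  choose T hT using hT
  have hmem : ∀ (L : D.Lat V) (v : V), v ∈ L.1 ↔ D.Mem 0 L v := by
    intro L v
    rw [CD.Mem, neg_zero, zpow_zero, one_smul]
  have hTm : ∀ z z' : ℤ, z ≤ z' → T z ≤ T z' := by
    intro z z' hz v hv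
    have h1 : D.Mem 0 (T z) v := (hmem _ _).1 hv
    have h2 : D.Mem (z - z') (T z') v := by
      rw [hT] at h1 ⊢
      intro l
      have h3 := h1 l
      rwa [show (0 : ℤ) + z = z - z' + z' by ring] at h3
    exact (hmem _ _).2 (l1 (T z') (z - z') 0 v (by omega) h2)
  have hex : ∀ L : D.Lat V, ∃ B : ℕ, ∀ B' : ℕ, B ≤ B' → T (-(B' : ℤ)) ≤ L ∧ L ≤ T B' := by
    intro L
    obtain ⟨i, h1, h2⟩ := l2 L _ (Module.finBasis F V)
    refine ⟨i, fun B' hB => ⟨(hTm _ (-(i : ℤ)) (by omega)).trans ?_, le_trans ?_ (hTm i B'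
      (by omega))⟩⟩
    · intro v hv
      have h3 := (hT _ _ _).1 ((hmem _ _).1 hv)
      have h4 := h1 (D.t ^ (i : ℤ) • v) fun l => by
        have h5 := h3 l
        rw [zero_add, neg_neg] at h5
        rwa [map_smul, Finsupp.smul_apply, smul_eq_mul]
      have h6 : D.t ^ (-(i : ℤ)) • D.t ^ (i : ℤ) • v = v := by
        rw [smul_smul, ← zpow_add₀ ht, neg_add_cancel, zpow_zero, one_smul]
      change D.t ^ (-(i : ℤ)) • D.t ^ (i : ℤ) • v ∈ L.1 at h4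
      rw [h6] at h4
      exact h4
    · intro v hv
      refine (hmem _ _).2 ((hT _ _ _).2 fun l => ?_)
      exact h2 0 v ((hmem _ _).1 hv) l
  -- the vertex
  obtain ⟨L₀, hL₀⟩ := hNe A F V D M hM q f hf
  have h₀ : xcon_ok D M f L₀ L₀ := ⟨xcon_near_self D L₀, hL₀⟩
  obtain ⟨B₀, hB₀⟩ := hex L₀
  refine all_StrHt.2.2 _ (xcon_cst D M f L₀ h₀) ?_
  refine thm_StrUnion.1 (J := ULift.{1} ℕ)
    (fun j => xcon_XB D M f (T (-((B₀ + j.down : ℕ) : ℤ))) (T ((B₀ + j.down : ℕ) : ℤ))) ?_ ?_ _ _ ?_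
  · rintro ⟨i⟩ ⟨j⟩
    refine ⟨⟨max i j⟩, fun n x hx => ?_⟩
    rcases hx with hx | hx
    · exact ⟨(hTm _ _ (by simp)).trans hx.1, le_trans hx.2 (hTm _ _ (by simp))⟩
    · exact ⟨(hTm _ _ (by simp)).trans hx.1, le_trans hx.2 (hTm _ _ (by simp))⟩
  · intro n x
    obtain ⟨i, hi⟩ := hex (xcon_un D M f x 0)
    obtain ⟨j, hj⟩ := hex (xcon_un D M f x (Fin.last n))
    exact ⟨⟨max i j⟩, (hi (B₀ + max i j) (by omega)).1, (hj (B₀ + max i j) (by omega)).2⟩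
  · rintro ⟨j⟩
    obtain ⟨K, Λ, hΛ0, hΛK, hΛm, hΛn, hΛ⟩ := hPa A F V D M hM q f hf
      (T (-((B₀ + j : ℕ) : ℤ))) (T ((B₀ + j : ℕ) : ℤ))
    have hΛm' : Monotone fun s => Λ (min s K) := by
      refine monotone_nat_of_le_succ fun s => ?_
      rcases lt_or_ge s K with hs | hs
      · rw [min_eq_left hs.le, min_eq_left (show s + 1 ≤ K by omega)]
        exact hΛm s hs
      · rw [min_eq_right hs, min_eq_right (show K ≤ s + 1 by omega)]
    have h2 := xcon_const D l4 M f (T (-((B₀ + j : ℕ) : ℤ))) (T ((B₀ + j : ℕ) : ℤ))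
      ⟨fun s => Λ (min s K), hΛm'⟩ K ?_ ?_ ?_ L₀ h₀ (hB₀ _ (by omega)).1 (hB₀ _ (by omega)).2
    · exact xcon_symm h2
    · intro s hs L L' h1 h2 h3 h4
      have e1 : min s K = s := min_eq_left hs.le
      have e2 : min (s + 1) K = s + 1 := min_eq_left hs
      change xcon_ok D M f (xcon_sm D l4 L (Λ (min s K))) (xcon_sm D l4 L' (Λ (min (s + 1) K)))
      rw [e1, e2]
      exact ⟨xcon_near_sm D l4 h4.1 (hΛn s hs),
        hΛ L L' _ _ h1 h2 h3 h4.2 s hs rfl rfl⟩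
    · change Λ (min 0 K) ≤ _
      rw [Nat.zero_min]
      exact hΛ0
    · change _ ≤ Λ (min K K)
      rw [min_self]
      exact hΛK

end Pool.Agent.GQ
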