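import Pool.Agent.GQ.StB

/-!
# GQ: the stable part of the complex of lattices modulo `GL(M) × t ^ ℤ` (proof of `St_XFin`)
-/

set_option autoImplicit false
set_option linter.unusedVariables false

noncomputable section

namespace Pool.Agent.GQ

open CategoryTheory Function Pool.Agent.KQ Pool.Agent.FGK

section

variable {A F : Type} [CommRing A] [Field F] [Algebra A F] (D : CD A F)
  {V : Type} [AddCommGroup V] [Module F V]

theorem xfin_t0 : D.t ≠ 0 := D.t0

theorem xfin_tz (z : Multiplicative ℤ) (v : V) :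
    (D.tz V z).symm v = D.t ^ (-(Multiplicative.toAdd z)) • v := by
  change ((D.tU ^ (Multiplicative.toAdd z) : Fˣ)⁻¹ • v) = _
  rw [Units.smul_def, Units.val_inv_eq_inv_val, Units.val_zpow_eq_zpow_val, zpow_neg]
  rfl

theorem xfin_latG_mul (g h : V ≃ₗ[F] V) (L : D.Lat V) :
    D.latG (g * h) L = D.latG g (D.latG h L) := Subtype.ext (AddSubgroup.ext fun v => Iff.rfl)

theorem xfin_mem_tw (z : Multiplicative ℤ) (L : D.Lat V) (y : ℤ) (v : V) :
    D.Mem y (D.latG (D.tz V z) L) v ↔ D.Mem (y + Multiplicative.toAdd z) L v := by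
  change (D.tz V z).symm (D.t ^ (-y) • v) ∈ L.1 ↔ D.t ^ (-(y + Multiplicative.toAdd z)) • v ∈ L.1
  rw [xfin_tz, smul_smul, ← zpow_add₀ (xfin_t0 D), neg_add, add_comm]

variable [Module A V] [IsScalarTower A F V]

omit [IsScalarTower A F V] in
theorem xfin_mem (M : Submodule A V) (g : Gam (F := F) M × Multiplicative ℤ) (L : D.Lat V)
    (v : V) : v ∈ (D.latG (D.gz M g) L).1 ↔
      D.Mem (Multiplicative.toAdd g.2) L (g.1.1.symm v) := by
  change (D.tz V g.2).symm (g.1.1.symm v) ∈ L.1 ↔ _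
  rw [xfin_tz]
  rfl

/-- an element `g t ^ z` that fixes `L` maps `M ∩ t ^ (j + z) L` to `M ∩ t ^ j L` -/
theorem xfin_fix (M : Submodule A V) (g : Gam (F := F) M × Multiplicative ℤ) (L : D.Lat V)
    (h : D.latG (D.gz M g) L = L) (j : ℤ) (v : V) :
    D.Mem j L (g.1.1 v) ↔ D.Mem (j + Multiplicative.toAdd g.2) L v := by
  change D.t ^ (-j) • g.1.1 v ∈ L.1 ↔ _
  have h1 : D.t ^ (-j) • g.1.1 v ∈ L.1 ↔ D.t ^ (-j) • g.1.1 v ∈ (D.latG (D.gz M g) L).1 := by
    rw [h]
  rw [h1, xfin_mem, map_smul, LinearEquiv.symm_apply_apply]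
  change D.t ^ (-(Multiplicative.toAdd g.2)) • D.t ^ (-j) • v ∈ L.1 ↔
    D.t ^ (-(j + Multiplicative.toAdd g.2)) • v ∈ L.1
  rw [smul_smul, ← zpow_add₀ (xfin_t0 D), neg_add, add_comm]

end

/-- the first part -/
theorem xfin_one (h1 : St_Lat1) (hB : St_Bdd) (hP : St_FinP) (A F V : Type) [CommRing A]
    [IsDomain A] [Field F] [Algebra A F] [IsFractionRing A F] [AddCommGroup V] [Module F V]
    [FiniteDimensional F V] [Module A V] [IsScalarTower A F V] [Nontrivial V] (D : CD A F)
    (M : Submodule A V) (hM : IsLatA F M) (n : ℕ) :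
    ∃ T : Set ((D.X V).obj n), T.Finite ∧ ∀ σ, σ ∉ (D.unS M).s n →
      ∃ g, (((D.xG V).res (D.gz M)).act g).app n σ ∈ T := by
  classical
  obtain ⟨-, -, -, -, -, -, l7⟩ := h1 A F V D
  obtain ⟨b, hb⟩ := hB A F V D
  obtain ⟨T₁, hT₁, hP⟩ := hP A F V D b
  let γ : Submodule A V × D.Lat V → (V ≃ₗ[F] V) := fun p =>
    if h : ∃ g : V ≃ₗ[F] V, ∀ v, g v ∈ p.1 ↔ v ∈ M then h.choose else 1
  have hγ : ∀ p : Submodule A V × D.Lat V, (∃ g : V ≃ₗ[F] V, ∀ v, g v ∈ p.1 ↔ v ∈ M) →
      ∀ v, γ p v ∈ p.1 ↔ v ∈ M := by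
    intro p h
    simp only [γ, dif_pos h]
    exact h.choose_spec
  let T₀ : Set (D.Lat V) := (fun p => D.latG (γ p)⁻¹ p.2) '' T₁
  have hT₀ : T₀.Finite := hT₁.image _
  let S : Set (D.Lat V) := ⋃ Λ ∈ T₀, {L' | Λ ≤ L' ∧ D.Near Λ L'}
  have hS : S.Finite := hT₀.biUnion fun Λ _ => l7 Λ
  refine ⟨{τ | τ.down.1 0 ∈ T₀}, ?_, ?_⟩
  · have h2 : (Set.pi Set.univ fun _ : Fin (n + 1) => S).Finite := Set.Finite.pi fun _ => hS
    refine Set.Finite.of_injOn (f := fun τ : (D.X V).obj n => fun i => τ.down.1 i) ?_ ?_ h2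
    · intro τ hτ i _
      refine Set.mem_biUnion (x := τ.down.1 0) hτ ⟨τ.down.1.monotone (Fin.zero_le _), ?_⟩
      intro v hv
      exact τ.down.2 v (τ.down.1.monotone (Fin.le_last i) hv)
    · intro τ _ τ' _ h
      apply ULift.ext
      apply Subtype.ext
      apply OrderHom.ext
      exact h
  · intro σ hσ
    have hD : D.Dst M (σ.down.1 0) (σ.down.1 (Fin.last n)) = ∅ :=
      Set.not_nonempty_iff_eq_empty.1 hσ
    obtain ⟨z, hz1, hz2⟩ := hb M (σ.down.1 0) (σ.down.1 (Fin.last n)) hM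
      (σ.down.1.monotone (Fin.zero_le _)) σ.down.2 hD
    let zz : Multiplicative ℤ := Multiplicative.ofAdd z
    obtain ⟨g, M', L'', hmem, hg, hL⟩ := hP M (D.latG (D.tz V zz) (σ.down.1 0)) hM
      (fun m hm hmem => hz1 m hm (by
        rw [xfin_mem_tw] at hmem
        rw [sub_eq_add_neg, add_comm]
        exact hmem))
      (fun v => by
        obtain ⟨m, hm, h⟩ := hz2 v
        refine ⟨m, hm, ?_⟩
        rw [xfin_mem_tw, add_comm]
        exact h)
    have hγ' := hγ (M', L'') ⟨g, hg⟩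
    let h : V ≃ₗ[F] V := (γ (M', L''))⁻¹ * g
    have hh : h ∈ Gam (F := F) M := by
      intro v
      rw [← hγ' (h v), ← hg v]
      change γ (M', L'') ((γ (M', L'')).symm (g v)) ∈ M' ↔ g v ∈ M'
      rw [LinearEquiv.apply_symm_apply]
    refine ⟨(⟨h, hh⟩, zz), ?_⟩
    refine ⟨(M', L''), hmem, ?_⟩
    change D.latG (γ (M', L''))⁻¹ L'' = D.latG (h * D.tz V zz) (σ.down.1 0)
    rw [xfin_latG_mul, xfin_latG_mul, ← hL]

/-- the second part -/
theorem xfin_two (h1 : St_Lat1) (h2 : St_Lat2) (A F V : Type) [CommRing A]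
    [IsDomain A] [Field F] [Algebra A F] [IsFractionRing A F] [AddCommGroup V] [Module F V]
    [FiniteDimensional F V] [Module A V] [IsScalarTower A F V] [Nontrivial V] (D : CD A F)
    (M : Submodule A V) (hM : IsLatA F M) (n : ℕ) (σ : (D.X V).obj n) :
    {g : Gam (F := F) M × Multiplicative ℤ |
      (((D.xG V).res (D.gz M)).act g).app n σ = σ}.Finite := by
  classical
  let L : D.Lat V := σ.down.1 0
  obtain ⟨l1, -⟩ := h1 A F V D
  obtain ⟨-, ⟨a, ha⟩, hfin, -, -, hex⟩ := h2 A F V D M L hM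
  have hfix : ∀ g : Gam (F := F) M × Multiplicative ℤ,
      (((D.xG V).res (D.gz M)).act g).app n σ = σ → D.latG (D.gz M g) L = L := fun g hg =>
    congrArg (fun τ : (D.X V).obj n => τ.down.1 0) hg
  let U : ℤ → Set V := fun j => {m | m ∈ M ∧ D.Mem j L m}
  have hU : ∀ j, (U j).Finite := hfin
  have hmono : ∀ i j, i ≤ j → U i ⊆ U j := fun i j hij m hm => ⟨hm.1, l1 L i j m hij hm.2⟩
  have hmap : ∀ g : Gam (F := F) M × Multiplicative ℤ, D.latG (D.gz M g) L = L → ∀ j v,
      g.1.1 v ∈ U j ↔ v ∈ U (j + Multiplicative.toAdd g.2) := fun g hg j v =>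
    and_congr (g.1.2 v) (xfin_fix D M g L hg j v)
  -- the twist is trivial
  have hz : ∀ g : Gam (F := F) M × Multiplicative ℤ, D.latG (D.gz M g) L = L →
      Multiplicative.toAdd g.2 = 0 := by
    intro g hg
    by_contra hne
    set z := Multiplicative.toAdd g.2 with hzdef
    have himg : ∀ j, g.1.1 '' U (j + z) = U j := by
      intro j
      ext v
      constructor
      · rintro ⟨w, hw, rfl⟩
        exact (hmap g hg j w).2 hw
      · intro hv
        refine ⟨g.1.1.symm v, ?_, LinearEquiv.apply_symm_apply _ _⟩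
        rw [← hmap g hg j, LinearEquiv.apply_symm_apply]
        exact hv
    have hcard : ∀ j, (U (j + z)).ncard = (U j).ncard := by
      intro j
      rw [← himg j]
      exact (Set.ncard_image_of_injective _ g.1.1.injective).symm
    have heq : ∀ j, U (j + z) = U j := by
      intro j
      rcases le_total 0 z with h | h
      · exact (Set.eq_of_subset_of_ncard_le (hmono j (j + z) (by omega)) (hcard j).le
          (hU _)).symm
      · exact Set.eq_of_subset_of_ncard_le (hmono (j + z) j (by omega)) (hcard j).ge (hU _)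
    have hper : ∀ (k : ℕ) j, U (j + k * z) = U j := by
      intro k
      induction k with
      | zero => intro j; simp
      | succ k ih =>
        intro j
        have h3 : j + ((k + 1 : ℕ) : ℤ) * z = (j + k * z) + z := by push_cast; ring
        rw [h3, heq, ih]
    have hper' : ∀ (k : ℕ) j, U (j - k * z) = U j := by
      intro k j
      have h3 := hper k (j - k * z)
      rw [sub_add_cancel] at h3
      exact h3.symm
    have hM0 : ∀ m ∈ M, m = 0 := by
      intro m hm
      obtain ⟨y, hy⟩ := hex m hm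
      have h4 : m ∈ U y := ⟨hm, hy⟩
      rcases lt_or_gt_of_ne hne with h | h
      · -- z < 0
        rw [← hper (y - a).toNat y] at h4
        refine ha _ ?_ m hm h4.2
        have h5 : y - a ≤ ((y - a).toNat : ℤ) := Int.self_le_toNat _
        nlinarith
      · rw [← hper' (y - a).toNat y] at h4
        refine ha _ ?_ m hm h4.2
        have h5 : y - a ≤ ((y - a).toNat : ℤ) := Int.self_le_toNat _
        nlinarith
    have h6 : (⊤ : Submodule F V) = ⊥ := by
      rw [← hM.2, Submodule.span_eq_bot]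
      exact hM0
    exact top_ne_bot h6
  -- a finite set which generates `V`
  obtain ⟨S, hS⟩ := hM.1
  have hj : ∃ j, (S : Set V) ⊆ U j := by
    have hSM : ∀ s ∈ S, s ∈ M := fun s hs => by
      rw [← hS]
      exact Submodule.subset_span hs
    have h3 : ∀ S' : Finset V, S' ⊆ S → ∃ j, (S' : Set V) ⊆ U j := by
      intro S'
      induction S' using Finset.induction_on with
      | empty => exact fun _ => ⟨0, by simp⟩
      | insert s S' _ ih =>
        intro h
        obtain ⟨j, hj⟩ := ih fun x hx => h (Finset.mem_insert_of_mem hx)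
        have hs := hSM s (h (Finset.mem_insert_self _ _))
        obtain ⟨y, hy⟩ := hex s hs
        refine ⟨max j y, fun x hx => ?_⟩
        rcases Finset.mem_insert.1 (Finset.mem_coe.1 hx) with h4 | h4
        · rw [h4]
          exact hmono y _ (le_max_right _ _) ⟨hs, hy⟩
        · exact hmono j _ (le_max_left _ _) (hj h4)
    exact h3 S (Finset.Subset.refl S)
  obtain ⟨j, hj⟩ := hj
  have hspan : Submodule.span F (U j) = ⊤ := by
    rw [eq_top_iff, ← hM.2, Submodule.span_le]
    intro x hx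
    have h3 : x ∈ Submodule.span A (S : Set V) := by
      rw [hS]
      exact hx
    exact Submodule.span_mono hj (Submodule.span_le_restrictScalars A F (S : Set V) h3)
  have hfinU : Finite (U j) := hU j
  have h3 : (Set.pi Set.univ fun _ : U j => U j).Finite := Set.Finite.pi fun _ => hU j
  refine Set.Finite.of_injOn (f := fun g : Gam (F := F) M × Multiplicative ℤ =>
    fun u : U j => g.1.1 u.1) ?_ ?_ h3
  · intro g hg u _
    have h4 := hfix g hg
    refine (hmap g h4 j u.1).2 ?_
    rw [hz g h4, add_zero]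
    exact u.2
  · intro g hg g' hg' h
    have h4 := hz g (hfix g hg)
    have h5 := hz g' (hfix g' hg')
    refine Prod.ext (Subtype.ext ?_) (Multiplicative.toAdd.injective (h4.trans h5.symm))
    apply LinearEquiv.toLinearMap_injective
    refine LinearMap.ext_on hspan fun u hu => ?_
    exact congrFun h ⟨u, hu⟩

/-- **XFin.** -/
theorem thm_XFin (h1 : St_Lat1) (h2 : St_Lat2) (hB : St_Bdd) (hP : St_FinP) : St_XFin := by
  intro A F V _ _ _ _ _ _ _ _ _ _ _ D M hM
  exact ⟨xfin_one h1 hB hP A F V D M hM, xfin_two h1 h2 A F V D M hM⟩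

end Pool.Agent.GQ
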