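import Pool.Agent.GQ.StB

/-!
# GQ: lattices with given destabilizing subspaces (proof of `St_XNe`)

`xne_basis`: every chain of subspaces has an adapted basis: every term is the set of the vectors
whose coordinates with index `≥ d` vanish, for some `d`.
-/

set_option autoImplicit false

noncomputable section

namespace Pool.Agent.GQ

open CategoryTheory Function Pool.Agent.KQ Pool.Agent.FGK

/-- the vectors whose coordinates with index `≥ d` vanish -/
def xneW {F V : Type} [Field F] [AddCommGroup V] [Module F V] {r : ℕ}
    (b : Module.Basis (Fin r) F V) (d : ℕ) : Submodule F V where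
  carrier := {v | ∀ l : Fin r, d ≤ l.val → b.repr v l = 0}
  add_mem' {x y} hx hy l hl := by
    rw [map_add, Finsupp.add_apply, hx l hl, hy l hl, add_zero]
  zero_mem' l _ := by rw [map_zero, Finsupp.zero_apply]
  smul_mem' c x hx l hl := by
    rw [map_smul, Finsupp.smul_apply, hx l hl, smul_zero]

theorem xneW_mem {F V : Type} [Field F] [AddCommGroup V] [Module F V] {r : ℕ}
    (b : Module.Basis (Fin r) F V) (d : ℕ) (v : V) :
    v ∈ xneW b d ↔ ∀ l : Fin r, d ≤ l.val → b.repr v l = 0 := Iff.rfl

/-- adapted bases -/
theorem xne_basis {F : Type} [Field F] (q : ℕ) :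
    ∀ (V : Type) [AddCommGroup V] [Module F V] [FiniteDimensional F V]
      (f : Fin q →o Submodule F V), ∃ (r : ℕ) (b : Module.Basis (Fin r) F V),
        ∀ i, ∃ d : ℕ, d ≤ r ∧ f i = xneW b d := by
  induction q with
  | zero =>
    intro V _ _ _ f
    exact ⟨_, Module.finBasis F V, fun i => i.elim0⟩
  | succ q ih =>
    intro V _ _ _ f
    let W : Submodule F V := f (Fin.last q)
    obtain ⟨C, hC⟩ := Submodule.exists_isCompl W
    let g : Fin q →o Submodule F W :=
      ⟨fun i => (f i.castSucc).comap W.subtype, fun i j h =>
        Submodule.comap_mono (f.monotone (Fin.castSucc_le_castSucc_iff.2 h))⟩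
    obtain ⟨s, bW, hbW⟩ := ih W g
    let bC := Module.finBasis F C
    let E := Submodule.prodEquivOfIsCompl W C hC
    let b : Module.Basis (Fin (s + Module.finrank F C)) F V :=
      ((bW.prod bC).map E).reindex finSumFinEquiv
    have hl : ∀ (v : V) (l : Fin s), b.repr v (Fin.castAdd _ l) = bW.repr (E.symm v).1 l := by
      intro v l
      simp [b, E]
    have hr : ∀ (v : V) (l : Fin (Module.finrank F C)),
        b.repr v (Fin.natAdd s l) = bC.repr (E.symm v).2 l := by
      intro v l
      simp [b, E]
    have hW : ∀ v : V, v ∈ W ↔ (E.symm v).2 = 0 := fun v =>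
      (Submodule.prodEquivOfIsCompl_symm_apply_snd_eq_zero W C hC).symm
    have hW1 : ∀ v : V, v ∈ W → ((E.symm v).1 : V) = v := fun v hv => by
      have h1 := E.apply_symm_apply v
      have h2 : E (E.symm v) = ((E.symm v).1 : V) + ((E.symm v).2 : V) := rfl
      rw [h2, (hW v).1 hv] at h1
      simpa using h1
    refine ⟨_, b, fun i => ?_⟩
    induction i using Fin.lastCases with
    | last =>
      refine ⟨s, by omega, ?_⟩
      ext v
      rw [xneW_mem]
      change v ∈ W ↔ _
      rw [hW v]
      constructor
      · intro h l hl'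
        induction l using Fin.addCases with
        | left l => exact absurd hl' (by simp)
        | right l => rw [hr, h, map_zero, Finsupp.zero_apply]
      · intro h
        have h2 : bC.repr (E.symm v).2 = 0 := by
          ext l
          rw [← hr]
          exact h _ (by simp)
        exact (LinearEquiv.map_eq_zero_iff bC.repr).1 h2
    | cast i =>
      obtain ⟨d, hds, hd⟩ := hbW i
      refine ⟨d, by omega, ?_⟩
      ext v
      rw [xneW_mem]
      have hsub : f i.castSucc ≤ W := f.monotone (Fin.le_last _)
      have hg : ∀ w : W, (w : V) ∈ f i.castSucc ↔ w ∈ xneW bW d := fun w => by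
        rw [← hd]
        rfl
      constructor
      · intro h l hl'
        have hvW : v ∈ W := hsub h
        induction l using Fin.addCases with
        | left l =>
          rw [hl]
          have h3 : ((E.symm v).1 : V) ∈ f i.castSucc := by rw [hW1 v hvW]; exact h
          exact (hg _).1 h3 l (by simpa using hl')
        | right l => rw [hr, (hW v).1 hvW, map_zero, Finsupp.zero_apply]
      · intro h
        have hvW : v ∈ W := by
          rw [hW v]
          have h2 : bC.repr (E.symm v).2 = 0 := by
            ext l
            rw [← hr]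
            exact h _ (by simp; omega)
          exact (LinearEquiv.map_eq_zero_iff bC.repr).1 h2
        rw [← hW1 v hvW, hg]
        intro l hl'
        rw [← hl]
        exact h _ (by simpa using hl')

section

variable {A F : Type} [CommRing A] [Field F] [Algebra A F] (D : CD A F)

theorem xne_tpow (n : ℕ) : D.t ^ (-(n : ℤ)) ∈ D.O := by
  rw [zpow_neg, zpow_natCast, ← inv_pow]
  exact D.O.pow_mem D.tO n

theorem xne_mono {y z : ℤ} (h : y ≤ z) {x : F} (hx : D.t ^ (-y) * x ∈ D.O) :
    D.t ^ (-z) * x ∈ D.O := by
  obtain ⟨n, hn⟩ := Int.le.dest h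
  have h1 : D.t ^ (-z) * x = D.t ^ (-(n : ℤ)) * (D.t ^ (-y) * x) := by
    rw [← mul_assoc, ← zpow_add₀ (show D.t ≠ 0 from D.t0)]
    congr 2
    omega
  rw [h1]
  exact D.O.mul_mem (xne_tpow D n) hx

end

theorem thm_XNe (h1 : St_Lat1) (h2 : St_Lat2) : St_XNe := by
  intro A F V _ _ _ _ _ _ _ _ _ _ D M hM q f hf
  obtain ⟨r, b, hb⟩ := xne_basis (q + 1) V f
  have hex := (h1 A F V D).2.2.1 r b
  choose Λ hΛ using hex
  have hH1 : ∀ W : Submodule F V, ∃ a : ℤ, ∀ z, a ≤ z → D.H1z M (Λ 0) W z := fun W =>
    (h2 A F V D M (Λ 0) hM).2.2.2.1 W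
  have hH0 : ∀ (e : Fin r → ℤ) (W : Submodule F V), ∃ a : ℤ, ∀ z, z ≤ a → D.H0z M (Λ e) W z :=
    fun e W => (h2 A F V D M (Λ e) hM).2.2.2.2.1 W
  have key : ∀ k : ℕ, k ≤ r → ∃ e : Fin r → ℤ, ∀ d', r - k ≤ d' → d' < r → ∃ a : ℤ,
      ∀ e' : Fin r → ℤ, (∀ l : Fin r, r - k ≤ l.val → e' l = e l) →
        (∀ l : Fin r, l.val < r - k → e l ≤ e' l) →
        D.H1z M (Λ e') (xneW b d') a ∧ D.H0z M (Λ e') (xneW b d') (a + 1) := by
    intro k
    induction k with
    | zero => exact fun _ => ⟨0, fun d' h3 h4 => absurd h4 (by omega)⟩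
    | succ k ih =>
      intro hk
      obtain ⟨e, he⟩ := ih (by omega)
      let d := r - (k + 1)
      have hd : r - k = d + 1 := by omega
      obtain ⟨a1, ha1⟩ := hH0 e (xneW b d)
      obtain ⟨a0, ha0⟩ := hH1 (xneW b d)
      let a : ℤ := a1 - 1
      let N : ℤ := a0 - a
      obtain ⟨e2, hlt, hge⟩ : ∃ e2 : Fin r → ℤ, (∀ l : Fin r, l.val < d → e2 l = max (e l) N) ∧
          ∀ l : Fin r, d ≤ l.val → e2 l = e l :=
        ⟨fun l => if l.val < d then max (e l) N else e l, fun l hl => if_pos hl,
          fun l hl => if_neg (not_lt.2 hl)⟩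
      refine ⟨e2, fun d' h3 h4 => ?_⟩
      rcases Nat.eq_or_lt_of_le h3 with h5 | h5
      · subst h5
        refine ⟨a, fun e' he1 he2 => ⟨?_, ?_⟩⟩
        · intro w hw
          obtain ⟨m, hm, hmW, h6⟩ := ha0 a0 le_rfl w hw
          refine ⟨m, hm, hmW, ?_⟩
          rw [hΛ] at h6 ⊢
          intro l
          by_cases hl : l.val < d
          · have h7 := he2 l hl
            rw [hlt l hl] at h7
            have h8 : N ≤ e' l := le_trans (le_max_right _ _) h7
            refine xne_mono D ?_ (h6 l)
            change a0 + 0 ≤ a + e' l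
            omega
          · have h9 : b.repr (w - m) l = 0 :=
              (xneW b d).sub_mem hw hmW l (not_lt.1 hl)
            rw [h9, mul_zero]
            exact D.O.zero_mem
        · intro m hm v hv hmv
          rw [hΛ] at hv
          let v' : V := b.equivFun.symm fun l => if l.val < d then 0 else b.repr v l
          have hv' : ∀ l, b.repr v' l = if l.val < d then 0 else b.repr v l := fun l => by
            have := congrFun (b.equivFun.apply_symm_apply
              (fun l => if l.val < d then 0 else b.repr v l)) l
            exact this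
          have h6 : m - v' ∈ xneW b d := by
            intro l hl
            have h7 := hmv l hl
            rw [map_sub, Finsupp.sub_apply] at h7 ⊢
            rw [hv', if_neg (not_lt.2 hl)]
            exact h7
          refine ha1 (a + 1) (by omega) m hm v' ?_ h6
          rw [hΛ]
          intro l
          rw [hv']
          by_cases hl : l.val < d
          · rw [if_pos hl, mul_zero]
            exact D.O.zero_mem
          · rw [if_neg hl]
            have h8 := he1 l (not_lt.1 hl)
            rw [hge l (not_lt.1 hl)] at h8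
            have h9 := hv l
            rw [h8] at h9
            exact h9
      · obtain ⟨a', ha'⟩ := he d' (by omega) h4
        refine ⟨a', fun e' he1 he2 => ha' e' (fun l hl => ?_) (fun l hl => ?_)⟩
        · have h6 := he1 l (by omega)
          rw [hge l (by omega)] at h6
          exact h6
        · rcases lt_or_ge l.val d with h6 | h6
          · have h7 := he2 l h6
            rw [hlt l h6] at h7
            exact le_trans (le_max_left _ _) h7
          · have h7 := he1 l h6
            rw [hge l h6] at h7
            exact le_of_eq h7.symm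
  obtain ⟨e, he⟩ := key r le_rfl
  refine ⟨Λ e, fun i => ?_⟩
  by_cases htop : f i = ⊤
  · exact Or.inl htop
  · refine Or.inr ⟨hf i, htop, ?_⟩
    obtain ⟨d, -, hd⟩ := hb i
    have hdr : d < r := by
      by_contra hcon
      apply htop
      rw [hd, eq_top_iff]
      intro v _ l hl
      exact absurd l.2 (by omega)
    obtain ⟨a, ha⟩ := he d (by omega) hdr
    refine ⟨a, ?_⟩
    rw [hd]
    exact ha e (fun _ _ => rfl) (fun _ _ => le_rfl)

end Pool.Agent.GQ
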