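import Pool.Agent.GQ.StB
import Pool.Agent.KQ.Core

/-!
# GQ, module ZX (helper92): pairs of chains of lattices and chains of destabilizing subspaces
-/

set_option autoImplicit false
set_option linter.unusedVariables false
set_option linter.unusedSectionVars false

noncomputable section

namespace Pool.Agent.GQ

open CategoryTheory Function Pool.Agent.KQ Pool.Agent.FGK

universe u

/-! ### generalities -/

/-- a simplicial set which is isomorphic to a contractible one is contractible -/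
theorem zx_iso {X Y : SSt.{u}} (f : X ⟶ Y) (g : Y ⟶ X) (h : f ≫ g = 𝟙 X) (h' : g ≫ f = 𝟙 Y)
    (hY : SSt.Contr Y) : SSt.Contr X := by
  have h3 : SSt.Strong f := all_StrHt.2.1 f g (fun Φ n => by rw [h]) (fun Φ n => by rw [h'])
  exact thm_Str23.1 f Y.toPt h3 hY

/-- the bisimplicial set `X_p × Y_q` -/
def zx_bp (X Y : SSt.{u}) : SOb SSt.{u} where
  obj p := (SSt.const (X.obj p)).prod Y
  map θ := ⟨fun _ x => (X.map θ x.1, x.2), fun _ _ => rfl⟩
  map_id n := SSt.hom_ext fun q x => Prod.ext (X.map_id n x.1) rfl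
  map_comp f g := SSt.hom_ext fun q x => Prod.ext (X.map_comp f g x.1) rfl

/-- bisimplicial subsets -/
def zx_sub (B : SOb SSt.{u}) (Q : ∀ p, SubS (B.obj p))
    (hQ : ∀ {m n : ℕ} (θ : Mo m n) (q : ℕ) (x : (B.obj n).obj q), x ∈ (Q n).s q →
      (B.map θ).app q x ∈ (Q m).s q) : SOb SSt.{u} where
  obj p := (Q p).S
  map {m n} θ := SubS.mapS (B.map θ) (Q n) (Q m) (hQ θ)
  map_id n := SSt.hom_ext fun q x => Subtype.ext (by
    change (B.map _).app q x.1 = x.1
    rw [B.map_id]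
    rfl)
  map_comp f g := SSt.hom_ext fun q x => Subtype.ext (by
    change (B.map _).app q x.1 = (B.map f).app q ((B.map g).app q x.1)
    rw [B.map_comp]
    rfl)

/-- a simplicial set as a bisimplicial set, constant in the second direction -/
def zx_cst (X : SSt.{u}) : SOb SSt.{u} where
  obj p := SSt.const (X.obj p)
  map θ := ⟨fun _ x => X.map θ x, fun _ _ => rfl⟩
  map_id n := SSt.hom_ext fun q x => X.map_id n x
  map_comp f g := SSt.hom_ext fun q x => X.map_comp f g x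

theorem zx_row {B : SOb SSt.{u}} {X : SSt.{u}} (f : B ⟶ zx_cst X)
    (h : ∀ (p : ℕ) (x : X.obj p), SSt.Contr (SSt.fib (J := X.obj p) (f.app p) x).S) :
    SSt.Strong (SSt.diagF.map f) :=
  all_StrRow f (fun p => all_StrFib.2 (J := X.obj p) (f.app p) (h p))

theorem zx_colm {B : SOb SSt.{u}} {Y : SSt.{u}} (f : B ⟶ SOb.const Y)
    (h : ∀ (q : ℕ) (y : Y.obj q), SSt.Contr (SSt.fib (J := Y.obj q) (SSt.colMap f q) y).S) :
    SSt.Strong (SSt.diagF.map f) :=
  all_StrCol f (fun q => all_StrFib.2 (J := Y.obj q) (SSt.colMap f q) (h q))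

/-! ### nerves of subsets of a lattice -/

section nerve

variable {P : Type} [SemilatticeSup P]

/-- the chains with values in `S` -/
def zx_nv (S : Set P) : SubS (nvS.{u} P) where
  s n := {x | ∀ i, x.down i ∈ S}
  map_mem θ x h i := h (θ i)

/-- a chain which is `a` where `α` is `false` and `b` where `α` is `true` -/
def zx_mix {n : ℕ} (α : Fin (n + 1) →o Bool) (a b : Fin (n + 1) →o P) (h : ∀ i, a i ≤ b i) :
    Fin (n + 1) →o P where
  toFun i := if α i = true then b i else a i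
  monotone' i j hij := by
    by_cases h1 : α i = true
    · have h2 : α j = true := by
        have h3 := α.monotone hij
        rw [h1] at h3
        exact top_le_iff.1 h3
      change (if α i = true then b i else a i) ≤ (if α j = true then b j else a j)
      rw [if_pos h1, if_pos h2]
      exact b.monotone hij
    · change (if α i = true then b i else a i) ≤ (if α j = true then b j else a j)
      rw [if_neg h1]
      by_cases h2 : α j = true
      · rw [if_pos h2]
        exact (a.monotone hij).trans (h j)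
      · rw [if_neg h2]
        exact a.monotone hij

/-- the join with `W` -/
def zx_j (S : Set P) (W : P) (hS : ∀ x ∈ S, x ⊔ W ∈ S) : (zx_nv.{u} S).S ⟶ (zx_nv.{u} S).S :=
  ⟨fun n x => ⟨⟨⟨fun i => x.1.down i ⊔ W, fun i j h => sup_le_sup_right (x.1.down.monotone h) W⟩⟩,
    fun i => hS _ (x.2 i)⟩, fun _ _ => rfl⟩

/-- the constant map -/
def zx_pt (S : Set P) (W : P) (hW : W ∈ S) : SSt.const PUnit.{u + 1} ⟶ (zx_nv.{u} S).S :=
  ⟨fun n _ => ⟨⟨⟨fun _ => W, fun _ _ _ => le_rfl⟩⟩, fun _ => hW⟩, fun _ _ => rfl⟩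

/-- the homotopy from the identity to the join -/
def zx_h1 (S : Set P) (W : P) (hS : ∀ x ∈ S, x ⊔ W ∈ S) :
    SSt.Htpy (𝟙 (zx_nv.{u} S).S) (zx_j.{u} S W hS) where
  h n α x := ⟨⟨zx_mix α x.1.down ((zx_j.{u} S W hS).app n x).1.down fun i => le_sup_left⟩,
    fun i => by
      change (if α i = true then ((zx_j.{u} S W hS).app n x).1.down i else x.1.down i) ∈ S
      by_cases h : α i = true
      · rw [if_pos h]
        exact ((zx_j.{u} S W hS).app n x).2 i
      · rw [if_neg h]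
        exact x.2 i⟩
  nat _ _ _ := rfl
  h0 n α x h := by
    apply Subtype.ext
    apply ULift.ext
    apply OrderHom.ext
    funext i
    change (if α i = true then ((zx_j.{u} S W hS).app n x).1.down i else x.1.down i) =
      x.1.down i
    rw [h i]
    rfl
  h1 n α x h := by
    apply Subtype.ext
    apply ULift.ext
    apply OrderHom.ext
    funext i
    change (if α i = true then ((zx_j.{u} S W hS).app n x).1.down i else x.1.down i) =
      ((zx_j.{u} S W hS).app n x).1.down i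
    rw [if_pos (h i)]

/-- the homotopy from the constant map to the join -/
def zx_h2 (S : Set P) (W : P) (hW : W ∈ S) (hS : ∀ x ∈ S, x ⊔ W ∈ S) :
    SSt.Htpy ((zx_nv.{u} S).S.toPt ≫ zx_pt.{u} S W hW) (zx_j.{u} S W hS) where
  h n α x := ⟨⟨zx_mix α ⟨fun _ => W, fun _ _ _ => le_rfl⟩
      ((zx_j.{u} S W hS).app n x).1.down fun i => le_sup_right⟩,
    fun i => by
      change (if α i = true then ((zx_j.{u} S W hS).app n x).1.down i else W) ∈ S
      by_cases h : α i = true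
      · rw [if_pos h]
        exact ((zx_j.{u} S W hS).app n x).2 i
      · rw [if_neg h]
        exact hW⟩
  nat _ _ _ := rfl
  h0 n α x h := by
    apply Subtype.ext
    apply ULift.ext
    apply OrderHom.ext
    funext i
    change (if α i = true then ((zx_j.{u} S W hS).app n x).1.down i else W) = W
    rw [h i]
    rfl
  h1 n α x h := by
    apply Subtype.ext
    apply ULift.ext
    apply OrderHom.ext
    funext i
    change (if α i = true then ((zx_j.{u} S W hS).app n x).1.down i else W) =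
      ((zx_j.{u} S W hS).app n x).1.down i
    rw [if_pos (h i)]

/-- the nerve of a subset with an element `W` such that the subset is stable under the join with
`W` is contractible -/
theorem zx_nvC (S : Set P) (W : P) (hW : W ∈ S) (hS : ∀ x ∈ S, x ⊔ W ∈ S) :
    SSt.Contr (zx_nv.{u} S).S := by
  refine all_StrHt.2.2 _ (zx_pt.{u} S W hW) (fun Φ n => ?_)
  have h1 := all_StrHt.1 _ _ ⟨zx_h1.{u} S W hS⟩ Φ n
  have h2 := all_StrHt.1 _ _ ⟨zx_h2.{u} S W hW hS⟩ Φ n
  exact h2.trans h1.symm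

end nerve

/-! ### the four bisimplicial sets -/

section main

variable {A F : Type} [CommRing A] [IsDomain A] [Field F] [Algebra A F] [IsFractionRing A F]
  (D : CD A F) {V : Type} [AddCommGroup V] [Module F V] [FiniteDimensional F V] [Module A V]
  [IsScalarTower A F V]

/-- the pairs of a chain of lattices and a chain of subspaces -/
def zx_Q (M : Submodule A V) (p : ℕ) :
    SubS ((zx_bp (D.X V) (nvS.{1} (Submodule F V))).obj p) where
  s q := {x | x.2.down 0 ≠ ⊥ ∧ ∀ i, x.2.down i = ⊤ ∨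
    x.2.down i ∈ D.Dst M (x.1.down.1 0) (x.1.down.1 (Fin.last p))}
  map_mem {m n} θ x h := ⟨fun h1 => h.1 (le_bot_iff.1 (h1 ▸
      x.2.down.monotone (Fin.zero_le (θ 0)))), fun i => h.2 (θ i)⟩

/-- the bisimplicial set with diagonal `zz` -/
def zx_B (M : Submodule A V) : SOb SSt.{1} :=
  zx_sub (zx_bp (D.X V) (nvS.{1} (Submodule F V))) (zx_Q D M) (by
    intro m n θ q x h
    refine ⟨h.1, fun i => (h.2 i).imp id fun h1 => ?_⟩
    exact D.Dst_mono M (x.1.down.1.monotone (Fin.zero_le (θ 0)))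
      (x.1.down.1.monotone (Fin.le_last (θ (Fin.last m)))) h1)

/-- the part without `V` -/
def zx_Q' (M : Submodule A V) (p : ℕ) : SubS ((zx_B D M).obj p) where
  s q := {x | x.1.2.down (Fin.last q) ≠ ⊤}
  map_mem {m n} θ x h h1 := h (top_le_iff.1 (h1 ▸
    x.1.2.down.monotone (Fin.le_last (θ (Fin.last m)))))

/-- the bisimplicial set with diagonal `zzP` -/
def zx_B' (M : Submodule A V) : SOb SSt.{1} :=
  zx_sub (zx_B D M) (zx_Q' D M) (by
    intro m n θ q x h
    exact h)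

/-- in `zzP` all subspaces are destabilizing -/
theorem zx_dst (M : Submodule A V) {p q : ℕ} (x : ((zx_B' D M).obj p).obj q) (i : Fin (q + 1)) :
    x.1.1.2.down i ∈ D.Dst M (x.1.1.1.down.1 0) (x.1.1.1.down.1 (Fin.last p)) := by
  rcases x.1.2.2 i with h | h
  · exfalso
    apply x.2
    have h1 := x.1.1.2.down.monotone (Fin.le_last i)
    rw [h] at h1
    exact top_le_iff.1 h1
  · exact h

/-- first projection -/
def zx_f1 (M : Submodule A V) : zx_B D M ⟶ zx_cst (D.X V) :=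
  ⟨fun p => ⟨fun q x => x.1.1, fun _ _ => rfl⟩, fun _ => rfl⟩

/-- second projection -/
def zx_f2 (M : Submodule A V) : zx_B D M ⟶ SOb.const (nzS F V).S :=
  ⟨fun p => ⟨fun q x => ⟨x.1.2, x.2.1⟩, fun _ _ => rfl⟩, fun _ => rfl⟩

/-- first projection -/
def zx_f3 (M : Submodule A V) : zx_B' D M ⟶ zx_cst (D.unS M).S :=
  ⟨fun p => ⟨fun q x => ⟨x.1.1.1, ⟨_, zx_dst D M x 0⟩⟩, fun _ _ => rfl⟩, fun _ => rfl⟩

/-- second projection -/
def zx_f4 (M : Submodule A V) : zx_B' D M ⟶ SOb.const (subIn (prS F V) (nzS F V)).S :=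
  ⟨fun p => ⟨fun q x => ⟨⟨x.1.1.2, x.1.2.1⟩, x.2⟩, fun _ _ => rfl⟩, fun _ => rfl⟩

/-- the subspaces which are `V` or destabilizing -/
def zx_S (M : Submodule A V) {p : ℕ} (σ : (D.X V).obj p) : Set (Submodule F V) :=
  {W | W = ⊤ ∨ W ∈ D.Dst M (σ.down.1 0) (σ.down.1 (Fin.last p))}

theorem zx_S_bot [Nontrivial V] (M : Submodule A V) {p : ℕ} (σ : (D.X V).obj p)
    {W : Submodule F V} (hW : W ∈ zx_S D M σ) : W ≠ ⊥ := by
  rcases hW with h | h
  · rw [h]
    exact top_ne_bot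
  · exact h.1

theorem zx_c1 [Nontrivial V] (M : Submodule A V) (p : ℕ) (σ : (D.X V).obj p) :
    SSt.Contr (SSt.fib (J := (D.X V).obj p) ((zx_f1 D M).app p) σ).S := by
  have hC : SSt.Contr (zx_nv.{1} (zx_S D M σ)).S := by
    refine zx_nvC.{1} _ ⊤ (Or.inl rfl) (fun x _ => ?_)
    rw [sup_top_eq]
    exact Or.inl rfl
  refine zx_iso (Y := (zx_nv.{1} (zx_S D M σ)).S)
    ⟨fun q x => ⟨x.1.1.2, fun i => ?_⟩, fun _ _ => rfl⟩
    ⟨fun q y => ⟨⟨(σ, y.1), zx_S_bot D M σ (y.2 0), y.2⟩, rfl⟩, fun _ _ => rfl⟩ ?_ ?_ hC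
  · obtain ⟨⟨⟨σ', y⟩, h⟩, h'⟩ := x
    change σ' = σ at h'
    subst h'
    exact h.2 i
  · apply SSt.hom_ext
    intro q x
    exact Subtype.ext (Subtype.ext (Prod.ext (show σ = x.1.1.1 from x.2.symm) rfl))
  · rfl

theorem zx_c3 (hT : St_Tot) [Nontrivial V] (M : Submodule A V) (hM : IsLatA F M) (p : ℕ)
    (σ : (D.unS M).S.obj p) :
    SSt.Contr (SSt.fib (J := (D.unS M).S.obj p) ((zx_f3 D M).app p) σ).S := by
  obtain ⟨σ, hσ⟩ := σ
  have hle : σ.down.1 0 ≤ σ.down.1 (Fin.last p) := σ.down.1.monotone (Fin.zero_le _)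
  have hC : SSt.Contr (zx_nv.{1} (D.Dst M (σ.down.1 0) (σ.down.1 (Fin.last p)))).S := by
    obtain ⟨W, hW⟩ := hσ
    refine zx_nvC.{1} _ W hW (fun x hx => ?_)
    rcases hT A F V D M _ _ hM hle x hx W hW with h | h
    · rw [sup_eq_right.2 h]
      exact hW
    · rw [sup_eq_left.2 h]
      exact hx
  refine zx_iso (Y := (zx_nv.{1} (D.Dst M (σ.down.1 0) (σ.down.1 (Fin.last p)))).S)
    ⟨fun q x => ⟨x.1.1.1.2, fun i => ?_⟩, fun _ _ => rfl⟩
    ⟨fun q y => ⟨⟨⟨(σ, y.1), (y.2 0).1, fun i => Or.inr (y.2 i)⟩, (y.2 (Fin.last q)).2.1⟩,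
      rfl⟩, fun _ _ => rfl⟩ ?_ ?_ hC
  · have h1 := zx_dst D M x.1 i
    have h2 : x.1.1.1.1 = σ := congrArg Subtype.val x.2
    rw [h2] at h1
    exact h1
  · apply SSt.hom_ext
    intro q x
    exact Subtype.ext (Subtype.ext (Subtype.ext
      (Prod.ext (show σ = x.1.1.1.1 from (congrArg Subtype.val x.2).symm) rfl)))
  · rfl

theorem zx_nb {q : ℕ} (y : (nzS F V).S.obj q) (i : Fin (q + 1)) : y.1.down i ≠ ⊥ := by
  intro h
  have h1 := y.1.down.monotone (Fin.zero_le i)
  rw [h] at h1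
  exact y.2 (le_bot_iff.1 h1)

theorem zx_c2 (hX : St_XCon) (M : Submodule A V) (hM : IsLatA F M) (q : ℕ)
    (y : (nzS F V).S.obj q) :
    SSt.Contr (SSt.fib (J := (nzS F V).S.obj q) (SSt.colMap (zx_f2 D M) q) y).S := by
  have hC := hX A F V D M hM q y.1.down (zx_nb y)
  refine zx_iso (Y := (D.XF M y.1.down).S)
    ⟨fun p x => ⟨x.1.1.1, fun i => ?_⟩, fun _ _ => rfl⟩
    ⟨fun p s => ⟨⟨(s.1, y.1), y.2, s.2⟩, rfl⟩, fun _ _ => rfl⟩ ?_ ?_ hC
  · have h1 := x.1.2.2 i
    have h2 : x.1.1.2 = y.1 := congrArg Subtype.val x.2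
    rw [h2] at h1
    exact h1
  · apply SSt.hom_ext
    intro p x
    exact Subtype.ext (Subtype.ext (Prod.ext rfl
      (show y.1 = x.1.1.2 from (congrArg Subtype.val x.2).symm)))
  · rfl

theorem zx_c4 (hX : St_XCon) (M : Submodule A V) (hM : IsLatA F M) (q : ℕ)
    (y : (subIn (prS F V) (nzS F V)).S.obj q) :
    SSt.Contr (SSt.fib (J := (subIn (prS F V) (nzS F V)).S.obj q)
      (SSt.colMap (zx_f4 D M) q) y).S := by
  have hC := hX A F V D M hM q y.1.1.down (zx_nb y.1)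
  refine zx_iso (Y := (D.XF M y.1.1.down).S)
    ⟨fun p x => ⟨x.1.1.1.1, fun i => ?_⟩, fun _ _ => rfl⟩
    ⟨fun p s => ⟨⟨⟨(s.1, y.1.1), y.1.2, s.2⟩, y.2⟩, rfl⟩, fun _ _ => rfl⟩ ?_ ?_ hC
  · have h1 := x.1.1.2.2 i
    have h2 : x.1.1.1.2 = y.1.1 := congrArg (fun z => z.1.1) x.2
    rw [h2] at h1
    exact h1
  · apply SSt.hom_ext
    intro p x
    exact Subtype.ext (Subtype.ext (Subtype.ext (Prod.ext rfl
      (show y.1.1 = x.1.1.1.2 from (congrArg (fun z => z.1.1) x.2).symm))))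
  · rfl

end main

theorem thm_ZX (hTot : St_Tot) (hXCon : St_XCon) : St_ZX := by
  intro A F V _ _ _ _ _ _ _ _ _ _ _ D M hM
  refine ⟨?_, ?_, ⟨fun n x hx => ⟨_, zx_dst D M (p := n) (q := n) ⟨x, hx⟩ 0⟩, ?_⟩,
    ⟨fun n x hx => hx, ?_⟩⟩
  · exact zx_row (zx_f1 D M) (zx_c1 D M)
  · exact zx_colm (zx_f2 D M) (zx_c2 D hXCon M hM)
  · exact zx_row (zx_f3 D M) (zx_c3 D hTot M hM)
  · exact zx_colm (zx_f4 D M) (zx_c4 D hXCon M hM)

end Pool.Agent.GQ

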