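import Pool.Agent.GQ.hOStr

/-!
# GQ, hOEx: exact sequence of a triple for homotopy orbits
-/

set_option autoImplicit false
set_option linter.unusedVariables false

noncomputable section

namespace Pool.Agent.GQ

open CategoryTheory Function Pool.Agent.KQ Pool.Agent.FGK

universe u

section

variable {G : Type} [Group G] {Y : SSt.{u}} (a : GAct G Y) (A B : SubS Y) (hA : a.Inv A)
  (hB : a.Inv B)

include hA in
theorem hoex_all (n : ℕ) (x : (hO a).obj n) (i : Fin (n + 1)) (h : x.1.2 i ∈ A.s n) :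
    x ∈ (hOs a A).s n := fun j => by
  rw [x.2.2 j i]
  exact hA _ _ _ h

include hA hB in
theorem hoex_un (n : ℕ) (x : (hO a).obj n) : x ∈ (hOs a (subUn A B)).s n ↔
    x ∈ (hOs a A).s n ∨ x ∈ (hOs a B).s n := by
  constructor
  · intro h
    rcases h 0 with h0 | h0
    · exact Or.inl (hoex_all a A hA n x 0 h0)
    · exact Or.inr (hoex_all a B hB n x 0 h0)
  · rintro (h | h)
    · exact fun i => Or.inl (h i)
    · exact fun i => Or.inr (h i)

theorem hoex_mem (n : ℕ) (x : (hO (hostr_res a B hB)).obj n)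
    (hx : x ∈ (hOs (hostr_res a B hB) (subIn A B)).s n) :
    (hostr_i a B hB).app n x ∈ (subIn (hOs a A) (hOs a B)).s n := hx

/-- the isomorphism of the pairs -/
def hoex_e : ZR (hO (hostr_res a B hB)) (hOs (hostr_res a B hB) (subIn A B)) ⟶
    ZR (hOs a B).S (subIn (hOs a A) (hOs a B)) :=
  zr_M _ _ (hostr_i a B hB) (hoex_mem a A B hB)

theorem hoex_e_bij (n : ℕ) : Bijective ((hoex_e a A B hB).app n) := by
  refine zr_5b _ _ _ _ (fun n y _ => ⟨(hostr_j a B hB).app n y, rfl, fun x hx => ?_⟩)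
    (fun n x hx => hx) n
  rw [← hx]
  rfl

end

/-- **hOEx** -/
theorem thm_hOEx : St_hOEx.{u} := by
  intro G _ Y a A B hA hB
  refine ⟨hostr_res a B hB, fun _ _ _ => rfl,
    hoex_e a A B hB ≫ zr_M (subIn (hOs a A) (hOs a B)) (hOs a A) (hOs a B).ι (fun n x hx => hx),
    zr_M (hOs a A) (hOs a (subUn A B)) (𝟙 (hO a)) (fun n x hx i => Or.inl (hx i)), ?_, ?_, ?_⟩
  · intro n
    exact (zr_inj ((hOs a A).s n) ((hOs a B).s n) ((subIn (hOs a A) (hOs a B)).s n)
      (fun x => Iff.rfl) (fun x hx => hx)).comp (hoex_e_bij a A B hB n).1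
  · intro n y
    have h1 := zr_ex ((hOs a A).s n) ((hOs a B).s n) ((hOs a (subUn A B)).s n)
      ((subIn (hOs a A) (hOs a B)).s n) (fun x => Iff.rfl) (fun x => hoex_un a A B hA hB n x)
      (fun x hx => hx) (fun x => x) (fun x => rfl) (fun x hx i => Or.inl (hx i)) y
    refine h1.trans ?_
    constructor
    · rintro ⟨x, hx⟩
      obtain ⟨w, rfl⟩ := (hoex_e_bij a A B hB n).2 x
      exact ⟨w, hx⟩
    · rintro ⟨w, hw⟩
      exact ⟨(hoex_e a A B hB).app n w, hw⟩
  · intro n
    exact zr_surj ((hOs a A).s n) ((hOs a (subUn A B)).s n) (fun x => x) (fun x => rfl)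
      (fun x hx i => Or.inl (hx i))

end Pool.Agent.GQ
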