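import Pool.Agent.GQ.StA
import Pool.Agent.FGK.ZR
import Pool.Agent.FGK.Sl

/-!
# GQ: homotopy orbits and a factor of the group which acts trivially
-/

set_option autoImplicit false

noncomputable section

namespace Pool.Agent.GQ

open CategoryTheory Function Pool.Agent.KQ Pool.Agent.FGK

universe u

/-- the inclusion of the homotopy orbits -/
def hofst_i {G C : Type} [Group G] [Group C] {Y : SSt.{u}} (a : GAct G Y) :
    hO a ⟶ hO (a.fst (C := C)) :=
  ⟨fun n x => ⟨(fun i j => (x.1.1 i j, 1), x.1.2), fun i j l => by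
      change (x.1.1 i j, (1 : C)) * (x.1.1 j l, 1) = (x.1.1 i l, 1)
      rw [Prod.mk_mul_mk, x.2.1, one_mul],
    fun i j => x.2.2 i j⟩, fun θ x => Subtype.ext (Prod.ext rfl rfl)⟩

/-- the projection of the homotopy orbits -/
def hofst_p {G C : Type} [Group G] [Group C] {Y : SSt.{u}} (a : GAct G Y) :
    hO (a.fst (C := C)) ⟶ hO a :=
  ⟨fun n x => ⟨(fun i j => (x.1.1 i j).1, x.1.2), fun i j l => by
      change (x.1.1 i j).1 * (x.1.1 j l).1 = (x.1.1 i l).1
      rw [← x.2.1 i j l, Prod.fst_mul],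
    fun i j => x.2.2 i j⟩, fun θ x => Subtype.ext (Prod.ext rfl rfl)⟩

theorem thm_hOFst : St_hOFst.{u} := by
  intro G C _ _ Y a A j h
  let α : ZR (hO a) (hOs a A) ⟶ ZR (hO (a.fst (C := C))) (hOs (a.fst (C := C)) A) :=
    zr_M (hOs a A) (hOs (a.fst (C := C)) A) (hofst_i a) fun n x hx => hx
  let β : ZR (hO (a.fst (C := C))) (hOs (a.fst (C := C)) A) ⟶ ZR (hO a) (hOs a A) :=
    zr_M (hOs (a.fst (C := C)) A) (hOs a A) (hofst_p a) fun n x hx => hx
  have hαβ : α ≫ β = 𝟙 _ := by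
    refine SAb.hom_ext fun n x => ?_
    have hk : ∀ x ∈ (hOs a A).s n, x ∈ (hOs a A).s n := fun x hx => hx
    refine (zr_q_comp ((hofst_i (C := C) a).app n) ((hofst_p (C := C) a).app n)
      ((hOs a A).s n) ((hOs (a.fst (C := C)) A).s n) ((hOs a A).s n) (fun x hx => hx)
      (fun x hx => hx) (fun x => x) hk (fun x => rfl) x).trans ?_
    exact zr_q_id (fun x => x) ((hOs a A).s n) hk (fun _ => rfl) x
  refine thm_Sl.2.1 (SGp.PiMap (SAb.gp.map β) j) (fun y => ⟨SGp.PiMap (SAb.gp.map α) j y, ?_⟩) h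
  rw [← SGp.PiMap_comp, ← Functor.map_comp, hαβ]
  exact SGp.PiMap_id _ _ _

end Pool.Agent.GQ
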