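import Pool.Agent.GQ.StA
import Pool.Agent.FGK.Orb

/-!
# GQ, hOOrb: homotopy orbits of free actions
-/

set_option autoImplicit false
set_option linter.unusedVariables false
set_option linter.unusedSectionVars false

noncomputable section

namespace Pool.Agent.GQ

open CategoryTheory Function Pool.Agent.KQ Pool.Agent.FGK

universe u

section

variable {G : Type} [Group G] {Y Z : SSt.{u}} (a : GAct G Y) (A : SubS Y)

/-- forget the cocycle -/
def hoorb_t (n : ℕ) (x : (hO a).obj n) : ((orb_TT G a.act).obj n).obj n :=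
  ⟨x.1.2, fun i j => ⟨x.1.1 i j, (x.2.2 i j).symm⟩⟩

theorem hoorb_tA (n : ℕ) (x : (hO a).obj n) (hx : x ∈ (hOs a A).s n) :
    hoorb_t a n x ∈ (orb_TA G A a.act n).s n := hx

/-- the homomorphism to the diagonal of the bisimplicial abelian group of `FGK.Orb` -/
def hoorb_m : ZR (hO a) (hOs a A) ⟶ SAb.diag (orb_R G A a.act) :=
  ⟨fun n => zr_q (hoorb_t a n) ((hOs a A).s n) ((orb_TA G A a.act n).s n) (hoorb_tA a A n),
    fun {m n} θ x => by
    have hk : ∀ y ∈ (hOs a A).s n, hoorb_t a m ((hO a).map θ y) ∈ (orb_TA G A a.act m).s m :=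
      fun y hy => hoorb_tA a A m _ ((hOs a A).map_mem θ y hy)
    refine (congrArg (zr_q (hoorb_t a m) ((hOs a A).s m) ((orb_TA G A a.act m).s m)
      (hoorb_tA a A m)) (zr_th (hOs a A) θ x)).trans ?_
    refine (zr_q_comp ((hO a).map θ) (hoorb_t a m) ((hOs a A).s n) ((hOs a A).s m)
      ((orb_TA G A a.act m).s m) ((hOs a A).map_mem θ) (hoorb_tA a A m)
      (fun y => hoorb_t a m ((hO a).map θ y)) hk (fun _ => rfl) x).trans ?_
    change _ = ((orb_R G A a.act).obj m).map θ (((orb_R G A a.act).map θ).app n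
      (zr_q (hoorb_t a n) ((hOs a A).s n) ((orb_TA G A a.act n).s n) (hoorb_tA a A n) x))
    refine Eq.trans ?_ (zr_th (orb_TA G A a.act m) θ _).symm
    have h2 : ∀ y ∈ (hOs a A).s n, ((orb_TT G a.act).map θ).app n (hoorb_t a n y) ∈
        (orb_TA G A a.act m).s n := fun y hy i => hy (θ i)
    have e := zr_q_comp (hoorb_t a n) (((orb_TT G a.act).map θ).app n) ((hOs a A).s n)
      ((orb_TA G A a.act n).s n) ((orb_TA G A a.act m).s n) (hoorb_tA a A n)
      (fun y hy i => hy (θ i)) (fun y => ((orb_TT G a.act).map θ).app n (hoorb_t a n y)) h2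
      (fun _ => rfl) x
    refine Eq.trans ?_ (congrArg (zr_q (((orb_TT G a.act).obj m).map θ)
      ((orb_TA G A a.act m).s n) ((orb_TA G A a.act m).s m)
      ((orb_TA G A a.act m).map_mem θ)) e).symm
    exact (zr_q_comp (fun y => ((orb_TT G a.act).map θ).app n (hoorb_t a n y))
      (((orb_TT G a.act).obj m).map θ) ((hOs a A).s n) ((orb_TA G A a.act m).s n)
      ((orb_TA G A a.act m).s m) h2 ((orb_TA G A a.act m).map_mem θ)
      (fun y => hoorb_t a m ((hO a).map θ y)) hk (fun _ => rfl) x).symm⟩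

variable (B : SubS Z) (f : Y ⟶ Z) (hf : ∀ g, a.act g ≫ f = f)
  (hA : ∀ n y, f.app n y ∈ B.s n ↔ y ∈ A.s n)
  (hfr : ∀ n y g, y ∉ A.s n → (a.act g).app n y = y → g = 1)

include hf hA hfr in
theorem hoorb_bij (n : ℕ) : Bijective ((hoorb_m a A).app n) := by
  have h1 := a.one
  have hm := a.mul
  refine zr_qb (hoorb_t a n) ((hOs a A).s n) ((orb_TA G A a.act n).s n) (hoorb_tA a A n)
    (fun y hy => ?_) (fun x hx => hx)
  have hyA : ∀ i, y.1 i ∉ A.s n := by
    intro i hi
    refine hy fun j => ?_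
    obtain ⟨g, hg⟩ := y.2 j i
    rw [← hg]
    exact orb_mem G A B f a.act hf hA n _ _ hi
  choose c hc using y.2
  have hu : ∀ i j g, (a.act g).app n (y.1 j) = y.1 i → g = c i j := by
    intro i j g hg
    have e3 : (a.act ((c i j)⁻¹ * g)).app n (y.1 j) = y.1 j := by
      rw [orb_mul G a.act hm, hg]
      exact orb_inv G a.act h1 hm n _ _ _ (hc i j)
    exact (inv_mul_eq_one.1 (hfr n _ _ (hyA j) e3)).symm
  refine ⟨⟨(c, y.1), fun i j l => ?_, fun i j => (hc i j).symm⟩, Subtype.ext rfl, ?_⟩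
  · refine hu i l _ ?_
    rw [orb_mul G a.act hm, hc, hc]
  · rintro ⟨⟨c', y'⟩, h3, h4⟩ hx
    have e : y' = y.1 := congrArg Subtype.val hx
    subst e
    refine Subtype.ext (Prod.ext (funext fun i => funext fun j => ?_) rfl)
    exact hu i j _ (h4 i j).symm

end

theorem thm_hOOrb (hR : St_AbReal.{u}) (hF : St_fsStrong.{u}) (hS : KQ.St_StrHt.{u}) :
    St_hOOrb.{u} := by
  intro G _ Y Z a A B f hf hA hs ht hfr
  refine ⟨hoorb_m a A ≫ orb_ex G A a.act ≫ SAb.diagF.map (orb_q G A B f a.act hf hA) ≫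
    orb_KZ B, ?_⟩
  refine orb_weq_comp _ _ (zr_bij (SAb.gp.map (hoorb_m a A)) (hoorb_bij a A B f hf hA hfr)) ?_
  refine orb_weq_comp _ _ (zr_bij (SAb.gp.map (orb_ex G A a.act)) fun n => bijective_id) ?_
  refine orb_weq_comp _ _ (hR.2.1 _ fun n =>
    orb_col_weq G A B f a.act a.one a.mul hf hA hs ht hS hF n) ?_
  exact zr_bij (SAb.gp.map (orb_KZ B)) fun n => bijective_id

end Pool.Agent.GQ
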