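import Pool.Agent.GQ.StA
import Pool.Agent.FGK.ZR
import Pool.Agent.FGK.fsStrong
import Pool.Agent.KQ.Core

/-!
# GQ, hOStr: homotopy orbits of strong equivariant maps
-/

set_option autoImplicit false
set_option linter.unusedVariables false

noncomputable section

namespace Pool.Agent.GQ

open CategoryTheory Function Pool.Agent.KQ Pool.Agent.FGK

universe u

/-! ### restriction of an action to an invariant simplicial subset -/

section

variable {G : Type} [Group G] {Y : SSt.{u}} (a : GAct G Y)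

/-- the restricted action -/
def hostr_res (A : SubS Y) (hA : a.Inv A) : GAct G A.S where
  act g := SubS.mapS (a.act g) A A (hA g)
  one := SSt.hom_ext fun n x => Subtype.ext (by
    change (a.act 1).app n x.1 = x.1
    rw [a.one]
    rfl)
  mul g h := SSt.hom_ext fun n x => Subtype.ext (by
    change (a.act (g * h)).app n x.1 = (a.act g).app n ((a.act h).app n x.1)
    rw [a.mul]
    rfl)

/-- the homotopy orbits of the restricted action -/
def hostr_i (A : SubS Y) (hA : a.Inv A) : hO (hostr_res a A hA) ⟶ (hOs a A).S :=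
  ⟨fun n x => ⟨⟨(x.1.1, fun i => (x.1.2 i).1), x.2.1, fun i j => congrArg Subtype.val (x.2.2 i j)⟩,
    fun i => (x.1.2 i).2⟩, fun _ _ => rfl⟩

/-- its inverse -/
def hostr_j (A : SubS Y) (hA : a.Inv A) : (hOs a A).S ⟶ hO (hostr_res a A hA) :=
  ⟨fun n x => ⟨(x.1.1.1, fun i => ⟨x.1.1.2 i, x.2 i⟩), x.1.2.1, fun i j =>
    Subtype.ext (x.1.2.2 i j)⟩, fun _ _ => rfl⟩

theorem hostr_ij (A : SubS Y) (hA : a.Inv A) : hostr_i a A hA ≫ hostr_j a A hA = 𝟙 _ := rfl

theorem hostr_ji (A : SubS Y) (hA : a.Inv A) : hostr_j a A hA ≫ hostr_i a A hA = 𝟙 _ := rfl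

end

/-- an isomorphism of simplicial sets is strong -/
theorem hostr_iso {X Y : SSt.{u}} (f : X ⟶ Y) (g : Y ⟶ X)
    (h : f ≫ g = 𝟙 X) (h' : g ≫ f = 𝟙 Y) : SSt.Strong f :=
  all_StrHt.2.1 f g (fun Φ n => by rw [h]) (fun Φ n => by rw [h'])

/-! ### the bisimplicial set -/

section

variable {G : Type} [Group G] {Y : SSt.{u}} (a : GAct G Y)

/-- the rows -/
def hostr_R (l : ℕ) : SSt.{u} where
  obj n := {x : (Fin (l + 1) → Fin (l + 1) → G) × (Fin (l + 1) → Y.obj n) //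
    (∀ i j k, x.1 i j * x.1 j k = x.1 i k) ∧ ∀ i j, x.2 i = (a.act (x.1 i j)).app n (x.2 j)}
  map θ x := ⟨(x.1.1, fun i => Y.map θ (x.1.2 i)), x.2.1, fun i j => by
    change Y.map θ _ = (a.act _).app _ (Y.map θ _)
    rw [x.2.2 i j, (a.act _).nat]⟩
  map_id n x := Subtype.ext (Prod.ext rfl (funext fun i => Y.map_id n _))
  map_comp f g x := Subtype.ext (Prod.ext rfl (funext fun i => Y.map_comp f g _))

/-- the bisimplicial set with diagonal `hO a` -/
def hostr_T : SOb SSt.{u} where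
  obj l := hostr_R a l
  map θ := ⟨fun n x => ⟨(fun i j => x.1.1 (θ i) (θ j), fun i => x.1.2 (θ i)),
    fun i j k => x.2.1 _ _ _, fun i j => x.2.2 _ _⟩, fun _ _ => rfl⟩
  map_id _ := rfl
  map_comp _ _ := rfl

theorem hostr_diag : SSt.diag (hostr_T a) = hO a := rfl

/-- the cocycles -/
abbrev hostr_C (G : Type) [Group G] (l : ℕ) : Type u :=
  ULift.{u} {c : Fin (l + 1) → Fin (l + 1) → G // ∀ i j k, c i j * c j k = c i k}

/-- a row as a product -/
def hostr_p (l : ℕ) : hostr_R a l ⟶ (SSt.const (hostr_C G l)).prod Y :=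
  ⟨fun n x => (⟨⟨x.1.1, x.2.1⟩⟩, x.1.2 0), fun _ _ => rfl⟩

/-- the product as a row -/
def hostr_q (l : ℕ) : (SSt.const (hostr_C G l)).prod Y ⟶ hostr_R a l :=
  ⟨fun n x => ⟨(x.1.down.1, fun i => (a.act (x.1.down.1 i 0)).app n x.2), x.1.down.2, fun i j => by
    change (a.act _).app n x.2 = (a.act _).app n ((a.act _).app n x.2)
    rw [← x.1.down.2 i j 0, a.mul]
    rfl⟩, fun {m n} θ x => Subtype.ext (Prod.ext rfl (funext fun i =>
      (a.act (x.1.down.1 i 0)).nat θ x.2))⟩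

theorem hostr_c0 {l : ℕ} (c : Fin (l + 1) → Fin (l + 1) → G)
    (h : ∀ i j k, c i j * c j k = c i k) (i : Fin (l + 1)) : c i i = 1 :=
  mul_eq_left.1 (h i i i)

theorem hostr_pq (l : ℕ) : hostr_p a l ≫ hostr_q a l = 𝟙 _ :=
  SSt.hom_ext fun n x => Subtype.ext (Prod.ext rfl (funext fun i => (x.2.2 i 0).symm))

theorem hostr_qp (l : ℕ) : hostr_q a l ≫ hostr_p a l = 𝟙 _ :=
  SSt.hom_ext fun n x => Prod.ext rfl (by
    change (a.act (x.1.down.1 0 0)).app n x.2 = x.2
    rw [hostr_c0 _ x.1.down.2 0, a.one]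
    rfl)

end

section

variable {G : Type} [Group G] {Y Y' : SSt.{u}} (a : GAct G Y) (a' : GAct G Y') (f : Y ⟶ Y')
  (h : a.Eqv a' f)

/-- the map of bisimplicial sets -/
def hostr_f : hostr_T a ⟶ hostr_T a' where
  app l := ⟨fun n x => ⟨(x.1.1, fun i => f.app n (x.1.2 i)), x.2.1, fun i j => by
    change f.app n _ = (a'.act _).app n (f.app n _)
    rw [x.2.2 i j]
    exact congrArg (fun e : Y ⟶ Y' => e.app n (x.1.2 j)) (h (x.1.1 i j))⟩,
    fun θ x => Subtype.ext (Prod.ext rfl (funext fun i => f.nat θ _))⟩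
  nat _ := rfl

theorem hostr_row (hf : SSt.Strong f) (l : ℕ) : SSt.Strong ((hostr_f a a' f h).app l) := by
  have e : (hostr_f a a' f h).app l ≫ hostr_p a' l =
      hostr_p a l ≫ SSt.prodMap (𝟙 (SSt.const (hostr_C G l))) f := rfl
  have h1 : SSt.Strong (hostr_p a' l) := hostr_iso _ _ (hostr_pq a' l) (hostr_qp a' l)
  have h2 : SSt.Strong (hostr_p a l) := hostr_iso _ _ (hostr_pq a l) (hostr_qp a l)
  have h3 : SSt.Strong (SSt.prodMap (𝟙 (SSt.const (hostr_C G l))) f) :=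
    all_StrProd _ _ (hostr_iso _ (𝟙 _) rfl rfl) hf
  refine thm_Str23.2.2.1 _ _ h1 ?_
  rw [e]
  exact thm_Str23.1 _ _ h2 h3

theorem hostr_1 (hf : SSt.Strong f) : SSt.Strong (hOmap a a' f h) := by
  have e : hOmap a a' f h = SSt.diagF.map (hostr_f a a' f h) := rfl
  rw [e]
  exact all_StrRow _ (hostr_row a a' f h hf)

end

/-- **hOStr** -/
theorem thm_hOStr : St_hOStr.{u} := by
  refine ⟨fun a a' f h hf => hostr_1 a a' f h hf, fun {G} _ {Y Y'} a a' f h A A' hA hA' hf hs hs' => ?_⟩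
  have hm : ∀ n x, x ∈ (hOs a A).s n → (hOmap a a' f h).app n x ∈ (hOs a' A').s n :=
    fun n x hx i => hf n _ (hx i)
  refine ⟨zr_M (hOs a A) (hOs a' A') (hOmap a a' f h) hm, zr_5a _ _ _ _ ?_ ?_⟩
  · exact thm_fsStrong all_RealW _ _ (hostr_1 a a' f h hs)
  · refine thm_fsStrong all_RealW _ _ ?_
    have he : (hostr_res a A hA).Eqv (hostr_res a' A' hA') (SubS.mapS f A A' hf) := fun g =>
      SSt.hom_ext fun n x => Subtype.ext (congrArg (fun e : Y ⟶ Y' => e.app n x.1) (h g))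
    have h1 := hostr_1 _ _ _ he hs'
    have e : SubS.mapS (hOmap a a' f h) (hOs a A) (hOs a' A') hm =
        hostr_j a A hA ≫ hOmap _ _ _ he ≫ hostr_i a' A' hA' := rfl
    rw [e]
    exact thm_Str23.1 _ _ (hostr_iso _ _ (hostr_ji a A hA) (hostr_ij a A hA))
      (thm_Str23.1 _ _ h1 (hostr_iso _ _ (hostr_ij a' A' hA') (hostr_ji a' A' hA')))

end Pool.Agent.GQ
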