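import Pool.Agent.GQ.StA
import Pool.Agent.FGK.Orb

/-!
# GQ, hOTriv: homotopy orbits of a `c`-trivial pair
-/

set_option autoImplicit false
set_option linter.unusedVariables false

namespace Pool.Agent.GQ

open CategoryTheory Function Pool.Agent.KQ Pool.Agent.FGK

universe u

section

variable {G : Type} [Group G] {Y : SSt.{u}} (a : GAct G Y) (A : SubS Y)

/-- the tuples of length `l + 1`, with the simplicial structure of `Y` -/
def hotriv_T (l : ℕ) : SSt.{u} where
  obj n := {x : (Fin (l + 1) → Fin (l + 1) → G) × (Fin (l + 1) → Y.obj n) //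
    (∀ i j k, x.1 i j * x.1 j k = x.1 i k) ∧ ∀ i j, x.2 i = (a.act (x.1 i j)).app n (x.2 j)}
  map θ x := ⟨(x.1.1, fun i => Y.map θ (x.1.2 i)), x.2.1, fun i j => by
    change Y.map θ _ = (a.act _).app _ (Y.map θ _)
    rw [x.2.2 i j, (a.act _).nat]⟩
  map_id n x := Subtype.ext (Prod.ext rfl (funext fun i => Y.map_id n _))
  map_comp f g x := Subtype.ext (Prod.ext rfl (funext fun i => Y.map_comp f g _))

/-- the bisimplicial set of the tuples -/
def hotriv_TT : SOb SSt.{u} where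
  obj := hotriv_T a
  map θ := ⟨fun n x => ⟨(fun i j => x.1.1 (θ i) (θ j), fun i => x.1.2 (θ i)),
    fun i j k => x.2.1 _ _ _, fun i j => x.2.2 _ _⟩, fun _ _ => rfl⟩
  map_id _ := rfl
  map_comp _ _ := rfl

/-- the tuples of elements of `A` -/
def hotriv_TA (l : ℕ) : SubS ((hotriv_TT a).obj l) :=
  ⟨fun n => {y | ∀ i, y.1.2 i ∈ A.s n}, fun θ y hy i => A.map_mem θ _ (hy i)⟩

/-- the bisimplicial abelian group -/
noncomputable def hotriv_R : SOb SAb.{u} where
  obj l := ZR ((hotriv_TT a).obj l) (hotriv_TA a A l)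
  map {l m} θ := zr_M (hotriv_TA a A m) (hotriv_TA a A l) ((hotriv_TT a).map θ)
    fun n y hy i => hy (θ i)
  map_id l := SAb.hom_ext fun n x => zr_q_id (fun y => y) _ (fun x hx => hx) (fun _ => rfl) x
  map_comp {l m n} θ η := SAb.hom_ext fun p x =>
    (zr_q_comp (((hotriv_TT a).map η).app p) (((hotriv_TT a).map θ).app p)
      ((hotriv_TA a A n).s p) ((hotriv_TA a A m).s p) ((hotriv_TA a A l).s p)
      (fun y hy i => hy (η i)) (fun y hy i => hy (θ i))
      (((hotriv_TT a).map (η.comp θ)).app p) (fun y hy i => hy _) (fun _ => rfl) x).symm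

theorem hotriv_mul (n : ℕ) (g h : G) (y : Y.obj n) :
    (a.act (g * h)).app n y = (a.act g).app n ((a.act h).app n y) := by
  rw [a.mul]
  rfl

theorem hotriv_one (n : ℕ) (y : Y.obj n) : (a.act 1).app n y = y := by
  rw [a.one]
  rfl

theorem hotriv_diag {l : ℕ} {c : Fin (l + 1) → Fin (l + 1) → G}
    (h : ∀ i j k, c i j * c j k = c i k) (i : Fin (l + 1)) : c i i = 1 :=
  mul_eq_left.1 (h i i i)

/-- the tuples as a product -/
def hotriv_φ (l : ℕ) :
    orb_P (ULift.{u} {c : Fin (l + 1) → Fin (l + 1) → G // ∀ i j k, c i j * c j k = c i k}) Y ⟶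
      (hotriv_TT a).obj l :=
  ⟨fun n x => ⟨(x.1.down.1, fun i => (a.act (x.1.down.1 i 0)).app n x.2), x.1.down.2, fun i j => by
      change (a.act (x.1.down.1 i 0)).app n x.2 =
        (a.act (x.1.down.1 i j)).app n ((a.act (x.1.down.1 j 0)).app n x.2)
      rw [← hotriv_mul, x.1.down.2]⟩,
    fun {m n} θ x => Subtype.ext (Prod.ext rfl
      (funext fun i => (a.act (x.1.down.1 i 0)).nat θ x.2))⟩

theorem hotriv_row (hA : a.Inv A) (r l : ℕ) (h : SAb.Triv r (ZR Y A)) :
    SAb.Triv r ((hotriv_R a A).obj l) := by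
  have hφ : ∀ n x, x ∈ (orb_PA (ULift.{u} {c : Fin (l + 1) → Fin (l + 1) → G //
      ∀ i j k, c i j * c j k = c i k}) A).s n →
      (hotriv_φ a l).app n x ∈ (hotriv_TA a A l).s n := fun n x hx i => hA _ n _ hx
  refine orb_triv_of_bij (zr_M _ _ (hotriv_φ a l) hφ) ?_
    (orb_prod r (ULift.{u} {c : Fin (l + 1) → Fin (l + 1) → G //
      ∀ i j k, c i j * c j k = c i k}) A h)
  refine zr_5b _ _ _ _ (fun n y _ => ?_) (fun n x hx => ?_)
  · refine ⟨(⟨⟨y.1.1, y.2.1⟩⟩, y.1.2 0), ?_, ?_⟩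
    · exact Subtype.ext (Prod.ext rfl (funext fun i => (y.2.2 i 0).symm))
    · rintro ⟨⟨⟨c, hc⟩⟩, y'⟩ hx
      have hx1 : c = y.1.1 := congrArg (fun z : (hotriv_T a l).obj n => z.1.1) hx
      have hx2 : (a.act (c 0 0)).app n y' = y.1.2 0 :=
        congrArg (fun z : (hotriv_T a l).obj n => z.1.2 0) hx
      rw [hotriv_diag hc, hotriv_one] at hx2
      subst hx1
      subst hx2
      rfl
  · have h0 : (a.act (x.1.down.1 0 0)).app n x.2 ∈ A.s n := hx 0
    rw [hotriv_diag x.1.down.2, hotriv_one] at h0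
    exact h0

/-- the diagonal is the relative simplicial abelian group of the homotopy orbits -/
noncomputable def hotriv_D : SAb.diag (hotriv_R a A) ⟶ ZR (hO a) (hOs a A) :=
  ⟨fun n => AddMonoidHom.id _, fun {m n} θ x => by
    have e1 : (SAb.diag (hotriv_R a A)).map θ x =
        zr_q ((hO a).map θ) ((hOs a A).s n) ((hOs a A).s m) ((hOs a A).map_mem θ) x := by
      change ((hotriv_R a A).obj m).map θ (((hotriv_R a A).map θ).app n x) = _
      refine (zr_th (hotriv_TA a A m) θ _).trans ?_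
      exact zr_q_comp (((hotriv_TT a).map θ).app n) (((hotriv_TT a).obj m).map θ)
        ((hotriv_TA a A n).s n) ((hotriv_TA a A m).s n) ((hotriv_TA a A m).s m)
        (fun y hy i => hy (θ i)) (fun y hy i => A.map_mem _ _ (hy i)) _
        ((hOs a A).map_mem θ) (fun _ => rfl) x
    exact e1.trans (zr_th (hOs a A) θ x).symm⟩

end

/-- hOTriv. -/
theorem thm_hOTriv (hR : St_AbReal.{u}) : St_hOTriv.{u} := by
  intro c G _ Y a A hA h
  have e1 : SAb.Triv c (SAb.diag (hotriv_R a A)) :=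
    hR.2.2.2.1 c _ fun l => hotriv_row a A hA c l h
  exact orb_triv_of_bij (hotriv_D a A) (fun n => bijective_id) e1

end Pool.Agent.GQ
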