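import Pool.Agent.FGK.All
import Pool.Agent.KQ.AllSK
import Pool.Agent.GQ.Bdd
import Pool.Agent.GQ.CK
import Pool.Agent.GQ.ClE
import Pool.Agent.GQ.Cnt
import Pool.Agent.GQ.EFG
import Pool.Agent.GQ.ExL
import Pool.Agent.GQ.FL
import Pool.Agent.GQ.Filt
import Pool.Agent.GQ.FinP
import Pool.Agent.GQ.FsSl
import Pool.Agent.GQ.GQ
import Pool.Agent.GQ.Her
import Pool.Agent.GQ.JZ
import Pool.Agent.GQ.Lat
import Pool.Agent.GQ.Lat1
import Pool.Agent.GQ.Lat2
import Pool.Agent.GQ.Ord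
import Pool.Agent.GQ.PLQ
import Pool.Agent.GQ.PLStr
import Pool.Agent.GQ.Pair
import Pool.Agent.GQ.Path
import Pool.Agent.GQ.PowSl
import Pool.Agent.GQ.Rk0
import Pool.Agent.GQ.RkC
import Pool.Agent.GQ.StM
import Pool.Agent.GQ.T2
import Pool.Agent.GQ.T3
import Pool.Agent.GQ.Tot
import Pool.Agent.GQ.XCon
import Pool.Agent.GQ.XFin
import Pool.Agent.GQ.XNe
import Pool.Agent.GQ.ZX
import Pool.Agent.GQ.hOEx
import Pool.Agent.GQ.hOFst
import Pool.Agent.GQ.hOOrb
import Pool.Agent.GQ.hOSl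
import Pool.Agent.GQ.hOStr
import Pool.Agent.GQ.hOTriv

/-!
# GQ: the K-groups of affine curves over finite fields are finitely generated: assembly
-/

set_option autoImplicit false

namespace Pool.Agent.GQ

open Pool.Agent.FGK Pool.Agent.KQ

universe u

/-! ### homotopy orbits -/

theorem all_hOStr : St_hOStr.{u} := thm_hOStr

theorem all_hOFst : St_hOFst.{u} := thm_hOFst

theorem all_hOEx : St_hOEx.{u} := thm_hOEx

theorem all_hOTriv : St_hOTriv.{u} := thm_hOTriv all_AbReal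

theorem all_hOOrb : St_hOOrb.{u} := thm_hOOrb all_AbReal all_fsStrong all_StrHt

theorem all_hOSl : St_hOSl.{u} := thm_hOSl all_Sl all_AbReal all_fsStrong all_SlFin all_StrHt

/-! ### exact categories -/

theorem all_FsSl : St_FsSl.{u} := thm_FsSl all_Sl all_SlFin all_AbEx all_AbReal all_fsConn all_fsEx

theorem all_PowSl : St_PowSl.{u} := thm_PowSl all_Sl all_SlFin all_fsProd all_FsSl

theorem all_ClE : St_ClE.{u} := thm_ClE all_Sl all_fsStrong all_AbReal all_SpK all_PowSl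

theorem all_EFG : St_EFG.{u} :=
  thm_EFG all_Sl all_fsStrong all_ClE all_ZQK all_ZPSl all_FoxTriv all_FoxSl all_FG2

/-! ### torsion-free modules -/

theorem all_Rk0 : St_Rk0 := thm_Rk0

theorem all_RkC : St_RkC := thm_RkC all_ZR all_AbEx

theorem all_Pair : St_Pair :=
  thm_Pair thm_Lat all_hOStr all_hOOrb all_hOTriv all_RB thm_PLStr (thm_PLQ thm_Lat)

theorem all_Filt : St_Filt := thm_Filt all_Pair

theorem all_T2 : St_T2 := thm_T2 all_AbEx all_Rk0 all_RkC all_Filt

theorem all_T3 : St_T3 := thm_T3 all_T2 all_EFG all_ResK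

/-! ### lattices over curves -/

theorem all_ExL : St_ExL := thm_ExL thm_Lat1 thm_Lat2

theorem all_FinP : St_FinP := thm_FinP thm_Lat1 thm_Cnt

theorem all_JZ : St_JZ := thm_JZ all_ExL all_FinP

theorem all_Path : St_Path := thm_Path thm_Lat1 thm_Lat2

theorem all_XNe : St_XNe := thm_XNe thm_Lat1 thm_Lat2

theorem all_XCon : St_XCon := thm_XCon thm_Lat1 all_Path all_XNe

theorem all_ZX : St_ZX := thm_ZX (thm_Tot thm_Lat1) all_XCon

theorem all_Bdd : St_Bdd := thm_Bdd thm_Lat1 thm_Lat2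

theorem all_XFin : St_XFin := thm_XFin thm_Lat1 thm_Lat2 all_Bdd all_FinP

theorem all_StM : St_StM :=
  thm_StM all_XFin all_ZX all_hOSl all_hOStr all_hOFst all_hOEx all_hOTriv all_ZR all_AbEx

/-! ### the theorem of Harder, Quillen and Grayson -/

theorem all_CK : St_CK := thm_CK (thm_FL all_JZ) all_StM all_T3

/-- THE K-GROUPS OF AFFINE CURVES OVER FINITE FIELDS ARE FINITELY GENERATED. -/
theorem all_GQ : St_GQ := thm_GQ thm_Ord all_CK

theorem all_Her : St_Her := thm_Her all_GQ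

end Pool.Agent.GQ
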