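import Pool.Agent.FGK.Defs3

/-!
# GQ: finite generation of `K_n` of curves over finite fields (Harder, Quillen, Grayson): definitions

Project GQ for MP_e17fa799_al (architect helper71): simplicial sets with a group action and their
homotopy orbits `hO`.
-/

set_option autoImplicit false
set_option linter.unusedVariables false

noncomputable section

namespace Pool.Agent.GQ

open CategoryTheory Function Pool.Agent.KQ Pool.Agent.FGK

universe u

/-- an action of a group on a simplicial set -/
structure GAct (G : Type) [Group G] (Y : SSt.{u}) where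
  act : G → (Y ⟶ Y)
  one : act 1 = 𝟙 Y
  mul : ∀ g h, act (g * h) = act h ≫ act g

/-- the homotopy orbits: tuples `(y_0, .., y_n)` of elements of `Y_n` and `c_ij ∈ G` with
`c_ij c_jl = c_il`, `y_i = c_ij y_j` -/
def hO {G : Type} [Group G] {Y : SSt.{u}} (a : GAct G Y) : SSt.{u} where
  obj n := {x : (Fin (n + 1) → Fin (n + 1) → G) × (Fin (n + 1) → Y.obj n) //
    (∀ i j l, x.1 i j * x.1 j l = x.1 i l) ∧ ∀ i j, x.2 i = (a.act (x.1 i j)).app n (x.2 j)}
  map θ x := ⟨(fun i j => x.1.1 (θ i) (θ j), fun i => Y.map θ (x.1.2 (θ i))),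
    fun i j l => x.2.1 _ _ _, fun i j => by
      change Y.map θ _ = (a.act _).app _ (Y.map θ _)
      rw [x.2.2 (θ i) (θ j), (a.act _).nat]⟩
  map_id n x := Subtype.ext (Prod.ext rfl (funext fun i => Y.map_id n _))
  map_comp f g x := Subtype.ext (Prod.ext rfl (funext fun i => Y.map_comp f g _))

/-- equivariant maps -/
def GAct.Eqv {G : Type} [Group G] {Y Y' : SSt.{u}} (a : GAct G Y) (a' : GAct G Y') (f : Y ⟶ Y') :
    Prop := ∀ g, a.act g ≫ f = f ≫ a'.act g

/-- the map of homotopy orbits -/
def hOmap {G : Type} [Group G] {Y Y' : SSt.{u}} (a : GAct G Y) (a' : GAct G Y') (f : Y ⟶ Y')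
    (h : a.Eqv a' f) : hO a ⟶ hO a' :=
  ⟨fun n x => ⟨(x.1.1, fun i => f.app n (x.1.2 i)), x.2.1, fun i j => by
    change f.app n _ = (a'.act _).app n (f.app n _)
    rw [x.2.2 i j]
    exact congrArg (fun e : Y ⟶ Y' => e.app n (x.1.2 j)) (h (x.1.1 i j))⟩,
    fun θ x => Subtype.ext (Prod.ext rfl (funext fun i => f.nat θ _))⟩

/-- the homotopy orbits of a simplicial subset -/
def hOs {G : Type} [Group G] {Y : SSt.{u}} (a : GAct G Y) (A : SubS Y) : SubS (hO a) where
  s n := {x | ∀ i, x.1.2 i ∈ A.s n}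
  map_mem θ x h i := A.map_mem θ _ (h (θ i))

/-- invariant simplicial subsets -/
def GAct.Inv {G : Type} [Group G] {Y : SSt.{u}} (a : GAct G Y) (A : SubS Y) : Prop :=
  ∀ g n y, y ∈ A.s n → (a.act g).app n y ∈ A.s n

/-- the action of a product in which the second factor acts trivially -/
def GAct.fst {G C : Type} [Group G] [Group C] {Y : SSt.{u}} (a : GAct G Y) : GAct (G × C) Y where
  act g := a.act g.1
  one := a.one
  mul g h := a.mul g.1 h.1

end Pool.Agent.GQ
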