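import Pool.Agent.GQ.Defs

/-!
# GQ: the group of a lattice and its action on flags
-/

set_option autoImplicit false
set_option linter.unusedVariables false

noncomputable section

namespace Pool.Agent.GQ

open CategoryTheory Function Pool.Agent.KQ Pool.Agent.FGK

universe u

section

variable {A F V : Type} [CommRing A] [Field F] [Algebra A F] [AddCommGroup V] [Module F V]
  [Module A V] [IsScalarTower A F V]

/-- the group `GL(M)` of a lattice `M`: the automorphisms `g` of `V` with `g M = M` -/
def Gam (M : Submodule A V) : Subgroup (V ≃ₗ[F] V) where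
  carrier := {g | ∀ v, g v ∈ M ↔ v ∈ M}
  mul_mem' {g h} hg hh v := (hg (h v)).trans (hh v)
  one_mem' v := Iff.rfl
  inv_mem' {g} hg v := by
    have h1 := hg (g⁻¹ v)
    rw [show g (g⁻¹ v) = v from LinearEquiv.apply_symm_apply g v] at h1
    exact h1.symm

/-- the action of an automorphism on the subspaces -/
def mapSub (g : V ≃ₗ[F] V) : Submodule F V →o Submodule F V :=
  ⟨fun W => W.map g.toLinearMap, fun _ _ h => Submodule.map_mono h⟩

theorem mapSub_one : mapSub (1 : V ≃ₗ[F] V) = OrderHom.id := by
  apply OrderHom.ext
  funext W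
  exact Submodule.map_id W

theorem mapSub_mul (g h : V ≃ₗ[F] V) : mapSub (g * h) = (mapSub g).comp (mapSub h) := by
  apply OrderHom.ext
  funext W
  exact Submodule.map_comp h.toLinearMap g.toLinearMap W

/-- the action of `GL(M)` on the flags -/
def nvAct (M : Submodule A V) : GAct (Gam (F := F) M) (nvS.{u} (Submodule F V)) where
  act g := ⟨fun n x => ⟨(mapSub g.1).comp x.down⟩, fun _ _ => rfl⟩
  one := SSt.hom_ext fun n x => congrArg ULift.up (by
    change (mapSub (1 : V ≃ₗ[F] V)).comp x.down = x.down
    rw [mapSub_one]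
    rfl)
  mul g h := SSt.hom_ext fun n x => congrArg ULift.up (by
    change (mapSub (g.1 * h.1)).comp x.down = (mapSub g.1).comp ((mapSub h.1).comp x.down)
    rw [mapSub_mul]
    rfl)

/-- `M` is a lattice: finitely generated, spans `V` -/
def IsLatA (F : Type) {A V : Type} [CommRing A] [Field F] [Algebra A F] [AddCommGroup V]
    [Module F V] [Module A V] (M : Submodule A V) : Prop :=
  M.FG ∧ Submodule.span F (M : Set V) = ⊤

/-- the homotopy orbits under `GL(M)` of the flags of `V`, modulo the flags with `F_0 ≠ 0` or
`F_n ≠ V`, have slender homotopy groups -/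
def StSl (F : Type) {A V : Type} [CommRing A] [Field F] [Algebra A F] [AddCommGroup V]
    [Module F V] [Module A V] [IsScalarTower A F V] (M : Submodule A V) : Prop :=
  ∀ j, (ZR (hO (nvAct.{1} (F := F) M)) (hOs (nvAct.{1} (F := F) M)
    (badS.{1} (Submodule F V)))).SlAt j

end

end Pool.Agent.GQ
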