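import Pool.Agent.GQ.Defs2

/-!
# GQ: lattices over a curve, the complex of short chains of lattices, the unstable region

`CD A F`: a subring `O` of the fraction field `F` of `A` and `t ∈ A`; think of `Spec A` as an affine curve
with compactification `C`, `O` the functions regular at infinity, `t` a function with poles at infinity
only. A vector bundle with generic fibre `V` is a pair of lattices `M ⊆ V` over `A` and `L ⊆ V` over `O`;
`H⁰ = M ∩ L`, `H¹ = V / (M + L)`. Twists: `t ^ a L`.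
-/

set_option autoImplicit false
set_option linter.unusedVariables false

noncomputable section

namespace Pool.Agent.GQ

open CategoryTheory Function Pool.Agent.KQ Pool.Agent.FGK

/-- curve data -/
structure CD (A F : Type) [CommRing A] [Field F] [Algebra A F] where
  τ : A
  O : Subring F
  t0 : algebraMap A F τ ≠ 0
  tO : (algebraMap A F τ)⁻¹ ∈ O
  /-- `O / t⁻¹ O` is finite -/
  fin : ∃ S : Set F, S.Finite ∧ ∀ u ∈ O, ∃ s ∈ S, algebraMap A F τ * (u - s) ∈ O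
  /-- `F = ⋃ t ^ i O` -/
  abs : ∀ f : F, ∃ i : ℕ, (algebraMap A F τ)⁻¹ ^ i * f ∈ O
  /-- `F = A + t ^ e O` -/
  coc : ∃ e : ℕ, ∀ f : F, ∃ a : A, ∃ u ∈ O, f = algebraMap A F a + algebraMap A F τ ^ e * u
  /-- `A ∩ t ^ (-a) O = 0` -/
  dis : ∃ a : ℕ, ∀ x : A, algebraMap A F τ ^ a * algebraMap A F x ∈ O → algebraMap A F x = 0

section

variable {A F : Type} [CommRing A] [Field F] [Algebra A F] (D : CD A F)

/-- the element `t` -/
def CD.t : F := algebraMap A F D.τ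

variable (V : Type) [AddCommGroup V] [Module F V]

/-- lattices over `O`: subgroups of `V`, stable under `O`, containing `t ^ (-i)` times and contained in
`t ^ i` times the standard lattice of a basis of `V` -/
def CD.IsLat (L : AddSubgroup V) : Prop :=
  (∀ u ∈ D.O, ∀ v ∈ L, u • v ∈ L) ∧ ∃ (r : ℕ) (b : Module.Basis (Fin r) F V) (i : ℕ),
    (∀ v : V, (∀ l, b.repr v l ∈ D.O) → D.t⁻¹ ^ i • v ∈ L) ∧
    ∀ v ∈ L, ∀ l, D.t⁻¹ ^ i * b.repr v l ∈ D.O

/-- lattices over `O` -/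
def CD.Lat : Type := {L : AddSubgroup V // D.IsLat V L}

instance : PartialOrder (D.Lat V) := inferInstanceAs (PartialOrder {L : AddSubgroup V // D.IsLat V L})

variable {V}

/-- `v ∈ t ^ z L` -/
def CD.Mem (z : ℤ) (L : D.Lat V) (v : V) : Prop := D.t ^ (-z) • v ∈ L.1

/-- `L' ⊆ t L` -/
def CD.Near (L L' : D.Lat V) : Prop := ∀ v ∈ L'.1, D.t⁻¹ • v ∈ L.1

variable (V)

/-- the complex of the short chains of lattices: `L_0 ≤ .. ≤ L_n ≤ t L_0` -/
def CD.X : SSt.{1} where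
  obj n := ULift.{1} {σ : Fin (n + 1) →o D.Lat V // D.Near (σ 0) (σ (Fin.last n))}
  map {m n} θ σ := ⟨σ.down.1.comp θ, fun v hv => by
    have h1 : v ∈ (σ.down.1 (Fin.last n)).1 :=
      σ.down.1.monotone (Fin.le_last (θ (Fin.last m))) hv
    exact σ.down.1.monotone (Fin.zero_le (θ 0)) (σ.down.2 v h1)⟩
  map_id _ _ := rfl
  map_comp _ _ _ := rfl

variable {V} [Module A V]

/-- `H¹(E_W(a)) = 0` for `E = (M, L)`, `W ⊆ V` -/
def CD.H1z (M : Submodule A V) (L : D.Lat V) (W : Submodule F V) (a : ℤ) : Prop :=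
  ∀ w ∈ W, ∃ m ∈ M, m ∈ W ∧ D.Mem a L (w - m)

/-- `H⁰((E/E_W)(b)) = 0` for `E = (M, L)`, `W ⊆ V` -/
def CD.H0z (M : Submodule A V) (L : D.Lat V) (W : Submodule F V) (b : ℤ) : Prop :=
  ∀ m ∈ M, ∀ v : V, D.Mem b L v → m - v ∈ W → m ∈ W

/-- the destabilizing subspaces of a chain which starts with `L` and ends with `L'` -/
def CD.Dst (M : Submodule A V) (L L' : D.Lat V) : Set (Submodule F V) :=
  {W | W ≠ ⊥ ∧ W ≠ ⊤ ∧ ∃ a : ℤ, D.H1z M L W a ∧ D.H0z M L' W (a + 1)}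

theorem CD.Dst_mono (M : Submodule A V) {L₁ L₂ L₁' L₂' : D.Lat V} (h : L₁ ≤ L₂) (h' : L₂' ≤ L₁') :
    D.Dst M L₁ L₁' ⊆ D.Dst M L₂ L₂' := by
  rintro W ⟨h1, h2, a, h3, h4⟩
  refine ⟨h1, h2, a, fun w hw => ?_, fun m hm v hv hmv => h4 m hm v (h' hv) hmv⟩
  obtain ⟨m, hm, hmW, h5⟩ := h3 w hw
  exact ⟨m, hm, hmW, h h5⟩

end

end Pool.Agent.GQ
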