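import Pool.Agent.GQ.Defs3

/-!
# GQ: actions on lattices, the pairs of chains of lattices and chains of destabilizing subspaces
-/

set_option autoImplicit false
set_option linter.unusedVariables false

noncomputable section

namespace Pool.Agent.GQ

open CategoryTheory Function Pool.Agent.KQ Pool.Agent.FGK

universe u

/-- restriction of an action along a homomorphism -/
def GAct.res {G H : Type} [Group G] [Group H] {Y : SSt.{u}} (a : GAct G Y) (φ : H →* G) :
    GAct H Y where
  act h := a.act (φ h)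
  one := by rw [map_one, a.one]
  mul g h := by rw [map_mul, a.mul]

section

variable {A F : Type} [CommRing A] [Field F] [Algebra A F] (D : CD A F)

variable {V : Type} [AddCommGroup V] [Module F V]

/-- the image of a lattice under an automorphism of `V` -/
def CD.latG (g : V ≃ₗ[F] V) (L : D.Lat V) : D.Lat V :=
  ⟨L.1.comap g.symm.toLinearMap.toAddMonoidHom, fun u hu v hv => by
    change g.symm (u • v) ∈ L.1
    rw [map_smul]
    exact L.2.1 u hu _ hv, by
    obtain ⟨r, b, i, h1, h2⟩ := L.2.2
    refine ⟨r, b.map g, i, fun v hv => ?_, fun v hv l => ?_⟩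
    · change g.symm (D.t⁻¹ ^ i • v) ∈ L.1
      rw [map_smul]
      exact h1 _ hv
    · exact h2 _ hv l⟩

theorem CD.mem_latG (g : V ≃ₗ[F] V) (L : D.Lat V) (v : V) :
    v ∈ (D.latG g L).1 ↔ g.symm v ∈ L.1 := Iff.rfl

/-- the action on lattices, as a monotone map -/
def CD.latGm (g : V ≃ₗ[F] V) : D.Lat V →o D.Lat V :=
  ⟨D.latG g, fun _ _ h _ hv => h hv⟩

variable (V)

/-- the action of the automorphisms of `V` on the chains of lattices -/
def CD.xG : GAct (V ≃ₗ[F] V) (D.X V) where
  act g := ⟨fun n σ => ⟨(D.latGm g).comp σ.down.1, fun v hv => by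
    change g.symm (D.t⁻¹ • v) ∈ (σ.down.1 0).1
    rw [map_smul]
    exact σ.down.2 _ hv⟩, fun _ _ => rfl⟩
  one := SSt.hom_ext fun n σ => by
    apply ULift.ext
    apply Subtype.ext
    apply OrderHom.ext
    funext i
    exact Subtype.ext (AddSubgroup.ext fun v => Iff.rfl)
  mul g h := SSt.hom_ext fun n σ => by
    apply ULift.ext
    apply Subtype.ext
    apply OrderHom.ext
    funext i
    exact Subtype.ext (AddSubgroup.ext fun v => Iff.rfl)

/-- the action of the automorphisms of `V` on the flags -/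
def nvG (F V : Type) [Field F] [AddCommGroup V] [Module F V] :
    GAct (V ≃ₗ[F] V) (nvS.{u} (Submodule F V)) where
  act g := ⟨fun n x => ⟨(mapSub g).comp x.down⟩, fun _ _ => rfl⟩
  one := SSt.hom_ext fun n x => congrArg ULift.up (by
    change (mapSub (1 : V ≃ₗ[F] V)).comp x.down = x.down
    rw [mapSub_one]
    rfl)
  mul g h := SSt.hom_ext fun n x => congrArg ULift.up (by
    change (mapSub (g * h)).comp x.down = (mapSub g).comp ((mapSub h).comp x.down)
    rw [mapSub_mul]
    rfl)

/-- the unit `t` -/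
def CD.tU : Fˣ := Units.mk0 D.t D.t0

/-- multiplication with `t ^ z` -/
def CD.tz (z : Multiplicative ℤ) : V ≃ₗ[F] V :=
  LinearEquiv.smulOfUnit (M := V) (D.tU ^ (Multiplicative.toAdd z))

variable {V} [Module A V] [IsScalarTower A F V]

/-- the homomorphism `(g, z) ↦ g t ^ z` -/
def CD.gz (M : Submodule A V) : Gam (F := F) M × Multiplicative ℤ →* (V ≃ₗ[F] V) where
  toFun x := x.1.1 * D.tz V x.2
  map_one' := by
    ext v
    change ((D.tU ^ (0 : ℤ) : Fˣ) • v) = v
    rw [zpow_zero, one_smul]
  map_mul' x y := by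
    ext v
    change x.1.1 (y.1.1 ((D.tU ^ (Multiplicative.toAdd x.2 + Multiplicative.toAdd y.2) : Fˣ) •
      v)) = x.1.1 ((D.tU ^ (Multiplicative.toAdd x.2) : Fˣ) •
        y.1.1 ((D.tU ^ (Multiplicative.toAdd y.2) : Fˣ) • v))
    rw [zpow_add, mul_smul]
    simp only [Units.smul_def, map_smul]

/-- the unstable region: the chains with a destabilizing subspace -/
def CD.unS (M : Submodule A V) : SubS (D.X V) where
  s n := {σ | (D.Dst M (σ.down.1 0) (σ.down.1 (Fin.last n))).Nonempty}
  map_mem {m n} θ σ h := h.mono (D.Dst_mono M (σ.down.1.monotone (Fin.zero_le (θ 0)))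
    (σ.down.1.monotone (Fin.le_last (θ (Fin.last m)))))

/-- the chains for which all proper subspaces among the `F i` are destabilizing -/
def CD.XF (M : Submodule A V) {q : ℕ} (f : Fin (q + 1) →o Submodule F V) : SubS (D.X V) where
  s n := {σ | ∀ i, f i = ⊤ ∨ f i ∈ D.Dst M (σ.down.1 0) (σ.down.1 (Fin.last n))}
  map_mem {m n} θ σ h i := (h i).imp id fun h1 => D.Dst_mono M
    (σ.down.1.monotone (Fin.zero_le (θ 0))) (σ.down.1.monotone (Fin.le_last (θ (Fin.last m)))) h1

/-- pairs of a chain of lattices and a chain of nonzero subspaces which are `V` or destabilizing -/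
def CD.zz (M : Submodule A V) : SubS ((D.X V).prod (nvS.{1} (Submodule F V))) where
  s n := {x | x.2.down 0 ≠ ⊥ ∧ ∀ i, x.2.down i = ⊤ ∨
    x.2.down i ∈ D.Dst M (x.1.down.1 0) (x.1.down.1 (Fin.last n))}
  map_mem {m n} θ x h := ⟨fun h1 => h.1 (le_bot_iff.1 (h1 ▸
      x.2.down.monotone (Fin.zero_le (θ 0)))),
    fun i => (h.2 (θ i)).imp id fun h1 => D.Dst_mono M
      (x.1.down.1.monotone (Fin.zero_le (θ 0)))
      (x.1.down.1.monotone (Fin.le_last (θ (Fin.last m)))) h1⟩

/-- the pairs without `V` -/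
def CD.zzP (M : Submodule A V) : SubS (D.zz M).S where
  s n := {x | x.1.2.down (Fin.last n) ≠ ⊤}
  map_mem {m n} θ x h h1 := h (top_le_iff.1 (h1 ▸
    x.1.2.down.monotone (Fin.le_last (θ (Fin.last m)))))

variable (F V)

/-- chains of nonzero subspaces -/
def nzS (F V : Type) [Field F] [AddCommGroup V] [Module F V] : SubS (nvS.{1} (Submodule F V)) where
  s n := {x | x.down 0 ≠ ⊥}
  map_mem {m n} θ x h h1 := h (le_bot_iff.1 (h1 ▸ x.down.monotone (Fin.zero_le (θ 0))))

/-- chains of proper subspaces -/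
def prS (F V : Type) [Field F] [AddCommGroup V] [Module F V] : SubS (nvS.{1} (Submodule F V)) where
  s n := {x | x.down (Fin.last n) ≠ ⊤}
  map_mem {m n} θ x h h1 := h (top_le_iff.1 (h1 ▸
    x.down.monotone (Fin.le_last (θ (Fin.last m)))))

end

end Pool.Agent.GQ
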