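import Pool.Agent.GQ.StF
import Pool.Agent.KQG.StTh

/-!
# GQ, part F: rings and schemes of dimension at most one over prime fields
-/

set_option autoImplicit false

noncomputable section

namespace Pool.Agent.GQ

open CategoryTheory AlgebraicGeometry Pool.Agent.KQ Pool.Agent.KQG Pool.Agent.KTX

universe u

theorem thm_F1 (hCl : St_ClK.{u}) : St_F1.{u} := fun K hB p _ B _ _ _ h n =>
  Base.krull hB (hCl K) p B h n

theorem thm_F1r (hCl : St_ClK.{u}) : St_F1r.{u} := fun K hB p _ B _ _ _ h n =>
  Base.res hB (hCl K) p B h n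

/-- an equivalence of exact categories gives isomorphic groups -/
theorem kint_equiv (K : KInt.{u}) (n : ℕ) {E E' : ExCat.{0}} (e : ExEquiv E E') :
    Function.Bijective (K.map n e.fwd) := by
  refine Function.bijective_iff_has_inverse.2 ⟨K.map n e.bwd, fun x => ?_, fun x => ?_⟩
  · rw [← K.map_comp, ← K.ni n (ExFun.id E) (e.fwd.comp e.bwd) ⟨e.unit⟩, K.map_id]
  · rw [← K.map_comp, K.ni n (e.bwd.comp e.fwd) (ExFun.id E') ⟨e.counit⟩, K.map_id]

theorem thm_F2 (hTHY : St_THY.{u}) (hGE : St_GE) (hF1 : St_F1.{u}) : St_F2.{u} := by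
  intro K hB p _ X f _ _ hX n
  obtain ⟨L, e, h0, -, -⟩ := hTHY K
  obtain ⟨E, -⟩ := hGE
  have h1 : ∀ (B : Type) [CommRing B] [Algebra (ZMod p) B] [Algebra.FiniteType (ZMod p) B],
      ringKrullDim B ≤ 1 → ∀ m : ℤ, AddGroup.FG ((L.th m).T (Sp B)) := by
    intro B _ _ _ hd m
    cases m with
    | ofNat m =>
      have h2 : AddGroup.FG (K.K m (Coh (Sp B))) := by
        have := hF1 K hB p B hd m
        exact AddGroup.fg_of_surjective (kint_equiv K m (E B)).2
      exact AddGroup.fg_of_surjective (f := (e m (Sp B)).symm.toAddMonoidHom)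
        (e m (Sp B)).symm.surjective
    | negSucc m =>
      have : Subsingleton ((L.th (Int.negSucc m)).T (Sp B)) :=
        ⟨fun x y => (h0 m (Sp B) x).trans (h0 m (Sp B) y).symm⟩
      have : Finite ((L.th (Int.negSucc m)).T (Sp B)) := Finite.of_subsingleton
      infer_instance
  have := thy_dim L p h1 X f hX n
  exact AddGroup.fg_of_surjective (f := (e n X).toAddMonoidHom) (e n X).surjective

end Pool.Agent.GQ
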