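import Pool.Agent.GTH.Dim1
import Pool.Agent.BassH.Defs

/-!
# GQ, part F: rings of dimension at most one over prime fields

A class of rings with the closure properties `GTH.Cls` which contains the finite fields and the domains
finite over `k[X]` (`k` a finite field) contains all rings of finite type over `F_p` of dimension at most `1`.
Architect helper38.
-/

set_option autoImplicit false
set_option linter.style.haveILetI false

namespace Pool.Agent.GQ

open Function MvPolynomial Pool.Agent.GTH Cardinal

/-- the dimension of an integral extension -/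
theorem krull_le_of_integral {A B : Type} [CommRing A] [CommRing B] [Algebra A B]
    [Algebra.IsIntegral A B] (h : Injective (algebraMap A B)) :
    ringKrullDim A ≤ ringKrullDim B := by
  refine iSup_le fun l => ?_
  haveI := (faithfulSMul_iff_algebraMap_injective A B).2 h
  obtain ⟨P, hP⟩ := Algebra.IsIntegral.comap_surjective A B l.head
  haveI : P.asIdeal.IsPrime := P.isPrime
  haveI : P.asIdeal.LiesOver l.head.asIdeal := ⟨by rw [← hP]; rfl⟩
  obtain ⟨L, hL, -, -⟩ := Ideal.exists_ltSeries_of_hasGoingUp (S := B) l P.asIdeal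
  rw [← hL]
  exact Order.LTSeries.length_le_krullDim L

/-- finite domains and domains finite over `k[X]` -/
structure Base (G : (R : Type) → [CommRing R] → Prop) : Prop where
  fld : ∀ (k : Type) [Field k] [Finite k], G k
  crv : ∀ (k A : Type) [Field k] [Finite k] [CommRing A] [IsDomain A] [Algebra (Polynomial k) A]
    [Module.Finite (Polynomial k) A], Injective (algebraMap (Polynomial k) A) → G A

section

variable {G : (R : Type) → [CommRing R] → Prop} (hB : Base G)

include hB

theorem Base.dom (p : ℕ) [Fact p.Prime] (B : Type) [CommRing B] [IsDomain B]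
    [Algebra (ZMod p) B] [Algebra.FiniteType (ZMod p) B]
    (hs : ∀ (s : ℕ) (g : MvPolynomial (Fin s) (ZMod p) →ₐ[ZMod p] B), Injective g →
      g.Finite → s ≤ 1) : G B := by
  obtain ⟨s, g, hg, hf⟩ := exists_finite_inj_algHom_of_fg (ZMod p) B
  have h1 := hs s g hg hf
  interval_cases s
  · letI : Algebra (MvPolynomial (Fin 0) (ZMod p)) B := g.toRingHom.toAlgebra
    haveI : Module.Finite (MvPolynomial (Fin 0) (ZMod p)) B := hf
    haveI : Finite (MvPolynomial (Fin 0) (ZMod p)) :=
      Finite.of_equiv (ZMod p) (MvPolynomial.isEmptyAlgEquiv (ZMod p) (Fin 0)).symm.toEquiv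
    haveI : Finite B := Module.finite_of_finite (MvPolynomial (Fin 0) (ZMod p))
    letI : Field B := (Finite.isField_of_domain B).toField
    exact hB.fld B
  · let e : MvPolynomial (Fin 1) (ZMod p) ≃ₐ[ZMod p] Polynomial (ZMod p) :=
      MvPolynomial.uniqueAlgEquiv (ZMod p) (Fin 1)
    let ε : Polynomial (ZMod p) →+* MvPolynomial (Fin 1) (ZMod p) := e.symm.toRingEquiv.toRingHom
    let φ : Polynomial (ZMod p) →+* B := g.toRingHom.comp ε
    letI : Algebra (Polynomial (ZMod p)) B := φ.toAlgebra
    haveI : Module.Finite (Polynomial (ZMod p)) B :=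
      RingHom.Finite.comp (f := ε) (g := g.toRingHom) hf
        (RingHom.Finite.of_surjective ε e.symm.surjective)
    exact hB.crv (ZMod p) B (hg.comp e.symm.injective)

/-- rings of Krull dimension at most one -/
theorem Base.krull (hG : Cls G) (p : ℕ) [Fact p.Prime] (B : Type) [CommRing B]
    [Algebra (ZMod p) B] [Algebra.FiniteType (ZMod p) B] (h : ringKrullDim B ≤ 1) : G B := by
  haveI : IsNoetherianRing B := Algebra.FiniteType.isNoetherianRing (ZMod p) B
  refine hG.of_prime B fun P hP => ?_
  haveI := hP
  haveI : IsDomain (B ⧸ P) := Ideal.Quotient.isDomain P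
  haveI : Algebra.FiniteType (ZMod p) (B ⧸ P) := inferInstance
  refine hB.dom p (B ⧸ P) fun s g hg hf => ?_
  letI : Algebra (MvPolynomial (Fin s) (ZMod p)) (B ⧸ P) := g.toRingHom.toAlgebra
  haveI : Module.Finite (MvPolynomial (Fin s) (ZMod p)) (B ⧸ P) := hf
  have h1 : ringKrullDim (MvPolynomial (Fin s) (ZMod p)) ≤ ringKrullDim (B ⧸ P) :=
    krull_le_of_integral hg
  have h2 := (h1.trans (ringKrullDim_quotient_le P)).trans h
  rw [MvPolynomial.ringKrullDim_of_isNoetherianRing, ringKrullDim_eq_zero_of_field, zero_add,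
    Nat.card_eq_fintype_card, Fintype.card_fin] at h2
  exact_mod_cast h2

/-- domains of residual dimension at most one -/
theorem Base.dom_trdeg (p : ℕ) [Fact p.Prime] (C : Type) [CommRing C] [IsDomain C]
    [Algebra (ZMod p) C] [Algebra.FiniteType (ZMod p) C]
    (h0 : Algebra.trdeg (⊥ : Subfield (FractionRing C)) (FractionRing C) ≤ (1 : ℕ)) : G C := by
  refine hB.dom p C fun s g hg hf => ?_
  let L := FractionRing C
  let F : Subfield L := ⊥
  have h1 : ∀ x : ZMod p, algebraMap (ZMod p) L x ∈ F := by
    intro x
    obtain ⟨z, rfl⟩ := ZMod.intCast_surjective x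
    rw [map_intCast]
    exact intCast_mem F z
  let φ : ZMod p →+* F := (algebraMap (ZMod p) L).codRestrict F h1
  have hφ : Surjective φ := by
    have h2 : F ≤ (algebraMap (ZMod p) L).fieldRange := bot_le
    intro x
    obtain ⟨y, hy⟩ := h2 x.2
    exact ⟨y, Subtype.ext hy⟩
  have h3 : AlgebraicIndependent (ZMod p)
      fun i : Fin s => algebraMap C L (g (MvPolynomial.X i)) := by
    have h4 : (MvPolynomial.aeval fun i : Fin s =>
        algebraMap C L (g (MvPolynomial.X i)) : MvPolynomial (Fin s) (ZMod p) →ₐ[ZMod p] L) =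
        (IsScalarTower.toAlgHom (ZMod p) C L).comp g := by
      apply MvPolynomial.algHom_ext
      intro i
      rw [MvPolynomial.aeval_X]
      rfl
    show Injective (MvPolynomial.aeval fun i : Fin s =>
        algebraMap C L (g (MvPolynomial.X i)) : MvPolynomial (Fin s) (ZMod p) →ₐ[ZMod p] L)
    rw [h4]
    exact (IsFractionRing.injective C L).comp hg
  have h5 : AlgebraicIndependent F
      (RingHom.id L ∘ fun i : Fin s => algebraMap C L (g (MvPolynomial.X i))) :=
    AlgebraicIndependent.ringHom_of_comp_eq φ (RingHom.id L) h3 hφ injective_id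
      (RingHom.ext fun x => rfl)
  have h6 := h5.cardinalMk_le_trdeg.trans h0
  rw [Cardinal.mk_fin] at h6
  exact_mod_cast h6

/-- rings of residual dimension at most one -/
theorem Base.res (hG : Cls G) (p : ℕ) [Fact p.Prime] (B : Type) [CommRing B]
    [Algebra (ZMod p) B] [Algebra.FiniteType (ZMod p) B] (h : BassH.ResDimLE 1 B) : G B := by
  haveI : IsNoetherianRing B := Algebra.FiniteType.isNoetherianRing (ZMod p) B
  refine hG.of_prime B fun P hP => ?_
  haveI := hP
  haveI : IsDomain (B ⧸ P) := Ideal.Quotient.isDomain P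
  haveI : Algebra.FiniteType (ZMod p) (B ⧸ P) := inferInstance
  exact hB.dom_trdeg p (B ⧸ P) (h P)

end

end Pool.Agent.GQ
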