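import Pool.Agent.KTX.R0
import Pool.Agent.KIN.H2
import Pool.Agent.GTH.SFG

/-!
# GQ, part F: noetherian induction for schemes

A property of noetherian schemes which holds for the affine open subschemes of the closed subschemes of `X` and is
stable under gluing a closed subscheme and its open complement holds for `X`. Application to the groups of a
graded theory `LThy`. Architect helper38.
-/

set_option autoImplicit false
set_option linter.style.haveILetI false

noncomputable section

namespace Pool.Agent.GQ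

open CategoryTheory AlgebraicGeometry TopologicalSpace Pool.Agent.KTX
open Pool.Agent.KIN (h2_noeth)

universe u

/-- noetherian induction over the closed subschemes -/
theorem sch_ind {X : Scheme.{0}} [IsNoetherian X] (P : Scheme.{0} → Prop)
    (haff : ∀ (Z W : Scheme.{0}) (i : Z ⟶ X) (j : W ⟶ Z) [IsClosedImmersion i]
      [IsOpenImmersion j] [IsAffine W], P W)
    (hloc : ∀ (Z' Z W : Scheme.{0}) [IsNoetherian Z] (i : Z' ⟶ Z) (j : W ⟶ Z)
      [IsClosedImmersion i] [IsOpenImmersion j], Set.range i = (Set.range j)ᶜ → P Z' → P W →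
        P Z) : P X := by
  have key : ∀ (C : Closeds X) (Z : Scheme.{0}) (i : Z ⟶ X) [IsClosedImmersion i],
      Set.range i = (C : Set X) → P Z := by
    intro C
    induction C using WellFoundedLT.induction with
    | ind C ih =>
    intro Z i _ hC
    have hZ : IsNoetherian Z := h2_noeth i
    rcases isEmpty_or_nonempty Z with hem | ⟨⟨z⟩⟩
    · haveI : IsAffine Z := inferInstance
      exact haff Z Z i (𝟙 Z)
    obtain ⟨W, hW, hzW, -⟩ := exists_isAffineOpen_mem_and_subset (x := z) (U := ⊤) trivial
    have hWa : IsAffine W.toScheme := hW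
    let j : W.toScheme ⟶ Z := W.ι
    let C0 : Closeds Z := ⟨(W : Set Z)ᶜ, W.isOpen.isClosed_compl⟩
    let I : Z.IdealSheafData := Scheme.IdealSheafData.vanishingIdeal C0
    let i' : I.subscheme ⟶ Z := I.subschemeι
    have hi' : Set.range i' = (W : Set Z)ᶜ := by
      change Set.range I.subschemeι = _
      rw [Scheme.IdealSheafData.range_subschemeι, Scheme.IdealSheafData.coe_support_vanishingIdeal]
      rfl
    have hij : Set.range i' = (Set.range j)ᶜ := by
      rw [hi']
      change _ = (Set.range W.ι)ᶜ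
      rw [Scheme.Opens.range_ι]
    let C' : Closeds X := ⟨Set.range (i' ≫ i), (i' ≫ i).isClosedEmbedding.isClosed_range⟩
    have hlt : C' < C := by
      refine lt_of_le_of_ne ?_ ?_
      · rintro _ ⟨x, rfl⟩
        rw [Scheme.Hom.comp_apply]
        change i (i' x) ∈ (C : Set X)
        rw [← hC]
        exact ⟨_, rfl⟩
      · intro he
        have h1 : i z ∈ (C' : Set X) := by
          rw [he, ← hC]
          exact ⟨z, rfl⟩
        obtain ⟨x, hx⟩ := h1
        rw [Scheme.Hom.comp_apply] at hx
        have h2 := i.isClosedEmbedding.injective hx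
        have h3 : z ∈ Set.range i' := ⟨x, h2⟩
        rw [hi'] at h3
        exact h3 hzW
    exact hloc I.subscheme Z W.toScheme i' j hij (ih C' hlt I.subscheme (i' ≫ i) rfl)
      (haff Z W.toScheme i j)
  exact key ⊤ X (𝟙 X) (by simp)

/-- gluing for the finite generation of the groups of a graded theory -/
theorem thy_glue (L : LThy.{u}) (Z' Z W : Scheme.{0}) [IsNoetherian Z] (i : Z' ⟶ Z) (j : W ⟶ Z)
    [IsClosedImmersion i] [IsOpenImmersion j] (h : Set.range i = (Set.range j)ᶜ)
    (h1 : ∀ n : ℤ, AddGroup.FG ((L.th n).T Z')) (h2 : ∀ n : ℤ, AddGroup.FG ((L.th n).T W))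
    (n : ℤ) : AddGroup.FG ((L.th n).T Z) := by
  refine GTH.fg_of_exact ((L.th n).push i) ((L.th n).pull j) (fun x => ⟨(L.th n).ex i j h x, ?_⟩)
    (h1 n) (h2 n)
  rintro ⟨y, rfl⟩
  exact (L.th n).ex0 i j h y

/-- the groups of a graded theory are finitely generated if they are for affine schemes -/
theorem thy_ind (L : LThy.{u}) (X : Scheme.{0}) [IsNoetherian X]
    (haff : ∀ (Z W : Scheme.{0}) (i : Z ⟶ X) (j : W ⟶ Z) [IsClosedImmersion i]
      [IsOpenImmersion j] [IsAffine W] (n : ℤ), AddGroup.FG ((L.th n).T W)) (n : ℤ) :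
    AddGroup.FG ((L.th n).T X) :=
  sch_ind (X := X) (fun Z => ∀ n : ℤ, AddGroup.FG ((L.th n).T Z))
    (fun Z W i j _ _ _ n => haff Z W i j n)
    (fun Z' Z W _ i j _ _ h h1 h2 n => thy_glue L Z' Z W i j h h1 h2 n) n

/-- isomorphic schemes -/
theorem thy_iso (L : LThy.{u}) {X Y : Scheme.{0}} [IsNoetherian X] [IsNoetherian Y] (e : X ≅ Y)
    (n : ℤ) (h : AddGroup.FG ((L.th n).T Y)) : AddGroup.FG ((L.th n).T X) := by
  have h1 : Function.Surjective ((L.th n).pull e.hom) := by
    intro x
    refine ⟨(L.th n).pull e.inv x, ?_⟩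
    rw [← (L.th n).pull_comp]
    have h2 : ∀ (f : X ⟶ X) [Flat f], f = 𝟙 X → (L.th n).pull f x = x := by
      rintro f _ rfl
      exact (L.th n).pull_id X x
    exact h2 _ e.hom_inv_id
  exact AddGroup.fg_of_surjective h1

/-- schemes of finite type over a prime field of dimension at most one -/
theorem thy_dim (L : LThy.{u}) (p : ℕ) [Fact p.Prime]
    (hR : ∀ (B : Type) [CommRing B] [Algebra (ZMod p) B] [Algebra.FiniteType (ZMod p) B],
      ringKrullDim B ≤ 1 → ∀ n : ℤ, AddGroup.FG ((L.th n).T (Sp B)))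
    (X : Scheme.{0}) (f : X ⟶ Sp (ZMod p)) [LocallyOfFiniteType f] [QuasiCompact f]
    (h : topologicalKrullDim X ≤ 1) (n : ℤ) : AddGroup.FG ((L.th n).T X) := by
  haveI : IsNoetherian (Sp (ZMod p)) := inferInstance
  haveI : IsNoetherian X := h2_noeth f
  refine thy_ind L X (fun Z W i j _ _ _ m => ?_) n
  haveI hZ : IsNoetherian Z := h2_noeth i
  haveI : LocallyOfFiniteType (j ≫ i ≫ f) := inferInstance
  haveI : QuasiCompact j := inferInstance
  haveI : IsNoetherian W := h2_noeth j
  let B : Type := Γ(W, ⊤)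
  let φ : ZMod p →+* B := (Spec.preimage (W.isoSpec.inv ≫ j ≫ i ≫ f)).hom
  letI : Algebra (ZMod p) B := φ.toAlgebra
  haveI : Algebra.FiniteType (ZMod p) B := by
    have h1 : Spec.map (CommRingCat.ofHom φ) = W.isoSpec.inv ≫ j ≫ i ≫ f :=
      Spec.map_preimage _
    have h2 : LocallyOfFiniteType (Spec.map (CommRingCat.ofHom φ)) := by
      rw [h1]
      infer_instance
    rw [HasRingHomProperty.Spec_iff (P := @LocallyOfFiniteType)] at h2
    exact h2
  have h3 : ringKrullDim B ≤ 1 := by
    rw [← PrimeSpectrum.topologicalKrullDim_eq_ringKrullDim]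
    have h4 : topologicalKrullDim (Sp B) ≤ topologicalKrullDim W :=
      W.isoSpec.inv.homeomorph.isInducing.topologicalKrullDim_le
    have h5 : topologicalKrullDim W ≤ topologicalKrullDim X :=
      (i.isClosedEmbedding.isInducing.comp j.isOpenEmbedding.isInducing).topologicalKrullDim_le
    exact (h4.trans h5).trans h
  haveI : IsNoetherian (Sp B) := by
    haveI : IsNoetherianRing B := Algebra.FiniteType.isNoetherianRing (ZMod p) B
    infer_instance
  exact thy_iso L W.isoSpec m (hR B h3 m)

end Pool.Agent.GQ
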