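import Pool.Agent.GQ.StB

/-!
# GQ: curve data for domains finite over `k[X]`

`e_1, .., e_m` a basis of `A` over `P = k[X]`, `e_i e_j` has coordinates of degree `≤ s`. `O` is the set of the
`(q + a) / p`, `0 ≠ p`, `q ∈ P`, `a ∈ A`, `deg q ≤ deg p`, with the coordinates of `a` of degree `≤ deg p - s`.
-/

set_option autoImplicit false
set_option linter.unusedVariables false
set_option linter.unusedSectionVars false

noncomputable section

namespace Pool.Agent.GQ

open Polynomial

/-! ### polynomials of bounded degree -/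

section dl

variable {k : Type} [Field k]

/-- the degree is at most `z` -/
def ord_dl (z : ℤ) (q : k[X]) : Prop := ∀ n : ℕ, z < n → q.coeff n = 0

theorem ord_dl_zero (z : ℤ) : ord_dl z (0 : k[X]) := fun n _ => coeff_zero n

theorem ord_dl_add {z : ℤ} {q q' : k[X]} (h : ord_dl z q) (h' : ord_dl z q') :
    ord_dl z (q + q') := fun n hn => by rw [coeff_add, h n hn, h' n hn, add_zero]

theorem ord_dl_neg {z : ℤ} {q : k[X]} (h : ord_dl z q) : ord_dl z (-q) := fun n hn => by
  rw [coeff_neg, h n hn, neg_zero]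

theorem ord_dl_sub {z : ℤ} {q q' : k[X]} (h : ord_dl z q) (h' : ord_dl z q') :
    ord_dl z (q - q') := fun n hn => by rw [coeff_sub, h n hn, h' n hn, sub_zero]

theorem ord_dl_mono {z z' : ℤ} (hz : z ≤ z') {q : k[X]} (h : ord_dl z q) : ord_dl z' q :=
  fun n hn => h n (hz.trans_lt hn)

theorem ord_dl_mul {z z' : ℤ} {q q' : k[X]} (h : ord_dl z q) (h' : ord_dl z' q') :
    ord_dl (z + z') (q * q') := fun n hn => by
  rw [coeff_mul]
  refine Finset.sum_eq_zero fun x hx => ?_
  have hx' : x.1 + x.2 = n := Finset.HasAntidiagonal.mem_antidiagonal.1 hx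
  rcases lt_or_ge z (x.1 : ℤ) with h1 | h1
  · rw [h _ h1, zero_mul]
  · rw [h' _ (by omega), mul_zero]

theorem ord_dl_sum {ι : Type} (S : Finset ι) {z : ℤ} {f : ι → k[X]} (h : ∀ i ∈ S, ord_dl z (f i)) :
    ord_dl z (∑ i ∈ S, f i) := fun n hn => by
  rw [finsetSum_coeff]
  exact Finset.sum_eq_zero fun i hi => h i hi n hn

theorem ord_dl_self (q : k[X]) : ord_dl q.natDegree q := fun n hn =>
  coeff_eq_zero_of_natDegree_lt (by exact_mod_cast hn)

theorem ord_dl_cancel {z : ℤ} {p q : k[X]} (hp : p ≠ 0) (h : ord_dl (p.natDegree + z) (p * q)) :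
    ord_dl z q := fun n hn => by
  by_contra hc
  have hq : q ≠ 0 := fun h0 => hc (by rw [h0, coeff_zero])
  have h1 : n ≤ q.natDegree := le_natDegree_of_ne_zero hc
  have h2 := h (p.natDegree + q.natDegree) (by push_cast; omega)
  rw [← natDegree_mul hp hq] at h2
  exact mul_ne_zero hp hq (leadingCoeff_eq_zero.1 h2)

theorem ord_dl_neg_eq {z : ℤ} {q : k[X]} (hz : z < 0) (h : ord_dl z q) : q = 0 := by
  ext n
  rw [h n (by omega), coeff_zero]

theorem ord_dl_pred {n : ℕ} {q : k[X]} (h : ord_dl n q) (h0 : q.coeff n = 0) :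
    ord_dl (n - 1) q := fun l hl => by
  rcases lt_or_ge (n : ℤ) l with h1 | h1
  · exact h l h1
  · have : l = n := by omega
    rw [this, h0]

end dl

/-! ### the data -/

section

variable {k A F : Type} [Field k] [CommRing A] [IsDomain A] [Algebra k[X] A] [Field F]
  [Algebra A F] [IsFractionRing A F] {m : ℕ} (b : Module.Basis (Fin m) k[X] A)

/-- the coordinates have degree at most `z` -/
def ord_dA (z : ℤ) (a : A) : Prop := ∀ i, ord_dl z (b.repr a i)

theorem ord_dA_zero (z : ℤ) : ord_dA b z 0 := fun i => by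
  rw [map_zero]
  exact ord_dl_zero z

theorem ord_dA_add {z : ℤ} {a a' : A} (h : ord_dA b z a) (h' : ord_dA b z a') :
    ord_dA b z (a + a') := fun i => by
  rw [map_add]
  exact ord_dl_add (h i) (h' i)

theorem ord_dA_neg {z : ℤ} {a : A} (h : ord_dA b z a) : ord_dA b z (-a) := fun i => by
  rw [map_neg]
  exact ord_dl_neg (h i)

theorem ord_dA_mono {z z' : ℤ} (hz : z ≤ z') {a : A} (h : ord_dA b z a) : ord_dA b z' a :=
  fun i => ord_dl_mono hz (h i)

theorem ord_dA_smul {z z' : ℤ} {q : k[X]} {a : A} (h : ord_dl z q) (h' : ord_dA b z' a) :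
    ord_dA b (z + z') (q • a) := fun i => by
  rw [map_smul]
  exact ord_dl_mul h (h' i)

theorem ord_dA_ex (a : A) : ∃ N : ℕ, ord_dA b N a :=
  ⟨Finset.univ.sup fun i => (b.repr a i).natDegree, fun i => ord_dl_mono
    (by exact_mod_cast Finset.le_sup (f := fun i => (b.repr a i).natDegree) (Finset.mem_univ i))
    (ord_dl_self _)⟩

theorem ord_dA_mul {s : ℕ} (hs : ∀ i j, ord_dA b s (b i * b j)) {z z' : ℤ} {a a' : A}
    (h : ord_dA b z a) (h' : ord_dA b z' a') : ord_dA b (z + z' + s) (a * a') := fun l => by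
  have e : a * a' = ∑ i, ∑ j, (b.repr a i * b.repr a' j) • (b i * b j) := by
    conv_lhs => rw [← b.sum_repr a, ← b.sum_repr a']
    rw [Finset.sum_mul_sum]
    refine Finset.sum_congr rfl fun i _ => Finset.sum_congr rfl fun j _ => ?_
    rw [smul_mul_smul_comm]
  rw [e, map_sum, Finsupp.finsetSum_apply]
  refine ord_dl_sum _ fun i _ => ?_
  rw [map_sum, Finsupp.finsetSum_apply]
  refine ord_dl_sum _ fun j _ => ?_
  rw [map_smul]
  exact ord_dl_mul (ord_dl_mul (h i) (h' j)) (hs i j l)

/-- a polynomial as an element of `F` -/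
def ord_ι (A F : Type) [CommRing A] [Algebra k[X] A] [Field F] [Algebra A F] : k[X] →+* F :=
  (algebraMap A F).comp (algebraMap k[X] A)

/-- `f = (q + a) / p` -/
def ord_rep (s : ℕ) (f : F) (p q : k[X]) (a : A) : Prop :=
  p ≠ 0 ∧ ord_ι A F p * f = ord_ι A F q + algebraMap A F a ∧ ord_dl p.natDegree q ∧
    ord_dA b (p.natDegree - s) a

theorem ord_smul (q : k[X]) (a : A) :
    algebraMap A F (q • a) = ord_ι A F q * algebraMap A F a := by
  rw [Algebra.smul_def, map_mul]
  rfl

/-- the ring `O` -/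
def ord_O (s : ℕ) (hs : ∀ i j, ord_dA b s (b i * b j)) : Subring F where
  carrier := {f | ∃ p q a, ord_rep b s f p q a}
  mul_mem' := by
    rintro f f' ⟨p, q, a, hp, hf, hq, ha⟩ ⟨p', q', a', hp', hf', hq', ha'⟩
    refine ⟨p * p', q * q', q • a' + q' • a + a * a', mul_ne_zero hp hp', ?_, ?_, ?_⟩
    · rw [map_mul, map_add, map_add, map_mul, map_mul, ord_smul, ord_smul]
      linear_combination (ord_ι A F p' * f') * hf + (ord_ι A F q + algebraMap A F a) * hf'
    · rw [natDegree_mul hp hp', Nat.cast_add]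
      exact ord_dl_mul hq hq'
    · rw [natDegree_mul hp hp', Nat.cast_add]
      refine ord_dA_add b (ord_dA_add b ?_ ?_) ?_
      · exact ord_dA_mono b (by omega) (ord_dA_smul b hq ha')
      · exact ord_dA_mono b (by omega) (ord_dA_smul b hq' ha)
      · exact ord_dA_mono b (by omega) (ord_dA_mul b hs ha ha')
  one_mem' := ⟨1, 1, 0, one_ne_zero, by rw [map_one, map_zero, mul_one, add_zero],
    by rw [natDegree_one]; exact natDegree_one (R := k) ▸ ord_dl_self 1, ord_dA_zero b _⟩
  add_mem' := by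
    rintro f f' ⟨p, q, a, hp, hf, hq, ha⟩ ⟨p', q', a', hp', hf', hq', ha'⟩
    refine ⟨p * p', p' * q + p * q', p' • a + p • a', mul_ne_zero hp hp', ?_, ?_, ?_⟩
    · rw [map_mul, map_add, map_add, map_mul, map_mul, ord_smul, ord_smul]
      linear_combination (ord_ι A F p') * hf + (ord_ι A F p) * hf'
    · rw [natDegree_mul hp hp', Nat.cast_add]
      refine ord_dl_add ?_ (ord_dl_mul (ord_dl_self p) hq')
      exact ord_dl_mono (by omega) (ord_dl_mul (ord_dl_self p') hq)
    · rw [natDegree_mul hp hp', Nat.cast_add]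
      refine ord_dA_add b ?_ ?_
      · exact ord_dA_mono b (by omega) (ord_dA_smul b (ord_dl_self p') ha)
      · exact ord_dA_mono b (by omega) (ord_dA_smul b (ord_dl_self p) ha')
  zero_mem' := ⟨1, 0, 0, one_ne_zero, by rw [map_one, map_zero, map_zero, mul_zero, add_zero],
    ord_dl_zero _, ord_dA_zero b _⟩
  neg_mem' := by
    rintro f ⟨p, q, a, hp, hf, hq, ha⟩
    refine ⟨p, -q, -a, hp, ?_, ord_dl_neg hq, ord_dA_neg b ha⟩
    rw [map_neg, map_neg, mul_neg, hf]
    ring

theorem ord_mem (s : ℕ) (hs : ∀ i j, ord_dA b s (b i * b j)) (f : F) :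
    f ∈ ord_O b s hs ↔ ∃ p q a, ord_rep b s f p q a := Iff.rfl

/-- every element of `F` has a denominator in `k[X]` -/
theorem ord_den [Module.Finite k[X] A] (hinj : Function.Injective (algebraMap k[X] A)) (f : F) :
    ∃ (p : k[X]) (a : A), p ≠ 0 ∧ ord_ι A F p * f = algebraMap A F a := by
  obtain ⟨x, y, hy, rfl⟩ := IsFractionRing.div_surjective (A := A) f
  have hy0 : y ≠ 0 := nonZeroDivisors.ne_zero hy
  have hint : IsIntegral k[X] y := Algebra.IsIntegral.isIntegral y
  obtain ⟨p, hp, c, hc⟩ := hint.isAlgebraic.exists_nonzero_dvd hy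
  refine ⟨p, c * x, hp, ?_⟩
  have hyF : algebraMap A F y ≠ 0 := fun h => hy0 (IsFractionRing.injective A F (h.trans
    (map_zero _).symm))
  change algebraMap A F (algebraMap k[X] A p) * _ = _
  rw [hc, map_mul, map_mul]
  field_simp

theorem ord_ι_ne (hinj : Function.Injective (algebraMap k[X] A)) {p : k[X]} (hp : p ≠ 0) :
    ord_ι A F p ≠ 0 := fun h => hp (hinj (IsFractionRing.injective A F (by
      rw [map_zero, map_zero]
      exact h)))

end

/-- **Ord.** Curve data for domains finite over `k[X]`. -/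
theorem thm_Ord : St_Ord := by
  intro k A F _ _ _ _ _ _ _ _ _ hinj
  classical
  have htf : Module.IsTorsionFree k[X] A := Module.isTorsionFree_iff_algebraMap_injective.2 hinj
  obtain ⟨m, b⟩ : Σ m : ℕ, Module.Basis (Fin m) k[X] A := Module.basisOfFiniteTypeTorsionFree'
  obtain ⟨s, hs⟩ : ∃ s : ℕ, ∀ i j, ord_dA b s (b i * b j) := by
    choose N hN using fun x : Fin m × Fin m => ord_dA_ex b (b x.1 * b x.2)
    refine ⟨Finset.univ.sup N, fun i j => ord_dA_mono b ?_ (hN (i, j))⟩
    exact_mod_cast Finset.le_sup (f := N) (Finset.mem_univ (i, j))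
  have hX : ord_ι A F (X : k[X]) ≠ 0 := ord_ι_ne hinj X_ne_zero
  have hXn : ∀ n : ℕ, (X ^ n : k[X]) ≠ 0 := fun n => pow_ne_zero n X_ne_zero
  refine ⟨⟨algebraMap k[X] A X, ord_O b s hs, hX, ?_, ?_, ?_, ?_, ?_⟩⟩
  · refine ⟨X, 1, 0, X_ne_zero, ?_, ?_, ord_dA_zero b _⟩
    · rw [map_one, map_zero, add_zero]
      exact mul_inv_cancel₀ hX
    · exact ord_dl_mono (by rw [natDegree_one]; omega) (ord_dl_self (1 : k[X]))
  · -- finiteness of the residue group
    let g : k × (Fin m → k) → F := fun c => ord_ι A F (C c.1) +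
      (ord_ι A F (X ^ s : k[X]))⁻¹ * algebraMap A F (∑ i, C (c.2 i) • b i)
    refine ⟨Set.range g, Set.finite_range g, ?_⟩
    rintro u ⟨p, q, a, hp, hu, hq, ha⟩
    have hlc : p.leadingCoeff ≠ 0 := leadingCoeff_ne_zero.2 hp
    let c₀ : k := q.coeff p.natDegree / p.leadingCoeff
    let c : Fin m → k := fun i => (X ^ s * b.repr a i).coeff p.natDegree / p.leadingCoeff
    refine ⟨g (c₀, c), ⟨(c₀, c), rfl⟩, p * X ^ s, X ^ (s + 1) * (q - p * C c₀),
      (X : k[X]) • ((X ^ s : k[X]) • a - p • ∑ i, C (c i) • b i), mul_ne_zero hp (hXn s), ?_,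
      ?_, ?_⟩
    · have hXs : ord_ι A F (X ^ s : k[X]) ≠ 0 := ord_ι_ne hinj (hXn s)
      change ord_ι A F (p * X ^ s) * (ord_ι A F (X : k[X]) * (u - (ord_ι A F (C c₀) +
        (ord_ι A F (X ^ s : k[X]))⁻¹ * algebraMap A F (∑ i, C (c i) • b i)))) = _
      rw [ord_smul, map_sub (algebraMap A F), ord_smul, ord_smul, map_mul (ord_ι A F),
        map_mul (ord_ι A F), map_sub (ord_ι A F), map_mul (ord_ι A F), pow_succ,
        map_mul (ord_ι A F)]
      field_simp
      linear_combination (ord_ι A F (X ^ s : k[X])) * hu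
    · rw [natDegree_mul hp (hXn s), natDegree_X_pow]
      have h1 : ord_dl (p.natDegree - 1) (q - p * C c₀) := by
        refine ord_dl_pred (ord_dl_sub hq ?_) ?_
        · have := ord_dl_mul (ord_dl_self p) (ord_dl_self (C c₀))
          rwa [natDegree_C, Nat.cast_zero, add_zero] at this
        · rw [coeff_sub, coeff_mul_C]
          change q.coeff p.natDegree - p.leadingCoeff * (q.coeff p.natDegree / p.leadingCoeff) = 0
          rw [mul_div_cancel₀ _ hlc, sub_self]
      have h2 := ord_dl_mul (ord_dl_self (X ^ (s + 1) : k[X])) h1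
      rw [natDegree_X_pow] at h2
      exact ord_dl_mono (by push_cast; omega) h2
    · rw [natDegree_mul hp (hXn s), natDegree_X_pow]
      intro i
      have hrep : b.repr (∑ i, C (c i) • b i) i = C (c i) := by
        rw [b.repr_sum_self]
      rw [map_smul, map_sub, map_smul, map_smul]
      change ord_dl _ (X * (X ^ s * b.repr a i - p * b.repr (∑ i, C (c i) • b i) i))
      rw [hrep]
      have h0 := ord_dl_mul (ord_dl_self (X ^ s : k[X])) (ha i)
      rw [natDegree_X_pow] at h0
      have h1 : ord_dl (p.natDegree - 1) (X ^ s * b.repr a i - p * C (c i)) := by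
        refine ord_dl_pred (ord_dl_sub (ord_dl_mono (by omega) h0) ?_) ?_
        · have := ord_dl_mul (ord_dl_self p) (ord_dl_self (C (c i)))
          rwa [natDegree_C, Nat.cast_zero, add_zero] at this
        · rw [coeff_sub, coeff_mul_C]
          change (X ^ s * b.repr a i).coeff p.natDegree - p.leadingCoeff *
            ((X ^ s * b.repr a i).coeff p.natDegree / p.leadingCoeff) = 0
          rw [mul_div_cancel₀ _ hlc, sub_self]
      have h2 := ord_dl_mul (ord_dl_self (X : k[X])) h1
      rw [natDegree_X] at h2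
      exact ord_dl_mono (by push_cast; omega) h2
  · intro f
    obtain ⟨p, a, hp, hf⟩ := ord_den (A := A) hinj f
    obtain ⟨N, hN⟩ := ord_dA_ex b a
    refine ⟨N + s, p * X ^ (N + s), 0, a, mul_ne_zero hp (hXn _), ?_, ord_dl_zero _, ?_⟩
    · change ord_ι A F (p * X ^ (N + s)) * ((ord_ι A F (X : k[X]))⁻¹ ^ (N + s) * f) = _
      rw [map_zero, zero_add, ← hf, map_mul, map_pow, inv_pow]
      field_simp
    · rw [natDegree_mul hp (hXn _), natDegree_X_pow]
      exact ord_dA_mono b (by push_cast; omega) hN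
  · refine ⟨s, fun f => ?_⟩
    obtain ⟨p, a, hp, hf⟩ := ord_den (A := A) hinj f
    let M : A := ∑ i, (b.repr a i / p) • b i
    let R : A := ∑ i, (b.repr a i % p) • b i
    have hMR : a = p • M + R := by
      conv_lhs => rw [← b.sum_repr a]
      rw [Finset.smul_sum, ← Finset.sum_add_distrib]
      refine Finset.sum_congr rfl fun i _ => ?_
      rw [smul_smul, ← add_smul, EuclideanDomain.div_add_mod]
    have hpF : ord_ι A F p ≠ 0 := ord_ι_ne hinj hp
    refine ⟨M, (ord_ι A F (X : k[X]))⁻¹ ^ s * ((ord_ι A F p)⁻¹ * algebraMap A F R), ⟨p * X ^ s, 0, R,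
      mul_ne_zero hp (hXn _), ?_, ord_dl_zero _, ?_⟩, ?_⟩
    · rw [map_zero, zero_add, map_mul, map_pow, inv_pow]
      field_simp
    · rw [natDegree_mul hp (hXn _), natDegree_X_pow]
      intro i
      have hrep : b.repr R i = b.repr a i % p := by
        rw [b.repr_sum_self]
      rw [hrep]
      intro n hn
      refine coeff_eq_zero_of_degree_lt ?_
      refine (EuclideanDomain.mod_lt _ hp).trans_le ?_
      refine (degree_le_natDegree).trans ?_
      have : p.natDegree ≤ n := by push_cast at hn; omega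
      exact_mod_cast this
    · change f = algebraMap A F M + ord_ι A F (X : k[X]) ^ s * _
      have h1 : ord_ι A F p * f = ord_ι A F p * algebraMap A F M + algebraMap A F R := by
        rw [hf, hMR, map_add, ord_smul]
      rw [inv_pow]
      field_simp
      linear_combination h1
  · obtain ⟨N, hN⟩ := ord_dA_ex b 1
    refine ⟨N + 1, fun x hx => ?_⟩
    obtain ⟨p, q, c, hp, hf, hq, hc⟩ := hx
    have h1 : (p * X ^ (N + 1)) • x = q • (1 : A) + c := by
      apply IsFractionRing.injective A F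
      rw [map_add, ord_smul, ord_smul, map_one, mul_one, ← hf, map_mul, map_pow, mul_assoc]
      rfl
    have h2 : x = 0 := by
      refine b.repr.injective ?_
      rw [map_zero]
      refine Finsupp.ext fun i => ?_
      have h3 : (p * X ^ (N + 1)) * b.repr x i = q * b.repr 1 i + b.repr c i := by
        have := congrArg (fun y => b.repr y i) h1
        simpa using this
      have h4 : ord_dl (((p * X ^ (N + 1)).natDegree : ℤ) + (-1))
          ((p * X ^ (N + 1)) * b.repr x i) := by
        rw [h3, natDegree_mul hp (hXn _), natDegree_X_pow]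
        refine ord_dl_add (ord_dl_mono (by push_cast; omega) (ord_dl_mul hq (hN i))) ?_
        exact ord_dl_mono (by push_cast; omega) (hc i)
      exact ord_dl_neg_eq (by norm_num) (ord_dl_cancel (mul_ne_zero hp (hXn _)) h4)
    rw [h2, map_zero]

end Pool.Agent.GQ
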