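import Pool.Agent.GQ.Defs4
import Pool.Agent.GQ.StA

/-!
# GQ: statements, part B: lattices, semistability, finiteness

Notation of the comments: `t ^ z L` is the set of the `v` with `D.Mem z L v`; `U_j = M ∩ t ^ j L`.
Standing facts: `t⁻¹ O ⊆ O`, so `t ^ y L ⊆ t ^ z L` for `y ≤ z`; `⋂ t ^ z O = 0` (if `f ≠ 0` is in it, then, as
`f⁻¹ ∈ t ^ j O`, `1 ∈ t ^ z O` for all `z`, so `O = F` and `D.dis` gives `A = 0`); `t ∈ A`.
-/

set_option autoImplicit false
set_option linter.unusedVariables false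

noncomputable section

namespace Pool.Agent.GQ

open CategoryTheory Function Pool.Agent.KQ Pool.Agent.FGK

/-! ### lattices -/

/-- **Lat1.** Lattices over `O`.

Proof. (1) `t ^ y L ⊆ t ^ z L`. (2) the base change matrix between two bases has entries in `t ^ i O` for some `i`
(`D.abs`). (3) lattices given by a basis and exponents. (4) sums: with (2) for one basis. (5) every `v` is in
some `t ^ z L`. (6) `⋂ t ^ z L = 0`, coordinates. (7) `L' ` between `L` and `t L`: `t L / L` is finite, because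
`t ^ i O / t ^ (i-1) O ≅ O / t⁻¹ O` is finite (`D.fin`), so `t ^ i O / t ^ j O` is finite for all `j ≤ i`, and
`t L / L` is a quotient of a subgroup of `⨁ t ^ i O / t ^ (-i) O`; a subgroup between `L` and `t L` is
determined by its image in `t L / L`. -/
def St_Lat1 : Prop := ∀ (A F V : Type) [CommRing A] [IsDomain A] [Field F] [Algebra A F]
  [IsFractionRing A F] [AddCommGroup V] [Module F V] [FiniteDimensional F V] (D : CD A F),
  (∀ (L : D.Lat V) (y z : ℤ) (v : V), y ≤ z → D.Mem y L v → D.Mem z L v) ∧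
  (∀ (L : D.Lat V) (r : ℕ) (b : Module.Basis (Fin r) F V), ∃ i : ℕ,
    (∀ v : V, (∀ l, b.repr v l ∈ D.O) → D.Mem i L v) ∧
    ∀ (z : ℤ) (v : V), D.Mem z L v → ∀ l, D.t ^ (-(z + i)) * b.repr v l ∈ D.O) ∧
  (∀ (r : ℕ) (b : Module.Basis (Fin r) F V) (e : Fin r → ℤ), ∃ L : D.Lat V,
    ∀ (z : ℤ) (v : V), D.Mem z L v ↔ ∀ l, D.t ^ (-(z + e l)) * b.repr v l ∈ D.O) ∧
  (∀ L L' : D.Lat V, ∃ L'' : D.Lat V, L''.1 = L.1 ⊔ L'.1) ∧
  (∀ (L : D.Lat V) (v : V), ∃ z, D.Mem z L v) ∧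
  (∀ (L : D.Lat V) (v : V), (∀ z, D.Mem z L v) → v = 0) ∧
  ∀ L : D.Lat V, {L' : D.Lat V | L ≤ L' ∧ D.Near L L'}.Finite

/-- **Lat2.** Lattices over `A` and lattices over `O`.

Proof. Let `v_1, .., v_r ∈ M` be a basis of `V`; `M ⊆ d⁻¹ ⨁ A v_i` for some `d ≠ 0` in `A` (`M` is finitely
generated). (1) `⨁ (A + t ^ e O) v_i = V` (`D.coc`), and `⨁ t ^ e O v_i ⊆ t ^ a L` for large `a`. (2) a
coordinate `d⁻¹ x ∈ t ^ (-z) O`, `x ∈ A`, implies `x ∈ t ^ (i-z) O` where `d ∈ t ^ i O`; `D.dis`. (3) `M ∩ t ^ z L` is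
finite: `(M ∩ t ^ (z+1) L) / (M ∩ t ^ z L)` embeds into `t ^ (z+1) L / t ^ z L`, finite (see Lat1 (7)), start with
(2). (4) `H1z`: basis of `W` in `M ∩ W` (`M ∩ W` spans `W`: multiply by denominators), as in (1), `M ∩ W` and
`t ^ a L ∩ W`. (5) `H0z`: choose a basis of `V` adapted to `W` (`v_{s+1}, .., v_r` map to a basis of `V / W`); if
`m - v ∈ W`, the coordinates of `m` and `v` at `s+1, .., r` agree, and are in `d⁻¹ A` and in `t ^ (b+i) O`, so they
vanish for small `b`. (6) `M ∩ t ^ z L ≠ 0` for large `z`. -/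
def St_Lat2 : Prop := ∀ (A F V : Type) [CommRing A] [IsDomain A] [Field F] [Algebra A F]
  [IsFractionRing A F] [AddCommGroup V] [Module F V] [FiniteDimensional F V] [Module A V]
  [IsScalarTower A F V] (D : CD A F) (M : Submodule A V) (L : D.Lat V), IsLatA F M →
  (∃ a : ℤ, ∀ z, a ≤ z → ∀ v, ∃ m ∈ M, D.Mem z L (v - m)) ∧
  (∃ a : ℤ, ∀ z, z ≤ a → ∀ m ∈ M, D.Mem z L m → m = 0) ∧
  (∀ z : ℤ, {m : V | m ∈ M ∧ D.Mem z L m}.Finite) ∧
  (∀ W : Submodule F V, ∃ a : ℤ, ∀ z, a ≤ z → D.H1z M L W z) ∧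
  (∀ W : Submodule F V, ∃ a : ℤ, ∀ z, z ≤ a → D.H0z M L W z) ∧
  (∀ m ∈ M, ∃ z, D.Mem z L m)

/-- **Tot.** The destabilizing subspaces of a chain are totally ordered.

Proof. `a` for `W`, `a'` for `W'`; we may assume `a ≤ a'` and show `W ≤ W'`. Suppose not. (i) there is
`l ∈ L ∩ W` with `t l ∉ (L ∩ W) + W'`: otherwise `t ^ i (L ∩ W) ⊆ (L ∩ W) + W'` for all `i ≥ 0`; let `w ∈ W ∖ W'`, then
`t ^ (-j) w ∈ L ∩ W` for some `j`, so `t ^ i w ∈ L + W'` for all large `i`; apply a linear form `φ` with `φ(W') = 0`,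
`φ(w) = 1`: `t ^ i ∈ φ(L) ⊆ t ^ N O` for all large `i`, so `O = F`, contradiction. (ii) `H1z M L W a` for
`t ^ (a+1) l`: `t ^ (a+1) l - m ∈ t ^ a L`, `m ∈ M ∩ W`. So `m ∈ t ^ (a+1) L` (`t ^ a L ⊆ t ^ (a+1) L`)
`⊆ t ^ (a'+1) L'`, and `m - m ∈ W'`: by `H0z M L' W' (a'+1)` (with `v = m`) `m ∈ W'`. So
`t l ∈ t ^ (-a) m + (L ∩ W) ⊆ W' + (L ∩ W)`, contradiction. -/
def St_Tot : Prop := ∀ (A F V : Type) [CommRing A] [IsDomain A] [Field F] [Algebra A F]
  [IsFractionRing A F] [AddCommGroup V] [Module F V] [FiniteDimensional F V] [Module A V]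
  [IsScalarTower A F V] (D : CD A F) (M : Submodule A V) (L L' : D.Lat V), IsLatA F M → L ≤ L' →
  ∀ W ∈ D.Dst M L L', ∀ W' ∈ D.Dst M L L', W ≤ W' ∨ W' ≤ W

/-- **Bdd.** Chains without destabilizing subspaces are bounded, after a twist.

Proof. `e` from `D.coc`, `r = dim V`, `b = (r-1)(e+2) + e`. There is a smallest `z` with `M ∩ t ^ z L ≠ 0` (Lat2).
Twisting (replace `L`, `L'` by `t ^ z L`, `t ^ z L'`: in the statement the twist is written explicitly) we may
assume `z = 0`. `W_a` = the span of `M ∩ t ^ a L`, increasing, `W_0 ≠ 0`. (i) `H1z M L W_a (a+e)`: a basis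
`v_i ∈ M ∩ t ^ a L` of `W_a`, `W_a = ∑ (A + t ^ e O) v_i`. (ii) if `a ≥ 0`, `W_a ≠ V`, then `W_a ≠ W_{a+e+2}`: `W_a` is not
destabilizing, so `H0z M L' W_a (a+e+1)` fails: `m ∈ M`, `v ∈ t ^ (a+e+1) L' ⊆ t ^ (a+e+2) L`, `m - v ∈ W_a`, `m ∉ W_a`. By (i)
`m - v = m' + v'`, `m' ∈ M ∩ W_a`, `v' ∈ t ^ (a+e) L`, so `m - m' = v + v' ∈ M ∩ t ^ (a+e+2) L`, not in `W_a`. (iii) so
`W_{(r-1)(e+2)} = V`, and (i). -/
def St_Bdd : Prop := ∀ (A F V : Type) [CommRing A] [IsDomain A] [Field F] [Algebra A F]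
  [IsFractionRing A F] [AddCommGroup V] [Module F V] [FiniteDimensional F V] [Module A V]
  [IsScalarTower A F V] [Nontrivial V] (D : CD A F), ∃ b : ℕ, ∀ (M : Submodule A V)
  (L L' : D.Lat V), IsLatA F M → L ≤ L' → D.Near L L' → D.Dst M L L' = ∅ →
    ∃ z : ℤ, (∀ m ∈ M, D.Mem (z - 1) L m → m = 0) ∧ ∀ v, ∃ m ∈ M, D.Mem (z + b) L (v - m)

/-- **ExL.** Every `M` has a bounded `L`.

Proof. `b = e` from `D.coc`. A basis `v_1, .., v_r` of `V`, `V_i` the span of the first `i`, `I_i ⊆ F` the image of `M ∩ V_i`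
under the `i`-th coordinate, a lattice in `F` (nonzero, `d I_i ⊆ A` for some `d ≠ 0`). `z_i`: smallest with
`I_i ∩ t ^ {z_i} O ≠ 0` (Lat2 for `F`, or directly). Then `I_i + t ^ {z_i + e} O = F`: for `x ≠ 0` in the
intersection `F = x F = x A + x t ^ e O`. `L = ⨁ t ^ {z_i} O v_i` (Lat1 (3)). If `m ∈ M ∩ t⁻¹ L`, its last nonzero
coordinate is in `I_i ∩ t ^ {z_i - 1} O = 0`. `V = M + t ^ e L`: subtract successively, last coordinate first. -/
def St_ExL : Prop := ∀ (A F V : Type) [CommRing A] [IsDomain A] [Field F] [Algebra A F]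
  [IsFractionRing A F] [AddCommGroup V] [Module F V] [FiniteDimensional F V] [Module A V]
  [IsScalarTower A F V] (D : CD A F), ∃ b : ℕ, ∀ M : Submodule A V, IsLatA F M →
    ∃ L : D.Lat V, (∀ m ∈ M, D.Mem (-1) L m → m = 0) ∧ ∀ v, ∃ m ∈ M, D.Mem b L (v - m)

/-- **Cnt.** Counting.

Proof. `Q = |O / t⁻¹ O| ≥ 2` (`1 ∉ t⁻¹ O`, otherwise `t ^ i ∈ O` for all `i`, `O = F`). `[t L : L] = Q ^ r`: for the
lattice of a basis clear; for `L ⊆ L'` of finite index `[t L' : t L] = [L' : L]`, so `[t L : L] = [t L' : L']`; any two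
lattices contain a common one (`t ^ (-i)`). (2) `(M ∩ t ^ j L) / (M ∩ t ^ (j-1) L)` embeds in
`t ^ j L / t ^ (j-1) L`; induction on `j` (for `j = 0` the subgroup `M ∩ t⁻¹ L` is trivial). (1) for `i ≥ e` the map
`A ∩ t ^ (i+1) O → t ^ (i+1) O / t ^ i O` is onto (`t ^ (i+1) O ⊆ F = A + t ^ i O`), kernel `A ∩ t ^ i O`. -/
def St_Cnt : Prop := ∀ (A F : Type) [CommRing A] [IsDomain A] [Field F] [Algebra A F]
  [IsFractionRing A F] (D : CD A F), ∃ Q e : ℕ, 2 ≤ Q ∧
  (∀ i : ℕ, {a : A | D.t⁻¹ ^ (e + i) * algebraMap A F a ∈ D.O}.Finite ∧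
    Q ^ i ≤ Nat.card {a : A | D.t⁻¹ ^ (e + i) * algebraMap A F a ∈ D.O}) ∧
  ∀ (V : Type) [AddCommGroup V] [Module F V] [FiniteDimensional F V] [Module A V]
    [IsScalarTower A F V] (M : Submodule A V) (L : D.Lat V), IsLatA F M →
    (∀ m ∈ M, D.Mem (-1) L m → m = 0) → ∀ j : ℕ, {m : V | m ∈ M ∧ D.Mem j L m}.Finite ∧
      Nat.card {m : V | m ∈ M ∧ D.Mem j L m} ≤ Q ^ (Module.finrank F V * (j + 1))

/-- **FinP.** Finitely many isomorphism classes of bounded pairs.

Proof. `r = dim V`, `Q`, `e` from Cnt, `J = b + 1`. Facts for such a pair, `U_j = M ∩ t ^ j L`: (p1)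
`t ^ j L = U_j + t ^ (j-1) L` for `j ≥ b + 1`, so `t ^ J L = ⟨t ^ (-i) U_J⟩ + t ^ (J-n) L` for all `n` (the first term: the
additive subgroup generated by the `t ^ (-i) U_J`, `i ≥ 0`, contained in `t ^ J L`). (p2) `M` is generated by
`U_J` over `A`: `U_j ⊆ t U_{j-1} + U_{j-1}` for `j > J` by (p1) for `j - 1` multiplied by `t`. (p3) so `U_J` spans `V`. Let
`E` be such that `(1 + r)(E - e) > r (J + E + 1)`, `S = {a ∈ A | a ∈ t ^ E O}`, finite, at least `Q ^ (E - e)` elements.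
DATA of the pair: the finite group `U = U_{J+E}` (at most `Q ^ (r (J+E+1))` elements), its subset `U_J`, and
the maps `S × U_J → U`, `(a, u) ↦ a u`. Choosing a bijection of `U` with some `Fin N` the data take values in a
finite set; so it is enough: if `φ : U → U'` is an additive bijection for two pairs `(M, L)`, `(M', L')` with
`φ(U_J) = U'_J`, `φ(a u) = a φ(u)`, then there is `g` with `g M = M'`, `g L = L'`. Let `v_1, .., v_r ∈ U_J` be a basis of `V`,
`g` the linear map with `g v_i = φ(v_i)`. For `u ∈ U_J` the map `S ^ (1+r) → U`, `(a, a_i) ↦ a u - ∑ a_i v_i` is additive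
and not injective by counting, so there is a nonzero element `(a, a_i)` of its kernel, `a ≠ 0`; then
`a φ(u) = φ(a u) = ∑ φ(a_i v_i) = ∑ a_i g v_i = a g(u)`. So `g = φ` on `U_J`. The same for `φ⁻¹`, so `g` is bijective. `g M = M'`
by (p2), `g L ⊆ L'` by (p1) with `n` so large that `t ^ (J-n) g L ⊆ t ^ J L'`. -/
def St_FinP : Prop := ∀ (A F V : Type) [CommRing A] [IsDomain A] [Field F] [Algebra A F]
  [IsFractionRing A F] [AddCommGroup V] [Module F V] [FiniteDimensional F V] [Module A V]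
  [IsScalarTower A F V] (D : CD A F) (b : ℕ), ∃ T : Set (Submodule A V × D.Lat V), T.Finite ∧
  ∀ (M : Submodule A V) (L : D.Lat V), IsLatA F M → (∀ m ∈ M, D.Mem (-1) L m → m = 0) →
    (∀ v, ∃ m ∈ M, D.Mem b L (v - m)) → ∃ (g : V ≃ₗ[F] V) (M' : Submodule A V) (L' : D.Lat V),
      (M', L') ∈ T ∧ (∀ v, g v ∈ M' ↔ v ∈ M) ∧ L' = D.latG g L

/-- **JZ.** Finitely many isomorphism classes of lattices over `A` (Jordan, Zassenhaus). ExL, FinP. -/
def St_JZ : Prop := ∀ (A F V : Type) [CommRing A] [IsDomain A] [Field F] [Algebra A F]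
  [IsFractionRing A F] [AddCommGroup V] [Module F V] [FiniteDimensional F V] [Module A V]
  [IsScalarTower A F V] (D : CD A F), ∃ T : Set (Submodule A V), T.Finite ∧
  ∀ M : Submodule A V, IsLatA F M → ∃ (g : V ≃ₗ[F] V) (M' : Submodule A V), M' ∈ T ∧
    ∀ v, g v ∈ M' ↔ v ∈ M

/-- **XFin.** The stable part of the complex of lattices modulo `GL(M) × t ^ ℤ`.

Proof. First part: `σ = (L_0 ≤ .. ≤ L_n)` not in `unS`: `D.Dst M L_0 L_n = ∅`, Bdd: after a twist `t ^ (-z)` (an element of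
the group; `Dst` is compatible with twists) the pair `(M, L_0)` is as in FinP. So there is a finite set `T₀` of
lattices such that `L_0` is in the orbit of an element of `T₀` under `GL(M) × t ^ ℤ`: for every `(M', L')` in the
`T` of FinP for which it is possible choose `g₀` and `L_*` with `g₀ M = M'`, `g₀ L_* = L'`; if also `g M = M'`,
`g L = L'`, then `g₀⁻¹ g ∈ GL(M)` maps `L` to `L_*`. `T` = the chains which start with an element of `T₀`: finitely many
(Lat1 (7), all `L_i` are between `L_0` and `t L_0`). Second part: `h = g t ^ z` fixes `L_0`, `g ∈ GL(M)`, so `h` maps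
`M ∩ t ^ j L_0` to `M t ^ z ∩ t ^ j L_0 ≅ M ∩ t ^ (j-z) L_0`; these finite groups have strictly increasing order for
large `j` (Lat2 (1): `t ^ j L_0 ⊆ M + t ^ (j-1) L_0`), so `z = 0`. Then `g` permutes the finite set `M ∩ t ^ j L_0`,
which generates `V` for large `j`, so there are finitely many `g`. -/
def St_XFin : Prop := ∀ (A F V : Type) [CommRing A] [IsDomain A] [Field F] [Algebra A F]
  [IsFractionRing A F] [AddCommGroup V] [Module F V] [FiniteDimensional F V] [Module A V]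
  [IsScalarTower A F V] [Nontrivial V] (D : CD A F) (M : Submodule A V), IsLatA F M →
  (∀ n, ∃ T : Set ((D.X V).obj n), T.Finite ∧ ∀ σ, σ ∉ (D.unS M).s n →
    ∃ g, (((D.xG V).res (D.gz M)).act g).app n σ ∈ T) ∧
  ∀ n (σ : (D.X V).obj n),
    {g : Gam (F := F) M × Multiplicative ℤ |
      (((D.xG V).res (D.gz M)).act g).app n σ = σ}.Finite

/-! ### contractibility -/

/-- the sum of two lattices -/
def CD.IsSum {A F : Type} [CommRing A] [Field F] [Algebra A F] (D : CD A F) {V : Type}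
    [AddCommGroup V] [Module F V] (L L' L'' : D.Lat V) : Prop := L''.1 = L.1 ⊔ L'.1

/-- **Path.** A path of lattices.

Proof. `f_0 ≤ .. ≤ f_q` nonzero subspaces. Choose a basis `v_1, .., v_r` of `V` such that every `f_i` is spanned by the
first `dim f_i` vectors. For `e : Fin r → ℤ` let `Λ(e) = ⨁ t ^ {e_l} O v_l` (Lat1 (3)). By Lat1 (2) we may enlarge `B`: there is
`B'` with `Λ(-B') ≤ t ^ (-B) L_*`, `t ^ B L_* ≤ Λ(B')`, `L_*` the given lattice. Choose `N_r, a_{r-1}, N_{r-1}, a_{r-2}, .., N_1` in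
this order: `N_r ≥ B'`; given `N_{d+1}, .., N_r`: `a_d` such that `H0z M Λ(B', .., B', N_{d+1}, .., N_r) (span v_1..v_d) (a_d + 1)`
(Lat2 (5)), `N_d ≥ N_{d+1}` such that `H1z M Λ(N_d, .., N_d) (span v_1..v_d) a_d` (Lat2 (4) for `Λ(0)` and
`t ^ N Λ(0) = Λ(N)`). The path: start with `e = (-B', .., -B')`, raise `e_1` by steps of one to `N_1`, then `e_2` to `N_2`, ..,
`e_r` to `N_r`. Consecutive terms satisfy `Λ ≤ Λ' ≤ t Λ`. Check the last property for `f_i`, `d = dim f_i < r`, while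
`e_l` is raised: `l ≤ d`: the components of `Λ'` beyond `d` are those of `Λ(-B') ≤ L'`, so `L' + Λ' + f_i = L' + f_i` and
`H0z M (L' + Λ') f_i (a+1) ↔ H0z M L' f_i (a+1)`; `H1z` passes from `L` to `L + Λ`. `l > d`: take `a = a_d`: modulo `f_i` the
lattice `L' + Λ'` is contained in `Λ(B', .., B', N_{d+1}, .., N_r)`, and `L + Λ` contains the vectors of
`Λ(N_d, .., N_d)` in `f_i`. -/
def St_Path : Prop := ∀ (A F V : Type) [CommRing A] [IsDomain A] [Field F] [Algebra A F]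
  [IsFractionRing A F] [AddCommGroup V] [Module F V] [FiniteDimensional F V] [Module A V]
  [IsScalarTower A F V] (D : CD A F) (M : Submodule A V), IsLatA F M →
  ∀ (q : ℕ) (f : Fin (q + 1) →o Submodule F V), (∀ i, f i ≠ ⊥) → ∀ (Lm Lp : D.Lat V),
  ∃ (K : ℕ) (Λ : ℕ → D.Lat V), Λ 0 ≤ Lm ∧ Lp ≤ Λ K ∧ (∀ s < K, Λ s ≤ Λ (s + 1)) ∧
    (∀ s < K, D.Near (Λ s) (Λ (s + 1))) ∧
    ∀ L L' P P' : D.Lat V, Lm ≤ L → L ≤ L' → L' ≤ Lp →
      (∀ i, f i = ⊤ ∨ f i ∈ D.Dst M L L') → ∀ s < K, D.IsSum L (Λ s) P →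
      D.IsSum L' (Λ (s + 1)) P' → ∀ i, f i = ⊤ ∨ f i ∈ D.Dst M P P'

/-- **XCon.** The part of the complex of lattices on which given subspaces are destabilizing is
contractible.

Proof. `X = (D.XF M f).S`. Fix a lattice `L_*`. `X` is the union over `B : ℕ` of `X_B = {σ | t ^ (-B) L_* ≤ σ_0, σ_n ≤ t ^ B L_*}`
(all `σ_i` are between; two lattices are commensurable, Lat1). Fix `B`, the path `Λ` of St_Path for
`Lm = t ^ (-B) L_*`, `Lp = t ^ B L_*`. Maps `φ_s : X_B → X`, `σ_i ↦ σ_i + Λ_s` (`≤ t (σ_0 + Λ_s)`; in `XF` by the last property and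
`D.Dst_mono`), `φ_0` the inclusion, `φ_K` the constant map to the vertex `Λ_K`. Homotopy from `φ_s` to `φ_{s+1}`: for
`α` the chain `σ_i + Λ_s` for `α i = false`, `σ_i + Λ_{s+1}` for `α i = true`; `σ_n + Λ_{s+1} ≤ t (σ_0 + Λ_s)`. So the inclusion of
`X_B` is `StrEq` to the constant map to `c_B = Λ_K` (`KQ.all_StrHt` (1)). In particular the vertex `c_{B_0}`, which is in `X_B` for all
large `B`, is homotopic to `c_B` (restrict to this vertex); so the inclusion of `X_B` is `StrEq` to the constant map to `c_{B_0}` for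
all large `B`. `KQ.thm_StrUnion` (first part) and `all_StrHt` (3). (`XF` is nonempty: apply St_Path to get...: if all `X_B` are
empty, `X` is empty; to see that it is not, take the lattice `Λ(N_1, .., N_r)` of the proof of St_Path, that is, use the
last statement of this definition.) -/
def St_XCon : Prop := ∀ (A F V : Type) [CommRing A] [IsDomain A] [Field F] [Algebra A F]
  [IsFractionRing A F] [AddCommGroup V] [Module F V] [FiniteDimensional F V] [Module A V]
  [IsScalarTower A F V] (D : CD A F) (M : Submodule A V), IsLatA F M →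
  ∀ (q : ℕ) (f : Fin (q + 1) →o Submodule F V), (∀ i, f i ≠ ⊥) → SSt.Contr (D.XF M f).S

/-- **XNe.** There are lattices for which given subspaces are destabilizing.

Proof. As in St_Path: a basis adapted to `f`, `L = Λ(N_1, .., N_r)` with `N_r = 0` and, for `d = r-1, .., 1`, `a_d` with
`H0z M Λ(0, .., 0, N_{d+1}, .., N_r) (span v_1..v_d) (a_d + 1)`, `N_d ≥ N_{d+1}` with `H1z M Λ(N_d, .., N_d) (span v_1..v_d) a_d`. -/
def St_XNe : Prop := ∀ (A F V : Type) [CommRing A] [IsDomain A] [Field F] [Algebra A F]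
  [IsFractionRing A F] [AddCommGroup V] [Module F V] [FiniteDimensional F V] [Module A V]
  [IsScalarTower A F V] (D : CD A F) (M : Submodule A V), IsLatA F M →
  ∀ (q : ℕ) (f : Fin (q + 1) →o Submodule F V), (∀ i, f i ≠ ⊥) →
    ∃ L : D.Lat V, ∀ i, f i = ⊤ ∨ f i ∈ D.Dst M L L

/-- the projection to the lattices -/
def CD.zz1 {A F : Type} [CommRing A] [Field F] [Algebra A F] (D : CD A F) {V : Type}
    [AddCommGroup V] [Module F V] [Module A V] (M : Submodule A V) : (D.zz M).S ⟶ D.X V :=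
  ⟨fun n x => x.1.1, fun _ _ => rfl⟩

/-- the projection to the flags -/
def CD.zz2 {A F : Type} [CommRing A] [Field F] [Algebra A F] (D : CD A F) {V : Type}
    [AddCommGroup V] [Module F V] [Module A V] (M : Submodule A V) :
    (D.zz M).S ⟶ (nzS F V).S :=
  ⟨fun n x => ⟨x.1.2, x.2.1⟩, fun _ _ => rfl⟩

/-- **ZX.** Pairs of chains of lattices and chains of destabilizing subspaces.

Proof. `(D.zz M).S` is the diagonal of the bisimplicial set `B_{p,q} = {(σ, f) : σ ∈ X_p, f ∈ nvS_q, f_0 ≠ ⊥,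
f_i = ⊤ or f_i ∈ Dst(σ_0, σ_p)}` (`D.Dst_mono`), and `zzP` is the diagonal of the part `B'` with `f_q ≠ ⊤`. (1) for fixed `p` the map
`B_{p,·} → const X_p` has as fibre over `σ` the nerve of `Dst(σ) ∪ {⊤}`, contractible (homotopy `f_i ≤ ⊤`); `B'_{p,·} →
const (unS_p)` has the fibres the nerves of the nonempty, totally ordered (St_Tot) sets `Dst(σ)`, contractible: for
`W ∈ Dst(σ)` the homotopies `f_i ≤ f_i ⊔ W ≥ W`. `KQ.all_StrFib`, `all_StrRow`/`all_StrCol`. (2) for fixed `q` the fibre of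
`B_{·,q} → const (nzS_q)` over `f` is `(D.XF M f).S`, contractible by St_XCon; the same for `B'` and the `f` with `f_q ≠ ⊤`. -/
def St_ZX : Prop := ∀ (A F V : Type) [CommRing A] [IsDomain A] [Field F] [Algebra A F]
  [IsFractionRing A F] [AddCommGroup V] [Module F V] [FiniteDimensional F V] [Module A V]
  [IsScalarTower A F V] [Nontrivial V] (D : CD A F) (M : Submodule A V), IsLatA F M →
  SSt.Strong (D.zz1 M) ∧ SSt.Strong (D.zz2 M) ∧
  (∃ h, SSt.Strong (SubS.mapS (D.zz1 M) (D.zzP M) (D.unS M) h)) ∧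
  ∃ h, SSt.Strong (SubS.mapS (D.zz2 M) (D.zzP M) (subIn (prS F V) (nzS F V)) h)

/-- **StM.** THE HOMOLOGY OF `GL(M)` WITH COEFFICIENTS IN THE STEINBERG MODULE: slender.

Proof. `G = Gam M × Multiplicative ℤ` acts on `D.X V` (`(D.xG V).res (D.gz M)`), on `nvS` (through the first factor; scalars act
trivially on subspaces, so `(nvG F V).res (D.gz M) = (nvAct M).fst`) and on `(D.zz M).S` (`Dst` is equivariant: for
`g ∈ GL(M)`, `Dst M (g L) (g L') = g Dst M L L'`; for `t ^ z` it does not change: `a ↦ a - z`); `zz1`, `zz2` are equivariant, `unS`, `zzP`,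
`nzS`, `prS` invariant. XFin and St_hOSl: `ZR (hO X) (hOs unS)` slender. ZX and St_hOStr (2) twice (the second with `SAb.Weq` in
the other direction): `ZR (hO zz) (hOs zzP)` and `ZR (hO nzS.S) (hOs (subIn prS nzS))` slender, for the group `G`, and by
St_hOFst for `Gam M`. St_hOEx for `nvAct M`, `A = prS`, `B = nzS` (`subUn prS nzS = badS` up to the order of the disjunction):
`0 → Q₃ → Q₂ → Q₁ → 0`, `Q₃` slender, `Q₁ = ZR (hO nvS) (hOs badS)`, `Q₂ = ZR (hO nvS) (hOs prS)` has trivial homotopy groups: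
`ZR nvS prS` has (St_ZR (2): `nvS` and `prS` are contractible, both have the smallest element `⊥ ≠ ⊤`), St_hOTriv. `St_AbEx` (10), (11). -/
def St_StM : Prop := ∀ (A F V : Type) [CommRing A] [IsDomain A] [Field F] [Algebra A F]
  [IsFractionRing A F] [AddCommGroup V] [Module F V] [FiniteDimensional F V] [Module A V]
  [IsScalarTower A F V] [Nontrivial V] (D : CD A F) (M : Submodule A V), IsLatA F M → StSl F M

/-- **Ord.** Curve data for domains which are finite over `k[t]`.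

Proof. `K = k(t)`, `t` the image of `X`. `e_1 = 1, e_2, .., e_m ∈ A` a basis of `F` over `K` (`Frac (k[t]) ⊆ F`);
`P = ⨁ k[t] e_i ⊆ A ⊆ d⁻¹ P`, `0 ≠ d ∈ k[t]` (`A` is finite over `k[t]`). `R = {f ∈ K | deg f ≤ 0}` (`f = g / h`, `deg g ≤ deg h`),
`Λ = ⨁ R e_i`, `O = {f ∈ F | f Λ ⊆ Λ}`. `O ⊆ Λ` as `e_1 = 1`; `t ^ (-s) Λ ⊆ O` for `s` large (`t ^ (-s) e_i e_j ∈ Λ`). `coc`: `K = k[t] + R`
(division with remainder), so `F = P + Λ ⊆ A + t ^ s O`. `dis`: `x ∈ A ∩ t ^ (-a) Λ`: `d x = ∑ p_i e_i`, `p_i ∈ k[t]`,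
`deg p_i ≤ deg d - a < 0`. `fin`: `O / t⁻¹ O` is a quotient of a subgroup of `Λ / t ^ (-s-1) Λ`, which is finite, as `R / t⁻¹ R = k`.
`abs`: every `f` has coordinates in `t ^ i R`. (Mathlib: `RatFunc`, `FunctionField.inftyValuation`; or work with
`FractionRing k[X]` and degrees directly.) -/
def St_Ord : Prop := ∀ (k A F : Type) [Field k] [Finite k] [CommRing A] [IsDomain A]
  [Algebra (Polynomial k) A] [Module.Finite (Polynomial k) A] [Field F] [Algebra A F]
  [IsFractionRing A F], Function.Injective (algebraMap (Polynomial k) A) → Nonempty (CD A F)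

end Pool.Agent.GQ
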