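import Pool.Agent.GQ.FAlg
import Pool.Agent.GQ.FSch
import Pool.Agent.KQG.KInt

/-!
# GQ, part F: rings and schemes of dimension at most one over prime fields: statements

For every interface `K : KInt` (see `Pool/Agent/KQG/KInt.lean`). Architect helper38.
-/

set_option autoImplicit false

noncomputable section

namespace Pool.Agent.GQ

open CategoryTheory AlgebraicGeometry Pool.Agent.KQ Pool.Agent.KQG Pool.Agent.KTX

universe u

/-- the groups `K_n`, `n ≥ 0`, of the finitely generated `R`-modules are finitely generated -/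
abbrev GK (K : KInt.{u}) (R : Type) [CommRing R] : Prop := ∀ n : ℕ, AddGroup.FG (K.K n (MA R))

/-- **ClK.** The closure properties (localization, devissage, homotopy invariance): `GTH.cls_SFG` for the
G-theory of `K`. -/
def St_ClK : Prop := ∀ K : KInt.{u}, GTH.Cls (fun R _ => GK K R)

/-- the base cases: finite fields and affine curves over finite fields -/
def BaseK (K : KInt.{u}) : Prop := Base (fun R _ => GK K R)

/-- **F1.** Rings of finite type over `F_p` of dimension at most one: Krull dimension. -/
def St_F1 : Prop := ∀ K : KInt.{u}, BaseK K → ∀ (p : ℕ) [Fact p.Prime] (B : Type) [CommRing B]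
  [Algebra (ZMod p) B] [Algebra.FiniteType (ZMod p) B], ringKrullDim B ≤ 1 →
    ∀ n : ℕ, AddGroup.FG (K.K n (MA B))

/-- **F1r.** Rings of finite type over `F_p` of residual dimension at most one. -/
def St_F1r : Prop := ∀ K : KInt.{u}, BaseK K → ∀ (p : ℕ) [Fact p.Prime] (B : Type) [CommRing B]
  [Algebra (ZMod p) B] [Algebra.FiniteType (ZMod p) B], BassH.ResDimLE 1 B →
    ∀ n : ℕ, AddGroup.FG (K.K n (MA B))

/-- **F2.** Schemes of finite type over `F_p` of dimension at most one. -/
def St_F2 : Prop := ∀ K : KInt.{u}, BaseK K → ∀ (p : ℕ) [Fact p.Prime] (X : Scheme.{0})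
  (f : X ⟶ Sp (ZMod p)) [LocallyOfFiniteType f] [QuasiCompact f], topologicalKrullDim X ≤ 1 →
    ∀ n : ℕ, AddGroup.FG (K.K n (Coh X))

end Pool.Agent.GQ
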