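import Pool.Agent.GQ.Defs2

/-!
# GQ, part T: the S-construction of the finitely generated torsion-free modules (architect helper38)

* `TF A`: the finitely generated torsion-free `A`-modules, `XT A` the simplicial set `n ↦ ob S_n (TF A)`;
* `rkT A r`: the diagrams with `rank D(0,n) ≤ r`; `clsT r c`: those with `rank D(0,n) < r` or `c (D(0,n))`;
* `PLS M`: flags `Fl` of subspaces of `V` with chosen quotients `M ∩ Fl j → N (i,j)` with kernel
  `M ∩ Fl i`, for a lattice `M` of `V`.
-/

set_option autoImplicit false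
set_option linter.unusedVariables false

noncomputable section

namespace Pool.Agent.GQ

open CategoryTheory CategoryTheory.Limits Function Pool.Agent.KQ Pool.Agent.FGK

universe u

/-! ### torsion-free modules -/

/-- torsion-free -/
def TFr (A M : Type) [CommRing A] [AddCommGroup M] [Module A M] : Prop :=
  ∀ (a : A) (x : M), a • x = 0 → a = 0 ∨ x = 0

/-- the exact category of the finitely generated torsion-free modules -/
def TF (A : Type) [CommRing A] : ExCat.{0} where
  C := ModuleCat.{0} A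
  cat := inferInstance
  ab := inferInstance
  P := fun M => Module.Finite A M ∧ TFr A M
  iso := fun {M N} e h => by
    have := h.1
    refine ⟨Module.Finite.equiv e.toLinearEquiv, fun a x hx => ?_⟩
    have h1 := h.2 a (e.toLinearEquiv.symm x) (by rw [← map_smul, hx, map_zero])
    refine h1.imp id fun h2 => ?_
    rw [← e.toLinearEquiv.apply_symm_apply x, h2, map_zero]
  zero := fun M h => by
    have : Subsingleton M := ModuleCat.subsingleton_of_isZero h
    exact ⟨Module.Finite.of_finite, fun a x _ => Or.inr (Subsingleton.elim _ _)⟩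
  ext := fun {M N K} f g h h1 h2 => by
    obtain ⟨e1, e2, e3⟩ := (KQG.ses_mod f g).1 h
    have := h1.1
    have := h2.1
    refine ⟨Module.Finite.of_exact e2 e3, fun a y hy => ?_⟩
    rcases h2.2 a (g.hom y) (by rw [← map_smul, hy, map_zero]) with h3 | h3
    · exact Or.inl h3
    · obtain ⟨x, rfl⟩ := (e2 y).1 h3
      refine (h1.2 a x (e1 ?_)).imp id fun h4 => ?_
      · rw [map_smul, hy, map_zero]
      · rw [h4, map_zero]

section

variable {A : Type} [CommRing A]

variable (A) in
/-- the simplicial set of objects of the S-construction of `TF A` -/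
abbrev XT : SSt.{1} := obS.obj (Sd.obj (TF A))

/-- the entries of an S-diagram -/
def entT {n : ℕ} (D : (XT A).obj n) (x : Ar (Fin (n + 1))) : ModuleCat.{0} A := D.obj.obj x

/-- the maps of an S-diagram -/
def entTMap {n : ℕ} (D : (XT A).obj n) {x y : Ar (Fin (n + 1))} (h : x ≤ y) :
    entT D x →ₗ[A] entT D y :=
  ModuleCat.Hom.hom (show entT D x ⟶ entT D y from D.obj.map (homOfLE h))

/-- the last entry `D(0, n)` -/
def topT {n : ℕ} (D : (XT A).obj n) : ModuleCat.{0} A :=
  entT D (ar 0 (Fin.last n) (Fin.zero_le _))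

theorem entT_finite {n : ℕ} (D : (XT A).obj n) (x : Ar (Fin (n + 1))) :
    Module.Finite A (entT D x) := (D.property.1 x).1

theorem entT_tf {n : ℕ} (D : (XT A).obj n) (x : Ar (Fin (n + 1))) : TFr A (entT D x) :=
  (D.property.1 x).2

theorem entT_ses {n : ℕ} (D : (XT A).obj n) (i j l : Fin (n + 1)) (hij : i ≤ j) (hjl : j ≤ l) :
    Injective (entTMap D (show ar i j hij ≤ ar i l (hij.trans hjl) from ⟨le_rfl, hjl⟩)) ∧
    Exact (entTMap D (show ar i j hij ≤ ar i l (hij.trans hjl) from ⟨le_rfl, hjl⟩))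
      (entTMap D (show ar i l (hij.trans hjl) ≤ ar j l hjl from ⟨hij, le_rfl⟩)) ∧
    Surjective (entTMap D (show ar i l (hij.trans hjl) ≤ ar j l hjl from ⟨hij, le_rfl⟩)) :=
  (KQG.ses_mod _ _).1 (D.property.2.2 i j l hij hjl)

theorem entT_zero {n : ℕ} (D : (XT A).obj n) (i : Fin (n + 1)) :
    Subsingleton (entT D (ar i i le_rfl)) :=
  ModuleCat.subsingleton_of_isZero (D.property.2.1 i)

/-! ### ranks -/

variable [IsDomain A]

/-- additivity of the rank -/
theorem finrank_exact {M N K : Type} [AddCommGroup M] [Module A M] [AddCommGroup N] [Module A N]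
    [AddCommGroup K] [Module A K] [Module.Finite A N] (f : M →ₗ[A] N) (g : N →ₗ[A] K)
    (h1 : Injective f) (h2 : Exact f g) (h3 : Surjective g) :
    Module.finrank A N = Module.finrank A M + Module.finrank A K := by
  have e1 := (LinearMap.ker g).finrank_quotient_add_finrank
  have e2 : Module.finrank A (N ⧸ LinearMap.ker g) = Module.finrank A K :=
    (g.quotKerEquivOfSurjective h3).finrank_eq
  have e3 : Module.finrank A (LinearMap.ker g) = Module.finrank A M := by
    have h4 : LinearMap.ker g = LinearMap.range f := by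
      ext x
      exact h2 x
    rw [h4]
    exact (LinearEquiv.ofInjective f h1).finrank_eq.symm
  omega

/-- torsion-free modules of rank `0` are zero -/
theorem TFr.subsingleton {M : Type} [AddCommGroup M] [Module A M] [Module.Finite A M]
    (h : TFr A M) (h0 : Module.finrank A M = 0) : Subsingleton M := by
  refine ⟨fun x y => ?_⟩
  obtain ⟨a, ha, hx⟩ := Module.finrank_eq_zero_iff.1 h0 (x - y)
  rcases h a _ hx with h1 | h1
  · exact absurd h1 ha
  · exact sub_eq_zero.1 h1

/-- `rank D(i,l) = rank D(i,j) + rank D(j,l)` -/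
theorem rank_ses {n : ℕ} (D : (XT A).obj n) (i j l : Fin (n + 1)) (hij : i ≤ j) (hjl : j ≤ l) :
    Module.finrank A (entT D (ar i l (hij.trans hjl))) =
      Module.finrank A (entT D (ar i j hij)) + Module.finrank A (entT D (ar j l hjl)) := by
  have h := entT_ses D i j l hij hjl
  have := entT_finite D (ar i l (hij.trans hjl))
  exact finrank_exact _ _ h.1 h.2.1 h.2.2

omit [IsDomain A] in
theorem topT_map {m n : ℕ} (θ : Mo m n) (D : (XT A).obj n) :
    topT ((XT A).map θ D) = entT D (ar (θ 0) (θ (Fin.last m)) (θ.monotone (Fin.zero_le _))) := rfl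

theorem rank_map_le {m n : ℕ} (θ : Mo m n) (D : (XT A).obj n) :
    Module.finrank A (topT ((XT A).map θ D)) ≤ Module.finrank A (topT D) := by
  have h1 := rank_ses D 0 (θ (Fin.last m)) (Fin.last n) (Fin.zero_le _) (Fin.le_last _)
  have h2 := rank_ses D 0 (θ 0) (θ (Fin.last m)) (Fin.zero_le _) (θ.monotone (Fin.zero_le _))
  rw [topT_map]
  change _ ≤ Module.finrank A (entT D (ar 0 (Fin.last n) (Fin.zero_le _)))
  omega

/-- a face of the same rank has the same last entry -/
theorem topT_iso {m n : ℕ} (θ : Mo m n) (D : (XT A).obj n)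
    (h : Module.finrank A (topT D) ≤ Module.finrank A (topT ((XT A).map θ D))) :
    Nonempty (topT D ≃ₗ[A] topT ((XT A).map θ D)) := by
  have h1 := rank_ses D 0 (θ (Fin.last m)) (Fin.last n) (Fin.zero_le _) (Fin.le_last _)
  have h2 := rank_ses D 0 (θ 0) (θ (Fin.last m)) (Fin.zero_le _) (θ.monotone (Fin.zero_le _))
  rw [topT_map] at h ⊢
  change Module.finrank A (entT D (ar 0 (Fin.last n) (Fin.zero_le _))) ≤ _ at h
  have f1 := entT_finite D (ar (θ (Fin.last m)) (Fin.last n) (Fin.le_last _))
  have f2 := entT_finite D (ar 0 (θ 0) (Fin.zero_le _))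
  have s1 := (entT_tf D (ar (θ (Fin.last m)) (Fin.last n) (Fin.le_last _))).subsingleton
    (by omega)
  have s2 := (entT_tf D (ar 0 (θ 0) (Fin.zero_le _))).subsingleton (by omega)
  have e1 := entT_ses D 0 (θ (Fin.last m)) (Fin.last n) (Fin.zero_le _) (Fin.le_last _)
  have e2 := entT_ses D 0 (θ 0) (θ (Fin.last m)) (Fin.zero_le _) (θ.monotone (Fin.zero_le _))
  have b1 : Bijective (entTMap D (show ar 0 (θ (Fin.last m)) (Fin.zero_le _) ≤
      ar 0 (Fin.last n) (Fin.zero_le _) from ⟨le_rfl, Fin.le_last _⟩)) :=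
    ⟨e1.1, fun y => (e1.2.1 y).1 (Subsingleton.elim _ _)⟩
  have b2 : Bijective (entTMap D (show ar 0 (θ (Fin.last m)) (Fin.zero_le _) ≤
      ar (θ 0) (θ (Fin.last m)) (θ.monotone (Fin.zero_le _)) from ⟨Fin.zero_le _, le_rfl⟩)) := by
    refine ⟨?_, e2.2.2⟩
    rw [injective_iff_map_eq_zero]
    intro x hx
    obtain ⟨y, rfl⟩ := (e2.2.1 x).1 hx
    rw [Subsingleton.elim y 0, map_zero]
  exact ⟨(LinearEquiv.ofBijective _ b1).symm.trans (LinearEquiv.ofBijective _ b2)⟩

variable (A) in
/-- the S-diagrams with `rank D(0, n) ≤ r` -/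
def rkT (r : ℕ) : SubS (XT A) where
  s n := {D | Module.finrank A (topT D) ≤ r}
  map_mem θ D h := (rank_map_le θ D).trans h

/-- invariance under isomorphisms -/
def IsoInv (c : ModuleCat.{0} A → Prop) : Prop :=
  ∀ M N : ModuleCat.{0} A, Nonempty (M ≃ₗ[A] N) → c M → c N

/-- the S-diagrams `D` with `rank D(0, n) ≤ r`, and `< r` or `c (D(0, n))` -/
def clsT (r : ℕ) (c : ModuleCat.{0} A → Prop) (hc : IsoInv c) : SubS (rkT A r).S where
  s n := {D | Module.finrank A (topT D.1) < r ∨ c (topT D.1)}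
  map_mem {m n} θ D h := by
    change Module.finrank A (topT ((XT A).map θ D.1)) < r ∨ c (topT ((XT A).map θ D.1))
    by_cases h1 : Module.finrank A (topT ((XT A).map θ D.1)) < r
    · exact Or.inl h1
    · have h2 := rank_map_le θ D.1
      have h3 : Module.finrank A (topT D.1) ≤ r := D.2
      refine Or.inr (hc _ _ (topT_iso θ D.1 (by omega)) ?_)
      exact h.resolve_left (by omega)

/-- not isomorphic to `M` -/
def notIso (M : ModuleCat.{0} A) (N : ModuleCat.{0} A) : Prop := ¬ Nonempty (N ≃ₗ[A] M)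

omit [IsDomain A] in
theorem notIso_inv (M : ModuleCat.{0} A) : IsoInv (notIso M) :=
  fun N N' h h1 ⟨h2⟩ => h1 (h.map fun e => e.trans h2)

/-- isomorphic to a module in `S` -/
def isoIn (S : Set (ModuleCat.{0} A)) (N : ModuleCat.{0} A) : Prop :=
  ∃ M ∈ S, Nonempty (N ≃ₗ[A] M)

omit [IsDomain A] in
theorem isoIn_inv (S : Set (ModuleCat.{0} A)) : IsoInv (isoIn S) :=
  fun N N' h ⟨M, hM, ⟨h2⟩⟩ => ⟨M, hM, h.map fun e => e.symm.trans h2⟩

end

/-! ### flags with chosen quotients -/

section

variable {A F V : Type} [CommRing A] [Field F] [Algebra A F] [AddCommGroup V] [Module F V]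
  [Module A V] [IsScalarTower A F V]

/-- `M ∩ W` -/
def cut (M : Submodule A V) (W : Submodule F V) : Submodule A V := M ⊓ W.restrictScalars A

theorem cut_mono (M : Submodule A V) {W W' : Submodule F V} (h : W ≤ W') : cut M W ≤ cut M W' :=
  inf_le_inf_left _ h

/-- flags `Fl` of subspaces and quotients `M ∩ Fl j → N (i, j)` with kernel `M ∩ Fl i`, `i ≤ j` -/
structure PL (F : Type) {A V : Type} [CommRing A] [Field F] [Algebra A F] [AddCommGroup V]
    [Module F V] [Module A V] [IsScalarTower A F V] (M : Submodule A V) (n : ℕ) : Type 1 where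
  /-- the flag -/
  Fl : Fin (n + 1) →o Submodule F V
  /-- the entries -/
  N : Ar (Fin (n + 1)) → ModuleCat.{0} A
  /-- the quotient maps -/
  p : ∀ x : Ar (Fin (n + 1)), cut M (Fl x.1.2) →ₗ[A] N x
  surj : ∀ x, Surjective (p x)
  ker : ∀ x, LinearMap.ker (p x) = (cut M (Fl x.1.1)).submoduleOf (cut M (Fl x.1.2))

variable (F) in
/-- the simplicial set of flags with chosen quotients -/
def PLS (M : Submodule A V) : SSt.{1} where
  obj n := PL F M n
  map θ P := ⟨P.Fl.comp θ, fun x => P.N (Ar.map θ x), fun x => P.p (Ar.map θ x),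
    fun x => P.surj _, fun x => P.ker _⟩
  map_id _ _ := rfl
  map_comp _ _ _ := rfl

variable (F) in
/-- the flags with `Fl 0 ≠ 0` or `Fl n ≠ V` -/
def badL (M : Submodule A V) : SubS (PLS F M) where
  s n := {P | P.Fl 0 ≠ ⊥ ∨ P.Fl (Fin.last n) ≠ ⊤}
  map_mem {m n} θ P h := by
    rcases h with h | h
    · left
      intro h1
      exact h (le_bot_iff.1 (h1 ▸ P.Fl.monotone (Fin.zero_le (θ 0))))
    · right
      intro h1
      exact h (top_le_iff.1 (h1 ▸ P.Fl.monotone (Fin.le_last (θ (Fin.last m)))))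

variable (F) in
/-- forget the quotients -/
def plG (M : Submodule A V) : PLS F M ⟶ nvS.{1} (Submodule F V) :=
  ⟨fun _ P => ⟨P.Fl⟩, fun _ _ => rfl⟩

end

/-! ### the hypotheses -/

/-- finitely many lattices in every rank, up to isomorphism -/
def FinLat (A F : Type) [CommRing A] [Field F] [Algebra A F] : Prop :=
  ∀ r : ℕ, 1 ≤ r → ∃ S : Set (Submodule A (Fin r → F)), S.Finite ∧ (∀ M ∈ S, IsLatA F M) ∧
    ∀ N : ModuleCat.{0} A, Module.Finite A N → TFr A N → Module.finrank A N = r →
      ∃ M ∈ S, Nonempty (N ≃ₗ[A] M)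

/-- slenderness for all lattices -/
def SlLat (A F : Type) [CommRing A] [Field F] [Algebra A F] : Prop :=
  ∀ r : ℕ, 1 ≤ r → ∀ M : Submodule A (Fin r → F), IsLatA F M → StSl F M

end Pool.Agent.GQ
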