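import Pool.Agent.GQ.StA
import Pool.Agent.FGK.Orb

/-!
# GQ, hOSl: finitely many orbits with finite stabilizers in every degree
-/

set_option autoImplicit false
set_option linter.unusedVariables false
set_option linter.unusedSectionVars false

noncomputable section

namespace Pool.Agent.GQ

open CategoryTheory Function Pool.Agent.KQ Pool.Agent.FGK

universe u

section defs

variable {G : Type} [Group G] {Y : SSt.{u}} (a : GAct G Y)

theorem hosl_mul (g h : G) (n : ℕ) (y : Y.obj n) :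
    (a.act (g * h)).app n y = (a.act g).app n ((a.act h).app n y) := by
  rw [a.mul]
  rfl

theorem hosl_one (n : ℕ) (y : Y.obj n) : (a.act 1).app n y = y := by
  rw [a.one]
  rfl

theorem hosl_inv (g : G) (n : ℕ) (y : Y.obj n) :
    (a.act g⁻¹).app n ((a.act g).app n y) = y := by
  rw [← hosl_mul, inv_mul_cancel, hosl_one]

/-- the column of degree `n`: the nerve of the action groupoid of `Y_n` -/
def hosl_C (n : ℕ) : SSt.{u} where
  obj l := {x : (Fin (l + 1) → Fin (l + 1) → G) × (Fin (l + 1) → Y.obj n) //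
    (∀ i j k, x.1 i j * x.1 j k = x.1 i k) ∧ ∀ i j, x.2 i = (a.act (x.1 i j)).app n (x.2 j)}
  map θ x := ⟨(fun i j => x.1.1 (θ i) (θ j), fun i => x.1.2 (θ i)),
    fun i j l => x.2.1 _ _ _, fun i j => x.2.2 _ _⟩
  map_id n x := rfl
  map_comp f g x := rfl

/-- the elements with all vertices in `S` -/
def hosl_V (n : ℕ) (S : Set (Y.obj n)) : SubS (hosl_C a n) :=
  ⟨fun l => {x | ∀ i, x.1.2 i ∈ S}, fun θ x hx i => hx (θ i)⟩

/-- the map of columns of an operator -/
def hosl_ct {m n : ℕ} (θ : Mo m n) : hosl_C a n ⟶ hosl_C a m :=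
  ⟨fun l x => ⟨(x.1.1, fun i => Y.map θ (x.1.2 i)), x.2.1, fun i j => by
    change Y.map θ _ = (a.act _).app _ (Y.map θ _)
    rw [x.2.2 i j, (a.act _).nat]⟩, fun _ _ => rfl⟩

/-- the transposed bisimplicial abelian group -/
def hosl_R (A : SubS Y) : SOb SAb.{u} where
  obj n := ZR (hosl_C a n) (hosl_V a n (A.s n))
  map {l m} θ := zr_M (hosl_V a m (A.s m)) (hosl_V a l (A.s l)) (hosl_ct a θ)
    fun n y hy i => A.map_mem θ _ (hy i)
  map_id l := SAb.hom_ext fun n x => zr_q_id ((hosl_ct a OrderHom.id).app n)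
    ((hosl_V a l (A.s l)).s n) (fun y hy i => A.map_mem _ _ (hy i))
    (fun y => Subtype.ext (Prod.ext rfl (funext fun i => Y.map_id _ _))) x
  map_comp {l m n} θ η := SAb.hom_ext fun p x =>
    (zr_q_comp ((hosl_ct a η).app p) ((hosl_ct a θ).app p)
      ((hosl_V a n (A.s n)).s p) ((hosl_V a m (A.s m)).s p) ((hosl_V a l (A.s l)).s p)
      (fun y hy i => A.map_mem _ _ (hy i)) (fun y hy i => A.map_mem _ _ (hy i))
      ((hosl_ct a (η.comp θ)).app p) (fun y hy i => A.map_mem _ _ (hy i))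
      (fun y => Subtype.ext (Prod.ext rfl (funext fun i => Y.map_comp θ η _))) x).symm

/-- the diagonal -/
def hosl_ex (A : SubS Y) : SAb.diag (hosl_R a A) ⟶ ZR (hO a) (hOs a A) :=
  ⟨fun n => AddMonoidHom.id _, fun {m n} θ x => by
    have hk : ∀ y ∈ ((hOs a A).s n), (hO a).map θ y ∈ (hOs a A).s m :=
      fun y hy i => A.map_mem θ _ (hy _)
    have e2 : (SAb.diag (hosl_R a A)).map θ x = zr_q ((hO a).map θ) ((hOs a A).s n)
        ((hOs a A).s m) hk x := by
      change ((hosl_R a A).obj m).map θ (((hosl_R a A).map θ).app n x) = _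
      refine (zr_th (hosl_V a m (A.s m)) θ _).trans ?_
      exact zr_q_comp ((hosl_ct a θ).app n) ((hosl_C a m).map θ)
        ((hosl_V a n (A.s n)).s n) ((hosl_V a m (A.s m)).s n) ((hosl_V a m (A.s m)).s m)
        (fun y hy i => A.map_mem _ _ (hy i)) (fun y hy i => hy (θ i)) _ hk (fun _ => rfl) x
    exact e2.trans (zr_th (hOs a A) θ x).symm⟩

/-- change of the vertices by elements of the group -/
def hosl_tw (n l : ℕ) (k : Fin (l + 1) → G) (x : (hosl_C a n).obj l) : (hosl_C a n).obj l :=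
  ⟨(fun i j => k i * x.1.1 i j * (k j)⁻¹, fun i => (a.act (k i)).app n (x.1.2 i)), by
    intro i j l
    change k i * x.1.1 i j * (k j)⁻¹ * (k j * x.1.1 j l * (k l)⁻¹) = k i * x.1.1 i l * (k l)⁻¹
    rw [← x.2.1 i j l]
    group, by
    intro i j
    change (a.act (k i)).app n (x.1.2 i) =
      (a.act (k i * x.1.1 i j * (k j)⁻¹)).app n ((a.act (k j)).app n (x.1.2 j))
    rw [hosl_mul, hosl_mul, hosl_inv, ← x.2.2 i j]⟩

theorem hosl_tw_one (n l : ℕ) (k : Fin (l + 1) → G) (hk : ∀ i, k i = 1)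
    (x : (hosl_C a n).obj l) : hosl_tw a n l k x = x := by
  refine Subtype.ext (Prod.ext (funext fun i => funext fun j => ?_) (funext fun i => ?_))
  · change k i * x.1.1 i j * (k j)⁻¹ = x.1.1 i j
    rw [hk, hk, one_mul, inv_one, mul_one]
  · change (a.act (k i)).app n (x.1.2 i) = x.1.2 i
    rw [hk, hosl_one]

/-- the map given by a choice of group elements -/
def hosl_r (n : ℕ) (S S' : Set (Y.obj n)) (g : Y.obj n → G)
    (h : ∀ y ∈ S, (a.act (g y)).app n y ∈ S') : (hosl_V a n S).S ⟶ (hosl_V a n S').S :=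
  ⟨fun l x => ⟨hosl_tw a n l (fun i => g (x.1.1.2 i)) x.1, fun i => h _ (x.2 i)⟩, fun _ _ => rfl⟩

/-- it is homotopic to the identity -/
def hosl_H (n : ℕ) (S : Set (Y.obj n)) (g : Y.obj n → G)
    (h : ∀ y ∈ S, (a.act (g y)).app n y ∈ S) : SSt.Htpy (hosl_r a n S S g h) (𝟙 _) where
  h l α x := ⟨hosl_tw a n l (fun i => if α i then 1 else g (x.1.1.2 i)) x.1, fun i => by
    change (a.act (if α i then 1 else g (x.1.1.2 i))).app n (x.1.1.2 i) ∈ S
    split_ifs
    · rw [hosl_one]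
      exact x.2 i
    · exact h _ (x.2 i)⟩
  nat θ α x := rfl
  h0 l α x hα := by
    refine Subtype.ext ?_
    change hosl_tw a n l (fun i => if α i then 1 else g (x.1.1.2 i)) x.1 =
      hosl_tw a n l (fun i => g (x.1.1.2 i)) x.1
    congr 1
    funext i
    rw [hα i]
    rfl
  h1 l α x hα := Subtype.ext (hosl_tw_one a n l _ (fun i => by rw [hα i]; rfl) x.1)

/-- the inclusion -/
def hosl_i (n : ℕ) (S S' : Set (Y.obj n)) (h : S ⊆ S') :
    (hosl_V a n S).S ⟶ (hosl_V a n S').S :=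
  ⟨fun l x => ⟨x.1, fun i => h (x.2 i)⟩, fun _ _ => rfl⟩

theorem hosl_strong (hS : KQ.St_StrHt.{u}) (n : ℕ) (S S' : Set (Y.obj n)) (h : S ⊆ S')
    (hg : ∀ y ∈ S', ∃ g, (a.act g).app n y ∈ S) : SSt.Strong (hosl_i a n S S' h) := by
  have hg' : ∀ y : Y.obj n, ∃ g, y ∈ S' → (a.act g).app n y ∈ S := by
    intro y
    by_cases hy : y ∈ S'
    · obtain ⟨g, hg⟩ := hg y hy
      exact ⟨g, fun _ => hg⟩
    · exact ⟨1, fun h => (hy h).elim⟩
  choose g hg using hg'
  exact hS.2.1 (hosl_i a n S S' h) (hosl_r a n S' S g hg)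
    (hS.1 _ _ ⟨hosl_H a n S g fun y hy => hg y (h hy)⟩)
    (hS.1 _ _ ⟨hosl_H a n S' g fun y hy => h (hg y hy)⟩)

theorem hosl_fin (n : ℕ) (S : Set (Y.obj n)) (hS : S.Finite)
    (hst : ∀ y ∈ S, {g : G | (a.act g).app n y = y}.Finite) (l : ℕ) :
    Finite ((hosl_V a n S).S.obj l) := by
  have hF : {g : G | ∃ y ∈ S, (a.act g).app n y ∈ S}.Finite := by
    have e : {g : G | ∃ y ∈ S, (a.act g).app n y ∈ S} =
        ⋃ y ∈ S, ⋃ y' ∈ S, {g : G | (a.act g).app n y = y'} := by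
      ext g
      simp only [Set.mem_ofPred_eq, Set.mem_iUnion, exists_prop]
      constructor
      · rintro ⟨y, hy, hy'⟩
        exact ⟨y, hy, _, hy', rfl⟩
      · rintro ⟨y, hy, y', hy', e⟩
        exact ⟨y, hy, by rw [e]; exact hy'⟩
    rw [e]
    refine hS.biUnion fun y hy => hS.biUnion fun y' hy' => ?_
    by_cases h : ∃ g₀, (a.act g₀).app n y = y'
    · obtain ⟨g₀, h₀⟩ := h
      refine Set.Finite.subset ((hst y hy).image fun g => g₀ * g) ?_
      intro g hg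
      have hg1 : (a.act g).app n y = y' := hg
      refine ⟨g₀⁻¹ * g, ?_, mul_inv_cancel_left g₀ g⟩
      change (a.act (g₀⁻¹ * g)).app n y = y
      rw [hosl_mul, hg1, ← h₀, hosl_inv]
    · refine Set.Finite.subset Set.finite_empty ?_
      intro g hg
      exact h ⟨g, hg⟩
  have h1 : Finite S := hS.to_subtype
  have h2 : Finite {g : G | ∃ y ∈ S, (a.act g).app n y ∈ S} := hF.to_subtype
  have hx : ∀ (x : (hosl_V a n S).S.obj l) (i j : Fin (l + 1)),
      x.1.1.1 i j ∈ {g : G | ∃ y ∈ S, (a.act g).app n y ∈ S} := fun x i j =>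
    ⟨x.1.1.2 j, x.2 j, by rw [← x.1.2.2 i j]; exact x.2 i⟩
  refine Finite.of_injective (β := (Fin (l + 1) → Fin (l + 1) →
    {g : G | ∃ y ∈ S, (a.act g).app n y ∈ S}) × (Fin (l + 1) → S))
    (fun x => (fun i j => ⟨x.1.1.1 i j, hx x i j⟩, fun i => ⟨x.1.1.2 i, x.2 i⟩)) ?_
  intro x x' e
  have e1 := congrArg Prod.fst e
  have e2 := congrArg Prod.snd e
  refine Subtype.ext (Subtype.ext (Prod.ext (funext fun i => funext fun j => ?_)
    (funext fun i => ?_)))
  · exact congrArg Subtype.val (congrFun (congrFun e1 i) j)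
  · exact congrArg Subtype.val (congrFun e2 i)

end defs

theorem hosl_sl (hSl : St_Sl.{u}) {X Y : SAb.{u}} (f : X ⟶ Y) (h : SAb.Weq f) (j : ℕ)
    (hX : X.SlAt j) : Y.SlAt j :=
  hSl.2.1 (SGp.PiMap (SAb.gp.map f) j) (h j).2 hX

/-- homotopy orbits: finitely many orbits with finite stabilizers -/
theorem thm_hOSl (hSl : St_Sl.{u}) (hR : St_AbReal.{u}) (hF : St_fsStrong.{u})
    (hN : St_SlFin.{u}) (hS : KQ.St_StrHt.{u}) : St_hOSl.{u} := by
  intro G _ Y a A hA hT hst j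
  refine hosl_sl hSl (hosl_ex a A) (zr_bij (SAb.gp.map (hosl_ex a A)) fun n => bijective_id) j ?_
  refine hR.2.2.2.2.2.1 (hosl_R a A) j (fun n q hq => ?_) j le_rfl
  obtain ⟨T, hT, hT'⟩ := hT n
  have hc : ∀ (g : G) (y : Y.obj n), y ∉ A.s n → (a.act g).app n y ∉ A.s n := by
    intro g y hy h
    have h1 := hA g⁻¹ n _ h
    rw [hosl_inv] at h1
    exact hy h1
  have hN1 : SAb.Weq (ZSmap (hosl_i a n (T ∩ (A.s n)ᶜ) (A.s n)ᶜ Set.inter_subset_right)) :=
    hF _ _ (hosl_strong a hS n _ _ _ fun y hy => by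
      obtain ⟨g, hg⟩ := hT' y hy
      exact ⟨g, hg, hc g y hy⟩)
  have h0 : (ZS (hosl_V a n (T ∩ (A.s n)ᶜ)).S).SlAt q :=
    hN.2.1 _ (hosl_fin a n _ (hT.subset Set.inter_subset_left) fun y hy => hst n y hy.2) q
  have h1 : (ZS (hosl_V a n (A.s n)ᶜ).S).SlAt q := hosl_sl hSl _ hN1 q h0
  refine hosl_sl hSl (orb_a (hosl_V a n (A.s n)) (hosl_V a n (A.s n)ᶜ))
    (zr_bij (SAb.gp.map (orb_a (hosl_V a n (A.s n)) (hosl_V a n (A.s n)ᶜ)))
      (orb_a_bij _ _ fun l x => ?_)) q h1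
  constructor
  · intro hx hx'
    exact hx 0 (hx' 0)
  · intro hx i hi
    refine hx fun k => ?_
    have h2 := hA (x.1.1 k i) n _ hi
    rw [← x.2.2 k i] at h2
    exact h2

end Pool.Agent.GQ
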